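import Pool.Agent.Lib.H56P.Defs

set_option autoImplicit false

namespace Pool.H56P

open MeasureTheory ProbabilityTheory Finset

theorem a01_memLp (p : NNReal) : MemLp (fun ξ : ℝ => ξ) p (gaussianReal 0 1) :=
  memLp_id_gaussianReal p

/-- Gaussian moments: `∫ ξ = 0`, `∫ ξ^2 = 1` and `|ξ|^3` is integrable.
Proof: `integral_id_gaussianReal`, `variance_id_gaussianReal` (or `Pool` lemmas), and
`memLp_id_gaussianReal 3`, `MemLp.integrable_norm_pow`. -/
theorem a01_gauss : (∫ ξ : ℝ, ξ ∂(gaussianReal 0 1) = 0) ∧ (∫ ξ : ℝ, ξ ^ 2 ∂(gaussianReal 0 1) = 1) ∧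
    Integrable (fun ξ : ℝ => ξ) (gaussianReal 0 1) ∧
    Integrable (fun ξ : ℝ => ξ ^ 2) (gaussianReal 0 1) ∧
    Integrable (fun ξ : ℝ => |ξ| ^ 3) (gaussianReal 0 1) := by
  have h2 : MemLp (fun ξ : ℝ => ξ) 2 (gaussianReal 0 1) := a01_memLp 2
  have h3 : MemLp (fun ξ : ℝ => ξ) 3 (gaussianReal 0 1) := a01_memLp 3
  have h1 : MemLp (fun ξ : ℝ => ξ) 1 (gaussianReal 0 1) := a01_memLp 1
  have e1 : ∫ ξ : ℝ, ξ ∂(gaussianReal 0 1) = 0 := integral_id_gaussianReal
  refine ⟨e1, ?_, memLp_one_iff_integrable.1 h1, h2.integrable_sq, ?_⟩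
  · have hv : variance (fun ξ : ℝ => ξ) (gaussianReal 0 1) = 1 := by
      have := variance_fun_id_gaussianReal (μ := 0) (v := 1)
      simpa using this
    rw [variance_eq_sub h2, e1] at hv
    simpa using hv
  · have := h3.integrable_norm_pow (p := 3) (by norm_num)
    simpa using this

/-- **A01 (S/M).** The function `ξ ↦ H (sX h x w ξ) (sW h w ξ)` is integrable.
Proof: it is continuous (`hN.cont` composed with continuous functions of `ξ`), hence strongly
measurable, and by `hN.bH` bounded by `C (1 + sX^2 + sW^2) ≤ c1 + c2 ξ^2` for suitable constants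
(`sX`, `sW` are affine in `ξ`); `ξ^2` is integrable for the Gaussian (`memLp_id_gaussianReal`,
`MemLp.integrable_sq`). Use `Integrable.mono'`. -/
theorem a01_step_integrable {H Hx Hw Hww : ℝ → ℝ → ℝ} {C : ℝ} (hN : Nice H Hx Hw Hww C)
    (h x w : ℝ) :
    Integrable (fun ξ : ℝ => H (sX h x w ξ) (sW h w ξ)) (gaussianReal 0 1) := by
  obtain ⟨-, -, g1, g2, -⟩ := a01_gauss
  have hcW : Continuous (fun ξ : ℝ => sW h w ξ) := by unfold sW; fun_prop
  have hcX : Continuous (fun ξ : ℝ => sX h x w ξ) := by unfold sX sW; fun_prop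
  have hc : Continuous (fun ξ : ℝ => H (sX h x w ξ) (sW h w ξ)) := hN.cont.comp (hcX.prodMk hcW)
  have hb : Integrable (fun ξ : ℝ => C * (1 + (sX h x w ξ) ^ 2 + (sW h w ξ) ^ 2))
      (gaussianReal 0 1) := by
    have e : (fun ξ : ℝ => C * (1 + (sX h x w ξ) ^ 2 + (sW h w ξ) ^ 2)) = fun ξ =>
        C * (1 + (Real.sqrt (1 - h) * x + h * Real.sqrt (1 - h) * w) ^ 2 + (Real.sqrt (1 - h) * w) ^ 2) +
        (C * (2 * (Real.sqrt (1 - h) * x + h * Real.sqrt (1 - h) * w) * (h * Real.sqrt h) +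
          2 * (Real.sqrt (1 - h) * w) * Real.sqrt h)) * ξ +
        (C * ((h * Real.sqrt h) ^ 2 + (Real.sqrt h) ^ 2)) * ξ ^ 2 := by
      funext ξ
      unfold sX sW
      ring
    rw [e]
    exact ((integrable_const _).add (g1.const_mul _)).add (g2.const_mul _)
  refine hb.mono' hc.aestronglyMeasurable (Filter.Eventually.of_forall fun ξ => ?_)
  rw [Real.norm_eq_abs]
  exact hN.bH _ _

end Pool.H56P
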