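import Pool.Agent.Lib.H56P.Defs

set_option autoImplicit false

namespace Pool.H56P

open MeasureTheory ProbabilityTheory Finset

theorem a02_aux {X W Z : ℝ} (hX : 0 ≤ X) (hW : 0 ≤ W) (hZ : 0 ≤ Z) :
    (X + W + Z) ^ 2 + (X + W + Z) * (W + Z) + W ^ 2 + W * Z + Z ^ 3
      ≤ 8 * ((1 + X ^ 2 + W ^ 2) * (1 + Z ^ 3)) := by
  have h2 : Z ^ 2 ≤ 1 + Z ^ 3 := by
    by_cases h : Z ≤ 1
    · have : Z ^ 2 ≤ 1 := pow_le_one₀ hZ h
      have : 0 ≤ Z ^ 3 := by positivity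
      linarith
    · push Not at h
      nlinarith [sq_nonneg Z]
  have e1 : (X + W + Z) ^ 2 ≤ 3 * (X ^ 2 + W ^ 2 + Z ^ 2) := by
    nlinarith [sq_nonneg (X - W), sq_nonneg (X - Z), sq_nonneg (W - Z)]
  have e2 : (X + W + Z) * (W + Z) ≤ (X + W + Z) ^ 2 := by
    have : 0 ≤ X + W + Z := by positivity
    nlinarith
  have e3 : W * Z ≤ (W ^ 2 + Z ^ 2) / 2 := by nlinarith [sq_nonneg (W - Z)]
  have e4 : 0 ≤ (X ^ 2 + W ^ 2) * Z ^ 3 := by positivity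
  have e5 : 0 ≤ Z ^ 3 := by positivity
  nlinarith [sq_nonneg X, sq_nonneg W, sq_nonneg Z]

/-- **A02 (M).** Pointwise Taylor estimate for one step.
Proof: put `ρ = √(1-h)`, `a = (ρ-1) w`, `b = √h ξ`, `e = sX h x w ξ - x`; then
`sW h w ξ = w + (a + b)`, `b^2 = h ξ^2` and `hN.taylor` bounds the left side by
`C (e^2 + |e| (|a| + |b|) + a^2 + |a| |b| + |b|^3)`. Elementary bounds for `0 < h ≤ 1`:
`0 ≤ 1 - ρ ≤ h`, `|a| ≤ h |w|`, `|b| = √h |ξ|`, `|e| ≤ h (|x| + |w| + |ξ|)` (because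
`e = (ρ-1) x + h (ρ w + √h ξ)`), `h^2 ≤ h √h`, so each of the five terms is at most
`3 (h √h) (|x| + |w| + |ξ|)^2 ...`, hence at most `const (h √h) (1 + x^2 + w^2) (1 + |ξ|^3)`
(use `ξ^2 ≤ 1 + |ξ|^3`, `|ξ| ≤ 1 + |ξ|^3`, `|x| |ξ| ≤ (1 + x^2) (1 + |ξ|^3)` and so on). -/
theorem a02_step_pointwise {H Hx Hw Hww : ℝ → ℝ → ℝ} {C : ℝ} (hN : Nice H Hx Hw Hww C) :
    ∃ K : ℝ, 0 < K ∧ ∀ h : ℝ, 0 < h → h ≤ 1 → ∀ x w ξ : ℝ,
      |H (sX h x w ξ) (sW h w ξ) - H x w - (sX h x w ξ - x) * Hx x w - (sW h w ξ - w) * Hw x w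
        - h * ξ ^ 2 / 2 * Hww x w| ≤ K * (h * Real.sqrt h) * (1 + x ^ 2 + w ^ 2) * (1 + |ξ| ^ 3) := by
  refine ⟨C * 8, by have := hN.pos; positivity, ?_⟩
  intro h h0 h1 x w ξ
  obtain ⟨η, hη⟩ : ∃ η, η = Real.sqrt h := ⟨_, rfl⟩
  obtain ⟨ρ, hρ⟩ : ∃ ρ, ρ = Real.sqrt (1 - h) := ⟨_, rfl⟩
  have hη0 : 0 ≤ η := by rw [hη]; exact Real.sqrt_nonneg _
  have hη2 : η ^ 2 = h := by rw [hη]; exact Real.sq_sqrt h0.le
  have hη1 : η ≤ 1 := by
    nlinarith [sq_nonneg (η - 1)]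
  have hρ0 : 0 ≤ ρ := by rw [hρ]; exact Real.sqrt_nonneg _
  have hρ2 : ρ ^ 2 = 1 - h := by rw [hρ]; exact Real.sq_sqrt (by linarith)
  have hρ1 : ρ ≤ 1 := by nlinarith
  have hρh : 1 - ρ ≤ h := by nlinarith
  have hw : sW h w ξ = w + ((ρ - 1) * w + η * ξ) := by
    unfold sW
    rw [← hη, ← hρ]
    ring
  have hx : sX h x w ξ = x + ((ρ - 1) * x + h * (ρ * w + η * ξ)) := by
    unfold sX sW
    rw [← hη, ← hρ]
    ring
  have hT := hN.taylor x w ((ρ - 1) * x + h * (ρ * w + η * ξ)) ((ρ - 1) * w) (η * ξ)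
  rw [← hη]
  have hba : |(ρ - 1) * w| ≤ η ^ 2 * |w| := by
    rw [abs_mul]
    apply mul_le_mul_of_nonneg_right _ (abs_nonneg _)
    rw [abs_le]
    constructor <;> nlinarith
  have hbb : |η * ξ| = η * |ξ| := by
    rw [abs_mul, abs_of_nonneg hη0]
  have hbe : |(ρ - 1) * x + h * (ρ * w + η * ξ)| ≤ η ^ 2 * (|x| + |w| + |ξ|) := by
    have t1 : |(ρ - 1) * x| ≤ η ^ 2 * |x| := by
      rw [abs_mul]
      apply mul_le_mul_of_nonneg_right _ (abs_nonneg _)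
      rw [abs_le]
      constructor <;> nlinarith
    have t2 : |ρ * w + η * ξ| ≤ |w| + |ξ| := by
      refine (abs_add_le _ _).trans ?_
      apply add_le_add
      · rw [abs_mul, abs_of_nonneg hρ0]
        exact mul_le_of_le_one_left (abs_nonneg _) hρ1
      · rw [abs_mul, abs_of_nonneg hη0]
        exact mul_le_of_le_one_left (abs_nonneg _) hη1
    have t3 : |h * (ρ * w + η * ξ)| ≤ η ^ 2 * (|w| + |ξ|) := by
      rw [abs_mul, abs_of_pos h0, hη2]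
      exact mul_le_mul_of_nonneg_left t2 h0.le
    have := abs_add_le ((ρ - 1) * x) (h * (ρ * w + η * ξ))
    nlinarith
  have hkey : ((ρ - 1) * x + h * (ρ * w + η * ξ)) ^ 2
      + |(ρ - 1) * x + h * (ρ * w + η * ξ)| * (|(ρ - 1) * w| + |η * ξ|) + ((ρ - 1) * w) ^ 2
      + |(ρ - 1) * w| * |η * ξ| + |η * ξ| ^ 3
      ≤ η ^ 3 * (8 * ((1 + x ^ 2 + w ^ 2) * (1 + |ξ| ^ 3))) := by
    have haux := a02_aux (abs_nonneg x) (abs_nonneg w) (abs_nonneg ξ)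
    rw [sq_abs x, sq_abs w] at haux
    have hmul := mul_le_mul_of_nonneg_left haux (show 0 ≤ η ^ 3 by positivity)
    refine le_trans ?_ hmul
    rw [← sq_abs ((ρ - 1) * x + h * (ρ * w + η * ξ)), ← sq_abs ((ρ - 1) * w), hbb]
    have hE0 : 0 ≤ |(ρ - 1) * x + h * (ρ * w + η * ξ)| := abs_nonneg _
    generalize |(ρ - 1) * x + h * (ρ * w + η * ξ)| = E at *
    have hA0 : 0 ≤ |(ρ - 1) * w| := abs_nonneg _
    generalize |(ρ - 1) * w| = A at *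
    have hX0 := abs_nonneg x
    have hW0 := abs_nonneg w
    have hZ0 := abs_nonneg ξ
    have hww : w ^ 2 = |w| ^ 2 := (sq_abs w).symm
    rw [hww]
    generalize |x| = X at *
    generalize |w| = W at *
    generalize |ξ| = Z at *
    have hS : 0 ≤ X + W + Z := by positivity
    · have e43 : η ^ 4 ≤ η ^ 3 := pow_le_pow_of_le_one hη0 hη1 (by norm_num)
      have f1 : E ^ 2 ≤ η ^ 3 * (X + W + Z) ^ 2 := by
        have : E ^ 2 ≤ (η ^ 2 * (X + W + Z)) ^ 2 := pow_le_pow_left₀ hE0 hbe 2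
        have h4 : (η ^ 2 * (X + W + Z)) ^ 2 = η ^ 4 * (X + W + Z) ^ 2 := by ring
        rw [h4] at this
        exact this.trans (mul_le_mul_of_nonneg_right e43 (by positivity))
      have f2 : E * A ≤ η ^ 3 * ((X + W + Z) * W) := by
        have : E * A ≤ (η ^ 2 * (X + W + Z)) * (η ^ 2 * W) :=
          mul_le_mul hbe hba hA0 (by positivity)
        have h4 : (η ^ 2 * (X + W + Z)) * (η ^ 2 * W) = η ^ 4 * ((X + W + Z) * W) := by ring
        rw [h4] at this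
        exact this.trans (mul_le_mul_of_nonneg_right e43 (by positivity))
      have f3 : E * (η * Z) ≤ η ^ 3 * ((X + W + Z) * Z) := by
        have : E * (η * Z) ≤ (η ^ 2 * (X + W + Z)) * (η * Z) :=
          mul_le_mul_of_nonneg_right hbe (by positivity)
        have h4 : (η ^ 2 * (X + W + Z)) * (η * Z) = η ^ 3 * ((X + W + Z) * Z) := by ring
        rw [h4] at this
        exact this
      have f4 : A ^ 2 ≤ η ^ 3 * W ^ 2 := by
        have : A ^ 2 ≤ (η ^ 2 * W) ^ 2 := pow_le_pow_left₀ hA0 hba 2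
        have h4 : (η ^ 2 * W) ^ 2 = η ^ 4 * W ^ 2 := by ring
        rw [h4] at this
        exact this.trans (mul_le_mul_of_nonneg_right e43 (by positivity))
      have f5 : A * (η * Z) ≤ η ^ 3 * (W * Z) := by
        have : A * (η * Z) ≤ (η ^ 2 * W) * (η * Z) :=
          mul_le_mul_of_nonneg_right hba (by positivity)
        have h4 : (η ^ 2 * W) * (η * Z) = η ^ 3 * (W * Z) := by ring
        rw [h4] at this
        exact this
      have f6 : (η * Z) ^ 3 = η ^ 3 * Z ^ 3 := by ring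
      rw [f6]
      have : η ^ 3 * ((X + W + Z) ^ 2 + (X + W + Z) * (W + Z) + W ^ 2 + W * Z + Z ^ 3)
          = η ^ 3 * (X + W + Z) ^ 2 + (η ^ 3 * ((X + W + Z) * W) + η ^ 3 * ((X + W + Z) * Z))
            + η ^ 3 * W ^ 2 + η ^ 3 * (W * Z) + η ^ 3 * Z ^ 3 := by ring
      rw [this]
      nlinarith
  have hfin : |H (x + ((ρ - 1) * x + h * (ρ * w + η * ξ))) (w + ((ρ - 1) * w + η * ξ)) - H x w
      - ((ρ - 1) * x + h * (ρ * w + η * ξ)) * Hx x w - ((ρ - 1) * w + η * ξ) * Hw x w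
      - (η * ξ) ^ 2 / 2 * Hww x w| ≤ C * (η ^ 3 * (8 * ((1 + x ^ 2 + w ^ 2) * (1 + |ξ| ^ 3)))) :=
    hT.trans (mul_le_mul_of_nonneg_left hkey hN.pos.le)
  rw [hx, hw]
  have r1 : C * 8 * (h * η) * (1 + x ^ 2 + w ^ 2) * (1 + |ξ| ^ 3)
      = C * (η ^ 3 * (8 * ((1 + x ^ 2 + w ^ 2) * (1 + |ξ| ^ 3)))) := by
    rw [← hη2]; ring
  rw [r1]
  have r2 : (η * ξ) ^ 2 = h * ξ ^ 2 := by rw [mul_pow, hη2]
  rw [r2] at hfin
  have r3 : x + ((ρ - 1) * x + h * (ρ * w + η * ξ)) - x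
      = (ρ - 1) * x + h * (ρ * w + η * ξ) := by ring
  have r4 : w + ((ρ - 1) * w + η * ξ) - w = (ρ - 1) * w + η * ξ := by ring
  rw [r3, r4]
  exact hfin

end Pool.H56P
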