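import Pool.Agent.Lib.H56P.Defs
import Pool.Agent.Lib.H56P.A01
import Pool.Agent.Lib.H56P.A02

set_option autoImplicit false

namespace Pool.H56P

open MeasureTheory ProbabilityTheory Finset

theorem a03_rho {h : ℝ} (h0 : 0 < h) (h1 : h ≤ 1) :
    |Real.sqrt (1 - h) - 1| ≤ h ∧ |Real.sqrt (1 - h) - 1 + h / 2| ≤ h ^ 2 := by
  set r := Real.sqrt (1 - h) with hr
  have hr0 : 0 ≤ r := Real.sqrt_nonneg _
  have hr2 : r ^ 2 = 1 - h := Real.sq_sqrt (by linarith)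
  have a1 : r ≤ 1 - h / 2 := by
    by_contra hc
    push Not at hc
    nlinarith [sq_nonneg h]
  have a2 : 1 - h / 2 - h ^ 2 ≤ r := by
    by_contra hc
    push Not at hc
    have h3 : 0 < 1 - h / 2 - h ^ 2 := lt_of_le_of_lt hr0 hc
    have h4 : r ^ 2 < (1 - h / 2 - h ^ 2) ^ 2 := by
      apply pow_lt_pow_left₀ hc hr0 (by norm_num)
    rw [hr2] at h4
    have h5 : 0 < h ^ 2 := by positivity
    have h6 : h ^ 2 ≤ 1 := by nlinarith
    have h7 : (1 - h / 2 - h ^ 2) ^ 2 = 1 - h + h ^ 2 * (1 / 4 - 2 + h + h ^ 2) := by ring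
    rw [h7] at h4
    have h8 : 0 < h ^ 2 * (1 / 4 - 2 + h + h ^ 2) := by linarith
    have h9 : 0 < 1 / 4 - 2 + h + h ^ 2 := by
      by_contra hh
      push Not at hh
      have := mul_nonpos_of_nonneg_of_nonpos h5.le hh
      linarith
    have h10 : 3 / 4 ≤ h := by nlinarith
    nlinarith
  constructor
  · rw [abs_le]
    constructor <;> nlinarith
  · rw [abs_le]
    constructor <;> nlinarith

theorem a03_aff (a b c : ℝ) : Integrable (fun ξ : ℝ => a + b * ξ + c * ξ ^ 2) (gaussianReal 0 1) ∧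
    ∫ ξ : ℝ, (a + b * ξ + c * ξ ^ 2) ∂(gaussianReal 0 1) = a + c := by
  obtain ⟨g0, gs, g1, g2, -⟩ := a01_gauss
  have i1 : Integrable (fun _ : ℝ => a) (gaussianReal 0 1) := integrable_const _
  have i2 : Integrable (fun ξ : ℝ => b * ξ) (gaussianReal 0 1) := g1.const_mul _
  have i3 : Integrable (fun ξ : ℝ => c * ξ ^ 2) (gaussianReal 0 1) := g2.const_mul _
  have i12 : Integrable (fun ξ : ℝ => a + b * ξ) (gaussianReal 0 1) := i1.add i2
  refine ⟨i12.add i3, ?_⟩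
  rw [integral_add i12 i3, integral_add i1 i2, integral_const_mul, integral_const_mul, g0, gs]
  simp

theorem a03_rem {C x w p q a b h : ℝ} (hC : 0 < C) (h0 : 0 < h)
    (ha : |a| ≤ h ^ 2) (hb : |b| ≤ h) (hp : |p| ≤ C * (1 + |x| + |w|))
    (hq : |q| ≤ C * (1 + |x| + |w|)) :
    |(a * x + h * b * w) * p + a * w * q| ≤ 8 * C * h ^ 2 * (1 + x ^ 2 + w ^ 2) := by
  have hx := abs_nonneg x
  have hw := abs_nonneg w
  have e1 : |a * x + h * b * w| ≤ h ^ 2 * (|x| + |w|) := by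
    refine (abs_add_le _ _).trans ?_
    rw [abs_mul, abs_mul, abs_mul, abs_of_pos h0]
    have t1 : |a| * |x| ≤ h ^ 2 * |x| := mul_le_mul_of_nonneg_right ha hx
    have t2 : h * |b| * |w| ≤ h ^ 2 * |w| := by
      refine mul_le_mul_of_nonneg_right ?_ hw
      nlinarith
    linarith
  have e2 : |a * w| ≤ h ^ 2 * |w| := by
    rw [abs_mul]
    exact mul_le_mul_of_nonneg_right ha hw
  have e3 : |(a * x + h * b * w) * p| ≤ h ^ 2 * (|x| + |w|) * (C * (1 + |x| + |w|)) := by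
    rw [abs_mul]
    exact mul_le_mul e1 hp (abs_nonneg _) (by positivity)
  have e4 : |a * w * q| ≤ h ^ 2 * |w| * (C * (1 + |x| + |w|)) := by
    rw [abs_mul]
    exact mul_le_mul e2 hq (abs_nonneg _) (by positivity)
  refine (abs_add_le _ _).trans ((add_le_add e3 e4).trans ?_)
  have e5 : (|x| + |w| + |w|) * (1 + |x| + |w|) ≤ 8 * (1 + x ^ 2 + w ^ 2) := by
    have s1 : x ^ 2 = |x| ^ 2 := (sq_abs x).symm
    have s2 : w ^ 2 = |w| ^ 2 := (sq_abs w).symm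
    rw [s1, s2]
    nlinarith [sq_nonneg (|x| - |w|), sq_nonneg (|x| - 1), sq_nonneg (|w| - 1)]
  have e6 : 0 ≤ C * h ^ 2 := by positivity
  calc h ^ 2 * (|x| + |w|) * (C * (1 + |x| + |w|)) + h ^ 2 * |w| * (C * (1 + |x| + |w|))
      = C * h ^ 2 * ((|x| + |w| + |w|) * (1 + |x| + |w|)) := by ring
    _ ≤ C * h ^ 2 * (8 * (1 + x ^ 2 + w ^ 2)) := mul_le_mul_of_nonneg_left e5 e6
    _ = 8 * C * h ^ 2 * (1 + x ^ 2 + w ^ 2) := by ring

/-- **A03 (M).** The one step expectation: `E H(Z') = H(z) + h (gen H)(z) + O(h √h (1 + |z|^2))`.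
Proof: integrate `a02_step_pointwise` (integrability: `a01_step_integrable`, `a01_gauss`; `sX`,
`sW` are affine in `ξ`). The integral of the affine part is
`((ρ-1) x + h ρ w) Hx + (ρ-1) w Hw + h/2 Hww`, `ρ = √(1-h)`, and `|ρ - 1 + h/2| ≤ h^2`
(`0 < h ≤ 1`: both sides of `1 - h/2 - h^2 ≤ ρ ≤ 1 - h/2` by squaring / `Real.sqrt_le_left`),
`|ρ - 1| ≤ h`; so it differs from `h gen` by at most
`h^2 (|x| + |w|) (|Hx| + |Hw|) ≤ 2 C h^2 (|x| + |w|) (1 + |x| + |w|) ≤ 6 C h √h (1 + x^2 + w^2)`. -/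
theorem a03_step_taylor {H Hx Hw Hww : ℝ → ℝ → ℝ} {C : ℝ} (hN : Nice H Hx Hw Hww C) :
    ∃ K : ℝ, 0 < K ∧ ∀ h : ℝ, 0 < h → h ≤ 1 → ∀ x w : ℝ,
      |(∫ ξ : ℝ, H (sX h x w ξ) (sW h w ξ) ∂(gaussianReal 0 1)) - H x w - h * gen Hx Hw Hww x w|
        ≤ K * (h * Real.sqrt h) * (1 + x ^ 2 + w ^ 2) := by
  obtain ⟨K, hK, hpt⟩ := a02_step_pointwise hN
  obtain ⟨g0, gs, g1, g2, g3⟩ := a01_gauss
  set M3 : ℝ := ∫ ξ : ℝ, |ξ| ^ 3 ∂(gaussianReal 0 1) with hM3
  have hM0 : 0 ≤ M3 := integral_nonneg fun ξ => by positivity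
  have hC := hN.pos
  refine ⟨K * (1 + M3) + 8 * C, by positivity, fun h h0 h1 x w => ?_⟩
  set r := Real.sqrt (1 - h) with hr
  have hsq : h ^ 2 ≤ h * Real.sqrt h := by
    have t1 : h ≤ Real.sqrt h := by
      apply Real.le_sqrt_of_sq_le
      nlinarith
    nlinarith
  have hI := a01_step_integrable hN h x w
  obtain ⟨hA, hAi⟩ := a03_aff (H x w + ((r - 1) * x + h * r * w) * Hx x w +
      (r - 1) * w * Hw x w) (h * Real.sqrt h * Hx x w + Real.sqrt h * Hw x w) (h / 2 * Hww x w)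
  have hbound : |(∫ ξ : ℝ, H (sX h x w ξ) (sW h w ξ) ∂(gaussianReal 0 1)) -
      (H x w + ((r - 1) * x + h * r * w) * Hx x w + (r - 1) * w * Hw x w + h / 2 * Hww x w)| ≤
      K * (h * Real.sqrt h) * (1 + x ^ 2 + w ^ 2) * (1 + M3) := by
    rw [← hAi, ← integral_sub hI hA]
    refine (abs_integral_le_integral_abs).trans ?_
    have hR : ∫ ξ : ℝ, K * (h * Real.sqrt h) * (1 + x ^ 2 + w ^ 2) * (1 + |ξ| ^ 3)
        ∂(gaussianReal 0 1) = K * (h * Real.sqrt h) * (1 + x ^ 2 + w ^ 2) * (1 + M3) := by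
      have i1 : Integrable (fun _ : ℝ => (1 : ℝ)) (gaussianReal 0 1) := integrable_const _
      rw [integral_const_mul, integral_add i1 g3]
      simp [hM3]
    rw [← hR]
    have i1 : Integrable (fun _ : ℝ => (1 : ℝ)) (gaussianReal 0 1) := integrable_const _
    refine integral_mono (hI.sub hA).abs ((i1.add g3).const_mul _) fun ξ => ?_
    have e := hpt h h0 h1 x w ξ
    refine le_trans (le_of_eq ?_) e
    congr 1
    unfold sX sW
    ring
  obtain ⟨r1, r2⟩ := a03_rho h0 h1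
  have hrem := a03_rem (x := x) (w := w) hC h0 r2 r1 (hN.bx x w) (hN.bw x w)
  have heq : (∫ ξ : ℝ, H (sX h x w ξ) (sW h w ξ) ∂(gaussianReal 0 1)) - H x w -
      h * gen Hx Hw Hww x w = ((∫ ξ : ℝ, H (sX h x w ξ) (sW h w ξ) ∂(gaussianReal 0 1)) -
      (H x w + ((r - 1) * x + h * r * w) * Hx x w + (r - 1) * w * Hw x w + h / 2 * Hww x w)) +
      (((r - 1 + h / 2) * x + h * (r - 1) * w) * Hx x w + (r - 1 + h / 2) * w * Hw x w) := by
    unfold gen
    ring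
  rw [heq]
  refine (abs_add_le _ _).trans ((add_le_add hbound hrem).trans ?_)
  have hs : 0 ≤ 1 + x ^ 2 + w ^ 2 := by positivity
  have e7 : 8 * C * h ^ 2 * (1 + x ^ 2 + w ^ 2) ≤ 8 * C * (h * Real.sqrt h) * (1 + x ^ 2 + w ^ 2) := by
    refine mul_le_mul_of_nonneg_right ?_ hs
    exact mul_le_mul_of_nonneg_left hsq (by positivity)
  refine (add_le_add le_rfl e7).trans (le_of_eq ?_)
  ring

end Pool.H56P
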