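import Pool.Agent.Lib.H56P.Defs

set_option autoImplicit false

namespace Pool.H56P

open MeasureTheory ProbabilityTheory Finset

theorem a04_core {H Hx Hw Hww : ℝ → ℝ → ℝ} {C : ℝ} (hN : Nice H Hx Hw Hww C) {h : ℝ} (hh0 : 0 < h)
    (hh : h ≤ 1 / 2) {x w ξ : ℝ} (hx : 0 ≤ x) (hs : sX h x w ξ < 0) :
    sW h w ξ ≤ 0 ∧ |H (sX h x w ξ) (sW h w ξ) - H 0 (sW h w ξ)| ≤ 2 * C * h * (1 + sW h w ξ ^ 2) := by
  have hC := hN.pos
  obtain ⟨y, hy⟩ : ∃ y, y = sX h x w ξ := ⟨_, rfl⟩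
  obtain ⟨v, hv⟩ : ∃ v, v = sW h w ξ := ⟨_, rfl⟩
  have hyv : y = Real.sqrt (1 - h) * x + h * v := by
    rw [hy, hv]
    rfl
  rw [← hy] at hs
  rw [← hy, ← hv]
  have h1 : 0 ≤ Real.sqrt (1 - h) * x := mul_nonneg (Real.sqrt_nonneg _) hx
  have h2 : h * v ≤ y := by linarith
  have h3 : v < 0 := by
    by_contra hcon
    push Not at hcon
    have := mul_nonneg hh0.le hcon
    linarith
  refine ⟨h3.le, ?_⟩
  have h4 : |y| ≤ h * |v| := by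
    rw [abs_of_neg hs, abs_of_neg h3]
    linarith
  have h5 := hN.taylor 0 v y 0 0
  have e : |y| * (|(0 : ℝ)| + |(0 : ℝ)|) = 0 := by
    rw [abs_zero]
    ring
  have h6 : |H y v - H 0 v - y * Hx 0 v| ≤ C * y ^ 2 := by
    have e1 : H (0 + y) (v + (0 + 0)) - H 0 v - y * Hx 0 v - (0 + 0) * Hw 0 v - 0 ^ 2 / 2 * Hww 0 v =
        H y v - H 0 v - y * Hx 0 v := by
      rw [zero_add, add_zero, add_zero]
      ring
    rw [e1, e, abs_zero] at h5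
    linarith
  have h7 := hN.bx 0 v
  rw [abs_zero, add_zero] at h7
  have h8 : |y * Hx 0 v| ≤ (h * |v|) * (C * (1 + |v|)) := by
    rw [abs_mul]
    exact mul_le_mul h4 h7 (abs_nonneg _) (mul_nonneg hh0.le (abs_nonneg _))
  have h9 : y ^ 2 ≤ h ^ 2 * v ^ 2 := by
    rw [← sq_abs y, ← sq_abs v, ← mul_pow]
    exact pow_le_pow_left₀ (abs_nonneg _) h4 2
  have h10 : |H y v - H 0 v| ≤ |y * Hx 0 v| + C * y ^ 2 := by
    have e2 : H y v - H 0 v = (H y v - H 0 v - y * Hx 0 v) + y * Hx 0 v := by ring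
    rw [e2]
    refine (abs_add_le _ _).trans ?_
    linarith
  have h11 : 2 * |v| ≤ 1 + v ^ 2 := by
    rw [← sq_abs v]
    nlinarith [sq_nonneg (|v| - 1)]
  have h12 : |v| ^ 2 = v ^ 2 := sq_abs v
  have h13 : (h * |v|) * (C * (1 + |v|)) = C * h * (|v| + v ^ 2) := by
    rw [← h12]
    ring
  have hCh : 0 < C * h := mul_pos hC hh0
  have h14 : C * y ^ 2 ≤ C * h * (1 / 2 * (1 + v ^ 2)) := by
    have h15 : y ^ 2 ≤ h * (1 / 2 * (1 + v ^ 2)) := by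
      have h16 : h ^ 2 * v ^ 2 ≤ h * (1 / 2 * (1 + v ^ 2)) := by
        have h17 : h * v ^ 2 ≤ 1 / 2 * (1 + v ^ 2) := by
          nlinarith [sq_nonneg v]
        calc h ^ 2 * v ^ 2 = h * (h * v ^ 2) := by ring
          _ ≤ h * (1 / 2 * (1 + v ^ 2)) := mul_le_mul_of_nonneg_left h17 hh0.le
      linarith
    calc C * y ^ 2 ≤ C * (h * (1 / 2 * (1 + v ^ 2))) := mul_le_mul_of_nonneg_left h15 hC.le
      _ = C * h * (1 / 2 * (1 + v ^ 2)) := by ring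
  have h18 : C * h * (|v| + v ^ 2) ≤ C * h * (3 / 2 * (1 + v ^ 2)) := by
    apply mul_le_mul_of_nonneg_left _ hCh.le
    nlinarith [sq_nonneg v]
  rw [h13] at h8
  linarith

/-- the choice of the step size -/
theorem a04_h0 {C ε : ℝ} (hC : 0 < C) (hε : 0 < ε) : ∃ h0 : ℝ, 0 < h0 ∧ h0 ≤ 1 / 2 ∧
    ∀ h : ℝ, 0 < h → h ≤ h0 → 2 * C * h ≤ ε := by
  refine ⟨min (1 / 2) (ε / (2 * C)), lt_min (by norm_num) (by positivity), min_le_left _ _, ?_⟩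
  intro h _ hh
  have h1 : h ≤ ε / (2 * C) := hh.trans (min_le_right _ _)
  rw [le_div_iff₀ (by positivity)] at h1
  linarith

/-- **A04 (S/M).** After one step to the negative side the value is nonpositive.
Proof: let `x' = sX h x w ξ < 0`, `w' = sW h w ξ`. As `x' = √(1-h) x + h w'` and `0 ≤ x`, we have
`h w' ≤ x' < 0`, so `w' < 0` and `|x'| ≤ h |w'|`. `hN.taylor 0 w' x' 0 0` gives
`H x' w' ≤ H 0 w' + |x'| |Hx 0 w'| + C x'^2 ≤ -ε (1 + w'^2) + C h |w'| (1 + |w'|) + C h^2 w'^2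
≤ (-ε + 3 C h) (1 + w'^2)`; take `h0 = min (1/2) (ε / (3 C))`. -/
theorem a04_bdry_nonpos {H Hx Hw Hww : ℝ → ℝ → ℝ} {C : ℝ} (hN : Nice H Hx Hw Hww C)
    (ε : ℝ) (hε : 0 < ε) (hb : ∀ w, w ≤ 0 → H 0 w ≤ -ε * (1 + w ^ 2)) :
    ∃ h0 : ℝ, 0 < h0 ∧ h0 ≤ 1 / 2 ∧ ∀ h : ℝ, 0 < h → h ≤ h0 → ∀ x w ξ : ℝ, 0 ≤ x →
      sX h x w ξ < 0 → H (sX h x w ξ) (sW h w ξ) ≤ 0 := by
  obtain ⟨h0, hp, hhalf, hc⟩ := a04_h0 hN.pos hε
  refine ⟨h0, hp, hhalf, fun h hh hh0 x w ξ hx hs => ?_⟩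
  obtain ⟨h1, h2⟩ := a04_core hN hh (hh0.trans hhalf) hx hs
  have h3 := hb _ h1
  have h4 := (abs_le.mp h2).2
  have h5 : 2 * C * h * (1 + sW h w ξ ^ 2) ≤ ε * (1 + sW h w ξ ^ 2) :=
    mul_le_mul_of_nonneg_right (hc h hh hh0) (by positivity)
  linarith

/-- The same with the opposite sign (same proof, or apply the first statement to `-H`). -/
theorem a04_bdry_nonneg {H Hx Hw Hww : ℝ → ℝ → ℝ} {C : ℝ} (hN : Nice H Hx Hw Hww C)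
    (ε : ℝ) (hε : 0 < ε) (hb : ∀ w, w ≤ 0 → ε * (1 + w ^ 2) ≤ H 0 w) :
    ∃ h0 : ℝ, 0 < h0 ∧ h0 ≤ 1 / 2 ∧ ∀ h : ℝ, 0 < h → h ≤ h0 → ∀ x w ξ : ℝ, 0 ≤ x →
      sX h x w ξ < 0 → 0 ≤ H (sX h x w ξ) (sW h w ξ) := by
  obtain ⟨h0, hp, hhalf, hc⟩ := a04_h0 hN.pos hε
  refine ⟨h0, hp, hhalf, fun h hh hh0 x w ξ hx hs => ?_⟩
  obtain ⟨h1, h2⟩ := a04_core hN hh (hh0.trans hhalf) hx hs
  have h3 := hb _ h1
  have h4 := (abs_le.mp h2).1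
  have h5 : 2 * C * h * (1 + sW h w ξ ^ 2) ≤ ε * (1 + sW h w ξ ^ 2) :=
    mul_le_mul_of_nonneg_right (hc h hh hh0) (by positivity)
  linarith

end Pool.H56P
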