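import Pool.Agent.Lib.H56P.Defs
import Pool.Agent.Lib.H56P.A03
import Pool.Agent.Lib.H56P.A04

set_option autoImplicit false

namespace Pool.H56P

open MeasureTheory ProbabilityTheory Finset

/-- `(1-h)^lam ≥ 1 - lam h - 4 h^2` for `0 < h ≤ 1/2`, `0 < lam < 1`.
Proof: `log (1-h) ≥ -h - h^2` for `0 ≤ h ≤ 1/2`, so `(1-h)^lam = exp (lam log (1-h)) ≥
1 + lam log (1-h) ≥ 1 - lam h - lam h^2`. For the logarithm: `-log (1-h) = log (1/(1-h)) ≤
1/(1-h) - 1 = h/(1-h) ≤ h + 2 h^2`. -/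
theorem a05_rpow (h lam : ℝ) (h0 : 0 < h) (h1 : h ≤ 1 / 2) (hl0 : 0 < lam) (hl1 : lam < 1) :
    1 - lam * h - 4 * h ^ 2 ≤ (1 - h) ^ lam := by
  have h2 : 0 < 1 - h := by linarith
  have h3 : 1 - (1 - h)⁻¹ ≤ Real.log (1 - h) := Real.one_sub_inv_le_log_of_pos h2
  have h4 : -h - 2 * h ^ 2 ≤ 1 - (1 - h)⁻¹ := by
    rw [show (1 : ℝ) - (1 - h)⁻¹ = -h / (1 - h) by
      have h5 : (1 - h) ≠ 0 := h2.ne'
      field_simp
      ring]
    rw [le_div_iff₀ h2]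
    nlinarith [mul_pos h0 h0, mul_nonneg h0.le (sub_nonneg.mpr h1)]
  have h5 : (1 - h) ^ lam = Real.exp (Real.log (1 - h) * lam) := Real.rpow_def_of_pos h2 lam
  rw [h5]
  have h6 := Real.add_one_le_exp (Real.log (1 - h) * lam)
  have h7 : (-h - 2 * h ^ 2) * lam ≤ Real.log (1 - h) * lam :=
    mul_le_mul_of_nonneg_right (le_trans h4 h3) hl0.le
  nlinarith [mul_pos h0 h0, mul_nonneg (sq_nonneg h) (sub_nonneg.mpr hl1.le)]

/-- **A05 (M).** Supersolution step.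
Proof: let `K` be from `a03_step_taylor`, `h0` from `a04_bdry_nonneg` (its hypothesis is `hpos` at
`x = 0`). For `h ≤ h0` and `0 ≤ x` the function `ξ ↦ H (sX ..) (sW ..)` is nonnegative everywhere
(where `0 ≤ sX` by `hpos`, elsewhere by `a04_bdry_nonneg`), so the restricted lintegral is at most
`∫⁻ ofReal = ofReal (∫ H(Z'))` (`ofReal_integral_eq_lintegral_ofReal`, `a01_step_integrable`), and
`∫ H(Z') ≤ H + h gen + K h √h (1+x^2+w^2) ≤ H - lam h H - η h (1+x^2+w^2) + K h √h (1+x^2+w^2)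
≤ (1-h)^lam H`, because `(1-h)^lam ≥ 1 - lam h - 4 h^2` for `0 < h ≤ 1/2`, `0 < lam < 1`
(chunk lemma `a05_rpow`), `0 ≤ H ≤ C (1+x^2+w^2)` and `K √h + 4 C h ≤ η` for small `h`. -/
theorem a05_sup_step {H Hx Hw Hww : ℝ → ℝ → ℝ} {C : ℝ} (hN : Nice H Hx Hw Hww C)
    (lam ε η : ℝ) (hl0 : 0 < lam) (hl1 : lam < 1) (hε : 0 < ε) (hη : 0 < η)
    (hpos : ∀ x w, 0 ≤ x → ε * (1 + x ^ 2 + w ^ 2) ≤ H x w)
    (hgen : ∀ x w, 0 ≤ x → gen Hx Hw Hww x w + lam * H x w ≤ -η * (1 + x ^ 2 + w ^ 2)) :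
    ∃ h0 : ℝ, 0 < h0 ∧ h0 ≤ 1 / 2 ∧ ∀ h : ℝ, 0 < h → h ≤ h0 → ∀ x w : ℝ, 0 ≤ x →
      ∫⁻ ξ in {ξ : ℝ | 0 ≤ sX h x w ξ}, ENNReal.ofReal (H (sX h x w ξ) (sW h w ξ)) ∂(gaussianReal 0 1)
        ≤ ENNReal.ofReal ((1 - h) ^ lam * H x w) := by
  obtain ⟨K, hK, hT⟩ := a03_step_taylor hN
  obtain ⟨h1, h1pos, h1le, hB⟩ := a04_bdry_nonneg hN ε hε (fun w _ => by
    have h := hpos 0 w le_rfl
    nlinarith [h])
  have hC := hN.pos
  have hKC : 0 < K + 4 * C := by linarith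
  set t : ℝ := (η / (K + 4 * C)) ^ 2 with ht
  have htpos : 0 < t := by positivity
  refine ⟨min h1 t, lt_min h1pos htpos, le_trans (min_le_left _ _) h1le, ?_⟩
  intro h hh0 hh x w hx
  have hh1 : h ≤ h1 := le_trans hh (min_le_left _ _)
  have hht : h ≤ t := le_trans hh (min_le_right _ _)
  have hhalf : h ≤ 1 / 2 := le_trans hh1 h1le
  have hsq : Real.sqrt h ≤ η / (K + 4 * C) := by
    rw [show η / (K + 4 * C) = Real.sqrt t by
      rw [ht, Real.sqrt_sq (by positivity)]]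
    exact Real.sqrt_le_sqrt hht
  have hsq0 : 0 ≤ Real.sqrt h := Real.sqrt_nonneg h
  have hhs : h ≤ Real.sqrt h := by
    have h2 : Real.sqrt h ≤ 1 := by
      rw [show (1 : ℝ) = Real.sqrt 1 from Real.sqrt_one.symm]
      exact Real.sqrt_le_sqrt (by linarith)
    nlinarith [Real.mul_self_sqrt hh0.le]
  have hkey : K * Real.sqrt h + 4 * C * h ≤ η := by
    have h3 : (K + 4 * C) * Real.sqrt h ≤ η := by
      rw [le_div_iff₀ hKC] at hsq
      linarith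
    nlinarith
  have hnn : ∀ ξ : ℝ, 0 ≤ H (sX h x w ξ) (sW h w ξ) := by
    intro ξ
    rcases le_or_gt 0 (sX h x w ξ) with h4 | h4
    · have h5 := hpos (sX h x w ξ) (sW h w ξ) h4
      exact le_trans (by positivity) h5
    · exact hB h hh0 hh1 x w ξ hx h4
  have hint := a01_step_integrable hN h x w
  calc ∫⁻ ξ in {ξ : ℝ | 0 ≤ sX h x w ξ}, ENNReal.ofReal (H (sX h x w ξ) (sW h w ξ)) ∂(gaussianReal 0 1)
      ≤ ∫⁻ ξ, ENNReal.ofReal (H (sX h x w ξ) (sW h w ξ)) ∂(gaussianReal 0 1) :=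
        MeasureTheory.setLIntegral_le_lintegral _ _
    _ = ENNReal.ofReal (∫ ξ, H (sX h x w ξ) (sW h w ξ) ∂(gaussianReal 0 1)) :=
        (MeasureTheory.ofReal_integral_eq_lintegral_ofReal hint
          (Filter.Eventually.of_forall hnn)).symm
    _ ≤ ENNReal.ofReal ((1 - h) ^ lam * H x w) := by
        apply ENNReal.ofReal_le_ofReal
        have h6 := (abs_le.mp (hT h hh0 (by linarith) x w)).2
        have h7 := hgen x w hx
        have h8 : 0 ≤ H x w := le_trans (by positivity) (hpos x w hx)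
        have h9 : H x w ≤ C * (1 + x ^ 2 + w ^ 2) := le_trans (le_abs_self _) (hN.bH x w)
        have h10 := mul_le_mul_of_nonneg_right (a05_rpow h lam hh0 hhalf hl0 hl1) h8
        set q : ℝ := 1 + x ^ 2 + w ^ 2 with hq
        have hqpos : 0 < q := by positivity
        have h11 : h * gen Hx Hw Hww x w ≤ h * (-η * q - lam * H x w) :=
          mul_le_mul_of_nonneg_left (by linarith) hh0.le
        have h12 : 4 * h ^ 2 * H x w ≤ 4 * h ^ 2 * (C * q) :=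
          mul_le_mul_of_nonneg_left h9 (by positivity)
        have h13 : h * q * (K * Real.sqrt h + 4 * C * h) ≤ h * q * η :=
          mul_le_mul_of_nonneg_left hkey (by positivity)
        nlinarith

end Pool.H56P
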