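import Pool.Agent.Lib.H56P.Defs
import Pool.Agent.Lib.H56P.A03
import Pool.Agent.Lib.H56P.A04

set_option autoImplicit false

namespace Pool.H56P

open MeasureTheory ProbabilityTheory Finset

/-- **A06 (M).** Subsolution step.
Proof: let `K` be from `a03_step_taylor`, `h0` from `a04_bdry_nonpos`. If `H x w ≤ 0` the left side
is `0`. If `0 < H x w`: write `g ξ = H (sX ..) (sW ..)`. By `a04_bdry_nonpos` `g ξ ≤ 0` outside the
set `{0 ≤ sX}`, so `∫ g ≤ ∫ ξ in {0 ≤ sX}, g` and `ofReal (∫ ξ in S, g) ≤ ∫⁻ ξ in S, ofReal g`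
(`MeasureTheory.ofReal_integral_le_lintegral_ofReal` or via the positive part). By the Taylor step
`∫ g ≥ H + h gen - K h √h (1+x^2+w^2) ≥ H - lam h H + η h (1+x^2+w^2) - K h √h (1+x^2+w^2)
≥ (1 - lam h) H ≥ (1-h)^lam H` when `K √h ≤ η`, since `(1-h)^lam ≤ 1 - lam h` for `0 < lam < 1`
(Bernoulli, `Real.rpow_one_add_le_one_add_mul_self`). -/
theorem a06_sub_step {H Hx Hw Hww : ℝ → ℝ → ℝ} {C : ℝ} (hN : Nice H Hx Hw Hww C)
    (lam ε η : ℝ) (hl0 : 0 < lam) (hl1 : lam < 1) (hε : 0 < ε) (hη : 0 < η)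
    (hb : ∀ w, w ≤ 0 → H 0 w ≤ -ε * (1 + w ^ 2))
    (hgen : ∀ x w, 0 ≤ x → 0 ≤ H x w → η * (1 + x ^ 2 + w ^ 2) ≤ gen Hx Hw Hww x w + lam * H x w) :
    ∃ h0 : ℝ, 0 < h0 ∧ h0 ≤ 1 / 2 ∧ ∀ h : ℝ, 0 < h → h ≤ h0 → ∀ x w : ℝ, 0 ≤ x →
      ENNReal.ofReal ((1 - h) ^ lam * H x w) ≤
      ∫⁻ ξ in {ξ : ℝ | 0 ≤ sX h x w ξ}, ENNReal.ofReal (H (sX h x w ξ) (sW h w ξ)) ∂(gaussianReal 0 1)
        := by
  obtain ⟨K, hK, hT⟩ := a03_step_taylor hN
  obtain ⟨h1, h1pos, h1le, hB⟩ := a04_bdry_nonpos hN ε hε hb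
  set t : ℝ := (η / K) ^ 2 with ht
  have htpos : 0 < t := by positivity
  refine ⟨min h1 t, lt_min h1pos htpos, le_trans (min_le_left _ _) h1le, ?_⟩
  intro h hh0 hh x w hx
  have hh1 : h ≤ h1 := le_trans hh (min_le_left _ _)
  have hht : h ≤ t := le_trans hh (min_le_right _ _)
  have hhalf : h ≤ 1 / 2 := le_trans hh1 h1le
  rcases le_or_gt (H x w) 0 with hH | hH
  · have h2 : (1 - h) ^ lam * H x w ≤ 0 :=
      mul_nonpos_of_nonneg_of_nonpos (Real.rpow_nonneg (by linarith) lam) hH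
    rw [ENNReal.ofReal_of_nonpos h2]
    exact bot_le
  have hsq : Real.sqrt h ≤ η / K := by
    rw [show η / K = Real.sqrt t by
      rw [ht, Real.sqrt_sq (by positivity)]]
    exact Real.sqrt_le_sqrt hht
  have hkey : K * Real.sqrt h ≤ η := by
    rw [le_div_iff₀ hK] at hsq
    linarith
  have hint := a01_step_integrable hN h x w
  have hms : MeasurableSet {ξ : ℝ | 0 ≤ sX h x w ξ} := by
    have h3 : Continuous (fun ξ : ℝ => sX h x w ξ) := by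
      unfold sX sW
      fun_prop
    exact (isClosed_le continuous_const h3).measurableSet
  have hstep : ∫ ξ, H (sX h x w ξ) (sW h w ξ) ∂(gaussianReal 0 1)
      ≤ ∫ ξ in {ξ : ℝ | 0 ≤ sX h x w ξ}, H (sX h x w ξ) (sW h w ξ) ∂(gaussianReal 0 1) := by
    rw [← MeasureTheory.integral_add_compl hms hint]
    have h4 : ∫ ξ in {ξ : ℝ | 0 ≤ sX h x w ξ}ᶜ, H (sX h x w ξ) (sW h w ξ) ∂(gaussianReal 0 1) ≤ 0 := by
      apply MeasureTheory.setIntegral_nonpos hms.compl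
      intro ξ hξ
      have h5 : sX h x w ξ < 0 := not_le.mp hξ
      exact hB h hh0 hh1 x w ξ hx h5
    linarith
  have hpos' : ENNReal.ofReal (∫ ξ in {ξ : ℝ | 0 ≤ sX h x w ξ},
      H (sX h x w ξ) (sW h w ξ) ∂(gaussianReal 0 1)) ≤
      ∫⁻ ξ in {ξ : ℝ | 0 ≤ sX h x w ξ}, ENNReal.ofReal (H (sX h x w ξ) (sW h w ξ))
        ∂(gaussianReal 0 1) := by
    set g : ℝ → ℝ := fun ξ => H (sX h x w ξ) (sW h w ξ) with hg
    have h6 : ∫ ξ in {ξ : ℝ | 0 ≤ sX h x w ξ}, g ξ ∂(gaussianReal 0 1)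
        ≤ ∫ ξ in {ξ : ℝ | 0 ≤ sX h x w ξ}, max (g ξ) 0 ∂(gaussianReal 0 1) := by
      apply MeasureTheory.integral_mono hint.integrableOn (hint.integrableOn.pos_part)
      intro ξ
      exact le_max_left _ _
    have h7 : ENNReal.ofReal (∫ ξ in {ξ : ℝ | 0 ≤ sX h x w ξ}, max (g ξ) 0 ∂(gaussianReal 0 1))
        = ∫⁻ ξ in {ξ : ℝ | 0 ≤ sX h x w ξ}, ENNReal.ofReal (max (g ξ) 0) ∂(gaussianReal 0 1) :=
      MeasureTheory.ofReal_integral_eq_lintegral_ofReal (hint.integrableOn.pos_part)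
        (Filter.Eventually.of_forall (fun ξ => le_max_right _ _))
    have h8 : ∀ ξ, ENNReal.ofReal (max (g ξ) 0) = ENNReal.ofReal (g ξ) := by
      intro ξ
      rcases le_total (g ξ) 0 with h9 | h9
      · rw [max_eq_right h9, ENNReal.ofReal_zero, ENNReal.ofReal_of_nonpos h9]
      · rw [max_eq_left h9]
    calc ENNReal.ofReal (∫ ξ in {ξ : ℝ | 0 ≤ sX h x w ξ}, g ξ ∂(gaussianReal 0 1))
        ≤ ENNReal.ofReal (∫ ξ in {ξ : ℝ | 0 ≤ sX h x w ξ}, max (g ξ) 0 ∂(gaussianReal 0 1)) :=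
          ENNReal.ofReal_le_ofReal h6
      _ = _ := h7
      _ = _ := by simp_rw [h8, hg]
  refine le_trans (ENNReal.ofReal_le_ofReal ?_) hpos'
  refine le_trans ?_ hstep
  have h6 := (abs_le.mp (hT h hh0 (by linarith) x w)).1
  have h7 := hgen x w hx hH.le
  have h8 : (1 - h) ^ lam ≤ 1 - lam * h := by
    have h9 := rpow_one_add_le_one_add_mul_self (s := -h) (p := lam) (by linarith) hl0.le hl1.le
    have h10 : (1 : ℝ) + -h = 1 - h := by ring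
    rw [h10] at h9
    linarith
  have h10 := mul_le_mul_of_nonneg_right h8 hH.le
  set q : ℝ := 1 + x ^ 2 + w ^ 2 with hq
  have hqpos : 0 < q := by positivity
  have h11 : h * (η * q - lam * H x w) ≤ h * gen Hx Hw Hww x w :=
    mul_le_mul_of_nonneg_left (by linarith) hh0.le
  have h13 : h * q * (K * Real.sqrt h) ≤ h * q * η :=
    mul_le_mul_of_nonneg_left hkey (by positivity)
  nlinarith

end Pool.H56P
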