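import Pool.Agent.Lib.H56P.Chain

set_option autoImplicit false

namespace Pool.H56P

open MeasureTheory ProbabilityTheory Finset

/-- **A07 (M).** (1) basic facts: `sk`, `wk` are continuous in `ξ` and `aliveS` is closed. -/
theorem a07_continuous_wk {K : ℕ} (i : ℕ) : Continuous (fun ξ : Fin K → ℝ => wk ξ i) := by
  unfold wk
  refine continuous_finsetSum _ (fun j _ => ?_)
  by_cases h : (j : ℕ) < i
  · simpa [h] using continuous_apply j
  · simpa [h] using continuous_const

theorem a07_continuous_sk {K : ℕ} (k : ℕ) : Continuous (fun ξ : Fin K → ℝ => sk ξ k) := by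
  unfold sk
  exact continuous_finsetSum _ (fun j _ => (a07_continuous_wk j).div_const _)

theorem a07_isClosed_alive (K : ℕ) : IsClosed (aliveS K) := by
  have : aliveS K = ⋂ k ∈ Icc 1 K, {ξ : Fin K → ℝ | 0 ≤ sk ξ k} := by
    ext ξ
    simp [aliveS]
  rw [this]
  exact isClosed_biInter (fun k _ => isClosed_le continuous_const (a07_continuous_sk k))

theorem a07_wk_le {K : ℕ} (ζ : Fin (K + 1) → ℝ) {i : ℕ} (hi : i ≤ K) :
    wk ζ i = wk (fun j : Fin K => ζ j.castSucc) i := by
  unfold wk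
  rw [Fin.sum_univ_castSucc]
  have : ¬ (((Fin.last K : Fin (K + 1)) : ℕ) < i) := by simp; omega
  rw [if_neg this, add_zero]
  rfl

theorem a07_wk_succ {K : ℕ} (ζ : Fin (K + 1) → ℝ) :
    wk ζ (K + 1) = wk (fun j : Fin K => ζ j.castSucc) K + ζ (Fin.last K) := by
  unfold wk
  rw [Fin.sum_univ_castSucc]
  have : (((Fin.last K : Fin (K + 1)) : ℕ) < K + 1) := by simp
  rw [if_pos this]
  congr 1
  refine Finset.sum_congr rfl (fun j _ => ?_)
  have h1 : ((j.castSucc : Fin (K + 1)) : ℕ) < K + 1 := by simp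
  rw [if_pos h1, if_pos j.2]

theorem a07_sk_le {K : ℕ} (ζ : Fin (K + 1) → ℝ) {k : ℕ} (hk : k ≤ K) :
    sk ζ k = sk (fun j : Fin K => ζ j.castSucc) k := by
  unfold sk
  refine Finset.sum_congr rfl (fun i hi => ?_)
  rw [a07_wk_le ζ (by have := (Finset.mem_Icc.mp hi).2; omega)]

theorem a07_sk_succ {K : ℕ} (ζ : Fin (K + 1) → ℝ) :
    sk ζ (K + 1) = sk (fun j : Fin K => ζ j.castSucc) K
      + (wk (fun j : Fin K => ζ j.castSucc) K + ζ (Fin.last K)) / ((K : ℝ) + 1) := by
  have h1 : sk ζ (K + 1) = sk ζ K + wk ζ (K + 1) / ((K + 1 : ℕ) : ℝ) := by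
    unfold sk
    rw [Finset.sum_Icc_succ_top (by omega)]
  rw [h1, a07_sk_le ζ le_rfl, a07_wk_succ]
  push_cast
  rfl

theorem a07_mem_succ {K : ℕ} (ζ : Fin (K + 1) → ℝ) :
    ζ ∈ aliveS (K + 1) ↔ (fun j : Fin K => ζ j.castSucc) ∈ aliveS K ∧
      0 ≤ sk (fun j : Fin K => ζ j.castSucc) K
        + (wk (fun j : Fin K => ζ j.castSucc) K + ζ (Fin.last K)) / ((K : ℝ) + 1) := by
  unfold aliveS
  simp only [Set.mem_ofPred_eq, Finset.mem_Icc]
  rw [← a07_sk_succ]
  constructor
  · intro h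
    refine ⟨fun k hk => ?_, h (K + 1) ⟨by omega, le_rfl⟩⟩
    rw [← a07_sk_le ζ hk.2]
    exact h k ⟨hk.1, by omega⟩
  · rintro ⟨h1, h2⟩ k hk
    rcases Nat.lt_or_ge k (K + 1) with h | h
    · rw [a07_sk_le ζ (by omega)]
      exact h1 k ⟨hk.1, by omega⟩
    · have : k = K + 1 := by omega
      rw [this]
      exact h2

/-- (2) **One more step.** Proof: `MeasureTheory.volume_preserving_piFinSuccAbove`, or rather its
general version `MeasureTheory.measurePreserving_piFinSuccAbove (fun _ => gaussianReal 0 1)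
(Fin.last K)`, transports `gm (K+1)` to `gaussianReal 0 1 × gm K`; under the inverse map
`(t, ξ) ↦ Fin.snoc ξ t` one has `wk (snoc ξ t) i = wk ξ i` for `i ≤ K`,
`wk (snoc ξ t) (K+1) = wk ξ K + t`, `sk (snoc ξ t) k = sk ξ k` for `k ≤ K`,
`sk (snoc ξ t) (K+1) = sk ξ K + (wk ξ K + t) / (K+1)`, so that `snoc ξ t ∈ aliveS (K+1)` iff
`ξ ∈ aliveS K` and `0 ≤ sk ξ K + (wk ξ K + t) / (K+1)`. Write both sides with indicators
(`lintegral_indicator`) and use Tonelli (`lintegral_prod_symm'` or `lintegral_prod`). -/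
theorem a07_J_succ (K : ℕ) (F : ℝ → ℝ → ℝ) (hF : Measurable (fun p : ℝ × ℝ => F p.1 p.2)) :
    J (K + 1) F = ∫⁻ ξ in aliveS K,
      (∫⁻ t in {t : ℝ | 0 ≤ sk ξ K + (wk ξ K + t) / ((K : ℝ) + 1)},
        ENNReal.ofReal (F (sk ξ K + (wk ξ K + t) / ((K : ℝ) + 1)) (wk ξ K + t)) ∂(gaussianReal 0 1))
      ∂(gm K) := by
  have hcs : Continuous (fun p : ℝ × (Fin K → ℝ) =>
      sk p.2 K + (wk p.2 K + p.1) / ((K : ℝ) + 1)) :=
    ((a07_continuous_sk K).comp continuous_snd).add
      ((((a07_continuous_wk K).comp continuous_snd).add continuous_fst).div_const _)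
  have hcw : Continuous (fun p : ℝ × (Fin K → ℝ) => wk p.2 K + p.1) :=
    ((a07_continuous_wk K).comp continuous_snd).add continuous_fst
  obtain ⟨A, hA⟩ : ∃ A : Set (ℝ × (Fin K → ℝ)), A = {p | p.2 ∈ aliveS K ∧
      0 ≤ sk p.2 K + (wk p.2 K + p.1) / ((K : ℝ) + 1)} := ⟨_, rfl⟩
  have hAm : MeasurableSet A := by
    rw [hA]
    exact (((a07_isClosed_alive K).preimage continuous_snd).inter
      (isClosed_le continuous_const hcs)).measurableSet
  obtain ⟨g, hg⟩ : ∃ g : ℝ × (Fin K → ℝ) → ENNReal, g = fun p =>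
      ENNReal.ofReal (F (sk p.2 K + (wk p.2 K + p.1) / ((K : ℝ) + 1)) (wk p.2 K + p.1)) :=
    ⟨_, rfl⟩
  have hgm : Measurable g := by
    rw [hg]
    exact (hF.comp (hcs.measurable.prodMk hcw.measurable)).ennreal_ofReal
  have hGm : Measurable (A.indicator g) := hgm.indicator hAm
  have hmp := measurePreserving_piFinSuccAbove (α := fun _ : Fin (K + 1) => ℝ)
    (fun _ => gaussianReal 0 1) (Fin.last K)
  have h1 : J (K + 1) F = ∫⁻ ζ, A.indicator g
      (MeasurableEquiv.piFinSuccAbove (fun _ : Fin (K + 1) => ℝ) (Fin.last K) ζ) ∂(gm (K + 1)) := by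
    unfold J
    rw [← lintegral_indicator (a07_isClosed_alive (K + 1)).measurableSet]
    refine lintegral_congr (fun ζ => ?_)
    have he : MeasurableEquiv.piFinSuccAbove (fun _ : Fin (K + 1) => ℝ) (Fin.last K) ζ
        = (ζ (Fin.last K), fun j : Fin K => ζ j.castSucc) := by
      simp [MeasurableEquiv.piFinSuccAbove, Fin.insertNthEquiv]
      rfl
    rw [he]
    by_cases hζ : ζ ∈ aliveS (K + 1)
    · rw [Set.indicator_of_mem hζ, Set.indicator_of_mem]
      · rw [hg]
        simp only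
        rw [a07_sk_succ, a07_wk_succ]
      · rw [hA]
        exact (a07_mem_succ ζ).mp hζ
    · rw [Set.indicator_of_notMem hζ, Set.indicator_of_notMem]
      rw [hA]
      exact fun h => hζ ((a07_mem_succ ζ).mpr h)
  rw [h1]
  have h2 : ∫⁻ ζ, A.indicator g
      (MeasurableEquiv.piFinSuccAbove (fun _ : Fin (K + 1) => ℝ) (Fin.last K) ζ) ∂(gm (K + 1))
      = ∫⁻ p, A.indicator g p ∂((gaussianReal 0 1).prod (gm K)) := hmp.lintegral_comp hGm
  rw [h2, lintegral_prod_symm' _ hGm, ← lintegral_indicator (a07_isClosed_alive K).measurableSet]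
  refine lintegral_congr (fun ξ => ?_)
  by_cases hξ : ξ ∈ aliveS K
  · rw [Set.indicator_of_mem hξ, ← lintegral_indicator]
    · refine lintegral_congr (fun t => ?_)
      by_cases ht : t ∈ {t : ℝ | 0 ≤ sk ξ K + (wk ξ K + t) / ((K : ℝ) + 1)}
      · rw [Set.indicator_of_mem ht, Set.indicator_of_mem]
        · rw [hg]
        · rw [hA]
          exact ⟨hξ, ht⟩
      · rw [Set.indicator_of_notMem ht, Set.indicator_of_notMem]
        rw [hA]
        exact fun h => ht h.2
    · exact (isClosed_le continuous_const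
        (continuous_const.add ((continuous_const.add continuous_id).div_const _))).measurableSet
  · rw [Set.indicator_of_notMem hξ]
    have : ∀ t : ℝ, A.indicator g (t, ξ) = 0 := by
      intro t
      rw [Set.indicator_of_notMem]
      rw [hA]
      exact fun h => hξ h.1
    simp [this]

end Pool.H56P
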