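import Pool.Agent.Lib.H56P.Chain
import Pool.Agent.Lib.H56P.A07

set_option autoImplicit false

namespace Pool.H56P

open MeasureTheory ProbabilityTheory Finset

/-- **A08 (S/M).** Scaling identity for one step: with `h = 1/(K+1)`, `x = s/√K`, `w = W/√K`:
`(s + (W+t)/(K+1)) / √(K+1) = sX h x w t` and `(W + t)/√(K+1) = sW h w t`.
Proof: `√(1-h) = √K/√(K+1)`, `√h = 1/√(K+1)`, field_simp. -/
theorem a08_scale (K : ℕ) (hK : 1 ≤ K) (s W t : ℝ) :
    (s + (W + t) / ((K : ℝ) + 1)) / Real.sqrt ((K : ℝ) + 1)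
      = sX (1 / ((K : ℝ) + 1)) (s / Real.sqrt K) (W / Real.sqrt K) t ∧
    (W + t) / Real.sqrt ((K : ℝ) + 1) = sW (1 / ((K : ℝ) + 1)) (W / Real.sqrt K) t := by
  have hK0 : (0 : ℝ) < K := by exact_mod_cast hK
  have hK1 : (0 : ℝ) < (K : ℝ) + 1 := by linarith
  have hs0 : 0 < Real.sqrt K := Real.sqrt_pos.mpr hK0
  have hs1 : 0 < Real.sqrt ((K : ℝ) + 1) := Real.sqrt_pos.mpr hK1
  have e1 : Real.sqrt (1 - 1 / ((K : ℝ) + 1)) = Real.sqrt K / Real.sqrt ((K : ℝ) + 1) := by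
    rw [← Real.sqrt_div hK0.le]
    congr 1
    field_simp
    ring
  have e2 : Real.sqrt (1 / ((K : ℝ) + 1)) = 1 / Real.sqrt ((K : ℝ) + 1) := by
    rw [Real.sqrt_div zero_le_one, Real.sqrt_one]
  have e3 : (W + t) / Real.sqrt ((K : ℝ) + 1)
      = sW (1 / ((K : ℝ) + 1)) (W / Real.sqrt K) t := by
    unfold sW
    rw [e1, e2]
    field_simp
  refine ⟨?_, e3⟩
  unfold sX
  rw [← e3, e1]
  field_simp

/-- the inner integral of one step of the chain is a multiple of the step integral -/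
theorem a08_inner (lam : ℝ) (H : ℝ → ℝ → ℝ) (K : ℕ) (hK : 1 ≤ K) (s W : ℝ) :
    (∫⁻ t in {t : ℝ | 0 ≤ s + (W + t) / ((K : ℝ) + 1)},
        ENNReal.ofReal (sc lam H (K + 1) (s + (W + t) / ((K : ℝ) + 1)) (W + t))
          ∂(gaussianReal 0 1))
      = ENNReal.ofReal (((K : ℝ) + 1) ^ lam) *
        ∫⁻ ξ in {ξ : ℝ | 0 ≤ sX (1 / ((K : ℝ) + 1)) (s / Real.sqrt K) (W / Real.sqrt K) ξ},
          ENNReal.ofReal (H (sX (1 / ((K : ℝ) + 1)) (s / Real.sqrt K) (W / Real.sqrt K) ξ)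
            (sW (1 / ((K : ℝ) + 1)) (W / Real.sqrt K) ξ)) ∂(gaussianReal 0 1) := by
  have hK1 : (0 : ℝ) < (K : ℝ) + 1 := by positivity
  have hs1 : 0 < Real.sqrt ((K : ℝ) + 1) := Real.sqrt_pos.mpr hK1
  have hset : {t : ℝ | 0 ≤ s + (W + t) / ((K : ℝ) + 1)}
      = {ξ : ℝ | 0 ≤ sX (1 / ((K : ℝ) + 1)) (s / Real.sqrt K) (W / Real.sqrt K) ξ} := by
    ext t
    simp only [Set.mem_setOf_eq]
    rw [← (a08_scale K hK s W t).1, le_div_iff₀ hs1, zero_mul]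
  rw [← hset, ← lintegral_const_mul' _ _ ENNReal.ofReal_ne_top]
  refine lintegral_congr fun t => ?_
  rw [← (a08_scale K hK s W t).1, ← (a08_scale K hK s W t).2,
    ← ENNReal.ofReal_mul (Real.rpow_nonneg hK1.le lam)]
  unfold sc
  push_cast
  rfl

theorem a08_const (lam : ℝ) (K : ℕ) (hK : 1 ≤ K) (a : ℝ) :
    ENNReal.ofReal (((K : ℝ) + 1) ^ lam) * ENNReal.ofReal ((1 - 1 / ((K : ℝ) + 1)) ^ lam * a)
      = ENNReal.ofReal ((K : ℝ) ^ lam * a) := by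
  have hK0 : (0 : ℝ) < K := by exact_mod_cast hK
  have hK1 : (0 : ℝ) < (K : ℝ) + 1 := by linarith
  have h1 : 0 ≤ 1 - 1 / ((K : ℝ) + 1) := by
    rw [sub_nonneg, div_le_one hK1]
    linarith
  rw [← ENNReal.ofReal_mul (Real.rpow_nonneg hK1.le lam), ← mul_assoc,
    ← Real.mul_rpow hK1.le h1]
  congr 3
  field_simp
  ring

theorem a08_measurable (lam : ℝ) (H : ℝ → ℝ → ℝ)
    (hH : Continuous (fun p : ℝ × ℝ => H p.1 p.2)) (K : ℕ) :
    Measurable (fun p : ℝ × ℝ => sc lam H K p.1 p.2) := by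
  unfold sc
  have h1 : Continuous (fun p : ℝ × ℝ => H (p.1 / Real.sqrt K) (p.2 / Real.sqrt K)) :=
    hH.comp ((continuous_fst.div_const _).prodMk (continuous_snd.div_const _))
  exact (continuous_const.mul h1).measurable

theorem a08_sk_nonneg {K : ℕ} (hK : 1 ≤ K) {ξ : Fin K → ℝ} (hξ : ξ ∈ aliveS K) :
    0 ≤ sk ξ K := hξ K (Finset.mem_Icc.mpr ⟨hK, le_rfl⟩)

/-- **Supersolution, one step of the chain.**
Proof: `a07_J_succ`; for `ξ` alive the inner integral is, by `a08_scale` (the condition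
`0 ≤ s + (W+t)/(K+1)` is equivalent to `0 ≤ sX ..` after division by `√(K+1) > 0`),
`(K+1)^lam` times the step integral, hence at most
`ofReal ((K+1)^lam (1-h)^lam H (s/√K) (W/√K)) = ofReal (sc lam H K s W)`, as
`(K+1) (1-h) = K`. Use `setLIntegral_mono`-type lemmas. -/
theorem a08_sup_chain (lam : ℝ) (H : ℝ → ℝ → ℝ) (hH : Continuous (fun p : ℝ × ℝ => H p.1 p.2))
    (h0 : ℝ)
    (hstep : ∀ h : ℝ, 0 < h → h ≤ h0 → ∀ x w : ℝ, 0 ≤ x →
      ∫⁻ ξ in {ξ : ℝ | 0 ≤ sX h x w ξ}, ENNReal.ofReal (H (sX h x w ξ) (sW h w ξ)) ∂(gaussianReal 0 1)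
        ≤ ENNReal.ofReal ((1 - h) ^ lam * H x w))
    (K : ℕ) (hK : 1 ≤ K) (hh : 1 / ((K : ℝ) + 1) ≤ h0) :
    J (K + 1) (sc lam H (K + 1)) ≤ J K (sc lam H K) := by
  have hK1 : (0 : ℝ) < (K : ℝ) + 1 := by positivity
  rw [a07_J_succ K _ (a08_measurable lam H hH (K + 1))]
  unfold J
  refine setLIntegral_mono' (a07_isClosed_alive K).measurableSet ?_
  intro ξ hξ
  rw [a08_inner lam H K hK]
  refine le_trans (mul_le_mul_right (hstep (1 / ((K : ℝ) + 1)) (by positivity) hh _ _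
    (div_nonneg (a08_sk_nonneg hK hξ) (Real.sqrt_nonneg _))) _) ?_
  rw [a08_const lam K hK]
  exact le_rfl

/-- **Subsolution, one step of the chain.** Same proof with the opposite inequality. -/
theorem a08_sub_chain (lam : ℝ) (H : ℝ → ℝ → ℝ) (hH : Continuous (fun p : ℝ × ℝ => H p.1 p.2))
    (h0 : ℝ)
    (hstep : ∀ h : ℝ, 0 < h → h ≤ h0 → ∀ x w : ℝ, 0 ≤ x →
      ENNReal.ofReal ((1 - h) ^ lam * H x w) ≤
      ∫⁻ ξ in {ξ : ℝ | 0 ≤ sX h x w ξ}, ENNReal.ofReal (H (sX h x w ξ) (sW h w ξ)) ∂(gaussianReal 0 1))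
    (K : ℕ) (hK : 1 ≤ K) (hh : 1 / ((K : ℝ) + 1) ≤ h0) :
    J K (sc lam H K) ≤ J (K + 1) (sc lam H (K + 1)) := by
  have hK1 : (0 : ℝ) < (K : ℝ) + 1 := by positivity
  rw [a07_J_succ K _ (a08_measurable lam H hH (K + 1))]
  unfold J
  refine setLIntegral_mono' (a07_isClosed_alive K).measurableSet ?_
  intro ξ hξ
  rw [a08_inner lam H K hK]
  refine le_trans ?_ (mul_le_mul_right (hstep (1 / ((K : ℝ) + 1)) (by positivity) hh _ _
    (div_nonneg (a08_sk_nonneg hK hξ) (Real.sqrt_nonneg _))) _)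
  rw [a08_const lam K hK]
  exact le_rfl

end Pool.H56P
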