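import Pool.Agent.Lib.H56P.Chain
import Pool.Agent.Lib.H56P.A07

set_option autoImplicit false

namespace Pool.H56P

open MeasureTheory ProbabilityTheory Finset

theorem a09_wk {K : ℕ} (ξ : Fin K → ℝ) (i : ℕ) : |wk ξ i| ≤ ∑ j, |ξ j| := by
  unfold wk
  refine (abs_sum_le_sum_abs _ _).trans (sum_le_sum fun j _ => ?_)
  split_ifs
  · exact le_rfl
  · rw [abs_zero]
    exact abs_nonneg _

theorem a09_sk {K : ℕ} (ξ : Fin K → ℝ) : |sk ξ K| ≤ K * ∑ j, |ξ j| := by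
  unfold sk
  refine (abs_sum_le_sum_abs _ _).trans ?_
  have h1 : ∀ i ∈ Icc 1 K, |wk ξ i / i| ≤ ∑ j, |ξ j| := by
    intro i hi
    have hi1 : (1 : ℝ) ≤ i := by exact_mod_cast (mem_Icc.mp hi).1
    rw [abs_div, Nat.abs_cast]
    exact (div_le_self (abs_nonneg _) hi1).trans (a09_wk ξ i)
  refine (sum_le_sum h1).trans ?_
  rw [sum_const, Nat.card_Icc, Nat.add_sub_cancel, nsmul_eq_mul]

theorem a09_bound {K : ℕ} (ξ : Fin K → ℝ) (F : ℝ → ℝ → ℝ) (c : ℝ)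
    (hF : ∀ s w, F s w ≤ c * (1 + s ^ 2 + w ^ 2)) :
    F (sk ξ K) (wk ξ K) ≤ |c| * (1 + ((K : ℝ) ^ 2 + 1) * (K * ∑ j, ξ j ^ 2)) := by
  have h1 : (∑ j, |ξ j|) ^ 2 ≤ K * ∑ j, ξ j ^ 2 := by
    have h := sq_sum_le_card_mul_sum_sq (s := (Finset.univ : Finset (Fin K))) (f := fun j => |ξ j|)
    simp only [sq_abs, card_univ, Fintype.card_fin] at h
    exact h
  have h2 : sk ξ K ^ 2 ≤ (K : ℝ) ^ 2 * (∑ j, |ξ j|) ^ 2 := by
    rw [← sq_abs, ← mul_pow]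
    exact pow_le_pow_left₀ (abs_nonneg _) (a09_sk ξ) 2
  have h3 : wk ξ K ^ 2 ≤ (∑ j, |ξ j|) ^ 2 := by
    rw [← sq_abs]
    exact pow_le_pow_left₀ (abs_nonneg _) (a09_wk ξ K) 2
  refine (hF _ _).trans ?_
  have h4 : c * (1 + sk ξ K ^ 2 + wk ξ K ^ 2) ≤ |c| * (1 + sk ξ K ^ 2 + wk ξ K ^ 2) :=
    mul_le_mul_of_nonneg_right (le_abs_self c) (by positivity)
  refine h4.trans (mul_le_mul_of_nonneg_left ?_ (abs_nonneg _))
  have h5 : ((K : ℝ) ^ 2 + 1) * (∑ j, |ξ j|) ^ 2 ≤ ((K : ℝ) ^ 2 + 1) * (K * ∑ j, ξ j ^ 2) :=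
    mul_le_mul_of_nonneg_left h1 (by positivity)
  linarith

theorem a09_int (K : ℕ) (j : Fin K) : Integrable (fun ξ : Fin K → ℝ => ξ j ^ 2) (gm K) := by
  have h1 : Integrable (fun x : ℝ => x ^ 2) (gaussianReal 0 1) := by
    have h2 : MemLp id 2 (gaussianReal 0 1) := memLp_id_gaussianReal 2
    exact h2.integrable_sq
  have h3 : MeasurePreserving (fun ξ : Fin K → ℝ => ξ j) (gm K) (gaussianReal 0 1) := by
    unfold gm
    exact measurePreserving_eval (fun _ : Fin K => gaussianReal 0 1) j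
  exact h3.integrable_comp_of_integrable h1

/-- **A09 (S/M).** `J` is finite for functions of quadratic growth.
Proof: `|wk ξ i| ≤ ∑ |ξ_j|` and `|sk ξ K| ≤ K ∑ |ξ_j|`, so
`F (sk) (wk) ≤ c (1 + (K^2+1) (∑ |ξ_j|)^2) ≤ c (1 + (K^2+1) K ∑ ξ_j^2)`, and
`∫⁻ ofReal (ξ_j^2) ∂(gm K) < ⊤` for each `j` (coordinate projections of a product measure are
measure preserving: `measurePreserving_eval`; second moment of the Gaussian). -/
theorem a09_J_lt_top (K : ℕ) (F : ℝ → ℝ → ℝ) (c : ℝ) (hF : ∀ s w, F s w ≤ c * (1 + s ^ 2 + w ^ 2)) :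
    J K F < ⊤ := by
  have hint : Integrable (fun ξ : Fin K → ℝ => |c| * (1 + ((K : ℝ) ^ 2 + 1) * (K * ∑ j, ξ j ^ 2))) (gm K) := by
    apply Integrable.const_mul
    apply Integrable.add (integrable_const _)
    apply Integrable.const_mul
    apply Integrable.const_mul
    exact integrable_finsetSum _ (fun j _ => a09_int K j)
  have h1 : J K F ≤ ∫⁻ ξ, ENNReal.ofReal (|c| * (1 + ((K : ℝ) ^ 2 + 1) * (K * ∑ j, ξ j ^ 2))) ∂(gm K) := by
    unfold J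
    refine (setLIntegral_le_lintegral _ _).trans (lintegral_mono fun ξ => ?_)
    exact ENNReal.ofReal_le_ofReal (a09_bound ξ F c hF)
  exact h1.trans_lt hint.lintegral_lt_top

end Pool.H56P
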