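import Pool.Agent.Lib.H56P.Chain
import Pool.Agent.Lib.H56P.A07

set_option autoImplicit false

namespace Pool.H56P

open MeasureTheory ProbabilityTheory Finset

/-- **A10 (S).** The product Gaussian measure is positive on nonempty open sets.
Proof: `Measure.pi` of open-positive measures is open-positive
(`MeasureTheory.Measure.pi.isOpenPosMeasure`); `gaussianReal 0 1` is open-positive because it has
the positive density `gaussianPDF` with respect to Lebesgue measure (or `gaussianReal` has an
instance / `IsOpenPosMeasure` lemma). -/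
theorem a10_gm_pos (K : ℕ) (U : Set (Fin K → ℝ)) (hU : IsOpen U) (hne : U.Nonempty) :
    0 < gm K U := by
  have h1 : (gaussianReal 0 1).IsOpenPosMeasure :=
    (gaussianReal_absolutelyContinuous' 0 (one_ne_zero)).isOpenPosMeasure
  have h2 : (gm K).IsOpenPosMeasure := by
    unfold gm
    infer_instance
  exact hU.measure_pos (gm K) hne

/-- the path -/
noncomputable def a10_path (K : ℕ) (s0 w : ℝ) : Fin K → ℝ := fun j =>
  (if (j : ℕ) = 0 then s0 else 0) + (if (j : ℕ) = 1 then -s0 else 0) +
    (if (j : ℕ) = K - 1 then w else 0)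

theorem a10_single (K : ℕ) (m : ℕ) (hm : m < K) (v : ℝ) (i : ℕ) :
    ∑ j : Fin K, (if (j : ℕ) < i then (if (j : ℕ) = m then v else 0) else 0) =
      if m < i then v else 0 := by
  rw [Finset.sum_eq_single (⟨m, hm⟩ : Fin K)]
  · simp
  · intro b _ hb
    have : (b : ℕ) ≠ m := fun h => hb (Fin.ext h)
    simp [this]
  · intro h
    exact absurd (Finset.mem_univ _) h

theorem a10_wk (K : ℕ) (hK : 2 ≤ K) (s0 w : ℝ) (i : ℕ) :
    wk (a10_path K s0 w) i = (if 0 < i then s0 else 0) + (if 1 < i then -s0 else 0) +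
      (if K - 1 < i then w else 0) := by
  rw [← a10_single K 0 (by omega) s0 i, ← a10_single K 1 (by omega) (-s0) i,
    ← a10_single K (K - 1) (by omega) w i, ← Finset.sum_add_distrib, ← Finset.sum_add_distrib]
  unfold wk a10_path
  refine Finset.sum_congr rfl fun j _ => ?_
  by_cases h : (j : ℕ) < i
  · simp only [if_pos h]
  · simp only [if_neg h]
    ring

theorem a10_sk_succ {K : ℕ} (ξ : Fin K → ℝ) (k : ℕ) :
    sk ξ (k + 1) = sk ξ k + wk ξ (k + 1) / ((k + 1 : ℕ) : ℝ) := by
  unfold sk
  rw [Finset.sum_Icc_succ_top (by omega)]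

theorem a10_sk_lt (K : ℕ) (hK : 2 ≤ K) (s0 w : ℝ) (k : ℕ) (h1 : 1 ≤ k) (h2 : k < K) :
    sk (a10_path K s0 w) k = s0 := by
  induction k, h1 using Nat.le_induction with
  | base =>
    have h := a10_sk_succ (a10_path K s0 w) 0
    rw [zero_add] at h
    rw [h, a10_wk K hK]
    have : ¬ (K - 1 < 1) := by omega
    simp [sk, this]
  | succ k hk ih =>
    rw [a10_sk_succ, ih (by omega), a10_wk K hK]
    have h3 : ¬ (K - 1 < k + 1) := by omega
    have h4 : 1 < k + 1 := by omega
    simp [h3, h4]

theorem a10_sk_top (K : ℕ) (hK : 2 ≤ K) (s0 w : ℝ) :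
    sk (a10_path K s0 w) K = s0 + w / K := by
  obtain ⟨k, rfl⟩ : ∃ k, K = k + 1 := ⟨K - 1, by omega⟩
  rw [a10_sk_succ, a10_sk_lt (k + 1) hK s0 w k (by omega) (by omega), a10_wk (k + 1) hK]
  have h4 : 1 < k + 1 := by omega
  simp only [h4, if_true]
  simp

theorem a10_wk_top (K : ℕ) (hK : 2 ≤ K) (s0 w : ℝ) :
    wk (a10_path K s0 w) K = w := by
  rw [a10_wk K hK]
  have h3 : K - 1 < K := by omega
  have h4 : 1 < K := by omega
  have h5 : 0 < K := by omega
  simp [h3, h4, h5]

/-- **A10 (M).** Positivity of `J` for a continuous `F` positive at an accessible point.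
Proof: take the path `ξ_0 = s0 := s - w/K`, `ξ_1 = -s0` (if `3 ≤ K`; then `W_i = 0` for
`2 ≤ i < K`), the other `ξ_i = 0`, and the last coordinate so that `W_K = w` (for `K = 2`:
`ξ_1 = w - s0`). Then `S_k = s0 > 0` for `1 ≤ k < K` and `S_K = s0 + w/K = s > 0`, `W_K = w`. The set
of `ξ` with `0 < S_k` for all `1 ≤ k ≤ K` and `F (S_K) (W_K) > F s w / 2` is open, contains this
path and is contained in `aliveS K`; its measure is positive (`a10_gm_pos`), so `J > 0`. -/
theorem a10_J_pos (K : ℕ) (hK : 2 ≤ K) (F : ℝ → ℝ → ℝ) (hF : Continuous (fun p : ℝ × ℝ => F p.1 p.2))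
    (s w : ℝ) (hs : 0 < s) (hsw : 0 < s - w / K) (hpos : 0 < F s w) :
    0 < J K F := by
  set U : Set (Fin K → ℝ) := (⋂ k ∈ Icc 1 K, {ξ | 0 < sk ξ k}) ∩
    {ξ | F s w / 2 < F (sk ξ K) (wk ξ K)} with hU
  have hUo : IsOpen U := by
    apply IsOpen.inter
    · apply isOpen_biInter_finset
      intro k _
      exact isOpen_lt continuous_const (a07_continuous_sk k)
    · exact isOpen_lt continuous_const
        (hF.comp ((a07_continuous_sk K).prodMk (a07_continuous_wk K)))
  have htop : sk (a10_path K (s - w / K) w) K = s := by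
    rw [a10_sk_top K hK]
    ring
  have hne : U.Nonempty := by
    refine ⟨a10_path K (s - w / K) w, ?_, ?_⟩
    · simp only [Set.mem_iInter, Set.mem_ofPred_eq]
      intro k hk
      rw [Finset.mem_Icc] at hk
      by_cases h : k = K
      · rw [h, htop]
        exact hs
      · rw [a10_sk_lt K hK _ _ k hk.1 (by omega)]
        exact hsw
    · show F s w / 2 < F (sk (a10_path K (s - w / K) w) K) (wk (a10_path K (s - w / K) w) K)
      rw [htop, a10_wk_top K hK]
      linarith
  have hsub : U ⊆ aliveS K := by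
    intro ξ hξ k hk
    have := Set.mem_iInter₂.mp hξ.1 k hk
    exact le_of_lt this
  have hm := a10_gm_pos K U hUo hne
  have hle : ENNReal.ofReal (F s w / 2) * gm K U ≤ J K F := by
    unfold J
    rw [← setLIntegral_const]
    refine le_trans ?_ (lintegral_mono_set hsub)
    refine setLIntegral_mono' hUo.measurableSet fun ξ hξ => ?_
    exact ENNReal.ofReal_le_ofReal (le_of_lt hξ.2)
  refine lt_of_lt_of_le ?_ hle
  refine ENNReal.mul_pos ?_ hm.ne'
  exact (ENNReal.ofReal_pos.mpr (by linarith)).ne'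

end Pool.H56P
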