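import Pool.Agent.Lib.H56P.Chain
import Pool.Agent.Lib.H56P.A05
import Pool.Agent.Lib.H56P.A06
import Pool.Agent.Lib.H56P.A08
import Pool.Agent.Lib.H56P.A09
import Pool.Agent.Lib.H56P.A10

set_option autoImplicit false

namespace Pool.H56P

open MeasureTheory ProbabilityTheory Finset

theorem a11_small {h0 : ℝ} (h : 0 < h0) : ∃ N : ℕ, 1 ≤ N ∧ ∀ K : ℕ, N ≤ K →
    1 / ((K : ℝ) + 1) ≤ h0 := by
  obtain ⟨N, hN⟩ := exists_nat_ge (1 / h0)
  refine ⟨N + 1, by omega, fun K hK => ?_⟩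
  have h1 : (N : ℝ) + 1 ≤ K := by exact_mod_cast hK
  have h2 : 1 / h0 ≤ (K : ℝ) + 1 := by linarith
  rw [div_le_iff₀ (by positivity)]
  rw [div_le_iff₀ h] at h2
  linarith

theorem a11_alive_sk {K : ℕ} (hK : 1 ≤ K) {ξ : Fin K → ℝ} (h : ξ ∈ aliveS K) : 0 ≤ sk ξ K :=
  h K (by rw [Finset.mem_Icc]; omega)

/-- **A11 (M).** Supersolution theorem for `pK`.
Proof: `a05_sup_step` and `a08_sup_chain` give `K0 ≥ 1` with
`J (K+1) (sc lam H (K+1)) ≤ J K (sc lam H K)` for `K ≥ K0`, so `J K (sc ..) ≤ M := J K0 (sc ..) < ⊤`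
(`a09_J_lt_top` with `hN.bH`) for `K ≥ K0` (`Nat.le_induction`). On `aliveS K` (where `0 ≤ sk ξ K`)
`sc lam H K (sk) (wk) ≥ K^lam ε`, so `ofReal (K^lam ε) * gm K (aliveS K) ≤ J K (sc ..) ≤ M`. Hence
`pK K ≤ (M.toReal / ε) K^(-lam)` for `K ≥ K0`. -/
theorem a11_sup_pK {H Hx Hw Hww : ℝ → ℝ → ℝ} {C : ℝ} (hN : Nice H Hx Hw Hww C)
    (lam ε η : ℝ) (hl0 : 0 < lam) (hl1 : lam < 1) (hε : 0 < ε) (hη : 0 < η)
    (hpos : ∀ x w, 0 ≤ x → ε * (1 + x ^ 2 + w ^ 2) ≤ H x w)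
    (hgen : ∀ x w, 0 ≤ x → gen Hx Hw Hww x w + lam * H x w ≤ -η * (1 + x ^ 2 + w ^ 2)) :
    ∃ (K0 : ℕ) (c : ℝ), 0 < c ∧ ∀ K : ℕ, K0 ≤ K → pK K ≤ c * (K : ℝ) ^ (-lam) := by
  obtain ⟨h0, hh0, -, hstep⟩ := a05_sup_step hN lam ε η hl0 hl1 hε hη hpos hgen
  obtain ⟨K0, hK0, hsmall⟩ := a11_small hh0
  have hmono : ∀ K, K0 ≤ K → J K (sc lam H K) ≤ J K0 (sc lam H K0) := by
    intro K hK
    induction K, hK using Nat.le_induction with
    | base => exact le_rfl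
    | succ K hK ih =>
      exact (a08_sup_chain lam H hN.cont h0 hstep K (hK0.trans hK) (hsmall K hK)).trans ih
  have hfin : J K0 (sc lam H K0) < ⊤ := by
    apply a09_J_lt_top K0 _ ((K0 : ℝ) ^ lam * C)
    intro s w
    unfold sc
    have hK0' : (1 : ℝ) ≤ K0 := by exact_mod_cast hK0
    have h1 := (le_abs_self _).trans (hN.bH (s / Real.sqrt K0) (w / Real.sqrt K0))
    rw [div_pow, div_pow, Real.sq_sqrt (by linarith)] at h1
    have h2 : s ^ 2 / (K0 : ℝ) ≤ s ^ 2 := div_le_self (sq_nonneg s) hK0'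
    have h3 : w ^ 2 / (K0 : ℝ) ≤ w ^ 2 := div_le_self (sq_nonneg w) hK0'
    have hp : (0 : ℝ) ≤ (K0 : ℝ) ^ lam := Real.rpow_nonneg (by linarith) _
    rw [mul_assoc]
    refine mul_le_mul_of_nonneg_left (h1.trans ?_) hp
    exact mul_le_mul_of_nonneg_left (by linarith) hN.pos.le
  refine ⟨K0, (J K0 (sc lam H K0)).toReal / ε + 1, by positivity, fun K hK => ?_⟩
  have hK1 : 1 ≤ K := hK0.trans hK
  have hKpos : (0 : ℝ) < K := by exact_mod_cast hK1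
  have hKp : (0 : ℝ) < (K : ℝ) ^ lam := Real.rpow_pos_of_pos hKpos _
  have hlow : ENNReal.ofReal ((K : ℝ) ^ lam * ε) * gm K (aliveS K) ≤ J K (sc lam H K) := by
    unfold J
    rw [← setLIntegral_const]
    refine setLIntegral_mono' (a07_isClosed_alive K).measurableSet fun ξ hξ => ?_
    apply ENNReal.ofReal_le_ofReal
    unfold sc
    refine mul_le_mul_of_nonneg_left ?_ hKp.le
    have hx : 0 ≤ sk ξ K / Real.sqrt K := div_nonneg (a11_alive_sk hK1 hξ) (Real.sqrt_nonneg _)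
    refine le_trans ?_ (hpos _ (wk ξ K / Real.sqrt K) hx)
    have : 0 ≤ (sk ξ K / Real.sqrt K) ^ 2 := sq_nonneg _
    have : 0 ≤ (wk ξ K / Real.sqrt K) ^ 2 := sq_nonneg _
    nlinarith
  have h1 := hlow.trans (hmono K hK)
  have h2 := ENNReal.toReal_mono hfin.ne h1
  rw [ENNReal.toReal_mul, ENNReal.toReal_ofReal (by positivity)] at h2
  have h3 : (K : ℝ) ^ lam * ε * pK K ≤ (J K0 (sc lam H K0)).toReal := h2
  rw [Real.rpow_neg hKpos.le, ← div_eq_mul_inv, le_div_iff₀ hKp]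
  have h4 : pK K * (K : ℝ) ^ lam ≤ (J K0 (sc lam H K0)).toReal / ε := by
    rw [le_div_iff₀ hε]
    linarith
  linarith

/-- **A11 (M).** Subsolution theorem for `pK`.
Proof: `a06_sub_step` and `a08_sub_chain` give `K0` with `J K (sc ..) ≤ J (K+1) (sc ..)` for
`K ≥ K0`. Choose `K1 ≥ max K0 2` with `√K1 x1 - w1/√K1 > 0`; then `0 < J K1 (sc lam H K1)`
(`a10_J_pos` at `s = √K1 x1`, `w = √K1 w1`). As `H ≤ B` everywhere,
`J K (sc ..) ≤ ofReal (K^lam B) * gm K (aliveS K)`, so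
`pK K ≥ (J K1 (sc ..)).toReal / B * K^(-lam)` for `K ≥ K1` (the `J` are finite: `a09_J_lt_top`). -/
theorem a11_sub_pK {H Hx Hw Hww : ℝ → ℝ → ℝ} {C : ℝ} (hN : Nice H Hx Hw Hww C)
    (lam ε η B : ℝ) (hl0 : 0 < lam) (hl1 : lam < 1) (hε : 0 < ε) (hη : 0 < η) (hB : 0 < B)
    (hbd : ∀ x w, H x w ≤ B)
    (hb : ∀ w, w ≤ 0 → H 0 w ≤ -ε * (1 + w ^ 2))
    (hgen : ∀ x w, 0 ≤ x → 0 ≤ H x w → η * (1 + x ^ 2 + w ^ 2) ≤ gen Hx Hw Hww x w + lam * H x w)
    (x1 w1 : ℝ) (hx1 : 0 < x1) (h1 : 0 < H x1 w1) :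
    ∃ (K1 : ℕ) (c : ℝ), 0 < c ∧ ∀ K : ℕ, K1 ≤ K → c * (K : ℝ) ^ (-lam) ≤ pK K := by
  obtain ⟨h0, hh0, -, hstep⟩ := a06_sub_step hN lam ε η hl0 hl1 hε hη hb hgen
  obtain ⟨K0, hK0, hsmall⟩ := a11_small hh0
  obtain ⟨N, hN1⟩ := exists_nat_gt (w1 / x1)
  set K1 := max (max K0 2) N with hK1
  have hK1a : K0 ≤ K1 := (le_max_left _ _).trans (le_max_left _ _)
  have hK1b : 2 ≤ K1 := (le_max_right _ _).trans (le_max_left _ _)
  have hK1c : N ≤ K1 := le_max_right _ _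
  have hmono : ∀ K, K1 ≤ K → J K1 (sc lam H K1) ≤ J K (sc lam H K) := by
    intro K hK
    induction K, hK using Nat.le_induction with
    | base => exact le_rfl
    | succ K hK ih =>
      exact ih.trans (a08_sub_chain lam H hN.cont h0 hstep K ((hK0.trans hK1a).trans hK)
        (hsmall K (hK1a.trans hK)))
  have hupp : ∀ K, 1 ≤ K → J K (sc lam H K) ≤
      ENNReal.ofReal ((K : ℝ) ^ lam * B) * gm K (aliveS K) := by
    intro K hK
    unfold J
    rw [← setLIntegral_const]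
    refine setLIntegral_mono' (a07_isClosed_alive K).measurableSet fun ξ hξ => ?_
    apply ENNReal.ofReal_le_ofReal
    unfold sc
    exact mul_le_mul_of_nonneg_left (hbd _ _) (Real.rpow_nonneg (by positivity) _)
  have hK1pos : (0 : ℝ) < K1 := by
    have : 0 < K1 := by omega
    exact_mod_cast this
  have hsq : 0 < Real.sqrt K1 := Real.sqrt_pos.mpr hK1pos
  have hJpos : 0 < J K1 (sc lam H K1) := by
    apply a10_J_pos K1 hK1b (sc lam H K1) _ (Real.sqrt K1 * x1) (Real.sqrt K1 * w1)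
      (mul_pos hsq hx1)
    · have hw : w1 / K1 < x1 := by
        rw [div_lt_iff₀ hK1pos]
        rw [div_lt_iff₀ hx1] at hN1
        have : (N : ℝ) ≤ K1 := by exact_mod_cast hK1c
        nlinarith
      have e : Real.sqrt K1 * x1 - Real.sqrt K1 * w1 / K1 = Real.sqrt K1 * (x1 - w1 / K1) := by
        ring
      rw [e]
      exact mul_pos hsq (by linarith)
    · unfold sc
      rw [mul_div_cancel_left₀ _ hsq.ne', mul_div_cancel_left₀ _ hsq.ne']
      exact mul_pos (Real.rpow_pos_of_pos hK1pos _) h1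
    · unfold sc
      have hc := hN.cont
      exact continuous_const.mul (hc.comp (by fun_prop :
        Continuous (fun p : ℝ × ℝ => (p.1 / Real.sqrt K1, p.2 / Real.sqrt K1))))
  have hJfin : J K1 (sc lam H K1) < ⊤ := by
    refine lt_of_le_of_lt (hupp K1 (by omega)) ?_
    exact ENNReal.mul_lt_top ENNReal.ofReal_lt_top (measure_lt_top _ _)
  have hJr : 0 < (J K1 (sc lam H K1)).toReal := ENNReal.toReal_pos hJpos.ne' hJfin.ne
  refine ⟨K1, (J K1 (sc lam H K1)).toReal / B, by positivity, fun K hK => ?_⟩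
  have hK2 : 1 ≤ K := by omega
  have hKpos : (0 : ℝ) < K := by exact_mod_cast hK2
  have hKp : (0 : ℝ) < (K : ℝ) ^ lam := Real.rpow_pos_of_pos hKpos _
  have h2 := (hmono K hK).trans (hupp K hK2)
  have h3 := ENNReal.toReal_mono
    (ENNReal.mul_lt_top ENNReal.ofReal_lt_top (measure_lt_top _ _)).ne h2
  rw [ENNReal.toReal_mul, ENNReal.toReal_ofReal (by positivity)] at h3
  have h4 : (J K1 (sc lam H K1)).toReal ≤ (K : ℝ) ^ lam * B * pK K := h3
  rw [Real.rpow_neg hKpos.le, ← div_eq_mul_inv, div_le_iff₀ hKp, div_le_iff₀ hB]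
  linarith

end Pool.H56P
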