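import Pool.Agent.Lib.H56P.Chain
import Pool.Agent.Lib.H56P.A11
import Pool.Agent.Lib.GPX.Ident

set_option autoImplicit false

namespace Pool.H56P

open MeasureTheory ProbabilityTheory Finset

/-- `pK` is the persistence probability `gB 1 K 0` of Lib/GPX.
Proof: as `persistenceProb_eq` in Results/MP_08fd0c_co/DecayExponent.lean (copy it). -/
theorem a12_pK_eq (K : ℕ) : pK K = Pool.GP.gB 1 K 0 := by
  unfold pK gm aliveS Pool.GP.gB Pool.GP.gam
  congr 1
  ext ξ
  have h : ∀ k ∈ Icc 1 K, Pool.GP.Sk (fun i : Fin K => Pool.GP.Wg ξ i / ((i:ℝ)+1)) k = sk ξ k := by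
    intro k hk
    rw [Finset.mem_Icc] at hk
    unfold sk
    rw [← Pool.GP.Sk_toIcc hk.2 (fun m => wk ξ m / m)]
    congr 1
    funext i
    have h1 : Pool.GP.Wg ξ i = wk ξ ((i:ℕ)+1) := by
      unfold Pool.GP.Wg wk
      refine Finset.sum_congr rfl fun j _ => ?_
      have : j ≤ i ↔ (j:ℕ) < (i:ℕ) + 1 := by rw [Fin.le_def]; omega
      simp only [this]
    rw [h1]
    push_cast
    rfl
  constructor
  · intro h1 k hk
    rw [h k hk]
    simpa using h1 k hk
  · intro h1 k hk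
    have := h1 k hk
    rw [h k hk] at this
    simpa using this

open Filter Topology

theorem a12_lim (lam c : ℝ) : Tendsto (fun K : ℕ => lam - Real.log c / Real.log K) atTop (𝓝 lam) := by
  have h1 : Tendsto (fun K : ℕ => Real.log K) atTop atTop :=
    Real.tendsto_log_atTop.comp tendsto_natCast_atTop_atTop
  have h2 : Tendsto (fun K : ℕ => Real.log c / Real.log K) atTop (𝓝 0) :=
    tendsto_const_nhds.div_atTop h1
  have h3 := (tendsto_const_nhds (x := lam)).sub h2
  rw [sub_zero] at h3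
  exact h3

theorem a12_pos : ∀ᶠ K : ℕ in atTop, 2 ≤ K ∧ 0 < Pool.GP.gB 1 K 0 := by
  filter_upwards [Pool.GP.gB_lower_theta 1 one_pos, eventually_ge_atTop 2] with K h1 h2
  refine ⟨h2, lt_of_lt_of_le ?_ h1⟩
  have : (2:ℝ) ≤ K := by exact_mod_cast h2
  positivity

/-- **A12 (S/M).** From `pK K ≤ c K^(-lam)` to `lam ≤ theta`: `Pool.GP.gB_tendsto` and
`-log (pK K) / log K ≥ lam - log c / log K` for large `K` (note `0 < pK K` is needed for the
logarithm: it follows from `Pool.GP.gB_lower_theta` eventually, or `log` of a nonpositive number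
cannot occur because eventually `K^(-(theta+1)) ≤ gB 1 K 0`). -/
theorem a12_le_theta (lam c : ℝ) (hc : 0 < c) (K0 : ℕ)
    (h : ∀ K : ℕ, K0 ≤ K → pK K ≤ c * (K : ℝ) ^ (-lam)) : lam ≤ Pool.GP.theta := by
  refine le_of_tendsto_of_tendsto (a12_lim lam c) Pool.GP.gB_tendsto ?_
  filter_upwards [a12_pos, eventually_ge_atTop K0] with K h1 h2
  obtain ⟨h3, h4⟩ := h1
  have h5 : (2:ℝ) ≤ K := by exact_mod_cast h3
  have hK : (0:ℝ) < K := by linarith
  have hlog : 0 < Real.log K := Real.log_pos (by linarith)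
  have h6 := h K h2
  rw [a12_pK_eq] at h6
  have h7 := Real.log_le_log h4 h6
  rw [Real.log_mul hc.ne' (Real.rpow_pos_of_pos hK _).ne', Real.log_rpow hK] at h7
  rw [le_div_iff₀ hlog, sub_mul, div_mul_cancel₀ _ hlog.ne']
  linarith

theorem a12_theta_le (lam c : ℝ) (hc : 0 < c) (K0 : ℕ)
    (h : ∀ K : ℕ, K0 ≤ K → c * (K : ℝ) ^ (-lam) ≤ pK K) : Pool.GP.theta ≤ lam := by
  refine le_of_tendsto_of_tendsto Pool.GP.gB_tendsto (a12_lim lam c) ?_
  filter_upwards [a12_pos, eventually_ge_atTop K0] with K h1 h2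
  obtain ⟨h3, h4⟩ := h1
  have h5 : (2:ℝ) ≤ K := by exact_mod_cast h3
  have hK : (0:ℝ) < K := by linarith
  have hlog : 0 < Real.log K := Real.log_pos (by linarith)
  have h6 := h K h2
  rw [a12_pK_eq] at h6
  have h7 := Real.log_le_log (mul_pos hc (Real.rpow_pos_of_pos hK _)) h6
  rw [Real.log_mul hc.ne' (Real.rpow_pos_of_pos hK _).ne', Real.log_rpow hK] at h7
  rw [div_le_iff₀ hlog, sub_mul, div_mul_cancel₀ _ hlog.ne']
  linarith

end Pool.H56P
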