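import Pool.Agent.Lib.H56P.Defs

set_option autoImplicit false

namespace Pool.H56P

open Finset

/-- **B01 (S/M).** Basic facts on the truncated power sums `tpS`. All by induction on the lists
(`induction al generalizing ta; cases ta; simp [tpS]`). -/
theorem b01_continuous (e : ℕ) (al ta : List ℤ) : Continuous (tpS e al ta) := by
  induction al generalizing ta with
  | nil =>
    have : tpS e [] ta = fun _ => 0 := by
      funext x
      simp [tpS]
    rw [this]
    exact continuous_const
  | cons a al ih =>
    cases ta with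
    | nil =>
      have : tpS e (a :: al) [] = fun _ => 0 := by
        funext x
        simp [tpS]
      rw [this]
      exact continuous_const
    | cons t ta =>
      have : tpS e (a :: al) (t :: ta) =
          fun x => (a : ℝ) * (max (x - (t : ℝ)) 0) ^ e + tpS e al ta x := by
        funext x
        simp [tpS]
      rw [this]
      have h := ih ta
      fun_prop

/-- `d/dx (max (x - τ) 0)^(e+1) = (e+1) (max (x - τ) 0)^e` for `e ≥ 1`.
Proof: for `x < τ` and `x > τ` locally equal to `0` resp. `(x - τ)^(e+1)`; at `x = τ` the quotient is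
`O(|x - τ|^e) → 0`. -/
theorem b01_hasDerivAt_max (e : ℕ) (he : 1 ≤ e) (τ x : ℝ) :
    HasDerivAt (fun x : ℝ => (max (x - τ) 0) ^ (e + 1)) ((e + 1 : ℝ) * (max (x - τ) 0) ^ e) x := by
  rcases lt_trichotomy x τ with h | h | h
  · have h0 : max (x - τ) 0 = 0 := max_eq_right (by linarith)
    rw [h0, zero_pow (by omega), mul_zero]
    refine (hasDerivAt_const x (0 : ℝ)).congr_of_eventuallyEq ?_
    filter_upwards [gt_mem_nhds h] with y hy
    rw [max_eq_right (by linarith), zero_pow (by omega)]
  · subst h
    have h0 : max (x - x) 0 = 0 := by simp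
    rw [h0, zero_pow (by omega), mul_zero, hasDerivAt_iff_isLittleO]
    have h1 := Asymptotics.isLittleO_pow_sub_sub (E' := ℝ) x (m := e + 1) (by omega)
    refine Asymptotics.IsBigO.trans_isLittleO ?_ h1
    refine Asymptotics.IsBigO.of_bound 1 (Filter.Eventually.of_forall fun y => ?_)
    have h2 : max (x - x) 0 = 0 := by simp
    rw [h2, zero_pow (by omega), smul_zero, sub_zero, sub_zero, one_mul, norm_pow, norm_pow,
      norm_norm]
    refine pow_le_pow_left₀ (norm_nonneg _) ?_ _
    rw [Real.norm_eq_abs, Real.norm_eq_abs, abs_of_nonneg (le_max_right _ _)]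
    exact max_le (le_abs_self _) (abs_nonneg _)
  · have h0 : max (x - τ) 0 = x - τ := max_eq_left (by linarith)
    rw [h0]
    have h1 : HasDerivAt (fun y : ℝ => (y - τ) ^ (e + 1)) ((e + 1 : ℝ) * (x - τ) ^ e) x := by
      have := ((hasDerivAt_id x).sub_const τ).pow (e + 1)
      refine this.congr_deriv ?_
      simp
    refine h1.congr_of_eventuallyEq ?_
    filter_upwards [lt_mem_nhds h] with y hy
    rw [max_eq_left (by linarith)]

theorem b01_hasDerivAt (e : ℕ) (he : 1 ≤ e) (al ta : List ℤ) (x : ℝ) :
    HasDerivAt (tpS (e + 1) al ta) ((e + 1 : ℝ) * tpS e al ta x) x := by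
  induction al generalizing ta with
  | nil =>
    have : tpS (e + 1) [] ta = fun _ => 0 := by
      funext x
      simp [tpS]
    rw [this]
    refine (hasDerivAt_const x (0 : ℝ)).congr_deriv ?_
    simp [tpS]
  | cons a al ih =>
    cases ta with
    | nil =>
      have : tpS (e + 1) (a :: al) [] = fun _ => 0 := by
        funext x
        simp [tpS]
      rw [this]
      refine (hasDerivAt_const x (0 : ℝ)).congr_deriv ?_
      simp [tpS]
    | cons t ta =>
      have : tpS (e + 1) (a :: al) (t :: ta) =
          fun x => (a : ℝ) * (max (x - (t : ℝ)) 0) ^ (e + 1) + tpS (e + 1) al ta x := by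
        funext x
        simp [tpS]
      rw [this]
      have h := ((b01_hasDerivAt_max e he (t : ℝ) x).const_mul (a : ℝ)).add (ih ta)
      refine h.congr_deriv ?_
      simp only [tpS]
      ring

/-- left of all knots the sum vanishes -/
theorem b01_zero_left (e : ℕ) (he : 1 ≤ e) (al ta : List ℤ) (x : ℝ)
    (h : ∀ p ∈ al.zip ta, x ≤ (p.2 : ℝ)) : tpS e al ta x = 0 := by
  induction al generalizing ta with
  | nil => simp [tpS]
  | cons a al ih =>
    cases ta with
    | nil => simp [tpS]
    | cons t ta =>
      have h1 : x ≤ (t : ℝ) := h (a, t) (by simp)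
      have h2 := ih ta fun p hp => h p (by simp [hp])
      simp only [tpS]
      rw [h2, max_eq_right (by linarith), zero_pow (by omega), mul_zero, add_zero]

theorem b01_expand (e : ℕ) (al ta : List ℤ) (x : ℝ)
    (h : ∀ p ∈ al.zip ta, (p.2 : ℝ) ≤ x) : tpS e al ta x =
      ∑ l ∈ range (e + 1), (-1 : ℝ) ^ l * x ^ (e - l) * (e.choose l : ℝ) * (mom l al ta : ℝ) := by
  induction al generalizing ta with
  | nil => simp [tpS, mom]
  | cons a al ih =>
    cases ta with
    | nil => simp [tpS, mom]
    | cons t ta =>
      have h1 : (t : ℝ) ≤ x := h (a, t) (by simp)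
      have h2 := ih ta fun p hp => h p (by simp [hp])
      simp only [tpS, mom]
      rw [h2, max_eq_left (by linarith)]
      have h3 : (x - (t : ℝ)) ^ e = ∑ l ∈ range (e + 1),
          (-(t : ℝ)) ^ l * x ^ (e - l) * (e.choose l : ℝ) := by
        rw [← add_pow]
        congr 1
        ring
      rw [h3, mul_sum, ← sum_add_distrib]
      refine sum_congr rfl fun l _ => ?_
      push_cast
      rw [neg_pow (t : ℝ) l]
      ring

/-- right of all knots the sum vanishes.
Proof: there `(max (x - τ) 0)^e = (x - τ)^e = ∑_{l ≤ e} C(e,l) x^(e-l) (-τ)^l` (also at `x = τ`,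
`1 ≤ e`), so the sum is `∑_l C(e,l) x^(e-l) (-1)^l mom l al ta = 0`. -/
theorem b01_zero_right (e : ℕ) (he : 1 ≤ e) (he5 : e ≤ 5) (al ta : List ℤ) (hm : MomOK al ta) (x : ℝ)
    (h : ∀ p ∈ al.zip ta, (p.2 : ℝ) ≤ x) : tpS e al ta x = 0 := by
  rw [b01_expand e al ta x h]
  refine sum_eq_zero fun l hl => ?_
  have hl' := mem_range.1 hl
  rw [hm l (by omega), Int.cast_zero, mul_zero]

end Pool.H56P
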