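import Pool.Agent.Lib.H56P.Defs
import Pool.Agent.Lib.H56P.B01

set_option autoImplicit false

namespace Pool.H56P

open Finset

/-- an interval containing all knots -/
theorem b02_interval (l : List (ℤ × ℤ)) :
    ∃ R : ℝ, 0 ≤ R ∧ ∀ p ∈ l, |(p.2 : ℝ)| ≤ R := by
  induction l with
  | nil => exact ⟨0, le_refl _, by simp⟩
  | cons q l ih =>
    obtain ⟨R, hR, h⟩ := ih
    refine ⟨max R |(q.2 : ℝ)|, le_max_of_le_left hR, ?_⟩
    intro p hp
    rcases List.mem_cons.1 hp with rfl | hp
    · exact le_max_right _ _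
    · exact (h p hp).trans (le_max_left _ _)

/-- **B02 (S/M).** `tpS e` is bounded (`1 ≤ e ≤ 5`): it is continuous and vanishes outside the
compact interval spanned by the knots (`b01_zero_left`, `b01_zero_right`), on which it is bounded
(`IsCompact.exists_bound_of_continuousOn`). -/
theorem b02_bounded (e : ℕ) (he : 1 ≤ e) (he5 : e ≤ 5) (al ta : List ℤ) (hm : MomOK al ta) :
    ∃ C : ℝ, 0 < C ∧ ∀ x, |tpS e al ta x| ≤ C := by
  obtain ⟨R, hR, h⟩ := b02_interval (al.zip ta)
  obtain ⟨C, hC⟩ := (isCompact_Icc (a := -R) (b := R)).exists_bound_of_continuousOn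
    (f := tpS e al ta) (b01_continuous e al ta).continuousOn
  refine ⟨|C| + 1, by positivity, ?_⟩
  intro x
  by_cases hx : x ∈ Set.Icc (-R) R
  · have := hC x hx
    rw [Real.norm_eq_abs] at this
    have h2 := le_abs_self C
    linarith
  · have h0 : tpS e al ta x = 0 := by
      rw [Set.mem_Icc, not_and_or, not_le, not_le] at hx
      rcases hx with hx | hx
      · apply b01_zero_left e he
        intro p hp
        have := (abs_le.1 (h p hp)).1
        linarith
      · apply b01_zero_right e he he5 al ta hm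
        intro p hp
        have := (abs_le.1 (h p hp)).2
        linarith
    rw [h0, abs_zero]
    positivity

/-- `tpS 1` is Lipschitz: `|max (x+e-τ) 0 - max (x-τ) 0| ≤ |e|`, sum over the lists. -/
theorem b02_lip1 (al ta : List ℤ) :
    ∃ C : ℝ, 0 < C ∧ ∀ x e, |tpS 1 al ta (x + e) - tpS 1 al ta x| ≤ C * |e| := by
  induction al generalizing ta with
  | nil =>
    refine ⟨1, one_pos, ?_⟩
    intro x e
    simp [tpS]
  | cons α al ih =>
    cases ta with
    | nil =>
      refine ⟨1, one_pos, ?_⟩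
      intro x e
      simp [tpS]
    | cons τ ta =>
      obtain ⟨C, hC, h⟩ := ih ta
      refine ⟨|(α : ℝ)| + C, by positivity, ?_⟩
      intro x e
      have h1 : |max (x + e - (τ : ℝ)) 0 - max (x - (τ : ℝ)) 0| ≤ |e| := by
        refine (abs_max_sub_max_le_abs _ _ _).trans ?_
        apply le_of_eq
        congr 1
        ring
      have e1 : tpS 1 (α :: al) (τ :: ta) (x + e) - tpS 1 (α :: al) (τ :: ta) x
          = (α : ℝ) * (max (x + e - (τ : ℝ)) 0 - max (x - (τ : ℝ)) 0)
            + (tpS 1 al ta (x + e) - tpS 1 al ta x) := by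
        simp only [tpS, pow_one]
        ring
      rw [e1, add_mul]
      refine (abs_add_le _ _).trans (add_le_add ?_ (h x e))
      rw [abs_mul]
      exact mul_le_mul_of_nonneg_left h1 (abs_nonneg _)

/-- `tpS e` is Lipschitz for `1 ≤ e ≤ 5`: for `e = 1` this is `b02_lip1`, for `e ≥ 2` the derivative
`e tpS (e-1)` is bounded (`b02_bounded`), mean value inequality
(`Convex.norm_image_sub_le_of_norm_hasDerivWithin_le`, `Convex.lipschitzOnWith...`). -/
theorem b02_lip (e : ℕ) (he : 1 ≤ e) (he5 : e ≤ 5) (al ta : List ℤ) (hm : MomOK al ta) :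
    ∃ C : ℝ, 0 < C ∧ ∀ x y, |tpS e al ta (x + y) - tpS e al ta x| ≤ C * |y| := by
  rcases Nat.lt_or_ge 1 e with h1 | h1
  · obtain ⟨k, rfl⟩ : ∃ k, e = k + 1 := ⟨e - 1, by omega⟩
    have hk : 1 ≤ k := by omega
    obtain ⟨C, hC, hb⟩ := b02_bounded k hk (by omega) al ta hm
    have hk0 : (0 : ℝ) < (k : ℝ) + 1 := by positivity
    refine ⟨((k : ℝ) + 1) * C, mul_pos hk0 hC, ?_⟩
    intro x y
    have h := Convex.norm_image_sub_le_of_norm_hasDerivWithin_le (s := Set.univ)
      (f := tpS (k + 1) al ta) (f' := fun x => ((k : ℝ) + 1) * tpS k al ta x)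
      (C := ((k : ℝ) + 1) * C) (x := x) (y := x + y)
      (fun z _ => (b01_hasDerivAt k hk al ta z).hasDerivWithinAt)
      (fun z _ => by
        rw [Real.norm_eq_abs, abs_mul, abs_of_pos hk0]
        exact mul_le_mul_of_nonneg_left (hb z) hk0.le)
      convex_univ (Set.mem_univ _) (Set.mem_univ _)
    rw [Real.norm_eq_abs, Real.norm_eq_abs] at h
    have e2 : x + y - x = y := by ring
    rwa [e2] at h
  · have : e = 1 := by omega
    subst this
    exact b02_lip1 al ta

end Pool.H56P
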