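import Pool.Agent.Lib.H56P.Defs

set_option autoImplicit false

namespace Pool.H56P

open Finset

/-- mean value theorem with a step of any sign -/
theorem b03_mvt (f f' : ℝ → ℝ) (hd : ∀ x, HasDerivAt f (f' x) x) (x e : ℝ) :
    ∃ ξ : ℝ, |ξ - x| ≤ |e| ∧ f (x + e) - f x = e * f' ξ := by
  have hc : Continuous f := continuous_iff_continuousAt.mpr fun y => (hd y).continuousAt
  rcases lt_trichotomy e 0 with h | h | h
  · obtain ⟨c, hc1, hc2⟩ := exists_hasDerivAt_eq_slope f f' (show x + e < x by linarith)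
      hc.continuousOn (fun y _ => hd y)
    refine ⟨c, ?_, ?_⟩
    · rw [abs_of_neg h, abs_le]
      constructor <;> linarith [hc1.1, hc1.2]
    · rw [hc2]
      have : x - (x + e) ≠ 0 := by linarith
      field_simp
      ring
  · exact ⟨x, by simp, by simp [h]⟩
  · obtain ⟨c, hc1, hc2⟩ := exists_hasDerivAt_eq_slope f f' (show x < x + e by linarith)
      hc.continuousOn (fun y _ => hd y)
    refine ⟨c, ?_, ?_⟩
    · rw [abs_of_pos h, abs_le]
      constructor <;> linarith [hc1.1, hc1.2]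
    · rw [hc2]
      have : x + e - x ≠ 0 := by linarith
      field_simp
      ring

/-- first order Taylor estimate -/
theorem b03_taylor (A A' : ℝ → ℝ) (hd : ∀ x, HasDerivAt A (A' x) x) (C0 : ℝ) (hC0 : 0 < C0)
    (hl : ∀ x y, |A' (x + y) - A' x| ≤ C0 * |y|) (x e : ℝ) :
    |A (x + e) - A x - e * A' x| ≤ C0 * e ^ 2 := by
  obtain ⟨ξ, h1, h2⟩ := b03_mvt A A' hd x e
  rw [h2, ← mul_sub, abs_mul]
  have h3 := hl x (ξ - x)
  rw [add_sub_cancel] at h3
  calc |e| * |A' ξ - A' x| ≤ |e| * (C0 * |e|) := by gcongr; exact h3.trans (by gcongr)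
    _ = C0 * e ^ 2 := by rw [← sq_abs]; ring

/-- Lipschitz bound from a bound of the derivative -/
theorem b03_lip (A A' : ℝ → ℝ) (hd : ∀ x, HasDerivAt A (A' x) x) (C0 : ℝ)
    (h1 : ∀ x, |A' x| ≤ C0) (x e : ℝ) : |A (x + e) - A x| ≤ C0 * |e| := by
  obtain ⟨ξ, _, h2⟩ := b03_mvt A A' hd x e
  rw [h2, abs_mul, mul_comm]
  gcongr
  exact h1 ξ

/-- **B03 (S/M).** A function with Lipschitz derivative has a first order Taylor estimate.
Proof: mean value theorem: `A (x+e) - A x = e A'(ξ)` with `|ξ - x| ≤ |e|`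
(`exists_hasDerivAt_eq_slope`), so the error is `|e| |A'(ξ) - A'(x)| ≤ L e^2`; the Lipschitz bound of
`A` from the bound of `A'`. Take for `C` the maximum (or the sum) of the constants. -/
theorem b03_nice1 (A A' : ℝ → ℝ) (hd : ∀ x, HasDerivAt A (A' x) x) (C0 : ℝ) (hC0 : 0 < C0)
    (h0 : ∀ x, |A x| ≤ C0) (h1 : ∀ x, |A' x| ≤ C0) (hl : ∀ x y, |A' (x + y) - A' x| ≤ C0 * |y|) :
    ∃ C : ℝ, Nice1 A A' C :=
  ⟨C0, hC0, continuous_iff_continuousAt.mpr fun y => (hd y).continuousAt, h0, h1,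
    b03_lip A A' hd C0 h1, b03_taylor A A' hd C0 hC0 hl⟩

/-- **B03 (M).** A function with Lipschitz second derivative has the second order estimate of
`Nice2`. Proof: (1) `|B(w+b) - B(w) - b B'(w) - b^2/2 B''(w)| ≤ C |b|^3`: the function
`φ(t) = B(w+t) - B(w) - t B'(w) - t^2/2 B''(w)` has `φ(0) = 0` and
`φ'(t) = B'(w+t) - B'(w) - t B''(w)`, `|φ'(t)| ≤ C0 t^2` by the mean value theorem for `B'` (as in
`b03_nice1`), hence `|φ(b)| ≤ |b| C0 b^2`. (2) `B(w+a+b) - B(w+b) = a B'(ξ)` with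
`|ξ - w| ≤ |a| + |b|`, so `|B(w+a+b) - B(w+b) - a B'(w)| ≤ C0 |a| (|a| + |b|)`. Add. -/
theorem b03_nice2 (B B' B'' : ℝ → ℝ) (hd : ∀ x, HasDerivAt B (B' x) x)
    (hd' : ∀ x, HasDerivAt B' (B'' x) x) (C0 : ℝ) (hC0 : 0 < C0)
    (h0 : ∀ x, |B x| ≤ C0) (h1 : ∀ x, |B' x| ≤ C0) (h2 : ∀ x, |B'' x| ≤ C0)
    (hl : ∀ x y, |B'' (x + y) - B'' x| ≤ C0 * |y|) :
    ∃ C : ℝ, Nice2 B B' B'' C := by
  refine ⟨C0, hC0, continuous_iff_continuousAt.mpr fun y => (hd y).continuousAt, h0, h1, h2,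
    b03_lip B B' hd C0 h1, ?_⟩
  intro w a b
  have s1 : |B (w + b) - B w - b * B' w - b ^ 2 / 2 * B'' w| ≤ C0 * |b| ^ 3 := by
    have hφ : ∀ t, HasDerivAt (fun t => B (w + t) - t * B' w - t ^ 2 / 2 * B'' w)
        (B' (w + t) - B' w - t * B'' w) t := by
      intro t
      have e1 : HasDerivAt (fun t => B (w + t)) (B' (w + t)) t :=
        HasDerivAt.comp_const_add w t (hd (w + t))
      have e2 : HasDerivAt (fun t : ℝ => t * B' w) (1 * B' w) t := (hasDerivAt_id t).mul_const _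
      have e3 : HasDerivAt (fun t : ℝ => t ^ 2 / 2 * B'' w)
          ((2 : ℕ) * t ^ (2 - 1) / 2 * B'' w) t := ((hasDerivAt_pow 2 t).div_const 2).mul_const _
      refine ((e1.sub e2).sub e3).congr_deriv ?_
      push_cast
      ring
    obtain ⟨ξ, g1, g2⟩ := b03_mvt _ _ hφ 0 b
    have g3 := b03_taylor B' B'' hd' C0 hC0 hl w ξ
    rw [sub_zero] at g1
    have g4 : B (w + b) - B w - b * B' w - b ^ 2 / 2 * B'' w
        = b * (B' (w + ξ) - B' w - ξ * B'' w) := by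
      rw [← g2]
      simp
      ring
    rw [g4, abs_mul]
    calc |b| * |B' (w + ξ) - B' w - ξ * B'' w| ≤ |b| * (C0 * ξ ^ 2) := by gcongr
      _ ≤ |b| * (C0 * |b| ^ 2) := by
        rw [← sq_abs ξ]
        gcongr
      _ = C0 * |b| ^ 3 := by ring
  have s2 : |B (w + (a + b)) - B (w + b) - a * B' w| ≤ C0 * (|a| * (|a| + |b|)) := by
    obtain ⟨ξ, g1, g2⟩ := b03_mvt B B' hd (w + b) a
    have e1 : w + (a + b) = w + b + a := by ring
    rw [e1, g2, ← mul_sub, abs_mul]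
    have g3 := b03_lip B' B'' hd' C0 h2 w (ξ - w)
    rw [add_sub_cancel] at g3
    have g4 : |ξ - w| ≤ |a| + |b| := by
      calc |ξ - w| = |(ξ - (w + b)) + b| := by ring_nf
        _ ≤ |ξ - (w + b)| + |b| := abs_add_le _ _
        _ ≤ |a| + |b| := by gcongr
    calc |a| * |B' ξ - B' w| ≤ |a| * (C0 * (|a| + |b|)) := by
          gcongr; exact g3.trans (by gcongr)
      _ = C0 * (|a| * (|a| + |b|)) := by ring
  calc |B (w + (a + b)) - B w - (a + b) * B' w - b ^ 2 / 2 * B'' w|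
      = |(B (w + (a + b)) - B (w + b) - a * B' w)
        + (B (w + b) - B w - b * B' w - b ^ 2 / 2 * B'' w)| := by ring_nf
    _ ≤ _ := abs_add_le _ _
    _ ≤ C0 * (|a| * (|a| + |b|)) + C0 * |b| ^ 3 := add_le_add s2 s1
    _ = C0 * (a ^ 2 + |a| * |b| + |b| ^ 3) := by rw [← sq_abs a]; ring

end Pool.H56P
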