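import Pool.Agent.Lib.H56P.Defs
import Pool.Agent.Lib.H56P.B01
import Pool.Agent.Lib.H56P.B02
import Pool.Agent.Lib.H56P.B03

set_option autoImplicit false

namespace Pool.H56P

open Finset

theorem b04_hd5 (al ta : List ℤ) (x : ℝ) :
    HasDerivAt (tpS 5 al ta) (5 * tpS 4 al ta x) x := by
  have h := b01_hasDerivAt 4 (by norm_num) al ta x
  norm_num at h
  exact h

theorem b04_hd4 (al ta : List ℤ) (x : ℝ) :
    HasDerivAt (fun x => 5 * tpS 4 al ta x) (20 * tpS 3 al ta x) x := by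
  have h := (b01_hasDerivAt 3 (by norm_num) al ta x).const_mul (5 : ℝ)
  have e : (5 : ℝ) * (((3 : ℕ) + 1 : ℝ) * tpS 3 al ta x) = 20 * tpS 3 al ta x := by
    push_cast
    ring
  rw [e] at h
  exact h

/-- **B04 (S).** The splines `tpS 5`: from `b01_hasDerivAt`, `b02_bounded`, `b02_lip` and
`b03_nice1`, `b03_nice2` (take the maximum of the finitely many constants). -/
theorem b04_nice1 (al ta : List ℤ) (hm : MomOK al ta) :
    ∃ C : ℝ, Nice1 (tpS 5 al ta) (fun x => 5 * tpS 4 al ta x) C := by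
  obtain ⟨C5, hC5, h5⟩ := b02_bounded 5 (by norm_num) (by norm_num) al ta hm
  obtain ⟨C4, hC4, h4⟩ := b02_bounded 4 (by norm_num) (by norm_num) al ta hm
  obtain ⟨L4, hL4, hl4⟩ := b02_lip 4 (by norm_num) (by norm_num) al ta hm
  refine b03_nice1 (tpS 5 al ta) (fun x => 5 * tpS 4 al ta x) (b04_hd5 al ta)
    (C5 + 5 * C4 + 5 * L4) (by positivity) ?_ ?_ ?_
  · intro x
    have := h5 x
    linarith
  · intro x
    rw [abs_mul, abs_of_pos (by norm_num : (0 : ℝ) < 5)]
    have := h4 x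
    linarith
  · intro x y
    have h := hl4 x y
    have e1 : 5 * tpS 4 al ta (x + y) - 5 * tpS 4 al ta x
        = 5 * (tpS 4 al ta (x + y) - tpS 4 al ta x) := by ring
    rw [e1, abs_mul, abs_of_pos (by norm_num : (0 : ℝ) < 5)]
    have h2 : 0 ≤ |y| := abs_nonneg y
    nlinarith [mul_nonneg hC5.le h2, mul_nonneg hC4.le h2]

theorem b04_nice2 (al ta : List ℤ) (hm : MomOK al ta) :
    ∃ C : ℝ, Nice2 (tpS 5 al ta) (fun x => 5 * tpS 4 al ta x) (fun x => 20 * tpS 3 al ta x) C := by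
  obtain ⟨C5, hC5, h5⟩ := b02_bounded 5 (by norm_num) (by norm_num) al ta hm
  obtain ⟨C4, hC4, h4⟩ := b02_bounded 4 (by norm_num) (by norm_num) al ta hm
  obtain ⟨C3, hC3, h3⟩ := b02_bounded 3 (by norm_num) (by norm_num) al ta hm
  obtain ⟨L3, hL3, hl3⟩ := b02_lip 3 (by norm_num) (by norm_num) al ta hm
  refine b03_nice2 (tpS 5 al ta) (fun x => 5 * tpS 4 al ta x) (fun x => 20 * tpS 3 al ta x)
    (b04_hd5 al ta) (b04_hd4 al ta) (C5 + 5 * C4 + 20 * C3 + 20 * L3) (by positivity) ?_ ?_ ?_ ?_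
  · intro x
    have := h5 x
    linarith
  · intro x
    rw [abs_mul, abs_of_pos (by norm_num : (0 : ℝ) < 5)]
    have := h4 x
    linarith
  · intro x
    rw [abs_mul, abs_of_pos (by norm_num : (0 : ℝ) < 20)]
    have := h3 x
    linarith
  · intro x y
    have h := hl3 x y
    have e1 : 20 * tpS 3 al ta (x + y) - 20 * tpS 3 al ta x
        = 20 * (tpS 3 al ta (x + y) - tpS 3 al ta x) := by ring
    rw [e1, abs_mul, abs_of_pos (by norm_num : (0 : ℝ) < 20)]
    have h2 : 0 ≤ |y| := abs_nonneg y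
    nlinarith [mul_nonneg hC5.le h2, mul_nonneg hC4.le h2, mul_nonneg hC3.le h2]

end Pool.H56P
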