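import Pool.Agent.Lib.H56P.Defs

set_option autoImplicit false

namespace Pool.H56P

open Finset

/-- **B05 (M).** Tensor products. Put `f x = A (p x)`, `g w = B (q w)`. Then
`f(x+e) g(w+s) - f g - e f' g - s f g' - b^2/2 f g'' = [f(x+e) - f - e f'] g(w+s)
+ e f' [g(w+s) - g] + f [g(w+s) - g - s g' - b^2/2 g'']`, `s = a + b`, and the three brackets are
bounded by `Nice1`, `Nice2` (with the scalings `p`, `q`): the constants `C p^2 |e|^2`, `C q |s|`, ...
All bounds: let `C` be a large polynomial expression in `C1`, `C2`, `p`, `q`. -/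
theorem b05_tensor (A A' B B' B'' : ℝ → ℝ) (C1 C2 p q : ℝ) (hA : Nice1 A A' C1)
    (hB : Nice2 B B' B'' C2) (hp : 0 < p) (hq : 0 < q) :
    ∃ C : ℝ, Nice (fun x w => A (p * x) * B (q * w)) (fun x w => p * A' (p * x) * B (q * w))
      (fun x w => A (p * x) * (q * B' (q * w))) (fun x w => A (p * x) * (q ^ 2 * B'' (q * w))) C := by
  have hC1 := hA.pos
  have hC2 := hB.pos
  have hK : 0 < C1 * C2 := mul_pos hC1 hC2
  set K : ℝ := C1 * C2 with hKdef
  have hp2 : 0 < p ^ 2 := by positivity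
  have hq2 : 0 < q ^ 2 := by positivity
  have hq3 : 0 < q ^ 3 := by positivity
  have hpq : 0 < p * q := mul_pos hp hq
  set M : ℝ := 1 + p + q + p ^ 2 + p * q + q ^ 2 + q ^ 3 with hM
  have hM1 : 1 ≤ M := by rw [hM]; linarith
  have hMp : p ≤ M := by rw [hM]; linarith
  have hMq : q ≤ M := by rw [hM]; linarith
  have hMp2 : p ^ 2 ≤ M := by rw [hM]; linarith
  have hMpq : p * q ≤ M := by rw [hM]; linarith
  have hMq2 : q ^ 2 ≤ M := by rw [hM]; linarith
  have hMq3 : q ^ 3 ≤ M := by rw [hM]; linarith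
  have hM0 : 0 < M := by linarith
  have hKM : 0 < K * M := mul_pos hK hM0
  have prod2 : ∀ u v : ℝ, |u| ≤ C1 → |v| ≤ C2 → |u * v| ≤ K := by
    intro u v hu hv
    rw [abs_mul]
    exact mul_le_mul hu hv (abs_nonneg _) hC1.le
  refine ⟨K * M, ?_, ?_, ?_, ?_, ?_, ?_, ?_⟩
  · exact hKM
  · exact ((hA.cont.comp (continuous_const.mul continuous_fst)).mul
      (hB.cont.comp (continuous_const.mul continuous_snd)))
  · intro x w
    have h1 := prod2 _ _ (hA.b0 (p * x)) (hB.b0 (q * w))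
    have h2 : K ≤ K * M := by nlinarith
    have h3 : K * M ≤ K * M * (1 + x ^ 2 + w ^ 2) := by
      have : 0 ≤ x ^ 2 + w ^ 2 := by positivity
      nlinarith
    exact h1.trans (h2.trans h3)
  · intro x w
    have h1 := prod2 _ _ (hA.b1 (p * x)) (hB.b0 (q * w))
    have e1 : |p * A' (p * x) * B (q * w)| = p * |A' (p * x) * B (q * w)| := by
      rw [mul_assoc, abs_mul, abs_of_pos hp]
    show |p * A' (p * x) * B (q * w)| ≤ _
    rw [e1]
    have h2 : p * |A' (p * x) * B (q * w)| ≤ p * K := mul_le_mul_of_nonneg_left h1 hp.le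
    have h3 : p * K ≤ K * M := by nlinarith
    have h4 : K * M ≤ K * M * (1 + |x| + |w|) := by
      have : 0 ≤ |x| + |w| := by positivity
      nlinarith
    exact h2.trans (h3.trans h4)
  · intro x w
    have h1 := prod2 _ _ (hA.b0 (p * x)) (hB.b1 (q * w))
    have e1 : |A (p * x) * (q * B' (q * w))| = q * |A (p * x) * B' (q * w)| := by
      rw [show A (p * x) * (q * B' (q * w)) = q * (A (p * x) * B' (q * w)) by ring, abs_mul,
        abs_of_pos hq]
    show |A (p * x) * (q * B' (q * w))| ≤ _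
    rw [e1]
    have h2 : q * |A (p * x) * B' (q * w)| ≤ q * K := mul_le_mul_of_nonneg_left h1 hq.le
    have h3 : q * K ≤ K * M := by nlinarith
    have h4 : K * M ≤ K * M * (1 + |x| + |w|) := by
      have : 0 ≤ |x| + |w| := by positivity
      nlinarith
    exact h2.trans (h3.trans h4)
  · intro x w
    have h1 := prod2 _ _ (hA.b0 (p * x)) (hB.b2 (q * w))
    have e1 : |A (p * x) * (q ^ 2 * B'' (q * w))| = q ^ 2 * |A (p * x) * B'' (q * w)| := by
      rw [show A (p * x) * (q ^ 2 * B'' (q * w)) = q ^ 2 * (A (p * x) * B'' (q * w)) by ring,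
        abs_mul, abs_of_pos hq2]
    show |A (p * x) * (q ^ 2 * B'' (q * w))| ≤ _
    rw [e1]
    have h2 : q ^ 2 * |A (p * x) * B'' (q * w)| ≤ q ^ 2 * K :=
      mul_le_mul_of_nonneg_left h1 hq2.le
    have h3 : q ^ 2 * K ≤ K * M := by nlinarith
    exact h2.trans h3
  · intro x w e a b
    have t1 := hA.taylor (p * x) (p * e)
    have t2 := hB.lip (q * w) (q * (a + b))
    have t3 := hB.taylor (q * w) (q * a) (q * b)
    have e1 : p * (x + e) = p * x + p * e := by ring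
    have e2 : q * (w + (a + b)) = q * w + q * (a + b) := by ring
    have e3 : q * w + (q * a + q * b) = q * w + q * (a + b) := by ring
    rw [e3] at t3
    show |A (p * (x + e)) * B (q * (w + (a + b))) - A (p * x) * B (q * w)
      - e * (p * A' (p * x) * B (q * w)) - (a + b) * (A (p * x) * (q * B' (q * w)))
      - b ^ 2 / 2 * (A (p * x) * (q ^ 2 * B'' (q * w)))| ≤ _
    rw [e1, e2]
    set X1 : ℝ := A (p * x + p * e) - A (p * x) - p * e * A' (p * x) with hX1
    set Y1 : ℝ := B (q * w + q * (a + b)) - B (q * w) with hY1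
    set Z1 : ℝ := B (q * w + q * (a + b)) - B (q * w) - (q * a + q * b) * B' (q * w)
      - (q * b) ^ 2 / 2 * B'' (q * w) with hZ1
    have key : A (p * x + p * e) * B (q * w + q * (a + b)) - A (p * x) * B (q * w)
      - e * (p * A' (p * x) * B (q * w)) - (a + b) * (A (p * x) * (q * B' (q * w)))
      - b ^ 2 / 2 * (A (p * x) * (q ^ 2 * B'' (q * w)))
      = X1 * B (q * w + q * (a + b)) + (p * e) * (A' (p * x) * Y1) + A (p * x) * Z1 := by
      rw [hX1, hY1, hZ1]; ring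
    rw [key]
    have b1 : |X1 * B (q * w + q * (a + b))| ≤ K * (p ^ 2 * e ^ 2) := by
      rw [abs_mul]
      have := mul_le_mul t1 (hB.b0 (q * w + q * (a + b))) (abs_nonneg _) (by positivity)
      calc |X1| * |B (q * w + q * (a + b))| ≤ C1 * (p * e) ^ 2 * C2 := this
        _ = K * (p ^ 2 * e ^ 2) := by rw [hKdef]; ring
    have b2 : |(p * e) * (A' (p * x) * Y1)| ≤ K * (p * q * (|e| * (|a| + |b|))) := by
      rw [abs_mul, abs_mul, abs_mul, abs_of_pos hp]
      have h1 : |A' (p * x)| * |Y1| ≤ C1 * (C2 * |q * (a + b)|) :=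
        mul_le_mul (hA.b1 _) t2 (abs_nonneg _) hC1.le
      have h2 : |q * (a + b)| ≤ q * (|a| + |b|) := by
        rw [abs_mul, abs_of_pos hq]
        exact mul_le_mul_of_nonneg_left (abs_add_le a b) hq.le
      have h3 : C1 * (C2 * |q * (a + b)|) ≤ C1 * (C2 * (q * (|a| + |b|))) :=
        mul_le_mul_of_nonneg_left (mul_le_mul_of_nonneg_left h2 hC2.le) hC1.le
      calc p * |e| * (|A' (p * x)| * |Y1|) ≤ p * |e| * (C1 * (C2 * (q * (|a| + |b|)))) :=
            mul_le_mul_of_nonneg_left (h1.trans h3) (by positivity)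
        _ = K * (p * q * (|e| * (|a| + |b|))) := by rw [hKdef]; ring
    have b3 : |A (p * x) * Z1| ≤ K * (q ^ 2 * a ^ 2 + q ^ 2 * (|a| * |b|) + q ^ 3 * |b| ^ 3) := by
      rw [abs_mul]
      have h1 := mul_le_mul (hA.b0 (p * x)) t3 (abs_nonneg _) hC1.le
      calc |A (p * x)| * |Z1| ≤ C1 * (C2 * ((q * a) ^ 2 + |q * a| * |q * b| + |q * b| ^ 3)) := h1
        _ = K * (q ^ 2 * a ^ 2 + q ^ 2 * (|a| * |b|) + q ^ 3 * |b| ^ 3) := by
          rw [hKdef, abs_mul, abs_mul, abs_of_pos hq]; ring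
    have tri : |X1 * B (q * w + q * (a + b)) + (p * e) * (A' (p * x) * Y1) + A (p * x) * Z1|
        ≤ |X1 * B (q * w + q * (a + b))| + |(p * e) * (A' (p * x) * Y1)| + |A (p * x) * Z1| :=
      (abs_add_le _ _).trans (add_le_add_left (abs_add_le _ _) _)
    have ne2 : 0 ≤ e ^ 2 := by positivity
    have neab : 0 ≤ |e| * (|a| + |b|) := by positivity
    have na2 : 0 ≤ a ^ 2 := by positivity
    have nab : 0 ≤ |a| * |b| := by positivity
    have nb3 : 0 ≤ |b| ^ 3 := by positivity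
    have f1 : p ^ 2 * e ^ 2 ≤ M * e ^ 2 := mul_le_mul_of_nonneg_right hMp2 ne2
    have f2 : p * q * (|e| * (|a| + |b|)) ≤ M * (|e| * (|a| + |b|)) :=
      mul_le_mul_of_nonneg_right hMpq neab
    have f3 : q ^ 2 * a ^ 2 ≤ M * a ^ 2 := mul_le_mul_of_nonneg_right hMq2 na2
    have f4 : q ^ 2 * (|a| * |b|) ≤ M * (|a| * |b|) := mul_le_mul_of_nonneg_right hMq2 nab
    have f5 : q ^ 3 * |b| ^ 3 ≤ M * |b| ^ 3 := mul_le_mul_of_nonneg_right hMq3 nb3
    have tot : p ^ 2 * e ^ 2 + p * q * (|e| * (|a| + |b|))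
        + (q ^ 2 * a ^ 2 + q ^ 2 * (|a| * |b|) + q ^ 3 * |b| ^ 3)
        ≤ M * (e ^ 2 + |e| * (|a| + |b|) + a ^ 2 + |a| * |b| + |b| ^ 3) := by
      have : M * (e ^ 2 + |e| * (|a| + |b|) + a ^ 2 + |a| * |b| + |b| ^ 3)
        = M * e ^ 2 + M * (|e| * (|a| + |b|)) + M * a ^ 2 + M * (|a| * |b|) + M * |b| ^ 3 := by
        ring
      rw [this]
      linarith
    calc |X1 * B (q * w + q * (a + b)) + (p * e) * (A' (p * x) * Y1) + A (p * x) * Z1|
        ≤ K * (p ^ 2 * e ^ 2) + K * (p * q * (|e| * (|a| + |b|)))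
          + K * (q ^ 2 * a ^ 2 + q ^ 2 * (|a| * |b|) + q ^ 3 * |b| ^ 3) := by linarith
      _ = K * (p ^ 2 * e ^ 2 + p * q * (|e| * (|a| + |b|))
        + (q ^ 2 * a ^ 2 + q ^ 2 * (|a| * |b|) + q ^ 3 * |b| ^ 3)) := by ring
      _ ≤ K * (M * (e ^ 2 + |e| * (|a| + |b|) + a ^ 2 + |a| * |b| + |b| ^ 3)) :=
        mul_le_mul_of_nonneg_left tot hK.le
      _ = K * M * (e ^ 2 + |e| * (|a| + |b|) + a ^ 2 + |a| * |b| + |b| ^ 3) := by ring

end Pool.H56P
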