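import Pool.Agent.Lib.H56P.Defs

set_option autoImplicit false

namespace Pool.H56P

open Finset

/-- **B06 (S/M).** Closure properties of `Nice`: zero, sum, scalar multiple, finite sum and the
quadratic polynomial `c0 + c2 (x^2 + 4 w^2)` (whose Taylor error is `c2 (e^2 + 4 a^2 + 8 a b)`). -/
theorem b06_zero : Nice (fun _ _ => 0) (fun _ _ => 0) (fun _ _ => 0) (fun _ _ => 0) 1 := by
  refine ⟨one_pos, continuous_const, ?_, ?_, ?_, ?_, ?_⟩
  · intro x w
    rw [abs_zero]
    positivity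
  · intro x w
    rw [abs_zero]
    positivity
  · intro x w
    rw [abs_zero]
    positivity
  · intro x w
    rw [abs_zero]
    exact zero_le_one
  · intro x w e a b
    have : (0 : ℝ) - 0 - e * 0 - (a + b) * 0 - b ^ 2 / 2 * 0 = 0 := by ring
    rw [this, abs_zero]
    positivity

theorem b06_add {H Hx Hw Hww G Gx Gw Gww : ℝ → ℝ → ℝ} {C D : ℝ} (h1 : Nice H Hx Hw Hww C)
    (h2 : Nice G Gx Gw Gww D) :
    Nice (fun x w => H x w + G x w) (fun x w => Hx x w + Gx x w) (fun x w => Hw x w + Gw x w)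
      (fun x w => Hww x w + Gww x w) (C + D) := by
  refine ⟨add_pos h1.pos h2.pos, h1.cont.add h2.cont, ?_, ?_, ?_, ?_, ?_⟩
  · intro x w
    have := abs_add_le (H x w) (G x w)
    have h3 := h1.bH x w
    have h4 := h2.bH x w
    nlinarith
  · intro x w
    have := abs_add_le (Hx x w) (Gx x w)
    have h3 := h1.bx x w
    have h4 := h2.bx x w
    nlinarith
  · intro x w
    have := abs_add_le (Hw x w) (Gw x w)
    have h3 := h1.bw x w
    have h4 := h2.bw x w
    nlinarith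
  · intro x w
    have := abs_add_le (Hww x w) (Gww x w)
    have h3 := h1.bww x w
    have h4 := h2.bww x w
    linarith
  · intro x w e a b
    have h3 := h1.taylor x w e a b
    have h4 := h2.taylor x w e a b
    have h5 : H (x + e) (w + (a + b)) + G (x + e) (w + (a + b)) - (H x w + G x w)
        - e * (Hx x w + Gx x w) - (a + b) * (Hw x w + Gw x w) - b ^ 2 / 2 * (Hww x w + Gww x w)
        = (H (x + e) (w + (a + b)) - H x w - e * Hx x w - (a + b) * Hw x w
          - b ^ 2 / 2 * Hww x w) + (G (x + e) (w + (a + b)) - G x w - e * Gx x w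
          - (a + b) * Gw x w - b ^ 2 / 2 * Gww x w) := by ring
    rw [h5]
    refine (abs_add_le _ _).trans ?_
    rw [add_mul C D]
    exact add_le_add h3 h4

theorem b06_smul {H Hx Hw Hww : ℝ → ℝ → ℝ} {C : ℝ} (h1 : Nice H Hx Hw Hww C) (k : ℝ) :
    Nice (fun x w => k * H x w) (fun x w => k * Hx x w) (fun x w => k * Hw x w)
      (fun x w => k * Hww x w) ((|k| + 1) * C) := by
  have hk : 0 ≤ |k| := abs_nonneg k
  have key : ∀ y z : ℝ, 0 ≤ z → |y| ≤ C * z → |k * y| ≤ (|k| + 1) * C * z := by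
    intro y z hz hy
    rw [abs_mul]
    have h2 : |k| * |y| ≤ |k| * (C * z) := mul_le_mul_of_nonneg_left hy hk
    have h3 : 0 ≤ C * z := mul_nonneg h1.pos.le hz
    nlinarith
  refine ⟨mul_pos (by linarith) h1.pos, continuous_const.mul h1.cont, ?_, ?_, ?_, ?_, ?_⟩
  · intro x w
    exact key _ _ (by positivity) (h1.bH x w)
  · intro x w
    exact key _ _ (by positivity) (h1.bx x w)
  · intro x w
    exact key _ _ (by positivity) (h1.bw x w)
  · intro x w
    have := key (Hww x w) 1 zero_le_one (by rw [mul_one]; exact h1.bww x w)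
    rwa [mul_one] at this
  · intro x w e a b
    have h5 : k * H (x + e) (w + (a + b)) - k * H x w
        - e * (k * Hx x w) - (a + b) * (k * Hw x w) - b ^ 2 / 2 * (k * Hww x w)
        = k * (H (x + e) (w + (a + b)) - H x w - e * Hx x w - (a + b) * Hw x w
          - b ^ 2 / 2 * Hww x w) := by ring
    rw [h5]
    exact key _ _ (by positivity) (h1.taylor x w e a b)

theorem b06_sum {ι : Type*} (s : Finset ι) (H Hx Hw Hww : ι → ℝ → ℝ → ℝ)
    (h : ∀ i ∈ s, ∃ C : ℝ, Nice (H i) (Hx i) (Hw i) (Hww i) C) :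
    ∃ C : ℝ, Nice (fun x w => ∑ i ∈ s, H i x w) (fun x w => ∑ i ∈ s, Hx i x w)
      (fun x w => ∑ i ∈ s, Hw i x w) (fun x w => ∑ i ∈ s, Hww i x w) C := by
  classical
  induction s using Finset.induction_on with
  | empty =>
    refine ⟨1, ?_⟩
    simp only [Finset.sum_empty]
    exact b06_zero
  | insert a s ha ih =>
    obtain ⟨C, hC⟩ := ih (fun i hi => h i (Finset.mem_insert_of_mem hi))
    obtain ⟨D, hD⟩ := h a (Finset.mem_insert_self a s)
    refine ⟨D + C, ?_⟩
    simp only [Finset.sum_insert ha]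
    exact b06_add hD hC

theorem b06_quad (c0 c2 : ℝ) :
    ∃ C : ℝ, Nice (fun x w => c0 + c2 * (x ^ 2 + 4 * w ^ 2)) (fun x _ => c2 * (2 * x))
      (fun _ w => c2 * (8 * w)) (fun _ _ => c2 * 8) C := by
  have h0 : 0 ≤ |c0| := abs_nonneg c0
  have h2 : 0 ≤ |c2| := abs_nonneg c2
  refine ⟨|c0| + 8 * |c2| + 1, by positivity, by fun_prop, ?_, ?_, ?_, ?_, ?_⟩
  · intro x w
    have h3 : |c0 + c2 * (x ^ 2 + 4 * w ^ 2)| ≤ |c0| + |c2| * (x ^ 2 + 4 * w ^ 2) := by
      refine (abs_add_le _ _).trans ?_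
      rw [abs_mul, abs_of_nonneg (by positivity : 0 ≤ x ^ 2 + 4 * w ^ 2)]
    refine h3.trans ?_
    nlinarith [mul_nonneg h0 (sq_nonneg x), mul_nonneg h0 (sq_nonneg w),
      mul_nonneg h2 (sq_nonneg x), mul_nonneg h2 (sq_nonneg w), sq_nonneg x, sq_nonneg w]
  · intro x w
    rw [abs_mul, abs_mul, abs_two]
    nlinarith [mul_nonneg h0 (abs_nonneg x), mul_nonneg h0 (abs_nonneg w),
      mul_nonneg h2 (abs_nonneg x), mul_nonneg h2 (abs_nonneg w), abs_nonneg x, abs_nonneg w]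
  · intro x w
    rw [abs_mul, abs_mul, abs_of_pos (by norm_num : (0 : ℝ) < 8)]
    nlinarith [mul_nonneg h0 (abs_nonneg x), mul_nonneg h0 (abs_nonneg w),
      mul_nonneg h2 (abs_nonneg x), mul_nonneg h2 (abs_nonneg w), abs_nonneg x, abs_nonneg w]
  · intro x w
    rw [abs_mul, abs_of_pos (by norm_num : (0 : ℝ) < 8)]
    nlinarith
  · intro x w e a b
    have h5 : c0 + c2 * ((x + e) ^ 2 + 4 * (w + (a + b)) ^ 2) - (c0 + c2 * (x ^ 2 + 4 * w ^ 2))
        - e * (c2 * (2 * x)) - (a + b) * (c2 * (8 * w)) - b ^ 2 / 2 * (c2 * 8)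
        = c2 * (e ^ 2 + 4 * a ^ 2 + 8 * (a * b)) := by ring
    rw [h5, abs_mul]
    have h6 : |e ^ 2 + 4 * a ^ 2 + 8 * (a * b)| ≤ e ^ 2 + 4 * a ^ 2 + 8 * (|a| * |b|) := by
      refine (abs_add_le _ _).trans ?_
      rw [abs_mul, abs_mul, abs_of_pos (by norm_num : (0 : ℝ) < 8),
        abs_of_nonneg (by positivity : 0 ≤ e ^ 2 + 4 * a ^ 2)]
    set S := e ^ 2 + |e| * (|a| + |b|) + a ^ 2 + |a| * |b| + |b| ^ 3 with hS
    have h7 : e ^ 2 + 4 * a ^ 2 + 8 * (|a| * |b|) ≤ 8 * S := by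
      have e1 : 0 ≤ |e| * (|a| + |b|) := by positivity
      have e2 : 0 ≤ |b| ^ 3 := by positivity
      have e3 : 0 ≤ e ^ 2 := by positivity
      have e4 : 0 ≤ a ^ 2 := by positivity
      rw [hS]
      nlinarith
    have h8 : 0 ≤ S := by rw [hS]; positivity
    calc |c2| * |e ^ 2 + 4 * a ^ 2 + 8 * (a * b)| ≤ |c2| * (8 * S) :=
          mul_le_mul_of_nonneg_left (h6.trans h7) h2
      _ ≤ (|c0| + 8 * |c2| + 1) * S := by nlinarith [mul_nonneg h0 h8]

end Pool.H56P
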