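import Pool.Agent.Lib.H56P.Ker

set_option autoImplicit false

/-!
The spline function `Hs` defined by the data, in scaled coordinates `X = 1000 x`, `W = 20 w`.
-/

namespace Pool.H56P

open Finset

/-- the coefficient `c_ij` -/
def cof (D : Dat) (i j : ℕ) : ℤ := (D.c.getD i []).getD j 0

/-- the spline part `∑ c_ij A_i B_j` with exponents `e`, `f` -/
noncomputable def Sp (D : Dat) (e f : ℕ) (X W : ℝ) : ℝ :=
  ∑ i ∈ range D.ax.length, ∑ j ∈ range D.aw.length,
    (cof D i j : ℝ) * (tpS e (D.ax.getD i []) (D.kx.drop i) X * tpS f (D.aw.getD j []) (D.kw.drop j) W)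

noncomputable def Hs (D : Dat) (X W : ℝ) : ℝ :=
  Sp D 5 5 X W + (D.c0 + D.c2 * (X ^ 2 + 10000 * W ^ 2))

/-- `∂_X Hs` -/
noncomputable def HsX (D : Dat) (X W : ℝ) : ℝ := 5 * Sp D 4 5 X W + 2 * D.c2 * X

/-- `∂_W Hs` -/
noncomputable def HsW (D : Dat) (X W : ℝ) : ℝ := 5 * Sp D 5 4 X W + 20000 * D.c2 * W

/-- `∂_W^2 Hs` -/
noncomputable def HsWW (D : Dat) (X W : ℝ) : ℝ := 20 * Sp D 5 3 X W + 20000 * D.c2

/-- `K (gen + lam)` in scaled coordinates, `K = 2 l`, `n1 = K lam` -/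
noncomputable def Fs (D : Dat) (l n1 : ℝ) (X W : ℝ) : ℝ :=
  l * 400 * HsWW D X W - l * W * HsW D X W + l * (100 * W - X) * HsX D X W + n1 * Hs D X W

/-- the test function in the coordinates `(x, w)` and its derivatives -/
noncomputable def Hc (D : Dat) (x w : ℝ) : ℝ := Hs D (1000 * x) (20 * w)
noncomputable def HcX (D : Dat) (x w : ℝ) : ℝ := 1000 * HsX D (1000 * x) (20 * w)
noncomputable def HcW (D : Dat) (x w : ℝ) : ℝ := 20 * HsW D (1000 * x) (20 * w)
noncomputable def HcWW (D : Dat) (x w : ℝ) : ℝ := 400 * HsWW D (1000 * x) (20 * w)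

/-- all moment conditions -/
def MomAll (D : Dat) : Prop :=
  (∀ i < D.ax.length, MomOK (D.ax.getD i []) (D.kx.drop i)) ∧
  (∀ j < D.aw.length, MomOK (D.aw.getD j []) (D.kw.drop j))

end Pool.H56P
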