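import Pool.Agent.Lib.H56P.Defs
import Pool.Agent.Lib.H56P.HDef
import Pool.Agent.Lib.H56P.B04
import Pool.Agent.Lib.H56P.B05
import Pool.Agent.Lib.H56P.B06

set_option autoImplicit false

namespace Pool.H56P

open Finset

/-- **B07 (M).** The test function of the data is `Nice`.
Proof: `b06_add` of `b06_quad` (with `c0`, `10^6 c2`: `D.c2 ((1000x)^2 + 10000 (20w)^2)
= 10^6 D.c2 (x^2 + 4 w^2)`) and `b06_sum` twice of `b06_smul` of `b05_tensor` (`p = 1000`, `q = 20`)
applied to `b04_nice1`, `b04_nice2`. Then rewrite the functions with `funext` (`Hc`, `HcX`, `HcW`,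
`HcWW`, `Hs`, `Sp`, `mul_sum`, `ring`). -/
theorem b07_nice (D : Dat) (hm : MomAll D) : ∃ C : ℝ, Nice (Hc D) (HcX D) (HcW D) (HcWW D) C := by
  obtain ⟨C1, h1⟩ := b06_quad (D.c0 : ℝ) (1000000 * (D.c2 : ℝ))
  have key : ∀ i ∈ range D.ax.length, ∀ j ∈ range D.aw.length, ∃ C : ℝ, Nice
      (fun x w => (cof D i j : ℝ) * (tpS 5 (D.ax.getD i []) (D.kx.drop i) (1000 * x)
        * tpS 5 (D.aw.getD j []) (D.kw.drop j) (20 * w)))
      (fun x w => (cof D i j : ℝ) * (1000 * (5 * tpS 4 (D.ax.getD i []) (D.kx.drop i) (1000 * x))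
        * tpS 5 (D.aw.getD j []) (D.kw.drop j) (20 * w)))
      (fun x w => (cof D i j : ℝ) * (tpS 5 (D.ax.getD i []) (D.kx.drop i) (1000 * x)
        * (20 * (5 * tpS 4 (D.aw.getD j []) (D.kw.drop j) (20 * w)))))
      (fun x w => (cof D i j : ℝ) * (tpS 5 (D.ax.getD i []) (D.kx.drop i) (1000 * x)
        * (20 ^ 2 * (20 * tpS 3 (D.aw.getD j []) (D.kw.drop j) (20 * w))))) C := by
    intro i hi j hj
    obtain ⟨A1, hA1⟩ := b04_nice1 (D.ax.getD i []) (D.kx.drop i) (hm.1 i (Finset.mem_range.1 hi))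
    obtain ⟨A2, hA2⟩ := b04_nice2 (D.aw.getD j []) (D.kw.drop j) (hm.2 j (Finset.mem_range.1 hj))
    obtain ⟨A3, hA3⟩ := b05_tensor _ _ _ _ _ A1 A2 1000 20 hA1 hA2 (by norm_num) (by norm_num)
    exact ⟨_, b06_smul hA3 (cof D i j : ℝ)⟩
  obtain ⟨C2, h2⟩ := b06_sum (range D.ax.length) _ _ _ _ (fun i hi =>
    b06_sum (range D.aw.length) _ _ _ _ (key i hi))
  refine ⟨C2 + C1, ?_⟩
  have e1 : Hc D = fun x w => (∑ i ∈ range D.ax.length, ∑ j ∈ range D.aw.length,
      (cof D i j : ℝ) * (tpS 5 (D.ax.getD i []) (D.kx.drop i) (1000 * x)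
        * tpS 5 (D.aw.getD j []) (D.kw.drop j) (20 * w)))
      + ((D.c0 : ℝ) + 1000000 * (D.c2 : ℝ) * (x ^ 2 + 4 * w ^ 2)) := by
    funext x w
    simp only [Hc, Hs, Sp]
    ring
  have e2 : HcX D = fun x w => (∑ i ∈ range D.ax.length, ∑ j ∈ range D.aw.length,
      (cof D i j : ℝ) * (1000 * (5 * tpS 4 (D.ax.getD i []) (D.kx.drop i) (1000 * x))
        * tpS 5 (D.aw.getD j []) (D.kw.drop j) (20 * w)))
      + 1000000 * (D.c2 : ℝ) * (2 * x) := by
    funext x w
    simp only [HcX, HsX, Sp]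
    rw [mul_add]
    congr 1
    · rw [Finset.mul_sum, Finset.mul_sum]
      refine Finset.sum_congr rfl (fun i _ => ?_)
      rw [Finset.mul_sum, Finset.mul_sum]
      refine Finset.sum_congr rfl (fun j _ => ?_)
      ring
    · ring
  have e3 : HcW D = fun x w => (∑ i ∈ range D.ax.length, ∑ j ∈ range D.aw.length,
      (cof D i j : ℝ) * (tpS 5 (D.ax.getD i []) (D.kx.drop i) (1000 * x)
        * (20 * (5 * tpS 4 (D.aw.getD j []) (D.kw.drop j) (20 * w)))))
      + 1000000 * (D.c2 : ℝ) * (8 * w) := by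
    funext x w
    simp only [HcW, HsW, Sp]
    rw [mul_add]
    congr 1
    · rw [Finset.mul_sum, Finset.mul_sum]
      refine Finset.sum_congr rfl (fun i _ => ?_)
      rw [Finset.mul_sum, Finset.mul_sum]
      refine Finset.sum_congr rfl (fun j _ => ?_)
      ring
    · ring
  have e4 : HcWW D = fun x w => (∑ i ∈ range D.ax.length, ∑ j ∈ range D.aw.length,
      (cof D i j : ℝ) * (tpS 5 (D.ax.getD i []) (D.kx.drop i) (1000 * x)
        * (20 ^ 2 * (20 * tpS 3 (D.aw.getD j []) (D.kw.drop j) (20 * w)))))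
      + 1000000 * (D.c2 : ℝ) * 8 := by
    funext x w
    simp only [HcWW, HsWW, Sp]
    rw [mul_add]
    congr 1
    · rw [Finset.mul_sum, Finset.mul_sum]
      refine Finset.sum_congr rfl (fun i _ => ?_)
      rw [Finset.mul_sum, Finset.mul_sum]
      refine Finset.sum_congr rfl (fun j _ => ?_)
      ring
    · ring
  rw [e1, e2, e3, e4]
  exact b06_add h2 h1

/-- the generator in scaled coordinates: unfold everything, `ring`. -/
theorem b07_gen (D : Dat) (l lam : ℝ) (x w : ℝ) :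
    2 * l * (gen (HcX D) (HcW D) (HcWW D) x w + lam * Hc D x w)
      = Fs D l (2 * l * lam) (1000 * x) (20 * w) := by
  simp only [gen, HcX, HcW, HcWW, Hc, Fs]
  ring

/-- `Sp` is continuous in `(X, W)` (`1 ≤ e`, `1 ≤ f` not needed), `b01_continuous`. -/
theorem b07_continuous_Sp (D : Dat) (e f : ℕ) : Continuous (fun p : ℝ × ℝ => Sp D e f p.1 p.2) := by
  unfold Sp
  refine continuous_finsetSum _ (fun i _ => continuous_finsetSum _ (fun j _ => ?_))
  exact continuous_const.mul (((b01_continuous e _ _).comp continuous_fst).mul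
    ((b01_continuous f _ _).comp continuous_snd))

end Pool.H56P
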