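import Pool.Agent.Lib.H56P.Defs

set_option autoImplicit false

namespace Pool.H56P

open Finset Polynomial

/-- **C01 (M, 9 small lemmas).** The norm `l1 P = ∑ |coefficients|`.
`l1_eq`: `P.sum` over the support equals the sum over `range n` (`Polynomial.sum_over_range'`). -/
theorem c01_l1_eq (P : ℤ[X]) (n : ℕ) (h : P.natDegree < n) : l1 P = ∑ k ∈ range n, |P.coeff k| := by
  unfold l1
  exact Polynomial.sum_over_range' P (fun k => by simp) n h

theorem c01_nonneg (P : ℤ[X]) : 0 ≤ l1 P := by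
  rw [c01_l1_eq P _ (Nat.lt_succ_self _)]
  exact sum_nonneg fun k _ => abs_nonneg _

theorem c01_coeff (P : ℤ[X]) (k : ℕ) : |P.coeff k| ≤ l1 P := by
  rw [c01_l1_eq P (P.natDegree + k + 1) (by omega)]
  exact single_le_sum (f := fun k => |P.coeff k|) (fun i _ => abs_nonneg _)
    (mem_range.2 (by omega))

theorem c01_add (P Q : ℤ[X]) : l1 (P + Q) ≤ l1 P + l1 Q := by
  have h1 : (P + Q).natDegree < P.natDegree + Q.natDegree + 1 := by
    have := natDegree_add_le P Q
    have h2 : max P.natDegree Q.natDegree ≤ P.natDegree + Q.natDegree :=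
      max_le (by omega) (by omega)
    omega
  rw [c01_l1_eq P (P.natDegree + Q.natDegree + 1) (by omega),
    c01_l1_eq Q (P.natDegree + Q.natDegree + 1) (by omega), c01_l1_eq _ _ h1, ← sum_add_distrib]
  refine sum_le_sum fun k _ => ?_
  rw [coeff_add]
  exact abs_add_le _ _

theorem c01_C (a : ℤ) : l1 (C a) = |a| := by
  rw [c01_l1_eq (C a) 1 (by simp)]
  simp

theorem c01_C_mul (a : ℤ) (P : ℤ[X]) : l1 (C a * P) ≤ |a| * l1 P := by
  have h1 : (C a * P).natDegree < P.natDegree + 1 :=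
    Nat.lt_succ_of_le (natDegree_C_mul_le a P)
  rw [c01_l1_eq _ _ h1, c01_l1_eq P _ (Nat.lt_succ_self _), mul_sum]
  refine sum_le_sum fun k _ => ?_
  rw [coeff_C_mul, abs_mul]

theorem c01_X_mul (P : ℤ[X]) : l1 (X * P) = l1 P := by
  have h1 : (X * P).natDegree < P.natDegree + 1 + 1 := by
    have := natDegree_mul_le (p := (X : ℤ[X])) (q := P)
    have h2 : (X : ℤ[X]).natDegree = 1 := natDegree_X
    omega
  rw [c01_l1_eq _ _ h1, c01_l1_eq P _ (Nat.lt_succ_self _), sum_range_succ']
  simp [coeff_X_mul]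

theorem c01_X_pow_mul (n : ℕ) (P : ℤ[X]) : l1 (X ^ n * P) = l1 P := by
  induction n with
  | zero => simp
  | succ n ih => rw [pow_succ', mul_assoc, c01_X_mul, ih]

theorem c01_sum {ι : Type*} (s : Finset ι) (f : ι → ℤ[X]) : l1 (∑ i ∈ s, f i) ≤ ∑ i ∈ s, l1 (f i) := by
  classical
  induction s using Finset.induction_on with
  | empty => simp [l1]
  | insert i s hi ih =>
    rw [sum_insert hi, sum_insert hi]
    exact (c01_add _ _).trans (by linarith)

/-- Proof: with `c01_l1_eq` for large `n`: `|coeff (P Q) k| ≤ ∑_{i+j=k} |P_i| |Q_j|`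
(`Polynomial.coeff_mul`), and the sum over `k` of the right sides is at most the product of the sums
(`sum_mul_sum`, or induct on `P` by `Polynomial.induction_on'` using `c01_add` and the case of a
monomial `P = monomial n a`, where `l1 (P Q) = |a| l1 Q`). -/
theorem c01_mul (P Q : ℤ[X]) : l1 (P * Q) ≤ l1 P * l1 Q := by
  have h : P * Q = ∑ i ∈ range (P.natDegree + 1), C (P.coeff i) * (X ^ i * Q) := by
    conv_lhs => rw [P.as_sum_range_C_mul_X_pow]
    rw [sum_mul]
    exact sum_congr rfl fun i _ => by ring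
  rw [h, c01_l1_eq P _ (Nat.lt_succ_self _), sum_mul]
  refine (c01_sum _ _).trans (sum_le_sum fun i _ => ?_)
  refine (c01_C_mul _ _).trans ?_
  rw [c01_X_pow_mul]

theorem c01_pow (P : ℤ[X]) (n : ℕ) : l1 (P ^ n) ≤ l1 P ^ n := by
  induction n with
  | zero =>
    rw [pow_zero, pow_zero, ← C_1, c01_C]
    simp
  | succ n ih =>
    rw [pow_succ, pow_succ]
    exact (c01_mul _ _).trans (mul_le_mul_of_nonneg_right ih (c01_nonneg P))

theorem c01_lin (a b : ℤ) : l1 (C a + C b * X) ≤ |a| + |b| := by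
  refine (c01_add _ _).trans ?_
  rw [c01_C]
  have h1 : l1 (X : ℤ[X]) = 1 := by
    rw [← mul_one (X : ℤ[X]), c01_X_mul, ← C_1, c01_C]
    simp
  have h2 := c01_C_mul b X
  rw [h1, mul_one] at h2
  linarith

end Pool.H56P
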