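import Pool.Agent.Lib.H56P.Defs

set_option autoImplicit false

namespace Pool.H56P

open Finset Polynomial

/-- **C02 (S).** `offs n = ∑_{k<n} 2^383 (2^384)^k`. Induction. -/
theorem c02_offs (n : ℕ) : offs n = ∑ k ∈ range n, 2 ^ 383 * 2 ^ (384 * k) := by
  induction n with
  | zero => rfl
  | succ n ih =>
    rw [sum_range_succ, ← ih, offs, pow_add, mul_comm (2 ^ (384 * n))]

theorem c02_gen (B : ℕ) (hB : 0 < B) (k : ℕ) : ∀ (n : ℕ) (D : ℕ → ℕ), (∀ j < n, D j < B) →
    k < n → ((∑ i ∈ range n, D i * B ^ i) / B ^ k) % B = D k := by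
  induction k with
  | zero =>
    intro n D hD hk
    obtain ⟨m, rfl⟩ : ∃ m, n = m + 1 := ⟨n - 1, by omega⟩
    rw [sum_range_succ', pow_zero, Nat.div_one, mul_one]
    have h1 : ∑ i ∈ range m, D (i + 1) * B ^ (i + 1) = B * ∑ i ∈ range m, D (i + 1) * B ^ i := by
      rw [mul_sum]
      exact sum_congr rfl fun i _ => by ring
    rw [h1, Nat.mul_add_mod, Nat.mod_eq_of_lt (hD 0 (by omega))]
  | succ k ih =>
    intro n D hD hk
    obtain ⟨m, rfl⟩ : ∃ m, n = m + 1 := ⟨n - 1, by omega⟩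
    rw [sum_range_succ', pow_zero, mul_one]
    have h1 : ∑ i ∈ range m, D (i + 1) * B ^ (i + 1) = B * ∑ i ∈ range m, D (i + 1) * B ^ i := by
      rw [mul_sum]
      exact sum_congr rfl fun i _ => by ring
    have h2 : B ^ (k + 1) = B * B ^ k := by ring
    rw [h1, h2, ← Nat.div_div_eq_div_mul, Nat.mul_add_div hB, Nat.div_eq_of_lt (hD 0 (by omega)),
      add_zero]
    exact ih m (fun i => D (i + 1)) (fun j hj => hD (j + 1) (by omega)) (by omega)

/-- Digits: if `D k < 2^384` for `k < n` and `R = ∑_{k<n} D_k 2^(384 k)` then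
`(R / 2^(384 k)) % 2^384 = D k` for `k < n`. Proof: split the sum at `k`: the lower part is
`< 2^(384 k)`, the upper part is `2^(384 (k+1))` times a natural number (induction on `n`). -/
theorem c02_digit (n : ℕ) (D : ℕ → ℕ) (hD : ∀ k < n, D k < 2 ^ 384) (k : ℕ) (hk : k < n) :
    ((∑ i ∈ range n, D i * 2 ^ (384 * i)) / 2 ^ (384 * k)) % 2 ^ 384 = D k := by
  have h := c02_gen (2 ^ 384) (Nat.two_pow_pos _) k n D hD hk
  simp only [← pow_mul] at h
  exact h

/-- The mask: `offs n` has the bits `384 k + 383`, `k < n`, set.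
Proof: by `c02_offs` and `c02_digit` with `D k = 2^383` (or by induction). -/
theorem c02_testBit_offs (n k : ℕ) (hk : k < n) : Nat.testBit (offs n) (384 * k + 383) = true := by
  have h := c02_digit n (fun _ => 2 ^ 383)
    (fun _ _ => Nat.pow_lt_pow_right (by norm_num) (by norm_num)) k hk
  rw [← c02_offs] at h
  rw [Nat.testBit_eq_decide_div_mod_eq, pow_add, ← Nat.div_div_eq_div_mul,
    ← Nat.mod_mul_right_div_self]
  have h2 : (2 : ℕ) ^ 383 * 2 = 2 ^ 384 := by rw [← pow_succ]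
  rw [h2, h]
  simp

end Pool.H56P
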