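import Pool.Agent.Lib.H56P.Defs
import Pool.Agent.Lib.H56P.C02

set_option autoImplicit false
set_option exponentiation.threshold 400

namespace Pool.H56P

open Finset Polynomial

/-- **C03 (M).** Soundness of `negD`.
Proof: put `D k = (T k + 2^383).toNat < 2^384`. Then `offs n + ∑ T k 2^(384 k) = ∑ (T k + 2^383) 2^(384k)`
is the natural number `R = ∑ D k 2^(384 k)`, so the hypothesis says `Nat.land R (offs n) = 0`. By
`c02_testBit_offs` and `Nat.testBit_land` (`Nat.testBit_and`) the bit `384 k + 383` of `R` is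
`false`; it is the bit `383` of `(R / 2^(384 k)) % 2^384 = D k` (`Nat.testBit_div_two_pow`,
`Nat.testBit_mod_two_pow`, `c02_digit`). A number `D k < 2^384` whose bit `383` is `0` is `< 2^383`,
so `T k + 2^383 < 2^383`, `T k < 0`. -/
theorem c03_negD (n : ℕ) (T : ℕ → ℤ) (hT : ∀ k < n, |T k| < 2 ^ 383)
    (hc : negD n (∑ k ∈ range n, T k * 2 ^ (384 * k)) = true) : ∀ k < n, T k ≤ -1 := by
  obtain ⟨D, hD⟩ : ∃ D : ℕ → ℕ, D = fun k => (T k + 2 ^ 383).toNat := ⟨_, rfl⟩
  have hDc : ∀ k < n, ((D k : ℕ) : ℤ) = T k + 2 ^ 383 := by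
    intro k hk
    rw [hD]
    apply Int.toNat_of_nonneg
    have := (abs_lt.1 (hT k hk)).1
    linarith
  have hD2 : ∀ k < n, D k < 2 ^ 384 := by
    intro k hk
    have h1 := hDc k hk
    have h2 := (abs_lt.1 (hT k hk)).2
    have h3 : ((D k : ℕ) : ℤ) < 2 ^ 384 := by
      rw [h1]
      have h4 : (2 : ℤ) ^ 384 = 2 ^ 383 + 2 ^ 383 := by
        have h5 : (2 : ℤ) ^ 384 = 2 ^ 383 * 2 := pow_succ 2 383
        rw [h5, mul_two]
      rw [h4]
      linarith
    exact_mod_cast h3
  obtain ⟨R, hR⟩ : ∃ R : ℕ, R = ∑ i ∈ range n, D i * 2 ^ (384 * i) := ⟨_, rfl⟩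
  have hRc : ((offs n : ℕ) : ℤ) + ∑ k ∈ range n, T k * 2 ^ (384 * k) = (R : ℤ) := by
    rw [hR, c02_offs, Nat.cast_sum, Nat.cast_sum, ← Finset.sum_add_distrib]
    apply Finset.sum_congr rfl
    intro k hk
    rw [Nat.cast_mul, Nat.cast_mul, hDc k (Finset.mem_range.1 hk), Nat.cast_pow, Nat.cast_pow]
    simp only [Nat.cast_ofNat]
    ring
  have hz : R &&& offs n = 0 := by
    unfold negD at hc
    rw [hRc, Int.toNat_natCast] at hc
    exact beq_iff_eq.1 hc
  intro k hk
  have h1 : Nat.testBit R (384 * k + 383) = false := by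
    have h2 : Nat.testBit (R &&& offs n) (384 * k + 383) = false := by
      rw [hz]
      exact Nat.zero_testBit _
    rw [Nat.testBit_and, c02_testBit_offs n k hk, Bool.and_true] at h2
    exact h2
  have h3 : Nat.testBit (D k) 383 = false := by
    rw [← c02_digit n D hD2 k hk, ← hR, Nat.testBit_mod_two_pow, Nat.testBit_div_two_pow,
      Nat.add_comm 383 (384 * k), h1, Bool.and_false]
  have h4 : D k < 2 ^ 383 := by
    apply Nat.lt_pow_two_of_testBit
    intro i hi
    rcases Nat.eq_or_lt_of_le hi with h5 | h5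
    · rw [← h5]
      exact h3
    · apply Nat.testBit_eq_false_of_lt
      exact (hD2 k hk).trans_le (Nat.pow_le_pow_right (by norm_num) h5)
  have h5 := hDc k hk
  have h6 : ((D k : ℕ) : ℤ) < 2 ^ 383 := by exact_mod_cast h4
  rw [h5] at h6
  have h7 : T k < 0 := by linarith
  omega

end Pool.H56P
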