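import Pool.Agent.Lib.H56P.Defs
import Pool.Agent.Lib.H56P.C01
import Pool.Agent.Lib.H56P.C03

set_option autoImplicit false

namespace Pool.H56P

open Finset Polynomial

/-- reindexing of base `7` digits -/
theorem c04_digits {R : Type*} [CommRing R] (F : ℕ → ℕ → R) (y : R) (m : ℕ) :
    ∑ n ∈ range (7 * m), F (n / 7) (n % 7) * y ^ n =
      ∑ a ∈ range m, ∑ b ∈ range 7, F a b * y ^ (7 * a + b) := by
  induction m with
  | zero => simp
  | succ m ih =>
    rw [Finset.sum_range_succ, ← ih, Nat.mul_succ, Finset.sum_range_add]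
    congr 1
    apply Finset.sum_congr rfl
    intro b hb
    rw [Finset.mem_range] at hb
    have h1 : (7 * m + b) / 7 = m := by omega
    have h2 : (7 * m + b) % 7 = b := by omega
    rw [h1, h2]

theorem c04_expand {R : Type*} [CommRing R] (L : List (ℤ[X] × ℤ[X]))
    (hd : ∀ p ∈ L, p.1.natDegree ≤ 5 ∧ p.2.natDegree ≤ 6) (x y : R) :
    (L.map fun p => (aeval x p.1 : R) * (aeval y p.2 : R)).sum =
      ∑ a ∈ range 6, ∑ b ∈ range 7,
        (((L.map fun p => p.1.coeff a * p.2.coeff b).sum : ℤ) : R) * (x ^ a * y ^ b) := by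
  induction L with
  | nil => simp
  | cons p L ih =>
    have h1 := hd p (List.mem_cons_self)
    have h2 := ih fun q hq => hd q (List.mem_cons_of_mem _ hq)
    rw [List.map_cons, List.sum_cons, h2, aeval_eq_sum_range' (Nat.lt_succ_of_le h1.1),
      aeval_eq_sum_range' (Nat.lt_succ_of_le h1.2), Finset.sum_mul_sum, ← Finset.sum_add_distrib]
    apply Finset.sum_congr rfl
    intro a _
    rw [← Finset.sum_add_distrib]
    apply Finset.sum_congr rfl
    intro b _
    rw [List.map_cons, List.sum_cons, zsmul_eq_mul, zsmul_eq_mul]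
    push_cast
    ring

theorem c04_expand1 {R : Type*} [CommRing R] (L : List (ℤ × ℤ[X]))
    (hd : ∀ p ∈ L, p.2.natDegree ≤ 6) (y : R) :
    (L.map fun p => (p.1 : R) * (aeval y p.2 : R)).sum =
      ∑ b ∈ range 7, (((L.map fun p => p.1 * p.2.coeff b).sum : ℤ) : R) * y ^ b := by
  induction L with
  | nil => simp
  | cons p L ih =>
    have h1 := hd p (List.mem_cons_self)
    have h2 := ih fun q hq => hd q (List.mem_cons_of_mem _ hq)
    rw [List.map_cons, List.sum_cons, h2, aeval_eq_sum_range' (Nat.lt_succ_of_le h1),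
      Finset.mul_sum, ← Finset.sum_add_distrib]
    apply Finset.sum_congr rfl
    intro b _
    rw [List.map_cons, List.sum_cons, zsmul_eq_mul]
    push_cast
    ring

theorem c04_bound (L : List (ℤ[X] × ℤ[X])) (a b : ℕ) :
    |(L.map fun p => p.1.coeff a * p.2.coeff b).sum| ≤ (L.map fun p => l1 p.1 * l1 p.2).sum := by
  induction L with
  | nil => simp
  | cons p L ih =>
    rw [List.map_cons, List.sum_cons, List.map_cons, List.sum_cons]
    refine (abs_add_le _ _).trans (add_le_add ?_ ih)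
    rw [abs_mul]
    exact mul_le_mul (c01_coeff _ _) (c01_coeff _ _) (abs_nonneg _) (c01_nonneg _)

theorem c04_bound1 (L : List (ℤ × ℤ[X])) (b : ℕ) :
    |(L.map fun p => p.1 * p.2.coeff b).sum| ≤ (L.map fun p => |p.1| * l1 p.2).sum := by
  induction L with
  | nil => simp
  | cons p L ih =>
    rw [List.map_cons, List.sum_cons, List.map_cons, List.sum_cons]
    refine (abs_add_le _ _).trans (add_le_add ?_ ih)
    rw [abs_mul]
    exact mul_le_mul_of_nonneg_left (c01_coeff _ _) (abs_nonneg _)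

/-- **C04 (M).** Cell theorem: a sum of products `P_k(r1) Q_k(r2)` of integer polynomials of degrees
`≤ 5`, `≤ 6` whose value at `(2^2688, 2^384)` passes `negD 42` is at most
`-(∑_{a<6} r1^a) (∑_{b<7} r2^b)` for all `r1, r2 ≥ 0`.
Proof: `T_{ab} = ∑_k coeff P_k a * coeff Q_k b` (`a < 6`, `b < 7`); `|T_{ab}| ≤ ∑ l1 P_k l1 Q_k < 2^383`
(`c01_coeff`); `eval_eq_sum_range'` gives
`∑_k P_k(2^2688) Q_k(2^384) = ∑_{a<6} ∑_{b<7} T_{ab} 2^(384 (7 a + b)) = ∑_{n<42} T'_n 2^(384 n)` with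
`T'_n = T_{n/7, n%7}` (expand both sides with `sum_range_succ`, `ring`/`simp`), so `c03_negD`
gives `T_{ab} ≤ -1`, and `∑_k aeval r1 P_k * aeval r2 Q_k = ∑_{a,b} T_{ab} r1^a r2^b`. -/
theorem c04_cell (L : List (ℤ[X] × ℤ[X])) (hd : ∀ p ∈ L, p.1.natDegree ≤ 5 ∧ p.2.natDegree ≤ 6)
    (hb : (L.map fun p => l1 p.1 * l1 p.2).sum < 2 ^ 383)
    (hc : negD 42 (L.map fun p => p.1.eval (2 ^ 2688) * p.2.eval (2 ^ 384)).sum = true)
    (r1 r2 : ℝ) (h1 : 0 ≤ r1) (h2 : 0 ≤ r2) :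
    (L.map fun p => (aeval r1 p.1 : ℝ) * (aeval r2 p.2 : ℝ)).sum
      ≤ -((∑ a ∈ range 6, r1 ^ a) * (∑ b ∈ range 7, r2 ^ b)) := by
  obtain ⟨T, hT⟩ : ∃ T : ℕ → ℕ → ℤ, T = fun a b => (L.map fun p => p.1.coeff a * p.2.coeff b).sum :=
    ⟨_, rfl⟩
  have e1 : (L.map fun p => p.1.eval (2 ^ 2688) * p.2.eval (2 ^ 384)).sum =
      ∑ k ∈ range 42, T (k / 7) (k % 7) * 2 ^ (384 * k) := by
    have e2 := c04_expand (R := ℤ) L hd (2 ^ 2688) (2 ^ 384)
    have e3 := c04_digits (R := ℤ) T (2 ^ 384) 6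
    have e4 : ∑ k ∈ range 42, T (k / 7) (k % 7) * 2 ^ (384 * k) =
        ∑ k ∈ range (7 * 6), T (k / 7) (k % 7) * (2 ^ 384) ^ k := by
      apply Finset.sum_congr rfl
      intro k _
      rw [← pow_mul]
    rw [e4, e3]
    simp only [Polynomial.coe_aeval_eq_eval] at e2
    rw [e2]
    apply Finset.sum_congr rfl
    intro a _
    apply Finset.sum_congr rfl
    intro b _
    rw [← pow_mul, ← pow_mul, ← pow_mul, ← pow_add, Int.cast_id, hT]
    congr 2
    omega
  rw [e1] at hc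
  have hneg := c03_negD 42 (fun k => T (k / 7) (k % 7)) (fun k _ => by
    rw [hT]
    exact (c04_bound L _ _).trans_lt hb) hc
  have hneg' : ∀ a ∈ range 6, ∀ b ∈ range 7, T a b ≤ -1 := by
    intro a ha b hb'
    rw [Finset.mem_range] at ha hb'
    have h3 := hneg (7 * a + b) (by omega)
    have h4 : (7 * a + b) / 7 = a := by omega
    have h5 : (7 * a + b) % 7 = b := by omega
    simp only [h4, h5] at h3
    exact h3
  rw [c04_expand (R := ℝ) L hd r1 r2, Finset.sum_mul_sum, ← Finset.sum_neg_distrib]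
  apply Finset.sum_le_sum
  intro a ha
  rw [← Finset.sum_neg_distrib]
  apply Finset.sum_le_sum
  intro b hb'
  have h3 : ((T a b : ℤ) : ℝ) ≤ -1 := by exact_mod_cast hneg' a ha b hb'
  have h4 : 0 ≤ r1 ^ a * r2 ^ b := mul_nonneg (pow_nonneg h1 _) (pow_nonneg h2 _)
  rw [hT] at h3
  calc _ ≤ (-1 : ℝ) * (r1 ^ a * r2 ^ b) := mul_le_mul_of_nonneg_right h3 h4
    _ = _ := by ring

/-- The one variable version (`7` digits). -/
theorem c04_cell1 (L : List (ℤ × ℤ[X])) (hd : ∀ p ∈ L, p.2.natDegree ≤ 6)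
    (hb : (L.map fun p => |p.1| * l1 p.2).sum < 2 ^ 383)
    (hc : negD 7 (L.map fun p => p.1 * p.2.eval (2 ^ 384)).sum = true)
    (r2 : ℝ) (h2 : 0 ≤ r2) :
    (L.map fun p => (p.1 : ℝ) * (aeval r2 p.2 : ℝ)).sum ≤ -(∑ b ∈ range 7, r2 ^ b) := by
  obtain ⟨T, hT⟩ : ∃ T : ℕ → ℤ, T = fun b => (L.map fun p => p.1 * p.2.coeff b).sum := ⟨_, rfl⟩
  have e1 : (L.map fun p => p.1 * p.2.eval (2 ^ 384)).sum =
      ∑ k ∈ range 7, T k * 2 ^ (384 * k) := by
    have e2 := c04_expand1 (R := ℤ) L hd (2 ^ 384)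
    simp only [Polynomial.coe_aeval_eq_eval, Int.cast_id] at e2
    rw [e2]
    apply Finset.sum_congr rfl
    intro b _
    rw [← pow_mul, hT]
  rw [e1] at hc
  have hneg := c03_negD 7 T (fun k _ => by
    rw [hT]
    exact (c04_bound1 L _).trans_lt hb) hc
  rw [c04_expand1 (R := ℝ) L hd r2, ← Finset.sum_neg_distrib]
  apply Finset.sum_le_sum
  intro b hb'
  have h3 : ((T b : ℤ) : ℝ) ≤ -1 := by exact_mod_cast hneg b (Finset.mem_range.1 hb')
  have h4 : 0 ≤ r2 ^ b := pow_nonneg h2 _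
  rw [hT] at h3
  calc _ ≤ (-1 : ℝ) * r2 ^ b := mul_le_mul_of_nonneg_right h3 h4
    _ = _ := by ring

end Pool.H56P
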