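import Pool.Agent.Lib.H56P.Defs

set_option autoImplicit false

namespace Pool.H56P

open Finset Polynomial

/-- **C05 (S/M, 7 small lemmas).** The generic function `gspow` and its kernel version `spow`.
All by induction on the lists. -/
theorem c05_eval (e : ℕ) (a b y : ℤ) (al ta : List ℤ) :
    (gspow e a b (X : ℤ[X]) al ta).eval y = spow e a b y al ta := by
  induction al generalizing ta with
  | nil => simp [gspow, spow]
  | cons α al ih =>
    cases ta with
    | nil => simp [gspow, spow]
    | cons τ ta =>
      simp only [gspow, spow]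
      split_ifs with h
      · rw [eval_add, ih]
        simp
      · simp

theorem c05_aeval (e : ℕ) (a b : ℤ) (r : ℝ) (al ta : List ℤ) :
    (aeval r (gspow e a b (X : ℤ[X]) al ta) : ℝ) = gspow e a b r al ta := by
  induction al generalizing ta with
  | nil => simp [gspow]
  | cons α al ih =>
    cases ta with
    | nil => simp [gspow]
    | cons τ ta =>
      simp only [gspow]
      split_ifs with h
      · rw [map_add, ih]
        simp
      · simp

theorem c05_natDegree (e : ℕ) (a b : ℤ) (al ta : List ℤ) :
    (gspow e a b (X : ℤ[X]) al ta).natDegree ≤ e := by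
  induction al generalizing ta with
  | nil => simp [gspow]
  | cons α al ih =>
    cases ta with
    | nil => simp [gspow]
    | cons τ ta =>
      simp only [gspow]
      split_ifs with h
      · refine (natDegree_add_le _ _).trans (max_le ?_ (ih ta))
        refine (natDegree_mul_le).trans ?_
        have h1 : ((α : ℤ[X])).natDegree = 0 := natDegree_intCast α
        have h2 : ((((a - τ : ℤ) : ℤ[X]) + ((b - τ : ℤ) : ℤ[X]) * X)).natDegree ≤ 1 := by
          refine (natDegree_add_le _ _).trans (max_le ?_ ?_)
          · rw [natDegree_intCast]; omega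
          · refine natDegree_mul_le.trans ?_
            rw [natDegree_intCast]
            have := natDegree_X_le (R := ℤ)
            omega
        have h3 := natDegree_pow_le_of_le e h2
        omega
      · simp

theorem c05_coeff_zero (e : ℕ) (a b : ℤ) (al ta : List ℤ) :
    (gspow e a b (X : ℤ[X]) al ta).coeff 0 = spow e a b 0 al ta := by
  rw [coeff_zero_eq_eval_zero, c05_eval]

theorem c05_tpS_zero (e : ℕ) (he : 1 ≤ e) (x : ℝ) (al ta : List ℤ)
    (h : ∀ τ ∈ ta, x ≤ (τ : ℝ)) : tpS e al ta x = 0 := by
  induction al generalizing ta with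
  | nil => simp [tpS]
  | cons α al ih =>
    cases ta with
    | nil => simp [tpS]
    | cons τ ta =>
      simp only [tpS]
      have h1 := h τ (by simp)
      rw [ih ta (fun τ' hτ' => h τ' (by simp [hτ'])), max_eq_right (by linarith),
        zero_pow (by omega)]
      simp

/-- the real meaning: `(b-x)^e gspow(r) = (b-a)^e tpS e (x)`, `r = (x-a)/(b-x)`.
Proof: induction; a knot `τ ≤ a` contributes on both sides
`α ((a-τ)(b-x) + (b-τ)(x-a))^e = α ((b-a)(x-τ))^e`; at the first knot `τ > a` (hence `b ≤ τ`) the left
side stops, and on the right all further knots are `≥ b > x` (sortedness) and contribute `0`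
(`1 ≤ e`). -/
theorem c05_real (e : ℕ) (he : 1 ≤ e) (a b : ℤ) (x : ℝ) (al ta : List ℤ)
    (hs : ta.Pairwise (· ≤ ·)) (hg : ∀ τ ∈ ta, τ ≤ a ∨ b ≤ τ) (hax : (a : ℝ) ≤ x) (hxb : x < b) :
    ((b : ℝ) - x) ^ e * gspow e a b ((x - a) / (b - x)) al ta = ((b : ℝ) - a) ^ e * tpS e al ta x := by
  induction al generalizing ta with
  | nil => simp [gspow, tpS]
  | cons α al ih =>
    cases ta with
    | nil => simp [gspow, tpS]
    | cons τ ta =>
      rw [List.pairwise_cons] at hs
      simp only [gspow]
      split_ifs with h
      · have ih' := ih ta hs.2 (fun τ' hτ' => hg τ' (by simp [hτ']))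
        simp only [tpS]
        have hτ : (τ : ℝ) ≤ a := by exact_mod_cast h
        rw [max_eq_left (by linarith), mul_add, mul_add, ih']
        congr 1
        have hbx : (b : ℝ) - x ≠ 0 := by linarith
        have e1 : ((b : ℝ) - x) * ((((a - τ : ℤ) : ℝ) + ((b - τ : ℤ) : ℝ) * ((x - a) / (b - x)))) =
            ((b : ℝ) - a) * (x - τ) := by
          push_cast
          field_simp
          ring
        calc ((b : ℝ) - x) ^ e * ((α : ℝ) * (((a - τ : ℤ) : ℝ) + ((b - τ : ℤ) : ℝ) *
              ((x - a) / (b - x))) ^ e)
            = (α : ℝ) * (((b : ℝ) - x) * ((((a - τ : ℤ) : ℝ) + ((b - τ : ℤ) : ℝ) *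
              ((x - a) / (b - x))))) ^ e := by rw [mul_pow]; ring
          _ = ((b : ℝ) - a) ^ e * ((α : ℝ) * (x - τ) ^ e) := by rw [e1, mul_pow]; ring
      · have hbτ : b ≤ τ := by
          rcases hg τ (by simp) with h' | h'
          · exact absurd h' h
          · exact h'
        have hz : tpS e (α :: al) (τ :: ta) x = 0 := by
          apply c05_tpS_zero e he
          intro τ' hτ'
          rw [List.mem_cons] at hτ'
          have h3 : τ ≤ τ' := by
            rcases hτ' with h' | h'
            · exact h'.ge
            · exact hs.1 τ' h'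
          have h4 : (b : ℝ) ≤ τ' := by exact_mod_cast hbτ.trans h3
          linarith
        rw [hz]
        simp

end Pool.H56P
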