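import Pool.Agent.Lib.H56P.Defs
import Pool.Agent.Lib.H56P.C01

set_option autoImplicit false

namespace Pool.H56P

open Finset Polynomial

theorem c06_zero : l1 (0 : ℤ[X]) = 0 := by
  have h := c01_C 0
  rwa [C_0, abs_zero] at h

theorem c06_term (e : ℕ) (α u v A d : ℤ) (hA : |α| ≤ A) (hu : 0 ≤ u) (hv : 0 ≤ v) (hd : u + v ≤ d) :
    l1 ((α : ℤ[X]) * ((u : ℤ[X]) + (v : ℤ[X]) * X) ^ e) ≤ A * d ^ e := by
  have h1 : ∀ n : ℤ, ((n : ℤ) : ℤ[X]) = C n := fun n => (eq_intCast (C : ℤ →+* ℤ[X]) n).symm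
  rw [h1, h1, h1]
  have h2 := c01_lin u v
  rw [abs_of_nonneg hu, abs_of_nonneg hv] at h2
  calc l1 (C α * (C u + C v * X) ^ e) ≤ l1 (C α) * l1 ((C u + C v * X) ^ e) := c01_mul _ _
    _ ≤ |α| * (l1 (C u + C v * X)) ^ e := by
        rw [c01_C]
        exact mul_le_mul_of_nonneg_left (c01_pow _ _) (abs_nonneg _)
    _ ≤ |α| * d ^ e := by
        refine mul_le_mul_of_nonneg_left ?_ (abs_nonneg _)
        exact pow_le_pow_left₀ (c01_nonneg _) (h2.trans hd) e
    _ ≤ A * d ^ e := by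
        refine mul_le_mul_of_nonneg_right hA (pow_nonneg ?_ e)
        linarith

theorem c06_gen (e : ℕ) (a b A d : ℤ) (hab : a ≤ b) (hA : 0 ≤ A) (hd : 1 ≤ d)
    (al ta : List ℤ) (hα : ∀ α ∈ al, |α| ≤ A)
    (hτ : ∀ p ∈ al.zip ta, p.2 ≤ a → (a - p.2) + (b - p.2) ≤ d) :
    l1 (gspow e a b (X : ℤ[X]) al ta) ≤ (al.length : ℤ) * (A * d ^ e) := by
  have hAd : 0 ≤ A * d ^ e := mul_nonneg hA (pow_nonneg (by linarith) e)
  induction al generalizing ta with
  | nil =>
    simp only [gspow]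
    rw [c06_zero]
    simp
  | cons α al ih =>
    cases ta with
    | nil =>
      simp only [gspow]
      rw [c06_zero]
      exact mul_nonneg (Int.natCast_nonneg _) hAd
    | cons τ ta =>
      simp only [gspow]
      by_cases hle : τ ≤ a
      · rw [if_pos hle]
        have h1 := ih ta (fun β hβ => hα β (List.mem_cons_of_mem _ hβ))
          (fun p hp => hτ p (by rw [List.zip_cons_cons]; exact List.mem_cons_of_mem _ hp))
        have h2 := hτ (α, τ) (by rw [List.zip_cons_cons]; exact List.mem_cons_self) hle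
        have h3 := c06_term e α (a - τ) (b - τ) A d (hα α List.mem_cons_self) (by linarith)
          (by linarith) h2
        refine (c01_add _ _).trans ?_
        rw [List.length_cons]
        push_cast at h3 ⊢
        linarith
      · rw [if_neg hle, c06_zero]
        exact mul_nonneg (Int.natCast_nonneg _) hAd

/-- **C06 (S/M).** Norm bound for `gspow`: at most `7` terms, `|α| ≤ A`, and for the knots `τ ≤ a`
`(a - τ) + (b - τ) ≤ d`. Proof: induction on the lists with the bound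
`(number of terms) * A * d^e`; each term: `c01_mul`, `c01_C`, `c01_pow`, `c01_lin`
(`|a-τ| + |b-τ| = (a-τ) + (b-τ)` as `τ ≤ a ≤ b`). -/
theorem c06_l1 (e : ℕ) (he : 1 ≤ e) (a b A d : ℤ) (hab : a ≤ b) (hA : 0 ≤ A) (hd : 1 ≤ d)
    (al ta : List ℤ) (hal : al.length ≤ 7) (hα : ∀ α ∈ al, |α| ≤ A)
    (hτ : ∀ p ∈ al.zip ta, p.2 ≤ a → (a - p.2) + (b - p.2) ≤ d) :
    l1 (gspow e a b (X : ℤ[X]) al ta) ≤ 7 * A * d ^ e := by
  have hAd : 0 ≤ A * d ^ e := mul_nonneg hA (pow_nonneg (by linarith) e)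
  refine (c06_gen e a b A d hab hA hd al ta hα hτ).trans ?_
  rw [mul_assoc]
  exact mul_le_mul_of_nonneg_right (by exact_mod_cast hal) hAd

end Pool.H56P
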