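import Pool.Agent.Lib.H56P.HDef

set_option autoImplicit false

/-!
Polynomials attached to the cells, and the side conditions on the data.
-/

namespace Pool.H56P

open Finset Polynomial

/-- side conditions on the data: `nx` cells in the `x` direction, `nw` cells in the `w` direction -/
structure OK (D : Dat) (nx nw : ℕ) : Prop where
  mom : MomAll D
  kxs : D.kx.Pairwise (· < ·)
  kws : D.kw.Pairwise (· < ·)
  kxl : D.kx.length = nx + 6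
  kwl : D.kw.length = nw + 6
  axl : ∀ al ∈ D.ax, al.length ≤ 7
  awl : ∀ al ∈ D.aw, al.length ≤ 7
  axb : ∀ al ∈ D.ax, ∀ α ∈ al, |α| ≤ 2 ^ 24
  awb : ∀ al ∈ D.aw, ∀ α ∈ al, |α| ≤ 2 ^ 20
  kxb : ∀ τ ∈ D.kx, |τ| ≤ 2 ^ 15
  kwb : ∀ τ ∈ D.kw, |τ| ≤ 2 ^ 10
  dxb : ∀ I < nx, 2 * (D.kx.getD (I + 6) 0 - D.kx.getD I 0) ≤ 2 ^ 15
  dwb : ∀ J < nw, 2 * (D.kw.getD (J + 6) 0 - D.kw.getD J 0) ≤ 2 ^ 10
  cb : ∀ i j, |cof D i j| ≤ 2 ^ 140
  aw0 : ∀ j < 5, D.aw.getD j [] = []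
  c0b : |D.c0| ≤ 2 ^ 140
  c2b : |D.c2| ≤ 2 ^ 140

/-! Polynomial versions of `fx0`, …, `fw3`. -/

noncomputable def px0 (a b : ℤ) (al ta : List ℤ) : ℤ[X] := gspow 5 a b X al ta
noncomputable def px1 (a b : ℤ) (al ta : List ℤ) : ℤ[X] := C 5 * gspow 4 a b X al ta * (C 1 + C 1 * X)
noncomputable def px2 (a b : ℤ) (al ta : List ℤ) : ℤ[X] := C 5 * gspow 4 a b X al ta * (C a + C b * X)

noncomputable def pw0 (l n1 a b : ℤ) (al ta : List ℤ) : ℤ[X] :=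
  C (8000 * l) * (gspow 3 a b X al ta * (C 1 + C 1 * X) ^ 3)
    - C (5 * l) * (gspow 4 a b X al ta * ((C a + C b * X) * (C 1 + C 1 * X)))
    + C n1 * (gspow 5 a b X al ta * (C 1 + C 1 * X))
noncomputable def pw1 (l a b : ℤ) (al ta : List ℤ) : ℤ[X] :=
  C (100 * l) * (gspow 5 a b X al ta * (C a + C b * X))
noncomputable def pw2 (l a b : ℤ) (al ta : List ℤ) : ℤ[X] :=
  C (-l) * (gspow 5 a b X al ta * (C 1 + C 1 * X))
noncomputable def pw3 (a b : ℤ) (al ta : List ℤ) : ℤ[X] := gspow 5 a b X al ta * (C 1 + C 1 * X)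

/-- row combination of the six active splines -/
noncomputable def PU (p : List ℤ → List ℤ → ℤ[X]) (D : Dat) (I j : ℕ) : ℤ[X] :=
  ∑ d ∈ range 6, C (cof D (I + d) j) * p (D.ax.getD (I + d) []) (D.kx.drop (I + d))

/-- abbreviations: the corners of the cell `(I, J)` -/
def xa (D : Dat) (I : ℕ) : ℤ := D.kx.getD (I + 5) 0
def xb (D : Dat) (I : ℕ) : ℤ := D.kx.getD (I + 6) 0
def wa (D : Dat) (J : ℕ) : ℤ := D.kw.getD (J + 5) 0
def wb (D : Dat) (J : ℕ) : ℤ := D.kw.getD (J + 6) 0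

/-- products of the part `∑ c_ij A_i B_j` -/
noncomputable def spL (D : Dat) (I J : ℕ) (p q : List ℤ → List ℤ → ℤ[X]) : List (ℤ[X] × ℤ[X]) :=
  (List.range 6).map fun e => (PU p D I (J + e), q (D.aw.getD (J + e) []) (D.kw.drop (J + e)))

/-- the cell polynomial of the generator, as a sum of products -/
noncomputable def cellLT (D : Dat) (l n1 : ℤ) (I J : ℕ) : List (ℤ[X] × ℤ[X]) :=
  spL D I J (px0 (xa D I) (xb D I)) (pw0 l n1 (wa D J) (wb D J)) ++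
  spL D I J (px1 (xa D I) (xb D I)) (pw1 l (wa D J) (wb D J)) ++
  spL D I J (px2 (xa D I) (xb D I)) (pw2 l (wa D J) (wb D J)) ++
  [(C (n1 * D.c0 + 8000000 * l * D.c2) * (C 1 + C 1 * X) ^ 5, (C 1 + C 1 * X) ^ 6),
   (C ((n1 - 2 * l) * D.c2) * ((C (xa D I) + C (xb D I) * X) ^ 2 * (C 1 + C 1 * X) ^ 3),
      (C 1 + C 1 * X) ^ 6),
   (C (10000 * (n1 - 2 * l) * D.c2) * (C 1 + C 1 * X) ^ 5,
      (C (wa D J) + C (wb D J) * X) ^ 2 * (C 1 + C 1 * X) ^ 4),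
   (C (200 * l * D.c2) * ((C (xa D I) + C (xb D I) * X) * (C 1 + C 1 * X) ^ 4),
      (C (wa D J) + C (wb D J) * X) * (C 1 + C 1 * X) ^ 5)]

/-- the cell polynomial of the value, as a sum of products -/
noncomputable def cellLH (D : Dat) (I J : ℕ) : List (ℤ[X] × ℤ[X]) :=
  spL D I J (px0 (xa D I) (xb D I)) (pw3 (wa D J) (wb D J)) ++
  [(C D.c0 * (C 1 + C 1 * X) ^ 5, (C 1 + C 1 * X) ^ 6),
   (C D.c2 * ((C (xa D I) + C (xb D I) * X) ^ 2 * (C 1 + C 1 * X) ^ 3), (C 1 + C 1 * X) ^ 6),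
   (C (10000 * D.c2) * (C 1 + C 1 * X) ^ 5,
      (C (wa D J) + C (wb D J) * X) ^ 2 * (C 1 + C 1 * X) ^ 4)]

/-- value of a sum of products at integers -/
noncomputable def evL (L : List (ℤ[X] × ℤ[X])) (x y : ℤ) : ℤ := (L.map fun p => p.1.eval x * p.2.eval y).sum

/-- value of a sum of products at reals -/
noncomputable def rvL (L : List (ℤ[X] × ℤ[X])) (r1 r2 : ℝ) : ℝ :=
  (L.map fun p => (aeval r1 p.1 : ℝ) * (aeval r2 p.2 : ℝ)).sum

/-- norm of a sum of products -/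
noncomputable def nmL (L : List (ℤ[X] × ℤ[X])) : ℤ := (L.map fun p => l1 p.1 * l1 p.2).sum

end Pool.H56P
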