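import Pool.Agent.Lib.H56P.Defs

set_option autoImplicit false

/-!
The chain `(S_k, W_k)`: `W` Gaussian walk, `S_k = ∑_{i ≤ k} W_i / i`.
-/

namespace Pool.H56P

open MeasureTheory ProbabilityTheory Finset

/-- standard Gaussian measure on `Fin K → ℝ` -/
noncomputable def gm (K : ℕ) : Measure (Fin K → ℝ) := Measure.pi (fun _ => gaussianReal 0 1)

instance (K : ℕ) : IsProbabilityMeasure (gm K) := by unfold gm; infer_instance

/-- `W_i = ξ_0 + … + ξ_{i-1}` -/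
noncomputable def wk {K : ℕ} (ξ : Fin K → ℝ) (i : ℕ) : ℝ := ∑ j : Fin K, if (j : ℕ) < i then ξ j else 0

/-- `S_k = ∑_{1 ≤ i ≤ k} W_i / i` -/
noncomputable def sk {K : ℕ} (ξ : Fin K → ℝ) (k : ℕ) : ℝ := ∑ i ∈ Icc 1 k, wk ξ i / i

/-- the persistence event `S_k ≥ 0` for `1 ≤ k ≤ K` -/
def aliveS (K : ℕ) : Set (Fin K → ℝ) := {ξ | ∀ k ∈ Icc 1 K, 0 ≤ sk ξ k}

/-- the persistence probability -/
noncomputable def pK (K : ℕ) : ℝ := (gm K).real (aliveS K)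

/-- `E [F (S_K, W_K); persistence up to K]` (positive part of `F`) -/
noncomputable def J (K : ℕ) (F : ℝ → ℝ → ℝ) : ENNReal :=
  ∫⁻ ξ in aliveS K, ENNReal.ofReal (F (sk ξ K) (wk ξ K)) ∂(gm K)

/-- the scaled test function `K^lam H (s / √K, w / √K)` -/
noncomputable def sc (lam : ℝ) (H : ℝ → ℝ → ℝ) (K : ℕ) (s w : ℝ) : ℝ :=
  (K : ℝ) ^ lam * H (s / Real.sqrt K) (w / Real.sqrt K)

end Pool.H56P
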