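import Pool.Agent.Lib.H56P.Cell

set_option autoImplicit false

namespace Pool.H56P

open Finset Polynomial

theorem d01_drop {α : Type} (l : List α) (d : ℕ) : l.tail.drop d = l.drop (d + 1) := by
  cases l with
  | nil => simp
  | cons x l => rfl

/-- **D01 (S/M, 8 small list lemmas).** Semantics of the list functions of `Ker.lean`. All by
induction (`induction n generalizing as ta`, `cases`, `simp`); `List.getD` of `tail`, `drop`. -/
theorem d01_blist (f : List ℤ → List ℤ → ℤ) (hf : ∀ ta, f [] ta = 0) (n : ℕ) (as : List (List ℤ))
    (ta : List ℤ) (d : ℕ) (hd : d < n) :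
    (blist f n as ta).getD d 0 = f (as.getD d []) (ta.drop d) := by
  induction n generalizing as ta d with
  | zero => exact absurd hd (Nat.not_lt_zero d)
  | succ n ih =>
    cases as with
    | nil => simp [blist, hf]
    | cons al as =>
      cases d with
      | zero => simp [blist]
      | succ d =>
        have h1 := ih as ta.tail d (by omega)
        rw [d01_drop] at h1
        simpa [blist] using h1

theorem d01_blist_length (f : List ℤ → List ℤ → ℤ) (n : ℕ) (as : List (List ℤ)) (ta : List ℤ) :
    (blist f n as ta).length ≤ n := by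
  induction n generalizing as ta with
  | zero => simp [blist]
  | succ n ih =>
    cases as with
    | nil => simp [blist]
    | cons al as =>
      have h1 := ih as ta.tail
      simpa [blist] using h1

theorem d01_vadd (a b : List ℤ) (j : ℕ) : (vadd a b).getD j 0 = a.getD j 0 + b.getD j 0 := by
  induction a generalizing b j with
  | nil => simp [vadd]
  | cons x a ih =>
    cases b with
    | nil => simp [vadd]
    | cons y b =>
      cases j with
      | zero => simp [vadd]
      | succ j => simpa [vadd] using ih b j

theorem d01_map (x : ℤ) (r : List ℤ) (j : ℕ) : (r.map (fun y => x * y)).getD j 0 = x * r.getD j 0 := by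
  induction r generalizing j with
  | nil => simp
  | cons y r ih =>
    cases j with
    | zero => simp
    | succ j => simpa using ih j

theorem d01_comb (xs : List ℤ) (rows : List (List ℤ)) (n : ℕ) (h : xs.length ≤ n) (j : ℕ) :
    (comb xs rows).getD j 0 = ∑ d ∈ range n, xs.getD d 0 * (rows.getD d []).getD j 0 := by
  induction xs generalizing rows n with
  | nil => simp [comb]
  | cons x xs ih =>
    cases rows with
    | nil => simp [comb]
    | cons r rs =>
      obtain ⟨n, rfl⟩ : ∃ m, n = m + 1 := ⟨n - 1, by simp at h; omega⟩
      have h1 := ih rs n (by simpa using h)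
      rw [Finset.sum_range_succ']
      simp only [comb, d01_vadd, d01_map, List.getD_cons_succ, List.getD_cons_zero]
      rw [h1]
      ring

theorem d01_dotL (u w : List ℤ) (n : ℕ) (h : w.length ≤ n) :
    dotL u w = ∑ d ∈ range n, u.getD d 0 * w.getD d 0 := by
  induction u generalizing w n with
  | nil => simp [dotL]
  | cons x u ih =>
    cases w with
    | nil => simp [dotL]
    | cons y w =>
      obtain ⟨n, rfl⟩ : ∃ m, n = m + 1 := ⟨n - 1, by simp at h; omega⟩
      have h1 := ih w n (by simpa using h)
      rw [Finset.sum_range_succ']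
      simp only [dotL, List.getD_cons_succ, List.getD_cons_zero]
      rw [h1]
      ring

theorem d01_rowGo (chk : ℤ → ℤ → Bool) (l n1 c0 c2 x0 x1 x2 : ℤ) (U0 U1 U2 : List ℤ)
    (Ws : List WC) (h : rowGo chk l n1 c0 c2 x0 x1 x2 U0 U1 U2 Ws = true) (J : ℕ)
    (hJ : J < Ws.length) :
    chk (cellT l n1 c0 c2 x0 x1 x2 (U0.drop J) (U1.drop J) (U2.drop J) Ws[J])
      (cellH c0 c2 x0 x2 (U0.drop J) Ws[J]) = true := by
  induction Ws generalizing U0 U1 U2 J with
  | nil => simp at hJ
  | cons W Ws ih =>
    simp only [rowGo, Bool.and_eq_true] at h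
    cases J with
    | zero => simpa using h.1
    | succ J =>
      have h1 := ih _ _ _ h.2 J (by simpa using hJ)
      rw [d01_drop, d01_drop, d01_drop] at h1
      simpa using h1

theorem d01_rowBd (c0 c2 x0 x2 : ℤ) (U0 : List ℤ)
    (Ws : List WC) (h : rowBd c0 c2 x0 x2 U0 Ws = true) (J : ℕ) (hJ : J < Ws.length) :
    negD 7 (cellH c0 c2 x0 x2 (U0.drop J) Ws[J]) = true := by
  induction Ws generalizing U0 J with
  | nil => simp at hJ
  | cons W Ws ih =>
    simp only [rowBd, Bool.and_eq_true] at h
    cases J with
    | zero => simpa using h.1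
    | succ J =>
      have h1 := ih _ h.2 J (by simpa using hJ)
      rw [d01_drop] at h1
      simpa using h1

theorem d01_wall_length (l n1 Y : ℤ) (n : ℕ) (as : List (List ℤ)) (ta : List ℤ) :
    (wall l n1 Y n as ta).length = n := by
  induction n generalizing as ta with
  | zero => simp [wall]
  | succ n ih => simp [wall, ih]

theorem d01_wall (l n1 Y : ℤ) (n : ℕ) (as : List (List ℤ)) (ta : List ℤ) (J : ℕ)
    (hJ : J < (wall l n1 Y n as ta).length) :
    (wall l n1 Y n as ta)[J] = wcell l n1 ((ta.drop J).getD 5 0) ((ta.drop J).getD 6 0) Y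
      (as.drop J) (ta.drop J) := by
  induction n generalizing as ta J with
  | zero => simp [wall] at hJ
  | succ n ih =>
    cases J with
    | zero => simp [wall]
    | succ J =>
      have h1 := ih as.tail ta.tail J (by simpa [wall] using hJ)
      rw [d01_drop, d01_drop] at h1
      simpa [wall] using h1

end Pool.H56P
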