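import Pool.Agent.Lib.H56P.Cell
import Pool.Agent.Lib.H56P.C05
import Pool.Agent.Lib.H56P.D01

set_option autoImplicit false

namespace Pool.H56P

open Finset Polynomial

theorem d02_getD {α : Type} (l : List α) (J e : ℕ) (x : α) :
    (l.drop J).getD e x = l.getD (J + e) x := by
  simp [List.getD_eq_getElem?_getD, List.getElem?_drop]

theorem d02_ev_append (L L' : List (ℤ[X] × ℤ[X])) (x y : ℤ) :
    evL (L ++ L') x y = evL L x y + evL L' x y := by
  unfold evL
  rw [List.map_append, List.sum_append]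

theorem d02_sp (D : Dat) (I J : ℕ) {p q' : List ℤ → List ℤ → ℤ[X]} {f q : List ℤ → List ℤ → ℤ}
    {X0 Y0 : ℤ} (hp : ∀ al ta, (p al ta).eval X0 = f al ta)
    (hq : ∀ al ta, (q' al ta).eval Y0 = q al ta) (hf : ∀ ta, f [] ta = 0)
    (hq0 : ∀ ta, q [] ta = 0) :
    dotL ((comb (blist f 6 (D.ax.drop I) (D.kx.drop I)) (D.c.drop I)).drop J)
      (blist q 6 (D.aw.drop J) (D.kw.drop J)) = evL (spL D I J p q') X0 Y0 := by
  rw [d01_dotL _ _ 6 (d01_blist_length _ _ _ _)]
  have h1 : evL (spL D I J p q') X0 Y0 = ∑ e ∈ range 6,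
      (PU p D I (J + e)).eval X0 * q (D.aw.getD (J + e) []) (D.kw.drop (J + e)) := by
    unfold evL spL
    rw [List.map_map]
    simp only [Function.comp_def, hq]
    simp [List.range_succ, Finset.sum_range_succ]
    ring
  rw [h1]
  refine Finset.sum_congr rfl fun e he => ?_
  rw [Finset.mem_range] at he
  rw [d01_blist q hq0 6 _ _ e he, d02_getD, d02_getD, List.drop_drop,
    d01_comb _ _ 6 (d01_blist_length _ _ _ _)]
  congr 1
  unfold PU
  rw [eval_finset_sum]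
  refine Finset.sum_congr rfl fun i hi => ?_
  rw [Finset.mem_range] at hi
  rw [d01_blist f hf 6 _ _ i hi, d02_getD, d02_getD, List.drop_drop, eval_mul, eval_C, hp]
  unfold cof
  ring

theorem d02_spow (e : ℕ) (a b y : ℤ) (ta : List ℤ) : spow e a b y [] ta = 0 := by
  simp [spow]

theorem d02_px0 (a b X0 : ℤ) (al ta : List ℤ) : (px0 a b al ta).eval X0 = fx0 a b X0 al ta := by
  unfold px0 fx0
  rw [c05_eval]

theorem d02_px1 (a b X0 : ℤ) (al ta : List ℤ) : (px1 a b al ta).eval X0 = fx1 a b X0 al ta := by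
  unfold px1 fx1
  simp only [eval_mul, eval_add, eval_C, eval_X, c05_eval]
  ring

theorem d02_px2 (a b X0 : ℤ) (al ta : List ℤ) : (px2 a b al ta).eval X0 = fx2 a b X0 al ta := by
  unfold px2 fx2
  simp only [eval_mul, eval_add, eval_C, eval_X, c05_eval]

theorem d02_pw0 (l n1 a b Y0 : ℤ) (al ta : List ℤ) :
    (pw0 l n1 a b al ta).eval Y0 = fw0 l n1 a b Y0 al ta := by
  unfold pw0 fw0
  simp only [eval_mul, eval_add, eval_sub, eval_pow, eval_C, eval_X, c05_eval]
  ring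

theorem d02_pw1 (l a b Y0 : ℤ) (al ta : List ℤ) :
    (pw1 l a b al ta).eval Y0 = fw1 l a b Y0 al ta := by
  unfold pw1 fw1
  simp only [eval_mul, eval_add, eval_C, eval_X, c05_eval]

theorem d02_pw2 (l a b Y0 : ℤ) (al ta : List ℤ) :
    (pw2 l a b al ta).eval Y0 = fw2 l a b Y0 al ta := by
  unfold pw2 fw2
  simp only [eval_mul, eval_add, eval_C, eval_X, c05_eval]
  ring

theorem d02_pw3 (a b Y0 : ℤ) (al ta : List ℤ) :
    (pw3 a b al ta).eval Y0 = fw3 a b Y0 al ta := by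
  unfold pw3 fw3
  simp only [eval_mul, eval_add, eval_C, eval_X, c05_eval]
  ring

/-- **D02 (M).** The numbers of a cell computed by the kernel are the values `evL` of the cell
polynomials. Here `A = xa`, `B = xb` etc., `X0 = 2^2688`, `Y0 = 2^384`.
Proof: unfold `cellT`, `wcell`; `d01_dotL` (`n = 6`, `d01_blist_length`), `d01_blist` and `d01_comb`,
with `List.getD_drop`-type lemmas (`(l.drop J).getD e d = l.getD (J+e) d`, `drop_drop`) turn the left
side into finite sums; on the right `List.map`/`List.sum` over `List.range 6` (`List.sum_range`-like or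
`simp [List.range_succ]`), `eval` of `PU`, `px*`, `pw*` (`eval_finset_sum`, `c05_eval`). -/
theorem d02_T (D : Dat) (l n1 X0 Y0 : ℤ) (I J : ℕ) :
    cellT l n1 D.c0 D.c2 ((1 + X0) ^ 5)
      (((D.kx.drop I).getD 5 0 + (D.kx.drop I).getD 6 0 * X0) * (1 + X0) ^ 4)
      (((D.kx.drop I).getD 5 0 + (D.kx.drop I).getD 6 0 * X0) ^ 2 * (1 + X0) ^ 3)
      ((comb (blist (fx0 ((D.kx.drop I).getD 5 0) ((D.kx.drop I).getD 6 0) X0) 6 (D.ax.drop I)
        (D.kx.drop I)) (D.c.drop I)).drop J)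
      ((comb (blist (fx1 ((D.kx.drop I).getD 5 0) ((D.kx.drop I).getD 6 0) X0) 6 (D.ax.drop I)
        (D.kx.drop I)) (D.c.drop I)).drop J)
      ((comb (blist (fx2 ((D.kx.drop I).getD 5 0) ((D.kx.drop I).getD 6 0) X0) 6 (D.ax.drop I)
        (D.kx.drop I)) (D.c.drop I)).drop J)
      (wcell l n1 ((D.kw.drop J).getD 5 0) ((D.kw.drop J).getD 6 0) Y0 (D.aw.drop J) (D.kw.drop J))
    = evL (cellLT D l n1 I J) X0 Y0 := by
  unfold cellT cellLT
  rw [d02_ev_append, d02_ev_append, d02_ev_append]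
  have e1 := d02_getD D.kx I 5 (0 : ℤ)
  have e2 := d02_getD D.kx I 6 (0 : ℤ)
  have e3 := d02_getD D.kw J 5 (0 : ℤ)
  have e4 := d02_getD D.kw J 6 (0 : ℤ)
  rw [e1, e2, e3, e4]
  have h1 := d02_sp D I J (d02_px0 (xa D I) (xb D I) X0) (d02_pw0 l n1 (wa D J) (wb D J) Y0)
    (fun ta => by simp [fx0, d02_spow]) (fun ta => by simp [fw0, d02_spow])
  have h2 := d02_sp D I J (d02_px1 (xa D I) (xb D I) X0) (d02_pw1 l (wa D J) (wb D J) Y0)
    (fun ta => by simp [fx1, d02_spow]) (fun ta => by simp [fw1, d02_spow])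
  have h3 := d02_sp D I J (d02_px2 (xa D I) (xb D I) X0) (d02_pw2 l (wa D J) (wb D J) Y0)
    (fun ta => by simp [fx2, d02_spow]) (fun ta => by simp [fw2, d02_spow])
  rw [← h1, ← h2, ← h3]
  unfold xa xb wa wb wcell
  congr 1
  unfold farT evL
  simp only [List.map_cons, List.map_nil, List.sum_cons, List.sum_nil, eval_mul, eval_add,
    eval_pow, eval_C, eval_X]
  ring

theorem d02_H (D : Dat) (l n1 X0 Y0 : ℤ) (I J : ℕ) :
    cellH D.c0 D.c2 ((1 + X0) ^ 5)
      (((D.kx.drop I).getD 5 0 + (D.kx.drop I).getD 6 0 * X0) ^ 2 * (1 + X0) ^ 3)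
      ((comb (blist (fx0 ((D.kx.drop I).getD 5 0) ((D.kx.drop I).getD 6 0) X0) 6 (D.ax.drop I)
        (D.kx.drop I)) (D.c.drop I)).drop J)
      (wcell l n1 ((D.kw.drop J).getD 5 0) ((D.kw.drop J).getD 6 0) Y0 (D.aw.drop J) (D.kw.drop J))
    = evL (cellLH D I J) X0 Y0 := by
  unfold cellH cellLH
  rw [d02_ev_append]
  have e1 := d02_getD D.kx I 5 (0 : ℤ)
  have e2 := d02_getD D.kx I 6 (0 : ℤ)
  have e3 := d02_getD D.kw J 5 (0 : ℤ)
  have e4 := d02_getD D.kw J 6 (0 : ℤ)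
  rw [e1, e2, e3, e4]
  have h1 := d02_sp D I J (d02_px0 (xa D I) (xb D I) X0) (d02_pw3 (wa D J) (wb D J) Y0)
    (fun ta => by simp [fx0, d02_spow]) (fun ta => by simp [fw3, d02_spow])
  rw [← h1]
  unfold xa xb wa wb wcell
  congr 1
  unfold farH evL
  simp only [List.map_cons, List.map_nil, List.sum_cons, List.sum_nil, eval_mul, eval_add,
    eval_pow, eval_C, eval_X]
  ring

/-- consequence for a row: `rowCheck`, `rowChk`, `d01_rowGo`, `d01_wall`, `d02_T`, `d02_H`. -/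
theorem d02_row (chk : ℤ → ℤ → Bool) (D : Dat) (l n1 : ℤ) (nw I : ℕ)
    (h : rowCheck chk l n1 D nw I = true) (J : ℕ) (hJ : J < nw) :
    chk (evL (cellLT D l n1 I J) (2 ^ 2688) (2 ^ 384)) (evL (cellLH D I J) (2 ^ 2688) (2 ^ 384))
      = true := by
  unfold rowCheck rowChk at h
  have hJ' : J < (wall l n1 (2 ^ 384) nw D.aw D.kw).length := by
    rw [d01_wall_length]
    exact hJ
  have h1 := d01_rowGo chk l n1 D.c0 D.c2 _ _ _ _ _ _ _ h J hJ'
  rw [d01_wall] at h1
  rw [← d02_T, ← d02_H D l n1]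
  exact h1

end Pool.H56P
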