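import Pool.Agent.Lib.H56P.Cell
import Pool.Agent.Lib.H56P.C01
import Pool.Agent.Lib.H56P.C05
import Pool.Agent.Lib.H56P.C06

set_option autoImplicit false

namespace Pool.H56P

open Finset Polynomial

theorem d03_lin (a b : ℤ) : (C a + C b * X : ℤ[X]).natDegree ≤ 1 := by
  refine (natDegree_add_le _ _).trans (max_le ?_ ?_)
  · rw [natDegree_C]; omega
  · refine (natDegree_C_mul_le _ _).trans natDegree_X_le

theorem d03_mul (P Q : ℤ[X]) (m n k : ℕ) (hP : P.natDegree ≤ m) (hQ : Q.natDegree ≤ n)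
    (h : m + n ≤ k) : (P * Q).natDegree ≤ k := by
  have := natDegree_mul_le (p := P) (q := Q)
  omega

theorem d03_pow (P : ℤ[X]) (m n k : ℕ) (hP : P.natDegree ≤ m) (h : n * m ≤ k) :
    (P ^ n).natDegree ≤ k := (natDegree_pow_le_of_le n hP).trans h

theorem d03_C_mul (a : ℤ) (P : ℤ[X]) (k : ℕ) (hP : P.natDegree ≤ k) : (C a * P).natDegree ≤ k :=
  (natDegree_C_mul_le _ _).trans hP

theorem d03_add (P Q : ℤ[X]) (k : ℕ) (hP : P.natDegree ≤ k) (hQ : Q.natDegree ≤ k) :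
    (P + Q).natDegree ≤ k := (natDegree_add_le _ _).trans (max_le hP hQ)

theorem d03_sub (P Q : ℤ[X]) (k : ℕ) (hP : P.natDegree ≤ k) (hQ : Q.natDegree ≤ k) :
    (P - Q).natDegree ≤ k := (natDegree_sub_le _ _).trans (max_le hP hQ)

theorem d03_PU (D : Dat) (I j : ℕ) (p : List ℤ → List ℤ → ℤ[X])
    (hp : ∀ al ta, (p al ta).natDegree ≤ 5) : (PU p D I j).natDegree ≤ 5 := by
  unfold PU
  refine natDegree_sum_le_of_forall_le _ _ fun d _ => ?_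
  exact d03_C_mul _ _ _ (hp _ _)

theorem d03_spL (D : Dat) (I J : ℕ) (p q : List ℤ → List ℤ → ℤ[X])
    (hp : ∀ al ta, (p al ta).natDegree ≤ 5) (hq : ∀ al ta, (q al ta).natDegree ≤ 6) :
    ∀ r ∈ spL D I J p q, r.1.natDegree ≤ 5 ∧ r.2.natDegree ≤ 6 := by
  intro r hr
  unfold spL at hr
  rw [List.mem_map] at hr
  obtain ⟨e, _, rfl⟩ := hr
  exact ⟨d03_PU D I _ p hp, hq _ _⟩

theorem d03_px0 (a b : ℤ) (al ta : List ℤ) : (px0 a b al ta).natDegree ≤ 5 :=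
  c05_natDegree 5 a b al ta

theorem d03_px1 (a b : ℤ) (al ta : List ℤ) : (px1 a b al ta).natDegree ≤ 5 :=
  d03_mul _ _ 4 1 5 (d03_C_mul _ _ _ (c05_natDegree 4 a b al ta)) (d03_lin 1 1) (by norm_num)

theorem d03_px2 (a b : ℤ) (al ta : List ℤ) : (px2 a b al ta).natDegree ≤ 5 :=
  d03_mul _ _ 4 1 5 (d03_C_mul _ _ _ (c05_natDegree 4 a b al ta)) (d03_lin a b) (by norm_num)

theorem d03_pw0 (l n1 a b : ℤ) (al ta : List ℤ) : (pw0 l n1 a b al ta).natDegree ≤ 6 := by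
  unfold pw0
  refine d03_add _ _ _ (d03_sub _ _ _ ?_ ?_) ?_
  · refine d03_C_mul _ _ _ ?_
    exact d03_mul _ _ 3 3 6 (c05_natDegree 3 a b al ta) (d03_pow _ 1 3 3 (d03_lin 1 1) (by norm_num))
      (by norm_num)
  · refine d03_C_mul _ _ _ ?_
    exact d03_mul _ _ 4 2 6 (c05_natDegree 4 a b al ta)
      (d03_mul _ _ 1 1 2 (d03_lin a b) (d03_lin 1 1) (by norm_num)) (by norm_num)
  · refine d03_C_mul _ _ _ ?_
    exact d03_mul _ _ 5 1 6 (c05_natDegree 5 a b al ta) (d03_lin 1 1) (by norm_num)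

theorem d03_pw1 (l a b : ℤ) (al ta : List ℤ) : (pw1 l a b al ta).natDegree ≤ 6 := by
  unfold pw1
  refine d03_C_mul _ _ _ ?_
  exact d03_mul _ _ 5 1 6 (c05_natDegree 5 a b al ta) (d03_lin a b) (by norm_num)

theorem d03_pw2 (l a b : ℤ) (al ta : List ℤ) : (pw2 l a b al ta).natDegree ≤ 6 := by
  unfold pw2
  refine d03_C_mul _ _ _ ?_
  exact d03_mul _ _ 5 1 6 (c05_natDegree 5 a b al ta) (d03_lin 1 1) (by norm_num)

theorem d03_pw3 (a b : ℤ) (al ta : List ℤ) : (pw3 a b al ta).natDegree ≤ 6 := by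
  unfold pw3
  exact d03_mul _ _ 5 1 6 (c05_natDegree 5 a b al ta) (d03_lin 1 1) (by norm_num)

theorem d03_one5 (c : ℤ) : (C c * (C 1 + C 1 * X : ℤ[X]) ^ 5).natDegree ≤ 5 :=
  d03_C_mul _ _ _ (d03_pow _ 1 5 5 (d03_lin 1 1) (by norm_num))

theorem d03_one6 : ((C 1 + C 1 * X : ℤ[X]) ^ 6).natDegree ≤ 6 :=
  d03_pow _ 1 6 6 (d03_lin 1 1) (by norm_num)

theorem d03_q23 (c a b : ℤ) :
    (C c * ((C a + C b * X : ℤ[X]) ^ 2 * (C 1 + C 1 * X) ^ 3)).natDegree ≤ 5 :=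
  d03_C_mul _ _ _ (d03_mul _ _ 2 3 5 (d03_pow _ 1 2 2 (d03_lin a b) (by norm_num))
    (d03_pow _ 1 3 3 (d03_lin 1 1) (by norm_num)) (by norm_num))

theorem d03_q14 (c a b : ℤ) :
    (C c * ((C a + C b * X : ℤ[X]) * (C 1 + C 1 * X) ^ 4)).natDegree ≤ 5 :=
  d03_C_mul _ _ _ (d03_mul _ _ 1 4 5 (d03_lin a b)
    (d03_pow _ 1 4 4 (d03_lin 1 1) (by norm_num)) (by norm_num))

theorem d03_q24 (a b : ℤ) :
    ((C a + C b * X : ℤ[X]) ^ 2 * (C 1 + C 1 * X) ^ 4).natDegree ≤ 6 :=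
  d03_mul _ _ 2 4 6 (d03_pow _ 1 2 2 (d03_lin a b) (by norm_num))
    (d03_pow _ 1 4 4 (d03_lin 1 1) (by norm_num)) (by norm_num)

theorem d03_q15 (a b : ℤ) :
    ((C a + C b * X : ℤ[X]) * (C 1 + C 1 * X) ^ 5).natDegree ≤ 6 :=
  d03_mul _ _ 1 5 6 (d03_lin a b)
    (d03_pow _ 1 5 5 (d03_lin 1 1) (by norm_num)) (by norm_num)

/-- **D03 (M).** Degrees: `natDegree ≤ 5` resp. `≤ 6`. (`c05_natDegree`, `natDegree_mul_le`,
`natDegree_sum_le_of_forall_le`, `natDegree_add_le`, `natDegree_linear_le`; membership in the lists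
by `simp [cellLT, spL]`.) -/
theorem d03_deg_T (D : Dat) (l n1 : ℤ) (I J : ℕ) :
    ∀ p ∈ cellLT D l n1 I J, p.1.natDegree ≤ 5 ∧ p.2.natDegree ≤ 6 := by
  intro p hp
  unfold cellLT at hp
  rw [List.mem_append, List.mem_append, List.mem_append] at hp
  rcases hp with ((hp | hp) | hp) | hp
  · exact d03_spL D I J _ _ (fun al ta => d03_px0 _ _ al ta) (fun al ta => d03_pw0 _ _ _ _ al ta) p hp
  · exact d03_spL D I J _ _ (fun al ta => d03_px1 _ _ al ta) (fun al ta => d03_pw1 _ _ _ al ta) p hp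
  · exact d03_spL D I J _ _ (fun al ta => d03_px2 _ _ al ta) (fun al ta => d03_pw2 _ _ _ al ta) p hp
  · rw [List.mem_cons, List.mem_cons, List.mem_cons, List.mem_singleton] at hp
    rcases hp with rfl | rfl | rfl | rfl
    · exact ⟨d03_one5 _, d03_one6⟩
    · exact ⟨d03_q23 _ _ _, d03_one6⟩
    · exact ⟨d03_one5 _, d03_q24 _ _⟩
    · exact ⟨d03_q14 _ _ _, d03_q15 _ _⟩

theorem d03_deg_H (D : Dat) (I J : ℕ) :
    ∀ p ∈ cellLH D I J, p.1.natDegree ≤ 5 ∧ p.2.natDegree ≤ 6 := by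
  intro p hp
  unfold cellLH at hp
  rw [List.mem_append] at hp
  rcases hp with hp | hp
  · exact d03_spL D I J _ _ (fun al ta => d03_px0 _ _ al ta) (fun al ta => d03_pw3 _ _ al ta) p hp
  · rw [List.mem_cons, List.mem_cons, List.mem_singleton] at hp
    rcases hp with rfl | rfl | rfl
    · exact ⟨d03_one5 _, d03_one6⟩
    · exact ⟨d03_q23 _ _ _, d03_one6⟩
    · exact ⟨d03_one5 _, d03_q24 _ _⟩

end Pool.H56P
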