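import Pool.Agent.Lib.H56P.Cell
import Pool.Agent.Lib.H56P.C01
import Pool.Agent.Lib.H56P.C06

set_option autoImplicit false

namespace Pool.H56P

open Finset Polynomial

theorem d04_sorted (L : List ℤ) (hL : L.Pairwise (· < ·)) (i j : ℕ) (hij : i ≤ j)
    (hj : j < L.length) : L.getD i 0 ≤ L.getD j 0 := by
  rcases hij.eq_or_lt with h | h
  · rw [h]
  · rw [List.pairwise_iff_getElem] at hL
    rw [List.getD_eq_getElem _ _ hj, List.getD_eq_getElem _ _ (h.trans hj)]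
    exact (hL i j (h.trans hj) hj h).le

theorem d04_drop (L : List ℤ) (hL : L.Pairwise (· < ·)) (i k : ℕ) (hik : i ≤ k) (τ : ℤ)
    (hτ : τ ∈ L.drop k) : L.getD i 0 ≤ τ := by
  obtain ⟨m, hm, rfl⟩ := List.mem_iff_getElem.1 hτ
  rw [List.getElem_drop]
  rw [List.length_drop] at hm
  have h1 := d04_sorted L hL i (k + m) (by omega) (by omega)
  rwa [List.getD_eq_getElem L 0 (by omega : k + m < L.length)] at h1

/-- the bound of the truncated power sums of the active splines -/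
theorem d04_gs (L : List ℤ) (hL : L.Pairwise (· < ·)) (I k : ℕ) (hk : I ≤ k)
    (hI : I + 6 < L.length) (A d : ℤ) (hA : 0 ≤ A) (hd : 1 ≤ d)
    (hdd : 2 * (L.getD (I + 6) 0 - L.getD I 0) ≤ d) (M : List (List ℤ))
    (hM : ∀ al ∈ M, al.length ≤ 7) (hM' : ∀ al ∈ M, ∀ α ∈ al, |α| ≤ A) (e : ℕ) (he : 1 ≤ e) :
    l1 (gspow e (L.getD (I + 5) 0) (L.getD (I + 6) 0) (X : ℤ[X]) (M.getD k []) (L.drop k)) ≤
      7 * A * d ^ e := by
  have hab : L.getD (I + 5) 0 ≤ L.getD (I + 6) 0 := d04_sorted L hL _ _ (by omega) hI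
  have hmem : M.getD k [] ∈ M ∨ M.getD k [] = [] := by
    by_cases h : k < M.length
    · left
      rw [List.getD_eq_getElem _ _ h]
      exact List.getElem_mem h
    · right
      exact List.getD_eq_default _ _ (by omega)
  refine c06_l1 e he _ _ A d hab hA hd _ _ ?_ ?_ ?_
  · rcases hmem with h | h
    · exact hM _ h
    · rw [h]; simp
  · intro α hα
    rcases hmem with h | h
    · exact hM' _ h α hα
    · rw [h] at hα; simp at hα
  · intro p hp hle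
    have h1 : p.2 ∈ L.drop k := (List.of_mem_zip (a := p.1) (b := p.2) hp).2
    have h2 := d04_drop L hL I k hk p.2 h1
    linarith

theorem d04_getD (L : List ℤ) (B : ℤ) (hB : 0 ≤ B) (hL : ∀ τ ∈ L, |τ| ≤ B) (i : ℕ) :
    |L.getD i 0| ≤ B := by
  by_cases h : i < L.length
  · rw [List.getD_eq_getElem _ _ h]
    exact hL _ (List.getElem_mem h)
  · rw [List.getD_eq_default _ _ (by omega)]
    simpa using hB

theorem d04_PU (D : Dat) (nx nw : ℕ) (h : OK D nx nw) (p : List ℤ → List ℤ → ℤ[X]) (I j : ℕ)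
    (B : ℤ) (_ : 0 ≤ B) (hp : ∀ d < 6, l1 (p (D.ax.getD (I + d) []) (D.kx.drop (I + d))) ≤ B) :
    l1 (PU p D I j) ≤ 6 * (2 ^ 140 * B) := by
  unfold PU
  refine (c01_sum _ _).trans ?_
  have h1 : ∀ d ∈ range 6, l1 (C (cof D (I + d) j) * p (D.ax.getD (I + d) []) (D.kx.drop (I + d)))
      ≤ 2 ^ 140 * B := by
    intro d hd
    refine (c01_C_mul _ _).trans ?_
    exact mul_le_mul (h.cb _ _) (hp d (mem_range.1 hd)) (c01_nonneg _) (by positivity)
  refine (sum_le_sum h1).trans ?_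
  rw [sum_const, card_range, nsmul_eq_mul]
  norm_num

theorem d04_gx (D : Dat) (nx nw : ℕ) (h : OK D nx nw) (I : ℕ) (hI : I < nx) (d : ℕ) (e : ℕ)
    (he : 1 ≤ e) :
    l1 (gspow e (xa D I) (xb D I) (X : ℤ[X]) (D.ax.getD (I + d) []) (D.kx.drop (I + d))) ≤
      7 * 2 ^ 24 * (2 ^ 15) ^ e :=
  d04_gs D.kx h.kxs I (I + d) (by omega) (by rw [h.kxl]; omega) (2 ^ 24) (2 ^ 15) (by norm_num)
    (by norm_num) (h.dxb I hI) D.ax h.axl h.axb e he

/-- **D04 (M).** Norms of the `x` factors: `l1 (PU (px_i)) ≤ 2^249`.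
Proof: `c06_l1` with `A = 2^24`, `d = 2^15`: a knot `τ ≤ xa` of the spline `I + d` lies in
`kx.drop (I+d)`, so `τ ≥ kx_I` (sortedness) and `(xa - τ) + (xb - τ) ≤ 2 (kx_{I+6} - kx_I) ≤ 2^15`
(`dxb`). So `l1 (gspow 5) ≤ 7 2^24 2^75 < 2^102`, `l1 (gspow 4) ≤ 7 2^24 2^60 < 2^87`,
`l1 px0 ≤ 2^102`, `l1 px1 ≤ 5 2^87 2 < 2^91`, `l1 px2 ≤ 5 2^87 2^16 < 2^106`
(`|xa|, |xb| ≤ 2^15`), and the sum of six terms with `|c| ≤ 2^140` is at most `6 2^140 2^106 < 2^249`. -/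
theorem d04_PU0 (D : Dat) (nx nw : ℕ) (h : OK D nx nw) (I : ℕ) (hI : I < nx) (j : ℕ) :
    l1 (PU (px0 (xa D I) (xb D I)) D I j) ≤ 2 ^ 249 := by
  refine (d04_PU D nx nw h _ I j (2 ^ 106) (by norm_num) ?_).trans (by norm_num)
  intro d _
  exact (d04_gx D nx nw h I hI d 5 (by norm_num)).trans (by norm_num)

theorem d04_PU1 (D : Dat) (nx nw : ℕ) (h : OK D nx nw) (I : ℕ) (hI : I < nx) (j : ℕ) :
    l1 (PU (px1 (xa D I) (xb D I)) D I j) ≤ 2 ^ 249 := by
  refine (d04_PU D nx nw h _ I j (2 ^ 106) (by norm_num) ?_).trans (by norm_num)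
  intro d _
  have h1 := d04_gx D nx nw h I hI d 4 (by norm_num)
  have h2 := c01_lin 1 1
  have h3 : |(1 : ℤ)| + |(1 : ℤ)| = 2 := by norm_num
  rw [h3] at h2
  unfold px1
  refine (c01_mul _ _).trans ?_
  have h4 := c01_C_mul 5 (gspow 4 (xa D I) (xb D I) (X : ℤ[X]) (D.ax.getD (I + d) [])
    (D.kx.drop (I + d)))
  have h5 : |(5 : ℤ)| = 5 := by norm_num
  rw [h5] at h4
  have h6 := mul_le_mul (h4.trans (mul_le_mul_of_nonneg_left h1 (by norm_num))) h2 (c01_nonneg _)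
    (by norm_num)
  exact h6.trans (by norm_num)

theorem d04_PU2 (D : Dat) (nx nw : ℕ) (h : OK D nx nw) (I : ℕ) (hI : I < nx) (j : ℕ) :
    l1 (PU (px2 (xa D I) (xb D I)) D I j) ≤ 2 ^ 249 := by
  refine (d04_PU D nx nw h _ I j (2 ^ 106) (by norm_num) ?_).trans (by norm_num)
  intro d _
  have h1 := d04_gx D nx nw h I hI d 4 (by norm_num)
  have h2 := c01_lin (xa D I) (xb D I)
  have ha : |xa D I| ≤ 2 ^ 15 := d04_getD D.kx _ (by norm_num) h.kxb _
  have hb : |xb D I| ≤ 2 ^ 15 := d04_getD D.kx _ (by norm_num) h.kxb _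
  have h3 : l1 (C (xa D I) + C (xb D I) * X) ≤ 2 ^ 16 := by
    refine h2.trans ?_
    linarith
  unfold px2
  refine (c01_mul _ _).trans ?_
  have h4 := c01_C_mul 5 (gspow 4 (xa D I) (xb D I) (X : ℤ[X]) (D.ax.getD (I + d) [])
    (D.kx.drop (I + d)))
  have h5 : |(5 : ℤ)| = 5 := by norm_num
  rw [h5] at h4
  have h6 := mul_le_mul (h4.trans (mul_le_mul_of_nonneg_left h1 (by norm_num))) h3 (c01_nonneg _)
    (by norm_num)
  exact h6.trans (by norm_num)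

end Pool.H56P
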