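import Pool.Agent.Lib.H56P.Cell
import Pool.Agent.Lib.H56P.C01
import Pool.Agent.Lib.H56P.C06

set_option autoImplicit false

namespace Pool.H56P

open Finset Polynomial

theorem d05_sorted (L : List ℤ) (hL : L.Pairwise (· < ·)) (i j : ℕ) (hij : i ≤ j)
    (hj : j < L.length) : L.getD i 0 ≤ L.getD j 0 := by
  rcases hij.eq_or_lt with h | h
  · rw [h]
  · rw [List.pairwise_iff_getElem] at hL
    rw [List.getD_eq_getElem _ _ hj, List.getD_eq_getElem _ _ (h.trans hj)]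
    exact (hL i j (h.trans hj) hj h).le

theorem d05_drop (L : List ℤ) (hL : L.Pairwise (· < ·)) (i k : ℕ) (hik : i ≤ k) (τ : ℤ)
    (hτ : τ ∈ L.drop k) : L.getD i 0 ≤ τ := by
  obtain ⟨m, hm, rfl⟩ := List.mem_iff_getElem.1 hτ
  rw [List.getElem_drop]
  rw [List.length_drop] at hm
  have h1 := d05_sorted L hL i (k + m) (by omega) (by omega)
  rwa [List.getD_eq_getElem L 0 (by omega : k + m < L.length)] at h1

/-- the bound of the truncated power sums of the active splines -/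
theorem d05_gs (L : List ℤ) (hL : L.Pairwise (· < ·)) (I k : ℕ) (hk : I ≤ k)
    (hI : I + 6 < L.length) (A d : ℤ) (hA : 0 ≤ A) (hd : 1 ≤ d)
    (hdd : 2 * (L.getD (I + 6) 0 - L.getD I 0) ≤ d) (M : List (List ℤ))
    (hM : ∀ al ∈ M, al.length ≤ 7) (hM' : ∀ al ∈ M, ∀ α ∈ al, |α| ≤ A) (e : ℕ) (he : 1 ≤ e) :
    l1 (gspow e (L.getD (I + 5) 0) (L.getD (I + 6) 0) (X : ℤ[X]) (M.getD k []) (L.drop k)) ≤
      7 * A * d ^ e := by
  have hab : L.getD (I + 5) 0 ≤ L.getD (I + 6) 0 := d05_sorted L hL _ _ (by omega) hI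
  have hmem : M.getD k [] ∈ M ∨ M.getD k [] = [] := by
    by_cases h : k < M.length
    · left
      rw [List.getD_eq_getElem _ _ h]
      exact List.getElem_mem h
    · right
      exact List.getD_eq_default _ _ (by omega)
  refine c06_l1 e he _ _ A d hab hA hd _ _ ?_ ?_ ?_
  · rcases hmem with h | h
    · exact hM _ h
    · rw [h]; simp
  · intro α hα
    rcases hmem with h | h
    · exact hM' _ h α hα
    · rw [h] at hα; simp at hα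
  · intro p hp hle
    have h1 : p.2 ∈ L.drop k := (List.of_mem_zip (a := p.1) (b := p.2) hp).2
    have h2 := d05_drop L hL I k hk p.2 h1
    linarith

theorem d05_getD (L : List ℤ) (B : ℤ) (hB : 0 ≤ B) (hL : ∀ τ ∈ L, |τ| ≤ B) (i : ℕ) :
    |L.getD i 0| ≤ B := by
  by_cases h : i < L.length
  · rw [List.getD_eq_getElem _ _ h]
    exact hL _ (List.getElem_mem h)
  · rw [List.getD_eq_default _ _ (by omega)]
    simpa using hB

theorem d05_gw (D : Dat) (nx nw : ℕ) (h : OK D nx nw) (J : ℕ) (hJ : J < nw) (e : ℕ) (k : ℕ)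
    (hk : 1 ≤ k) :
    l1 (gspow k (wa D J) (wb D J) (X : ℤ[X]) (D.aw.getD (J + e) []) (D.kw.drop (J + e))) ≤
      7 * 2 ^ 20 * (2 ^ 10) ^ k :=
  d05_gs D.kw h.kws J (J + e) (by omega) (by rw [h.kwl]; omega) (2 ^ 20) (2 ^ 10) (by norm_num)
    (by norm_num) (h.dwb J hJ) D.aw h.awl h.awb k hk

theorem d05_mul (P Q : ℤ[X]) (a b c : ℤ) (hP : l1 P ≤ a) (hQ : l1 Q ≤ b) (h : a * b ≤ c) :
    l1 (P * Q) ≤ c := by
  have h0 : 0 ≤ a := (c01_nonneg P).trans hP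
  exact (c01_mul _ _).trans ((mul_le_mul hP hQ (c01_nonneg _) h0).trans h)

theorem d05_C_mul (x : ℤ) (P : ℤ[X]) (a b c : ℤ) (hx : |x| ≤ a) (hP : l1 P ≤ b) (h : a * b ≤ c) :
    l1 (C x * P) ≤ c := by
  have h0 : 0 ≤ a := (abs_nonneg x).trans hx
  exact (c01_C_mul _ _).trans ((mul_le_mul hx hP (c01_nonneg _) h0).trans h)

theorem d05_one : l1 (C 1 + C 1 * X : ℤ[X]) ≤ 2 := by
  have h2 := c01_lin 1 1
  have h3 : |(1 : ℤ)| + |(1 : ℤ)| = 2 := by norm_num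
  rwa [h3] at h2

theorem d05_one3 : l1 ((C 1 + C 1 * X : ℤ[X]) ^ 3) ≤ 8 := by
  refine (c01_pow _ _).trans ?_
  have h1 := pow_le_pow_left₀ (c01_nonneg _) d05_one 3
  exact h1.trans (by norm_num)

theorem d05_sub (P Q : ℤ[X]) : l1 (P - Q) ≤ l1 P + l1 Q := by
  have h1 : P - Q = P + C (-1) * Q := by
    rw [C_neg, C_1]
    ring
  rw [h1]
  refine (c01_add _ _).trans ?_
  have h2 := c01_C_mul (-1) Q
  rw [show |(-1 : ℤ)| = 1 by norm_num, one_mul] at h2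
  linarith

theorem d05_ab (D : Dat) (nx nw : ℕ) (h : OK D nx nw) (J : ℕ) :
    l1 (C (wa D J) + C (wb D J) * X : ℤ[X]) ≤ 2 ^ 11 := by
  have h2 := c01_lin (wa D J) (wb D J)
  have ha : |wa D J| ≤ 2 ^ 10 := d05_getD D.kw _ (by norm_num) h.kwb _
  have hb : |wb D J| ≤ 2 ^ 10 := d05_getD D.kw _ (by norm_num) h.kwb _
  refine h2.trans ?_
  linarith

/-- **D05 (M).** Norms of the `w` factors: at most `2^111` (`0 ≤ l, n1 ≤ 2^20`).
Proof: `c06_l1` with `A = 2^20`, `d = 2^10` (as in D04): `l1 (gspow 5) ≤ 7 2^20 2^50 < 2^73`,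
`l1 (gspow 4) < 2^63`, `l1 (gspow 3) < 2^53`; `l1 pw0 ≤ 8000 2^20 2^53 8 + 5 2^20 2^63 2^11 2
+ 2^20 2^73 2 < 2^111`, `l1 pw1 ≤ 100 2^20 2^73 2^11 ≤ 2^111`, `l1 pw2 ≤ 2^20 2^73 2`,
`l1 pw3 ≤ 2^74` (`c01_mul`, `c01_add`, `c01_C`, `c01_pow`, `c01_lin`; for the difference
`P - Q = P + C (-1) * Q`). -/
theorem d05_pw0 (D : Dat) (nx nw : ℕ) (h : OK D nx nw) (l n1 : ℤ) (hl : 0 ≤ l) (hl' : l ≤ 2 ^ 20)
    (hn : 0 ≤ n1) (hn' : n1 ≤ 2 ^ 20) (J : ℕ) (hJ : J < nw) (e : ℕ) :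
    l1 (pw0 l n1 (wa D J) (wb D J) (D.aw.getD (J + e) []) (D.kw.drop (J + e))) ≤ 2 ^ 111 := by
  have g3 := d05_gw D nx nw h J hJ e 3 (by norm_num)
  have g4 := d05_gw D nx nw h J hJ e 4 (by norm_num)
  have g5 := d05_gw D nx nw h J hJ e 5 (by norm_num)
  have hab := d05_ab D nx nw h J
  unfold pw0
  have t1 : l1 (C (8000 * l) * (gspow 3 (wa D J) (wb D J) (X : ℤ[X]) (D.aw.getD (J + e) [])
      (D.kw.drop (J + e)) * (C 1 + C 1 * X) ^ 3)) ≤ 2 ^ 109 := by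
    refine d05_C_mul _ _ (8000 * 2 ^ 20) (7 * 2 ^ 53) _ ?_ (d05_mul _ _ _ _ _ g3 d05_one3 ?_) ?_
    · rw [abs_of_nonneg (by positivity)]; linarith
    · norm_num
    · norm_num
  have t2 : l1 (C (5 * l) * (gspow 4 (wa D J) (wb D J) (X : ℤ[X]) (D.aw.getD (J + e) [])
      (D.kw.drop (J + e)) * ((C (wa D J) + C (wb D J) * X) * (C 1 + C 1 * X)))) ≤ 2 ^ 109 := by
    refine d05_C_mul _ _ (5 * 2 ^ 20) (7 * 2 ^ 72) _ ?_
      (d05_mul _ _ _ (2 ^ 12) _ g4 (d05_mul _ _ _ _ _ hab d05_one ?_) ?_) ?_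
    · rw [abs_of_nonneg (by positivity)]; linarith
    · norm_num
    · norm_num
    · norm_num
  have t3 : l1 (C n1 * (gspow 5 (wa D J) (wb D J) (X : ℤ[X]) (D.aw.getD (J + e) [])
      (D.kw.drop (J + e)) * (C 1 + C 1 * X))) ≤ 2 ^ 109 := by
    refine d05_C_mul _ _ (2 ^ 20) (7 * 2 ^ 71) _ ?_ (d05_mul _ _ _ _ _ g5 d05_one ?_) ?_
    · rw [abs_of_nonneg hn]; exact hn'
    · norm_num
    · norm_num
  refine (c01_add _ _).trans ?_
  have t4 := d05_sub (C (8000 * l) * (gspow 3 (wa D J) (wb D J) (X : ℤ[X])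
    (D.aw.getD (J + e) []) (D.kw.drop (J + e)) * (C 1 + C 1 * X) ^ 3))
    (C (5 * l) * (gspow 4 (wa D J) (wb D J) (X : ℤ[X]) (D.aw.getD (J + e) [])
      (D.kw.drop (J + e)) * ((C (wa D J) + C (wb D J) * X) * (C 1 + C 1 * X))))
  have h5 : (2 : ℤ) ^ 109 + 2 ^ 109 + 2 ^ 109 ≤ 2 ^ 111 := by norm_num
  linarith

theorem d05_pw1 (D : Dat) (nx nw : ℕ) (h : OK D nx nw) (l : ℤ) (hl : 0 ≤ l) (hl' : l ≤ 2 ^ 20)
    (J : ℕ) (hJ : J < nw) (e : ℕ) :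
    l1 (pw1 l (wa D J) (wb D J) (D.aw.getD (J + e) []) (D.kw.drop (J + e))) ≤ 2 ^ 111 := by
  have g5 := d05_gw D nx nw h J hJ e 5 (by norm_num)
  have hab := d05_ab D nx nw h J
  unfold pw1
  refine d05_C_mul _ _ (100 * 2 ^ 20) (7 * 2 ^ 81) _ ?_ (d05_mul _ _ _ _ _ g5 hab ?_) ?_
  · rw [abs_of_nonneg (by positivity)]; linarith
  · norm_num
  · norm_num

theorem d05_pw2 (D : Dat) (nx nw : ℕ) (h : OK D nx nw) (l : ℤ) (hl : 0 ≤ l) (hl' : l ≤ 2 ^ 20)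
    (J : ℕ) (hJ : J < nw) (e : ℕ) :
    l1 (pw2 l (wa D J) (wb D J) (D.aw.getD (J + e) []) (D.kw.drop (J + e))) ≤ 2 ^ 111 := by
  have g5 := d05_gw D nx nw h J hJ e 5 (by norm_num)
  unfold pw2
  refine d05_C_mul _ _ (2 ^ 20) (7 * 2 ^ 71) _ ?_ (d05_mul _ _ _ _ _ g5 d05_one ?_) ?_
  · rw [abs_neg, abs_of_nonneg hl]; exact hl'
  · norm_num
  · norm_num

theorem d05_pw3 (D : Dat) (nx nw : ℕ) (h : OK D nx nw) (J : ℕ) (hJ : J < nw) (e : ℕ) :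
    l1 (pw3 (wa D J) (wb D J) (D.aw.getD (J + e) []) (D.kw.drop (J + e))) ≤ 2 ^ 111 := by
  have g5 := d05_gw D nx nw h J hJ e 5 (by norm_num)
  unfold pw3
  exact d05_mul _ _ _ _ _ g5 d05_one (by norm_num)

end Pool.H56P
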