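import Pool.Agent.Lib.H56P.Cell
import Pool.Agent.Lib.H56P.C01
import Pool.Agent.Lib.H56P.D04
import Pool.Agent.Lib.H56P.D05

set_option autoImplicit false

namespace Pool.H56P

open Finset Polynomial

theorem d06_append (L M : List (ℤ[X] × ℤ[X])) : nmL (L ++ M) = nmL L + nmL M := by
  simp [nmL]

theorem d06_prod {P Q : ℤ[X]} {a b : ℤ} (hP : l1 P ≤ a) (hQ : l1 Q ≤ b) : l1 P * l1 Q ≤ a * b :=
  mul_le_mul hP hQ (c01_nonneg Q) ((c01_nonneg P).trans hP)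

theorem d06_spL (D : Dat) (I J : ℕ) (p q : List ℤ → List ℤ → ℤ[X]) {a b : ℤ}
    (hp : ∀ j, l1 (PU p D I j) ≤ a)
    (hq : ∀ e, l1 (q (D.aw.getD (J + e) []) (D.kw.drop (J + e))) ≤ b) :
    nmL (spL D I J p q) ≤ 6 * (a * b) := by
  have h : ∀ e : ℕ, l1 (PU p D I (J + e)) *
      l1 (q (D.aw.getD (J + e) []) (D.kw.drop (J + e))) ≤ a * b := fun e =>
    d06_prod (hp _) (hq e)
  have h2 : nmL (spL D I J p q) = ((List.range 6).map fun e => l1 (PU p D I (J + e)) *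
      l1 (q (D.aw.getD (J + e) []) (D.kw.drop (J + e)))).sum := by
    unfold nmL spL
    rw [List.map_map]
    rfl
  rw [h2]
  simp only [List.range_succ, List.range_zero, List.nil_append, List.map_append, List.map_cons,
    List.map_nil, List.sum_append, List.sum_cons, List.sum_nil]
  linarith [h 0, h 1, h 2, h 3, h 4, h 5]

theorem d06_getD {L : List ℤ} {B : ℤ} (h : ∀ τ ∈ L, |τ| ≤ B) (hB : 0 ≤ B) (n : ℕ) :
    |L.getD n 0| ≤ B := by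
  by_cases hn : n < L.length
  · rw [List.getD_eq_getElem _ _ hn]
    exact h _ (List.getElem_mem hn)
  · rw [List.getD_eq_default _ _ (not_lt.1 hn), abs_zero]
    exact hB

theorem d06_one (n : ℕ) : l1 ((C (1 : ℤ) + C 1 * X) ^ n) ≤ 2 ^ n := by
  refine (c01_pow _ n).trans (pow_le_pow_left₀ (c01_nonneg _) ?_ n)
  have h := c01_lin 1 1
  rw [abs_one] at h
  linarith

theorem d06_linpow {a b B : ℤ} (ha : |a| ≤ B) (hb : |b| ≤ B) (n : ℕ) :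
    l1 ((C a + C b * X) ^ n) ≤ (2 * B) ^ n := by
  refine (c01_pow _ n).trans (pow_le_pow_left₀ (c01_nonneg _) ?_ n)
  have h := c01_lin a b
  linarith

theorem d06_lin1 {a b B : ℤ} (ha : |a| ≤ B) (hb : |b| ≤ B) :
    l1 (C a + C b * X) ≤ 2 * B := by
  have h := c01_lin a b
  linarith

theorem d06_Cmul {c A : ℤ} {P : ℤ[X]} {a : ℤ} (hc : |c| ≤ A) (hP : l1 P ≤ a) :
    l1 (C c * P) ≤ A * a :=
  (c01_C_mul c P).trans (mul_le_mul hc hP (c01_nonneg P) ((abs_nonneg c).trans hc))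

theorem d06_mul {P Q : ℤ[X]} {a b : ℤ} (hP : l1 P ≤ a) (hQ : l1 Q ≤ b) : l1 (P * Q) ≤ a * b :=
  (c01_mul P Q).trans (d06_prod hP hQ)

/-- **D06 (S/M).** Total norms. `cellLT`: 18 products `≤ 2^249 2^111`, four products of the far part
(coefficients `|C ..| ≤ 2^190`, `l1 ((C 1 + C 1 X)^n) ≤ 2^n`, `l1 (C xa + C xb X) ≤ 2^16`,
`l1 (C wa + C wb X) ≤ 2^11`); `cellLH` similarly. (`simp [nmL, cellLT, spL, List.range_succ]`.) -/
theorem d06_nm_T (D : Dat) (nx nw : ℕ) (h : OK D nx nw) (l n1 : ℤ) (hl : 0 ≤ l) (hl' : l ≤ 2 ^ 20)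
    (hn : 0 ≤ n1) (hn' : n1 ≤ 2 ^ 20) (I J : ℕ) (hI : I < nx) (hJ : J < nw) :
    nmL (cellLT D l n1 I J) ≤ 2 ^ 366 := by
  have hxa : |xa D I| ≤ 2 ^ 15 := d06_getD h.kxb (by norm_num) _
  have hxb : |xb D I| ≤ 2 ^ 15 := d06_getD h.kxb (by norm_num) _
  have hwa : |wa D J| ≤ 2 ^ 10 := d06_getD h.kwb (by norm_num) _
  have hwb : |wb D J| ≤ 2 ^ 10 := d06_getD h.kwb (by norm_num) _
  have hl2 : |l| ≤ 2 ^ 20 := by rw [abs_of_nonneg hl]; exact hl'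
  have hn2 : |n1| ≤ 2 ^ 20 := by rw [abs_of_nonneg hn]; exact hn'
  have hc0 := h.c0b
  have hc2 := h.c2b
  have s1 := d06_spL D I J (px0 (xa D I) (xb D I)) (pw0 l n1 (wa D J) (wb D J))
    (d04_PU0 D nx nw h I hI) (d05_pw0 D nx nw h l n1 hl hl' hn hn' J hJ)
  have s2 := d06_spL D I J (px1 (xa D I) (xb D I)) (pw1 l (wa D J) (wb D J))
    (d04_PU1 D nx nw h I hI) (d05_pw1 D nx nw h l hl hl' J hJ)
  have s3 := d06_spL D I J (px2 (xa D I) (xb D I)) (pw2 l (wa D J) (wb D J))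
    (d04_PU2 D nx nw h I hI) (d05_pw2 D nx nw h l hl hl' J hJ)
  have hm : ∀ {a b A B : ℤ}, |a| ≤ A → |b| ≤ B → |a * b| ≤ A * B := by
    intro a b A B ha hb
    rw [abs_mul]
    exact mul_le_mul ha hb (abs_nonneg b) ((abs_nonneg a).trans ha)
  have ht : |n1 - 2 * l| ≤ 2 ^ 22 := by
    rw [abs_le] at hl2 hn2 ⊢
    constructor <;> linarith
  have k1 : |n1 * D.c0 + 8000000 * l * D.c2| ≤ 2 ^ 190 := by
    have e1 := hm hn2 hc0
    have e2 : |8000000 * l * D.c2| ≤ (8000000 * 2 ^ 20) * 2 ^ 140 :=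
      hm (hm (by norm_num) hl2) hc2
    have e3 := abs_add_le (n1 * D.c0) (8000000 * l * D.c2)
    norm_num at e1 e2 e3 ⊢
    linarith
  have k2 : |(n1 - 2 * l) * D.c2| ≤ 2 ^ 190 := by
    have e1 := hm ht hc2
    norm_num at e1 ⊢
    linarith
  have k3 : |10000 * (n1 - 2 * l) * D.c2| ≤ 2 ^ 190 := by
    have e1 : |10000 * (n1 - 2 * l) * D.c2| ≤ (10000 * 2 ^ 22) * 2 ^ 140 :=
      hm (hm (by norm_num) ht) hc2
    norm_num at e1 ⊢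
    linarith
  have k4 : |200 * l * D.c2| ≤ 2 ^ 190 := by
    have e1 : |200 * l * D.c2| ≤ (200 * 2 ^ 20) * 2 ^ 140 := hm (hm (by norm_num) hl2) hc2
    norm_num at e1 ⊢
    linarith
  have f1 := d06_prod (d06_Cmul k1 (d06_one 5)) (d06_one 6)
  have f2 := d06_prod (d06_Cmul k2 (d06_mul (d06_linpow hxa hxb 2) (d06_one 3))) (d06_one 6)
  have f3 := d06_prod (d06_Cmul k3 (d06_one 5)) (d06_mul (d06_linpow hwa hwb 2) (d06_one 4))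
  have f4 := d06_prod (d06_Cmul k4 (d06_mul (d06_lin1 hxa hxb) (d06_one 4)))
    (d06_mul (d06_lin1 hwa hwb) (d06_one 5))
  unfold cellLT
  rw [d06_append, d06_append, d06_append]
  have hfar : ∀ (P1 Q1 P2 Q2 P3 Q3 P4 Q4 : ℤ[X]),
      nmL [(P1, Q1), (P2, Q2), (P3, Q3), (P4, Q4)] =
        l1 P1 * l1 Q1 + l1 P2 * l1 Q2 + l1 P3 * l1 Q3 + l1 P4 * l1 Q4 := by
    intro P1 Q1 P2 Q2 P3 Q3 P4 Q4
    simp only [nmL, List.map_cons, List.map_nil, List.sum_cons, List.sum_nil]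
    ring
  rw [hfar]
  have hpow : (2 : ℤ) ^ 366 = 2 ^ 6 * (2 ^ 249 * 2 ^ 111) := by
    rw [← pow_add, ← pow_add]
  have g1 : (2 : ℤ) ^ 190 * 2 ^ 5 * 2 ^ 6 ≤ 2 ^ 249 * 2 ^ 111 := by norm_num
  have g2 : (2 : ℤ) ^ 190 * ((2 * 2 ^ 15) ^ 2 * 2 ^ 3) * 2 ^ 6 ≤ 2 ^ 249 * 2 ^ 111 := by norm_num
  have g3 : (2 : ℤ) ^ 190 * 2 ^ 5 * ((2 * 2 ^ 10) ^ 2 * 2 ^ 4) ≤ 2 ^ 249 * 2 ^ 111 := by norm_num
  have g4 : (2 : ℤ) ^ 190 * (2 * 2 ^ 15 * 2 ^ 4) * (2 * 2 ^ 10 * 2 ^ 5) ≤ 2 ^ 249 * 2 ^ 111 := by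
    norm_num
  have g0 : (0 : ℤ) ≤ 2 ^ 249 * 2 ^ 111 := by positivity
  rw [hpow]
  generalize (2 : ℤ) ^ 249 * 2 ^ 111 = T at *
  have h64 : (2 : ℤ) ^ 6 * T = 64 * T := by norm_num
  rw [h64]
  have f1' := f1.trans g1
  have f2' := f2.trans g2
  have f3' := f3.trans g3
  have f4' := f4.trans g4
  refine (add_le_add (add_le_add (add_le_add s1 s2) s3)
    (add_le_add (add_le_add (add_le_add f1' f2') f3') f4')).trans ?_
  clear f1 f2 f3 f4 g1 g2 g3 g4 h64 k1 k2 k3 k4 ht f1' f2' f3' f4' s1 s2 s3 hpow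
  linarith only [g0]

theorem d06_nm_H (D : Dat) (nx nw : ℕ) (h : OK D nx nw) (I J : ℕ) (hI : I < nx) (hJ : J < nw) :
    nmL (cellLH D I J) ≤ 2 ^ 364 := by
  have hxa : |xa D I| ≤ 2 ^ 15 := d06_getD h.kxb (by norm_num) _
  have hxb : |xb D I| ≤ 2 ^ 15 := d06_getD h.kxb (by norm_num) _
  have hwa : |wa D J| ≤ 2 ^ 10 := d06_getD h.kwb (by norm_num) _
  have hwb : |wb D J| ≤ 2 ^ 10 := d06_getD h.kwb (by norm_num) _
  have hc0 := h.c0b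
  have hc2 := h.c2b
  have s1 := d06_spL D I J (px0 (xa D I) (xb D I)) (pw3 (wa D J) (wb D J))
    (d04_PU0 D nx nw h I hI) (d05_pw3 D nx nw h J hJ)
  have k3 : |10000 * D.c2| ≤ 2 ^ 190 := by
    rw [abs_mul]
    norm_num at hc2 ⊢
    linarith
  have f1 := d06_prod (d06_Cmul hc0 (d06_one 5)) (d06_one 6)
  have f2 := d06_prod (d06_Cmul hc2 (d06_mul (d06_linpow hxa hxb 2) (d06_one 3))) (d06_one 6)
  have f3 := d06_prod (d06_Cmul k3 (d06_one 5)) (d06_mul (d06_linpow hwa hwb 2) (d06_one 4))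
  unfold cellLH
  rw [d06_append]
  have hfar : ∀ (P1 Q1 P2 Q2 P3 Q3 : ℤ[X]),
      nmL [(P1, Q1), (P2, Q2), (P3, Q3)] = l1 P1 * l1 Q1 + l1 P2 * l1 Q2 + l1 P3 * l1 Q3 := by
    intro P1 Q1 P2 Q2 P3 Q3
    simp only [nmL, List.map_cons, List.map_nil, List.sum_cons, List.sum_nil]
    ring
  rw [hfar]
  have hpow : (2 : ℤ) ^ 364 = 2 ^ 4 * (2 ^ 249 * 2 ^ 111) := by
    rw [← pow_add, ← pow_add]
  have g1 : (2 : ℤ) ^ 140 * 2 ^ 5 * 2 ^ 6 ≤ 2 ^ 249 * 2 ^ 111 := by norm_num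
  have g2 : (2 : ℤ) ^ 140 * ((2 * 2 ^ 15) ^ 2 * 2 ^ 3) * 2 ^ 6 ≤ 2 ^ 249 * 2 ^ 111 := by norm_num
  have g3 : (2 : ℤ) ^ 190 * 2 ^ 5 * ((2 * 2 ^ 10) ^ 2 * 2 ^ 4) ≤ 2 ^ 249 * 2 ^ 111 := by norm_num
  have g0 : (0 : ℤ) ≤ 2 ^ 249 * 2 ^ 111 := by positivity
  rw [hpow]
  generalize (2 : ℤ) ^ 249 * 2 ^ 111 = T at *
  have h16 : (2 : ℤ) ^ 4 * T = 16 * T := by norm_num
  rw [h16]
  have f1' := f1.trans g1
  have f2' := f2.trans g2
  have f3' := f3.trans g3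
  refine (add_le_add s1 (add_le_add (add_le_add f1' f2') f3')).trans ?_
  clear f1 f2 f3 g1 g2 g3 h16 k3 f1' f2' f3' s1 hpow
  linarith only [g0]

end Pool.H56P
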