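import Pool.Agent.Lib.H56P.Cell
import Pool.Agent.Lib.H56P.B01

set_option autoImplicit false

namespace Pool.H56P

open Finset Polynomial

theorem d07_knot {al k : List ℤ} {i : ℕ} {p : ℤ × ℤ} (hp : p ∈ al.zip (k.drop i)) :
    ∃ j, j < al.length ∧ i + j < k.length ∧ p.2 = k.getD (i + j) 0 := by
  obtain ⟨j, hj, rfl⟩ := List.mem_iff_getElem.1 hp
  rw [List.length_zip, List.length_drop] at hj
  refine ⟨j, by omega, by omega, ?_⟩
  rw [List.getElem_zip, List.getElem_drop, List.getD_eq_getElem _ _ (by omega)]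

theorem d07_mono {k : List ℤ} (hk : k.Pairwise (· < ·)) {i j : ℕ} (hij : i ≤ j) (hj : j < k.length) :
    k.getD i 0 ≤ k.getD j 0 := by
  rcases hij.eq_or_lt with rfl | h
  · exact le_rfl
  · rw [List.getD_eq_getElem _ _ (by omega), List.getD_eq_getElem _ _ hj]
    exact (List.pairwise_iff_getElem.1 hk i j (by omega) hj h).le

/-- **D07 (M).** Only the six splines `I, …, I+5` are active on the cell `[k_{I+5}, k_{I+6}]`.
Proof: for `i < I` all knots of the spline `i` (at most seven: `k_i, …, k_{i+6}`, as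
`al.length ≤ 7`) are `≤ k_{I+5} ≤ x` (sortedness), so it vanishes at `x` (`b01_zero_right`); for
`i ≥ I + 6` all its knots are `≥ k_{I+6} ≥ x` (`b01_zero_left`); for `i ≥ as.length` `getD` is `[]`
and `tpS e [] _ = 0`. Reindex the rest by `i = I + d` (`Finset.sum_subset`, `range_eq_Ico`,
`sum_Ico_add'`, ...). -/
theorem d07_window (k : List ℤ) (as : List (List ℤ)) (n : ℕ) (hk : k.Pairwise (· < ·))
    (hl : k.length = n + 6) (has : ∀ al ∈ as, al.length ≤ 7)
    (hm : ∀ i < as.length, MomOK (as.getD i []) (k.drop i)) (e : ℕ) (he : 1 ≤ e) (he5 : e ≤ 5)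
    (I : ℕ) (hI : I < n) (x : ℝ) (h1 : (k.getD (I + 5) 0 : ℝ) ≤ x) (h2 : x ≤ (k.getD (I + 6) 0 : ℝ))
    (g : ℕ → ℝ) :
    ∑ i ∈ range as.length, g i * tpS e (as.getD i []) (k.drop i) x
      = ∑ d ∈ range 6, g (I + d) * tpS e (as.getD (I + d) []) (k.drop (I + d)) x := by
  have hz : ∀ i, (i < I ∨ I + 6 ≤ i ∨ as.length ≤ i) →
      g i * tpS e (as.getD i []) (k.drop i) x = 0 := by
    intro i hi
    have hnil : as.length ≤ i → tpS e (as.getD i []) (k.drop i) x = 0 := by
      intro h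
      rw [List.getD_eq_default _ _ h]
      simp [tpS]
    rcases lt_or_ge i as.length with hia | hia
    · rcases hi with hi | hi | hi
      · have hmem : as.getD i [] ∈ as := by
          rw [List.getD_eq_getElem _ _ hia]
          exact List.getElem_mem hia
        rw [b01_zero_right e he he5 _ _ (hm i hia) x, mul_zero]
        intro p hp
        obtain ⟨j, hj, hjk, hpj⟩ := d07_knot hp
        have h3 := has _ hmem
        have h4 : k.getD (i + j) 0 ≤ k.getD (I + 5) 0 := d07_mono hk (by omega) (by omega)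
        rw [hpj]
        have h5 : ((k.getD (i + j) 0 : ℤ) : ℝ) ≤ ((k.getD (I + 5) 0 : ℤ) : ℝ) := by exact_mod_cast h4
        exact h5.trans h1
      · rw [b01_zero_left e he _ _ x, mul_zero]
        intro p hp
        obtain ⟨j, hj, hjk, hpj⟩ := d07_knot hp
        have h4 : k.getD (I + 6) 0 ≤ k.getD (i + j) 0 := d07_mono hk (by omega) hjk
        rw [hpj]
        have h5 : ((k.getD (I + 6) 0 : ℤ) : ℝ) ≤ ((k.getD (i + j) 0 : ℤ) : ℝ) := by exact_mod_cast h4
        exact h2.trans h5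
      · omega
    · rw [hnil hia, mul_zero]
  have e1 : ∑ i ∈ range as.length, g i * tpS e (as.getD i []) (k.drop i) x =
      ∑ i ∈ range (max as.length (I + 6)), g i * tpS e (as.getD i []) (k.drop i) x := by
    refine sum_subset (range_mono (le_max_left _ _)) fun i _ hi => hz i ?_
    rw [mem_range, not_lt] at hi
    exact Or.inr (Or.inr hi)
  have e2 : ∑ i ∈ Ico I (I + 6), g i * tpS e (as.getD i []) (k.drop i) x =
      ∑ i ∈ range (max as.length (I + 6)), g i * tpS e (as.getD i []) (k.drop i) x := by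
    refine sum_subset (fun i hi => ?_) fun i _ hi => hz i ?_
    · rw [mem_Ico] at hi
      rw [mem_range]
      exact lt_of_lt_of_le hi.2 (le_max_right _ _)
    · rw [mem_Ico] at hi
      omega
  rw [e1, ← e2, sum_Ico_eq_sum_range, Nat.add_sub_cancel_left]

/-- Outside all knots every spline vanishes. -/
theorem d07_outside (k : List ℤ) (as : List (List ℤ)) (n : ℕ) (hk : k.Pairwise (· < ·))
    (hl : k.length = n + 6) (hm : ∀ i < as.length, MomOK (as.getD i []) (k.drop i)) (e : ℕ)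
    (he : 1 ≤ e) (he5 : e ≤ 5) (x : ℝ)
    (h : (k.getD (n + 5) 0 : ℝ) ≤ x ∨ x ≤ (k.getD 0 0 : ℝ)) (i : ℕ) (hi : i < as.length) :
    tpS e (as.getD i []) (k.drop i) x = 0 := by
  rcases h with h | h
  · refine b01_zero_right e he he5 _ _ (hm i hi) x fun p hp => ?_
    obtain ⟨j, hj, hjk, hpj⟩ := d07_knot hp
    have h4 : k.getD (i + j) 0 ≤ k.getD (n + 5) 0 := d07_mono hk (by omega) (by omega)
    rw [hpj]
    have h5 : ((k.getD (i + j) 0 : ℤ) : ℝ) ≤ ((k.getD (n + 5) 0 : ℤ) : ℝ) := by exact_mod_cast h4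
    exact h5.trans h
  · refine b01_zero_left e he _ _ x fun p hp => ?_
    obtain ⟨j, hj, hjk, hpj⟩ := d07_knot hp
    have h4 : k.getD 0 0 ≤ k.getD (i + j) 0 := d07_mono hk (by omega) hjk
    rw [hpj]
    have h5 : ((k.getD 0 0 : ℤ) : ℝ) ≤ ((k.getD (i + j) 0 : ℤ) : ℝ) := by exact_mod_cast h4
    exact h.trans h5

end Pool.H56P
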