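import Pool.Agent.Lib.H56P.Cell
import Pool.Agent.Lib.H56P.C05
import Pool.Agent.Lib.H56P.D07

set_option autoImplicit false

namespace Pool.H56P

open Finset Polynomial

/-- auxiliary: the knots of `kx.drop i` are `≤ xa` or `≥ xb` -/
theorem d08_gap (D : Dat) (nx nw : ℕ) (h : OK D nx nw) (I : ℕ) (hI : I < nx) (i : ℕ) :
    ∀ τ ∈ D.kx.drop i, τ ≤ xa D I ∨ xb D I ≤ τ := by
  intro τ hτ
  have hm : τ ∈ D.kx := List.mem_of_mem_drop hτ
  rw [List.mem_iff_getElem] at hm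
  obtain ⟨m, hm, rfl⟩ := hm
  have hl := h.kxl
  have hs := List.pairwise_iff_getElem.1 h.kxs
  have ea : xa D I = D.kx[I + 5]'(by omega) := by
    unfold xa
    rw [List.getD_eq_getElem]
  have eb : xb D I = D.kx[I + 6]'(by omega) := by
    unfold xb
    rw [List.getD_eq_getElem]
  rcases lt_trichotomy m (I + 5) with h1 | h1 | h1
  · left
    rw [ea]
    exact (hs m (I + 5) hm (by omega) h1).le
  · left
    subst h1
    rw [ea]
  · right
    rw [eb]
    rcases Nat.eq_or_lt_of_le (show I + 6 ≤ m by omega) with h2 | h2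
    · subst h2
      exact le_rfl
    · exact (hs (I + 6) m (by omega) hm h2).le

/-- auxiliary: the general form -/
theorem d08_gen (D : Dat) (nx nw : ℕ) (h : OK D nx nw) (I : ℕ) (hI : I < nx) (j : ℕ) (X : ℝ)
    (h1 : (xa D I : ℝ) ≤ X) (h2 : X < xb D I) (p : List ℤ → List ℤ → ℤ[X]) (e : ℕ) (he : 1 ≤ e)
    (he5 : e ≤ 5) (c : ℝ)
    (hp : ∀ al ta : List ℤ, ta.Pairwise (· ≤ ·) → (∀ τ ∈ ta, τ ≤ xa D I ∨ xb D I ≤ τ) →
      ((xb D I : ℝ) - X) ^ 5 * (aeval ((X - xa D I) / (xb D I - X)) (p al ta) : ℝ)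
        = ((xb D I : ℝ) - xa D I) ^ 5 * (c * tpS e al ta X)) :
    ((xb D I : ℝ) - X) ^ 5 * (aeval ((X - xa D I) / (xb D I - X)) (PU p D I j) : ℝ)
      = ((xb D I : ℝ) - xa D I) ^ 5 *
        ∑ i ∈ range D.ax.length, (cof D i j : ℝ) * (c * tpS e (D.ax.getD i []) (D.kx.drop i) X) := by
  have hw := d07_window D.kx D.ax nx h.kxs h.kxl h.axl h.mom.1 e he he5 I hI X h1 h2.le
    (fun i => (cof D i j : ℝ) * c)
  have e1 : ∑ i ∈ range D.ax.length, (cof D i j : ℝ) * (c * tpS e (D.ax.getD i []) (D.kx.drop i) X)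
      = ∑ i ∈ range D.ax.length, (cof D i j : ℝ) * c * tpS e (D.ax.getD i []) (D.kx.drop i) X := by
    refine sum_congr rfl fun i _ => ?_
    ring
  rw [e1, hw]
  unfold PU
  rw [map_sum, mul_sum, mul_sum]
  refine sum_congr rfl fun d _ => ?_
  rw [map_mul, aeval_C]
  have hs : (D.kx.drop (I + d)).Pairwise (· ≤ ·) :=
    (h.kxs.sublist (List.drop_sublist _ _)).imp (fun hab => le_of_lt hab)
  have := hp (D.ax.getD (I + d) []) (D.kx.drop (I + d)) hs (d08_gap D nx nw h I hI (I + d))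
  simp only [eq_intCast]
  linear_combination (cof D (I + d) j : ℝ) * this

/-- **D08 (M).** The `x` factors in real terms, `v = xb - X > 0`, `r = (X - xa)/v`.
Proof: `c05_aeval`, `c05_real` (the knots of `kx.drop i` are sorted, and each is `≤ xa` or `≥ xb`
since `xa`, `xb` are consecutive knots), `v (1 + r) = xb - xa`, `v (xa + xb r) = (xb - xa) X`, and
`d07_window` for the sum over the splines. -/
theorem d08_PU0 (D : Dat) (nx nw : ℕ) (h : OK D nx nw) (I : ℕ) (hI : I < nx) (j : ℕ) (X : ℝ)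
    (h1 : (xa D I : ℝ) ≤ X) (h2 : X < xb D I) :
    ((xb D I : ℝ) - X) ^ 5 * (aeval ((X - xa D I) / (xb D I - X)) (PU (px0 (xa D I) (xb D I)) D I j) : ℝ)
      = ((xb D I : ℝ) - xa D I) ^ 5 *
        ∑ i ∈ range D.ax.length, (cof D i j : ℝ) * tpS 5 (D.ax.getD i []) (D.kx.drop i) X := by
  have := d08_gen D nx nw h I hI j X h1 h2 (px0 (xa D I) (xb D I)) 5 (by norm_num) le_rfl 1
    (fun al ta hs hg => by
      unfold px0
      rw [c05_aeval, c05_real 5 (by norm_num) _ _ _ _ _ hs hg h1 h2, one_mul])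
  simpa only [one_mul] using this

theorem d08_PU1 (D : Dat) (nx nw : ℕ) (h : OK D nx nw) (I : ℕ) (hI : I < nx) (j : ℕ) (X : ℝ)
    (h1 : (xa D I : ℝ) ≤ X) (h2 : X < xb D I) :
    ((xb D I : ℝ) - X) ^ 5 * (aeval ((X - xa D I) / (xb D I - X)) (PU (px1 (xa D I) (xb D I)) D I j) : ℝ)
      = ((xb D I : ℝ) - xa D I) ^ 5 *
        ∑ i ∈ range D.ax.length, (cof D i j : ℝ) * (5 * tpS 4 (D.ax.getD i []) (D.kx.drop i) X) := by
  refine d08_gen D nx nw h I hI j X h1 h2 (px1 (xa D I) (xb D I)) 4 (by norm_num) (by norm_num) 5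
    (fun al ta hs hg => ?_)
  unfold px1
  have hc := c05_real 4 (by norm_num) _ _ _ al _ hs hg h1 h2
  have hv : (xb D I : ℝ) - X ≠ 0 := by linarith
  have hr : ((xb D I : ℝ) - X) * (1 + (X - xa D I) / (xb D I - X)) = xb D I - xa D I := by
    field_simp
    ring
  simp only [map_mul, map_add, aeval_C, aeval_X, c05_aeval]
  simp only [eq_intCast, Int.cast_one, one_mul]
  generalize (X - xa D I) / (xb D I - X) = r at hc hr ⊢
  generalize gspow 4 (xa D I) (xb D I) r al ta = g at hc ⊢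
  push_cast
  linear_combination (5 * (((xb D I : ℝ) - X) * (1 + r))) * hc
    + (5 * ((xb D I : ℝ) - xa D I) ^ 4 * tpS 4 al ta X) * hr

theorem d08_PU2 (D : Dat) (nx nw : ℕ) (h : OK D nx nw) (I : ℕ) (hI : I < nx) (j : ℕ) (X : ℝ)
    (h1 : (xa D I : ℝ) ≤ X) (h2 : X < xb D I) :
    ((xb D I : ℝ) - X) ^ 5 * (aeval ((X - xa D I) / (xb D I - X)) (PU (px2 (xa D I) (xb D I)) D I j) : ℝ)
      = ((xb D I : ℝ) - xa D I) ^ 5 *
        ∑ i ∈ range D.ax.length, (cof D i j : ℝ) * (5 * X * tpS 4 (D.ax.getD i []) (D.kx.drop i) X) := by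
  refine d08_gen D nx nw h I hI j X h1 h2 (px2 (xa D I) (xb D I)) 4 (by norm_num) (by norm_num) (5 * X)
    (fun al ta hs hg => ?_)
  unfold px2
  have hc := c05_real 4 (by norm_num) _ _ _ al _ hs hg h1 h2
  have hv : (xb D I : ℝ) - X ≠ 0 := by linarith
  have hr : ((xb D I : ℝ) - X) * (xa D I + xb D I * ((X - xa D I) / (xb D I - X)))
      = (xb D I - xa D I) * X := by
    field_simp
    ring
  simp only [map_mul, map_add, aeval_C, aeval_X, c05_aeval]
  simp only [eq_intCast]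
  generalize (X - xa D I) / (xb D I - X) = r at hc hr ⊢
  generalize gspow 4 (xa D I) (xb D I) r al ta = g at hc ⊢
  push_cast
  linear_combination (5 * (((xb D I : ℝ) - X) * (xa D I + xb D I * r))) * hc
    + (5 * ((xb D I : ℝ) - xa D I) ^ 4 * tpS 4 al ta X) * hr

end Pool.H56P
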