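import Pool.Agent.Lib.H56P.Cell
import Pool.Agent.Lib.H56P.C05
import Pool.Agent.Lib.H56P.D07

set_option autoImplicit false

namespace Pool.H56P

open Finset Polynomial

theorem d09_gap {k : List ℤ} (hk : k.Pairwise (· < ·)) {N : ℕ} (hN : N + 1 < k.length) {τ : ℤ}
    (hτ : τ ∈ k) : τ ≤ k.getD N 0 ∨ k.getD (N + 1) 0 ≤ τ := by
  rw [List.pairwise_iff_getElem] at hk
  obtain ⟨m, hm, rfl⟩ := List.mem_iff_getElem.1 hτ
  rw [List.getD_eq_getElem _ _ (by omega : N < k.length), List.getD_eq_getElem _ _ hN]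
  rcases Nat.lt_trichotomy m N with h | h | h
  · exact Or.inl (hk m N hm (by omega) h).le
  · subst h
    exact Or.inl le_rfl
  · right
    rcases Nat.lt_or_ge (N + 1) m with h' | h'
    · exact (hk (N + 1) m hN hm h').le
    · have : m = N + 1 := by omega
      subst this
      exact le_rfl

theorem d09_key (D : Dat) (nx nw : ℕ) (h : OK D nx nw) (J : ℕ) (hJ : J < nw) (e : ℕ) (W : ℝ)
    (h1 : (wa D J : ℝ) ≤ W) (h2 : W < wb D J) (m : ℕ) (hm : 1 ≤ m) :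
    ((wb D J : ℝ) - W) ^ m * (aeval ((W - wa D J) / (wb D J - W))
      (gspow m (wa D J) (wb D J) (X : ℤ[X]) (D.aw.getD (J + e) []) (D.kw.drop (J + e))) : ℝ) =
      ((wb D J : ℝ) - wa D J) ^ m * tpS m (D.aw.getD (J + e) []) (D.kw.drop (J + e)) W := by
  rw [c05_aeval]
  refine c05_real m hm (wa D J) (wb D J) W _ _ ?_ ?_ h1 h2
  · exact (h.kws.imp (fun hab => le_of_lt hab)).sublist (List.drop_sublist _ _)
  · intro τ hτ
    exact d09_gap h.kws (N := J + 5) (by rw [h.kwl]; omega) (List.mem_of_mem_drop hτ)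

theorem d09_s1 (a b : ℤ) (W : ℝ) (h2 : W < b) :
    ((b : ℝ) - W) * (1 + 1 * ((W - a) / (b - W))) = b - a := by
  have hv : (b : ℝ) - W ≠ 0 := by linarith
  field_simp
  ring

theorem d09_s2 (a b : ℤ) (W : ℝ) (h2 : W < b) :
    ((b : ℝ) - W) * ((a : ℝ) + b * ((W - a) / (b - W))) = (b - a) * W := by
  have hv : (b : ℝ) - W ≠ 0 := by linarith
  field_simp
  ring

/-- **D09 (M).** The `w` factors in real terms, `v = wb - W > 0`, `r = (W - wa)/v`.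
Proof: `c05_aeval`, `c05_real` (the knots of `kw.drop (J+e)` are sorted, each `≤ wa` or `≥ wb`),
`v (1 + r) = wb - wa`, `v (wa + wb r) = (wb - wa) W`. -/
theorem d09_pw0 (D : Dat) (nx nw : ℕ) (h : OK D nx nw) (l n1 : ℤ) (J : ℕ) (hJ : J < nw) (e : ℕ) (W : ℝ)
    (h1 : (wa D J : ℝ) ≤ W) (h2 : W < wb D J) :
    ((wb D J : ℝ) - W) ^ 6 * (aeval ((W - wa D J) / (wb D J - W))
        (pw0 l n1 (wa D J) (wb D J) (D.aw.getD (J + e) []) (D.kw.drop (J + e))) : ℝ)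
      = ((wb D J : ℝ) - wa D J) ^ 6 *
        (8000 * l * tpS 3 (D.aw.getD (J + e) []) (D.kw.drop (J + e)) W
          - 5 * l * W * tpS 4 (D.aw.getD (J + e) []) (D.kw.drop (J + e)) W
          + n1 * tpS 5 (D.aw.getD (J + e) []) (D.kw.drop (J + e)) W) := by
  have e3 := d09_key D nx nw h J hJ e W h1 h2 3 (by norm_num)
  have e4 := d09_key D nx nw h J hJ e W h1 h2 4 (by norm_num)
  have e5 := d09_key D nx nw h J hJ e W h1 h2 5 (by norm_num)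
  have s1 := d09_s1 (wa D J) (wb D J) W h2
  have s2 := d09_s2 (wa D J) (wb D J) W h2
  unfold pw0
  simp only [map_add, map_sub, map_mul, map_pow, aeval_C, aeval_X]
  simp only [algebraMap_int_eq, eq_intCast, Int.cast_one, Int.cast_ofNat]
  generalize (aeval ((W - (wa D J : ℝ)) / ((wb D J : ℝ) - W)) (gspow 3 (wa D J) (wb D J) (X : ℤ[X])
    (D.aw.getD (J + e) []) (D.kw.drop (J + e))) : ℝ) = G3 at e3 ⊢
  generalize (aeval ((W - (wa D J : ℝ)) / ((wb D J : ℝ) - W)) (gspow 4 (wa D J) (wb D J) (X : ℤ[X])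
    (D.aw.getD (J + e) []) (D.kw.drop (J + e))) : ℝ) = G4 at e4 ⊢
  generalize (aeval ((W - (wa D J : ℝ)) / ((wb D J : ℝ) - W)) (gspow 5 (wa D J) (wb D J) (X : ℤ[X])
    (D.aw.getD (J + e) []) (D.kw.drop (J + e))) : ℝ) = G5 at e5 ⊢
  generalize (1 : ℝ) + 1 * ((W - (wa D J : ℝ)) / ((wb D J : ℝ) - W)) = p at s1 ⊢
  generalize ((wa D J : ℝ)) + (wb D J : ℝ) * ((W - (wa D J : ℝ)) / ((wb D J : ℝ) - W)) = q at s2 ⊢
  have t : ((wb D J : ℝ) - W) ^ 6 * (8000 * (l : ℝ) * (G3 * p ^ 3) - 5 * (l : ℝ) * (G4 * (q * p)) +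
      (n1 : ℝ) * (G5 * p)) =
      8000 * l * ((((wb D J : ℝ) - W) ^ 3 * G3) * (((wb D J : ℝ) - W) * p) ^ 3) -
        5 * l * ((((wb D J : ℝ) - W) ^ 4 * G4) * ((((wb D J : ℝ) - W) * q) *
          (((wb D J : ℝ) - W) * p))) +
        n1 * ((((wb D J : ℝ) - W) ^ 5 * G5) * (((wb D J : ℝ) - W) * p)) := by ring
  rw [t, e3, e4, e5, s1, s2]
  ring

theorem d09_pw1 (D : Dat) (nx nw : ℕ) (h : OK D nx nw) (l : ℤ) (J : ℕ) (hJ : J < nw) (e : ℕ) (W : ℝ)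
    (h1 : (wa D J : ℝ) ≤ W) (h2 : W < wb D J) :
    ((wb D J : ℝ) - W) ^ 6 * (aeval ((W - wa D J) / (wb D J - W))
        (pw1 l (wa D J) (wb D J) (D.aw.getD (J + e) []) (D.kw.drop (J + e))) : ℝ)
      = ((wb D J : ℝ) - wa D J) ^ 6 *
        (100 * l * W * tpS 5 (D.aw.getD (J + e) []) (D.kw.drop (J + e)) W) := by
  have e5 := d09_key D nx nw h J hJ e W h1 h2 5 (by norm_num)
  have s2 := d09_s2 (wa D J) (wb D J) W h2
  unfold pw1
  simp only [map_add, map_sub, map_mul, map_pow, aeval_C, aeval_X]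
  simp only [algebraMap_int_eq, eq_intCast, Int.cast_one, Int.cast_ofNat]
  generalize (aeval ((W - (wa D J : ℝ)) / ((wb D J : ℝ) - W)) (gspow 5 (wa D J) (wb D J) (X : ℤ[X])
    (D.aw.getD (J + e) []) (D.kw.drop (J + e))) : ℝ) = G5 at e5 ⊢
  generalize ((wa D J : ℝ)) + (wb D J : ℝ) * ((W - (wa D J : ℝ)) / ((wb D J : ℝ) - W)) = q at s2 ⊢
  have t : ((wb D J : ℝ) - W) ^ 6 * (100 * (l : ℝ) * (G5 * q)) =
      100 * l * ((((wb D J : ℝ) - W) ^ 5 * G5) * (((wb D J : ℝ) - W) * q)) := by ring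
  rw [t, e5, s2]
  ring

theorem d09_pw2 (D : Dat) (nx nw : ℕ) (h : OK D nx nw) (l : ℤ) (J : ℕ) (hJ : J < nw) (e : ℕ) (W : ℝ)
    (h1 : (wa D J : ℝ) ≤ W) (h2 : W < wb D J) :
    ((wb D J : ℝ) - W) ^ 6 * (aeval ((W - wa D J) / (wb D J - W))
        (pw2 l (wa D J) (wb D J) (D.aw.getD (J + e) []) (D.kw.drop (J + e))) : ℝ)
      = ((wb D J : ℝ) - wa D J) ^ 6 *
        (-l * tpS 5 (D.aw.getD (J + e) []) (D.kw.drop (J + e)) W) := by
  have e5 := d09_key D nx nw h J hJ e W h1 h2 5 (by norm_num)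
  have s1 := d09_s1 (wa D J) (wb D J) W h2
  unfold pw2
  simp only [map_add, map_sub, map_mul, map_pow, aeval_C, aeval_X]
  simp only [algebraMap_int_eq, eq_intCast, Int.cast_one, Int.cast_neg]
  generalize (aeval ((W - (wa D J : ℝ)) / ((wb D J : ℝ) - W)) (gspow 5 (wa D J) (wb D J) (X : ℤ[X])
    (D.aw.getD (J + e) []) (D.kw.drop (J + e))) : ℝ) = G5 at e5 ⊢
  generalize (1 : ℝ) + 1 * ((W - (wa D J : ℝ)) / ((wb D J : ℝ) - W)) = p at s1 ⊢
  have t : ((wb D J : ℝ) - W) ^ 6 * (-(l : ℝ) * (G5 * p)) =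
      -l * ((((wb D J : ℝ) - W) ^ 5 * G5) * (((wb D J : ℝ) - W) * p)) := by ring
  rw [t, e5, s1]
  ring

theorem d09_pw3 (D : Dat) (nx nw : ℕ) (h : OK D nx nw) (J : ℕ) (hJ : J < nw) (e : ℕ) (W : ℝ)
    (h1 : (wa D J : ℝ) ≤ W) (h2 : W < wb D J) :
    ((wb D J : ℝ) - W) ^ 6 * (aeval ((W - wa D J) / (wb D J - W))
        (pw3 (wa D J) (wb D J) (D.aw.getD (J + e) []) (D.kw.drop (J + e))) : ℝ)
      = ((wb D J : ℝ) - wa D J) ^ 6 * tpS 5 (D.aw.getD (J + e) []) (D.kw.drop (J + e)) W := by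
  have e5 := d09_key D nx nw h J hJ e W h1 h2 5 (by norm_num)
  have s1 := d09_s1 (wa D J) (wb D J) W h2
  unfold pw3
  simp only [map_add, map_sub, map_mul, map_pow, aeval_C, aeval_X]
  simp only [algebraMap_int_eq, eq_intCast, Int.cast_one, Int.cast_ofNat]
  generalize (aeval ((W - (wa D J : ℝ)) / ((wb D J : ℝ) - W)) (gspow 5 (wa D J) (wb D J) (X : ℤ[X])
    (D.aw.getD (J + e) []) (D.kw.drop (J + e))) : ℝ) = G5 at e5 ⊢
  generalize (1 : ℝ) + 1 * ((W - (wa D J : ℝ)) / ((wb D J : ℝ) - W)) = p at s1 ⊢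
  have t : ((wb D J : ℝ) - W) ^ 6 * (G5 * p) =
      ((((wb D J : ℝ) - W) ^ 5 * G5) * (((wb D J : ℝ) - W) * p)) := by ring
  rw [t, e5, s1]
  ring

end Pool.H56P
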