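import Pool.Agent.Lib.H56P.Cell
import Pool.Agent.Lib.H56P.D07
import Pool.Agent.Lib.H56P.D08
import Pool.Agent.Lib.H56P.D09

set_option autoImplicit false

namespace Pool.H56P

open Finset Polynomial

/-- The real function represented by `spL` (helper for D10): if the `x` factors represent
`∑_i c_ij F_i(X)` and the `w` factors represent `G_j(W)` then `spL` represents
`∑_{e<6} (∑_i c_{i,J+e} F_i) G_{J+e}`. Proof: unfold `rvL`, `spL`, expand the six terms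
(`simp [List.range_succ, Finset.sum_range_succ]`) and multiply the hypotheses. -/
theorem d10_spL (D : Dat) (I J : ℕ) (p q : List ℤ → List ℤ → ℤ[X]) (r1 r2 v5 s6 P Q : ℝ)
    (F G : ℕ → ℝ)
    (hx : ∀ j, v5 * (aeval r1 (PU p D I j) : ℝ) = P * F j)
    (hw : ∀ e, e < 6 → s6 * (aeval r2 (q (D.aw.getD (J + e) []) (D.kw.drop (J + e))) : ℝ) = Q * G (J + e)) :
    v5 * s6 * rvL (spL D I J p q) r1 r2 = P * Q * ∑ e ∈ range 6, F (J + e) * G (J + e) := by
  have h1 : rvL (spL D I J p q) r1 r2 = ∑ e ∈ range 6,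
      (aeval r1 (PU p D I (J + e)) : ℝ) *
        (aeval r2 (q (D.aw.getD (J + e) []) (D.kw.drop (J + e))) : ℝ) := by
    unfold rvL spL
    rw [List.map_map, Finset.sum_range]
    simp [List.range_succ, Fin.sum_univ_succ]
  rw [h1, Finset.mul_sum, Finset.mul_sum]
  refine Finset.sum_congr rfl fun e he => ?_
  rw [Finset.mem_range] at he
  have a := hx (J + e)
  have b := hw e he
  calc v5 * s6 * ((aeval r1 (PU p D I (J + e)) : ℝ) *
        (aeval r2 (q (D.aw.getD (J + e) []) (D.kw.drop (J + e))) : ℝ))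
      = (v5 * (aeval r1 (PU p D I (J + e)) : ℝ)) *
        (s6 * (aeval r2 (q (D.aw.getD (J + e) []) (D.kw.drop (J + e))) : ℝ)) := by ring
    _ = _ := by rw [a, b]; ring

/-- the double sum `Sp` as a sum over the six active splines in the `w` direction -/
theorem d10_Sp (D : Dat) (nx nw : ℕ) (h : OK D nx nw) (J : ℕ) (hJ : J < nw) (e f : ℕ)
    (hf : 1 ≤ f) (hf5 : f ≤ 5) (X W : ℝ) (h3 : (wa D J : ℝ) ≤ W) (h4 : W < wb D J) :
    Sp D e f X W = ∑ d ∈ range 6,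
      (∑ i ∈ range D.ax.length, (cof D i (J + d) : ℝ) * tpS e (D.ax.getD i []) (D.kx.drop i) X) *
        tpS f (D.aw.getD (J + d) []) (D.kw.drop (J + d)) W := by
  unfold Sp
  rw [Finset.sum_comm]
  have hh := d07_window D.kw D.aw nw h.kws h.kwl h.awl h.mom.2 f hf hf5 J hJ W h3 h4.le
    (fun j => ∑ i ∈ range D.ax.length, (cof D i j : ℝ) * tpS e (D.ax.getD i []) (D.kx.drop i) X)
  rw [← hh]
  refine Finset.sum_congr rfl fun j _ => ?_
  rw [Finset.sum_mul]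
  refine Finset.sum_congr rfl fun i _ => ?_
  ring

/-- value of a linear factor -/
theorem d10_lin (a b X : ℝ) (h2 : X < b) :
    (b - X) * (1 + (X - a) / (b - X)) = b - a ∧
      (b - X) * (a + b * ((X - a) / (b - X))) = (b - a) * X := by
  have hv : b - X ≠ 0 := by linarith
  constructor
  · field_simp
    ring
  · field_simp
    ring

/-- the four far terms, abstract form -/
theorem d10_farT (v s A B C E P Q X W k1 k2 k3 k4 : ℝ) (x1 : v * A = P) (x2 : v * B = P * X)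
    (w1 : s * C = Q) (w2 : s * E = Q * W) :
    v ^ 5 * s ^ 6 * (k1 * A ^ 5 * C ^ 6 + k2 * (B ^ 2 * A ^ 3) * C ^ 6 + k3 * A ^ 5 * (E ^ 2 * C ^ 4)
      + k4 * (B * A ^ 4) * (E * C ^ 5)) =
      P ^ 5 * Q ^ 6 * (k1 + k2 * X ^ 2 + k3 * W ^ 2 + k4 * (X * W)) := by
  calc _ = k1 * ((v * A) ^ 5 * (s * C) ^ 6) + k2 * ((v * B) ^ 2 * (v * A) ^ 3 * (s * C) ^ 6)
        + k3 * ((v * A) ^ 5 * ((s * E) ^ 2 * (s * C) ^ 4))
        + k4 * ((v * B) * (v * A) ^ 4 * ((s * E) * (s * C) ^ 5)) := by ring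
    _ = _ := by
      rw [x1, x2, w1, w2]
      ring

/-- **D10 (M).** The cell identity for the generator.
Proof: `rvL` of an append is the sum; `d10_spL` with D08, D09 for the three spline parts (the sums
over `e < 6` become sums over all `j` by `d07_window` for `kw`, `aw`; regroup: `Sp D 5 3`, `Sp D 5 4`,
`Sp D 5 5`, `Sp D 4 5` (exchange of the two finite sums), see `Fs`); the four far terms by
`v (1 + r1) = xb - xa`, `v (xa + xb r1) = (xb - xa) X` and the same for `w`. -/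
theorem d10_T (D : Dat) (nx nw : ℕ) (h : OK D nx nw) (l n1 : ℤ) (I J : ℕ) (hI : I < nx) (hJ : J < nw)
    (X W : ℝ) (h1 : (xa D I : ℝ) ≤ X) (h2 : X < xb D I) (h3 : (wa D J : ℝ) ≤ W) (h4 : W < wb D J) :
    ((xb D I : ℝ) - X) ^ 5 * ((wb D J : ℝ) - W) ^ 6 *
      rvL (cellLT D l n1 I J) ((X - xa D I) / (xb D I - X)) ((W - wa D J) / (wb D J - W))
      = ((xb D I : ℝ) - xa D I) ^ 5 * ((wb D J : ℝ) - wa D J) ^ 6 * Fs D l n1 X W := by
  obtain ⟨x1, x2⟩ := d10_lin (xa D I : ℝ) (xb D I : ℝ) X h2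
  obtain ⟨w1, w2⟩ := d10_lin (wa D J : ℝ) (wb D J : ℝ) W h4
  obtain ⟨r1, hr1⟩ : ∃ r1 : ℝ, r1 = (X - xa D I) / (xb D I - X) := ⟨_, rfl⟩
  obtain ⟨r2, hr2⟩ : ∃ r2 : ℝ, r2 = (W - wa D J) / (wb D J - W) := ⟨_, rfl⟩
  rw [← hr1] at x1 x2 ⊢
  rw [← hr2] at w1 w2 ⊢
  have s1 := d10_spL D I J (px0 (xa D I) (xb D I)) (pw0 l n1 (wa D J) (wb D J)) r1 r2
    (((xb D I : ℝ) - X) ^ 5) (((wb D J : ℝ) - W) ^ 6) (((xb D I : ℝ) - xa D I) ^ 5)
    (((wb D J : ℝ) - wa D J) ^ 6)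
    (fun j => ∑ i ∈ range D.ax.length, (cof D i j : ℝ) * tpS 5 (D.ax.getD i []) (D.kx.drop i) X)
    (fun j => 8000 * l * tpS 3 (D.aw.getD j []) (D.kw.drop j) W
          - 5 * l * W * tpS 4 (D.aw.getD j []) (D.kw.drop j) W
          + n1 * tpS 5 (D.aw.getD j []) (D.kw.drop j) W)
    (fun j => by rw [hr1]; exact d08_PU0 D nx nw h I hI j X h1 h2)
    (fun e _ => by rw [hr2]; exact d09_pw0 D nx nw h l n1 J hJ e W h3 h4)
  have s2 := d10_spL D I J (px1 (xa D I) (xb D I)) (pw1 l (wa D J) (wb D J)) r1 r2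
    (((xb D I : ℝ) - X) ^ 5) (((wb D J : ℝ) - W) ^ 6) (((xb D I : ℝ) - xa D I) ^ 5)
    (((wb D J : ℝ) - wa D J) ^ 6)
    (fun j => ∑ i ∈ range D.ax.length, (cof D i j : ℝ) * (5 * tpS 4 (D.ax.getD i []) (D.kx.drop i) X))
    (fun j => 100 * l * W * tpS 5 (D.aw.getD j []) (D.kw.drop j) W)
    (fun j => by rw [hr1]; exact d08_PU1 D nx nw h I hI j X h1 h2)
    (fun e _ => by rw [hr2]; exact d09_pw1 D nx nw h l J hJ e W h3 h4)
  have s3 := d10_spL D I J (px2 (xa D I) (xb D I)) (pw2 l (wa D J) (wb D J)) r1 r2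
    (((xb D I : ℝ) - X) ^ 5) (((wb D J : ℝ) - W) ^ 6) (((xb D I : ℝ) - xa D I) ^ 5)
    (((wb D J : ℝ) - wa D J) ^ 6)
    (fun j => ∑ i ∈ range D.ax.length,
      (cof D i j : ℝ) * (5 * X * tpS 4 (D.ax.getD i []) (D.kx.drop i) X))
    (fun j => -l * tpS 5 (D.aw.getD j []) (D.kw.drop j) W)
    (fun j => by rw [hr1]; exact d08_PU2 D nx nw h I hI j X h1 h2)
    (fun e _ => by rw [hr2]; exact d09_pw2 D nx nw h l J hJ e W h3 h4)
  have t53 := d10_Sp D nx nw h J hJ 5 3 (by norm_num) (by norm_num) X W h3 h4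
  have t54 := d10_Sp D nx nw h J hJ 5 4 (by norm_num) (by norm_num) X W h3 h4
  have t55 := d10_Sp D nx nw h J hJ 5 5 (by norm_num) (by norm_num) X W h3 h4
  have t45 := d10_Sp D nx nw h J hJ 4 5 (by norm_num) (by norm_num) X W h3 h4
  have u1 : (∑ e ∈ range 6,
      (∑ i ∈ range D.ax.length, (cof D i (J + e) : ℝ) * tpS 5 (D.ax.getD i []) (D.kx.drop i) X) *
      (8000 * l * tpS 3 (D.aw.getD (J + e) []) (D.kw.drop (J + e)) W
          - 5 * l * W * tpS 4 (D.aw.getD (J + e) []) (D.kw.drop (J + e)) W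
          + n1 * tpS 5 (D.aw.getD (J + e) []) (D.kw.drop (J + e)) W)) =
      8000 * l * Sp D 5 3 X W - 5 * l * W * Sp D 5 4 X W + n1 * Sp D 5 5 X W := by
    rw [t53, t54, t55, Finset.mul_sum, Finset.mul_sum, Finset.mul_sum, ← Finset.sum_sub_distrib,
      ← Finset.sum_add_distrib]
    refine Finset.sum_congr rfl fun e _ => ?_
    ring
  have u2 : (∑ e ∈ range 6,
      (∑ i ∈ range D.ax.length,
        (cof D i (J + e) : ℝ) * (5 * tpS 4 (D.ax.getD i []) (D.kx.drop i) X)) *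
      (100 * l * W * tpS 5 (D.aw.getD (J + e) []) (D.kw.drop (J + e)) W)) =
      500 * l * W * Sp D 4 5 X W := by
    rw [t45, Finset.mul_sum]
    refine Finset.sum_congr rfl fun e _ => ?_
    rw [Finset.sum_mul, Finset.sum_mul, Finset.mul_sum]
    refine Finset.sum_congr rfl fun i _ => ?_
    ring
  have u3 : (∑ e ∈ range 6,
      (∑ i ∈ range D.ax.length,
        (cof D i (J + e) : ℝ) * (5 * X * tpS 4 (D.ax.getD i []) (D.kx.drop i) X)) *
      (-l * tpS 5 (D.aw.getD (J + e) []) (D.kw.drop (J + e)) W)) =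
      -5 * l * X * Sp D 4 5 X W := by
    rw [t45, Finset.mul_sum]
    refine Finset.sum_congr rfl fun e _ => ?_
    rw [Finset.sum_mul, Finset.sum_mul, Finset.mul_sum]
    refine Finset.sum_congr rfl fun i _ => ?_
    ring
  rw [u1] at s1
  rw [u2] at s2
  rw [u3] at s3
  have hsplit : rvL (cellLT D l n1 I J) r1 r2 =
      rvL (spL D I J (px0 (xa D I) (xb D I)) (pw0 l n1 (wa D J) (wb D J))) r1 r2 +
      rvL (spL D I J (px1 (xa D I) (xb D I)) (pw1 l (wa D J) (wb D J))) r1 r2 +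
      rvL (spL D I J (px2 (xa D I) (xb D I)) (pw2 l (wa D J) (wb D J))) r1 r2 +
      (((n1 : ℝ) * D.c0 + 8000000 * l * D.c2) * (1 + r1) ^ 5 * (1 + r2) ^ 6 +
        (((n1 : ℝ) - 2 * l) * D.c2) * ((xa D I + xb D I * r1) ^ 2 * (1 + r1) ^ 3) * (1 + r2) ^ 6 +
        (10000 * ((n1 : ℝ) - 2 * l) * D.c2) * (1 + r1) ^ 5 *
          ((wa D J + wb D J * r2) ^ 2 * (1 + r2) ^ 4) +
        (200 * l * D.c2) * ((xa D I + xb D I * r1) * (1 + r1) ^ 4) *
          ((wa D J + wb D J * r2) * (1 + r2) ^ 5)) := by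
    unfold rvL cellLT
    simp only [List.map_append, List.sum_append, List.map_cons, List.map_nil, List.sum_cons,
      List.sum_nil, map_mul (aeval r1), map_add (aeval r1), map_pow (aeval r1),
      map_mul (aeval r2), map_add (aeval r2), map_pow (aeval r2), aeval_C, aeval_X, add_zero]
    simp only [algebraMap_int_eq, eq_intCast, Int.cast_one, one_mul]
    push_cast
    generalize (xa D I : ℝ) + (xb D I : ℝ) * r1 = B
    generalize (wa D J : ℝ) + (wb D J : ℝ) * r2 = E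
    generalize 1 + r1 = A
    generalize 1 + r2 = C'
    ring
  rw [hsplit]
  have f1 := d10_farT ((xb D I : ℝ) - X) ((wb D J : ℝ) - W) (1 + r1) (xa D I + xb D I * r1)
    (1 + r2) (wa D J + wb D J * r2) ((xb D I : ℝ) - xa D I) ((wb D J : ℝ) - wa D J) X W
    ((n1 : ℝ) * D.c0 + 8000000 * l * D.c2) (((n1 : ℝ) - 2 * l) * D.c2)
    (10000 * ((n1 : ℝ) - 2 * l) * D.c2) (200 * l * D.c2) x1 x2 w1 w2
  have hF : Fs D l n1 X W = (8000 * l * Sp D 5 3 X W - 5 * l * W * Sp D 5 4 X W + n1 * Sp D 5 5 X W)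
      + 500 * l * W * Sp D 4 5 X W + (-5 * l * X * Sp D 4 5 X W) +
      (((n1 : ℝ) * D.c0 + 8000000 * l * D.c2) + ((n1 : ℝ) - 2 * l) * D.c2 * X ^ 2 +
        10000 * ((n1 : ℝ) - 2 * l) * D.c2 * W ^ 2 + 200 * l * D.c2 * (X * W)) := by
    unfold Fs HsWW HsW HsX Hs
    ring
  rw [hF, mul_add, mul_add, mul_add, s1, s2, s3, f1, ← mul_add, ← mul_add, ← mul_add]

/-- The cell identity for the value. -/
theorem d10_H (D : Dat) (nx nw : ℕ) (h : OK D nx nw) (I J : ℕ) (hI : I < nx) (hJ : J < nw)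
    (X W : ℝ) (h1 : (xa D I : ℝ) ≤ X) (h2 : X < xb D I) (h3 : (wa D J : ℝ) ≤ W) (h4 : W < wb D J) :
    ((xb D I : ℝ) - X) ^ 5 * ((wb D J : ℝ) - W) ^ 6 *
      rvL (cellLH D I J) ((X - xa D I) / (xb D I - X)) ((W - wa D J) / (wb D J - W))
      = ((xb D I : ℝ) - xa D I) ^ 5 * ((wb D J : ℝ) - wa D J) ^ 6 * Hs D X W := by
  obtain ⟨x1, x2⟩ := d10_lin (xa D I : ℝ) (xb D I : ℝ) X h2
  obtain ⟨w1, w2⟩ := d10_lin (wa D J : ℝ) (wb D J : ℝ) W h4
  obtain ⟨r1, hr1⟩ : ∃ r1 : ℝ, r1 = (X - xa D I) / (xb D I - X) := ⟨_, rfl⟩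
  obtain ⟨r2, hr2⟩ : ∃ r2 : ℝ, r2 = (W - wa D J) / (wb D J - W) := ⟨_, rfl⟩
  rw [← hr1] at x1 x2 ⊢
  rw [← hr2] at w1 w2 ⊢
  have s1 := d10_spL D I J (px0 (xa D I) (xb D I)) (pw3 (wa D J) (wb D J)) r1 r2
    (((xb D I : ℝ) - X) ^ 5) (((wb D J : ℝ) - W) ^ 6) (((xb D I : ℝ) - xa D I) ^ 5)
    (((wb D J : ℝ) - wa D J) ^ 6)
    (fun j => ∑ i ∈ range D.ax.length, (cof D i j : ℝ) * tpS 5 (D.ax.getD i []) (D.kx.drop i) X)
    (fun j => tpS 5 (D.aw.getD j []) (D.kw.drop j) W)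
    (fun j => by rw [hr1]; exact d08_PU0 D nx nw h I hI j X h1 h2)
    (fun e _ => by rw [hr2]; exact d09_pw3 D nx nw h J hJ e W h3 h4)
  have t55 := d10_Sp D nx nw h J hJ 5 5 (by norm_num) (by norm_num) X W h3 h4
  rw [← t55] at s1
  have hsplit : rvL (cellLH D I J) r1 r2 =
      rvL (spL D I J (px0 (xa D I) (xb D I)) (pw3 (wa D J) (wb D J))) r1 r2 +
      ((D.c0 : ℝ) * (1 + r1) ^ 5 * (1 + r2) ^ 6 +
        (D.c2 : ℝ) * ((xa D I + xb D I * r1) ^ 2 * (1 + r1) ^ 3) * (1 + r2) ^ 6 +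
        (10000 * D.c2) * (1 + r1) ^ 5 * ((wa D J + wb D J * r2) ^ 2 * (1 + r2) ^ 4) +
        0 * ((xa D I + xb D I * r1) * (1 + r1) ^ 4) *
          ((wa D J + wb D J * r2) * (1 + r2) ^ 5)) := by
    unfold rvL cellLH
    simp only [List.map_append, List.sum_append, List.map_cons, List.map_nil, List.sum_cons,
      List.sum_nil, map_mul (aeval r1), map_add (aeval r1), map_pow (aeval r1),
      map_mul (aeval r2), map_add (aeval r2), map_pow (aeval r2), aeval_C, aeval_X, add_zero]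
    simp only [algebraMap_int_eq, eq_intCast, Int.cast_one, one_mul]
    push_cast
    generalize (xa D I : ℝ) + (xb D I : ℝ) * r1 = B
    generalize (wa D J : ℝ) + (wb D J : ℝ) * r2 = E
    generalize 1 + r1 = A
    generalize 1 + r2 = C'
    ring
  rw [hsplit]
  have f1 := d10_farT ((xb D I : ℝ) - X) ((wb D J : ℝ) - W) (1 + r1) (xa D I + xb D I * r1)
    (1 + r2) (wa D J + wb D J * r2) ((xb D I : ℝ) - xa D I) ((wb D J : ℝ) - wa D J) X W
    (D.c0 : ℝ) (D.c2 : ℝ) (10000 * D.c2) 0 x1 x2 w1 w2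
  have hH : Hs D X W = Sp D 5 5 X W +
      ((D.c0 : ℝ) + D.c2 * X ^ 2 + 10000 * D.c2 * W ^ 2 + 0 * (X * W)) := by
    unfold Hs
    ring
  rw [hH, mul_add, s1, f1, ← mul_add]

end Pool.H56P
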