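import Pool.Agent.Lib.H56P.Cell
import Pool.Agent.Lib.H56P.B07
import Pool.Agent.Lib.H56P.C04
import Pool.Agent.Lib.H56P.D03
import Pool.Agent.Lib.H56P.D06
import Pool.Agent.Lib.H56P.D10

set_option autoImplicit false

namespace Pool.H56P

open Finset Polynomial

/-- `Fs` and `Hs` are continuous (`b07_continuous_Sp`). -/
theorem d11_continuous (D : Dat) (l n1 : ℝ) :
    Continuous (fun p : ℝ × ℝ => Fs D l n1 p.1 p.2) ∧ Continuous (fun p : ℝ × ℝ => Hs D p.1 p.2) := by
  have hs : ∀ e f, Continuous (fun p : ℝ × ℝ => Sp D e f p.1 p.2) := b07_continuous_Sp D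
  have h55 := hs 5 5
  have h45 := hs 4 5
  have h54 := hs 5 4
  have h53 := hs 5 3
  have hH : Continuous (fun p : ℝ × ℝ => Hs D p.1 p.2) := by
    unfold Hs
    fun_prop
  refine ⟨?_, hH⟩
  unfold Fs HsWW HsW HsX
  fun_prop

theorem d11_nm (α : ℤ) (L : List (ℤ[X] × ℤ[X])) :
    ((L.map fun p => (C α * p.1, p.2)).map fun p => l1 p.1 * l1 p.2).sum ≤ |α| * nmL L := by
  unfold nmL
  induction L with
  | nil => simp
  | cons p L ih =>
    simp only [List.map_cons, List.sum_cons]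
    rw [mul_add]
    refine add_le_add ?_ ih
    rw [← mul_assoc]
    exact mul_le_mul_of_nonneg_right (c01_C_mul α p.1) (c01_nonneg _)

theorem d11_ev (α : ℤ) (L : List (ℤ[X] × ℤ[X])) (x y : ℤ) :
    ((L.map fun p => (C α * p.1, p.2)).map fun p => p.1.eval x * p.2.eval y).sum = α * evL L x y := by
  unfold evL
  induction L with
  | nil => simp
  | cons p L ih =>
    simp only [List.map_cons, List.sum_cons] at ih ⊢
    rw [mul_add, ← ih, eval_mul, eval_C, mul_assoc]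

theorem d11_rv (α : ℤ) (L : List (ℤ[X] × ℤ[X])) (r1 r2 : ℝ) :
    ((L.map fun p => (C α * p.1, p.2)).map fun p => (aeval r1 p.1 : ℝ) * (aeval r2 p.2 : ℝ)).sum =
      α * rvL L r1 r2 := by
  unfold rvL
  induction L with
  | nil => simp
  | cons p L ih =>
    simp only [List.map_cons, List.sum_cons] at ih ⊢
    rw [mul_add, ← ih, map_mul, aeval_C, mul_assoc]
    simp

theorem d11_lt {k : List ℤ} (hk : k.Pairwise (· < ·)) {n I : ℕ} (hl : k.length = n + 6) (hI : I < n) :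
    k.getD (I + 5) 0 < k.getD (I + 6) 0 := by
  rw [List.getD_eq_getElem _ _ (by omega), List.getD_eq_getElem _ _ (by omega)]
  exact List.pairwise_iff_getElem.1 hk (I + 5) (I + 6) (by omega) (by omega) (by omega)

/-- the geometric sum -/
theorem d11_geo (n : ℕ) (hn : 1 ≤ n) {u v r : ℝ} (hu : 0 ≤ u) (hv : 0 < v) (hr : r = u / v) :
    ((u + v) / 2) ^ n ≤ v ^ n * ∑ a ∈ range (n + 1), r ^ a := by
  have hr0 : 0 ≤ r := by rw [hr]; positivity
  have hrv : r * v = u := by rw [hr]; field_simp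
  rcases le_total ((u + v) / 2) v with h | h
  · have h1 : (1 : ℝ) ≤ ∑ a ∈ range (n + 1), r ^ a := by
      have := single_le_sum (f := fun a => r ^ a) (fun a _ => by positivity) (mem_range.2 (Nat.succ_pos n))
      simpa using this
    calc ((u + v) / 2) ^ n ≤ v ^ n := pow_le_pow_left₀ (by positivity) h n
      _ = v ^ n * 1 := (mul_one _).symm
      _ ≤ _ := mul_le_mul_of_nonneg_left h1 (by positivity)
  · have h1 : r ^ n ≤ ∑ a ∈ range (n + 1), r ^ a :=
      single_le_sum (f := fun a => r ^ a) (fun a _ => by positivity) (mem_range.2 (Nat.lt_succ_self n))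
    have h2 : (u + v) / 2 ≤ u := by linarith
    calc ((u + v) / 2) ^ n ≤ u ^ n := pow_le_pow_left₀ (by positivity) h2 n
      _ = v ^ n * r ^ n := by rw [← hrv, mul_pow]; ring
      _ ≤ _ := mul_le_mul_of_nonneg_left h1 (by positivity)

/-- **D11 (M).** Main inequality on a cell. `α Fs + β Hs ≤ -1/2048` on the closed cell if the number
`α T + β H` passes `negD 42`, `|α| ≤ 1`, `|β| ≤ 2^18`.
Proof: apply `c04_cell` to the list `L` = `(cellLT ..).map (fun p => (C α * p.1, p.2)) ++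
(cellLH ..).map (fun p => (C β * p.1, p.2))`: degrees `D03`, norm `≤ 2^366 + 2^18 2^364 < 2^383`
(`d06`, `c01_mul`, `c01_C`), value `α evL + β evL`. This gives
`α rvL LT + β rvL LH ≤ -(∑ r1^a)(∑ r2^b)`; multiply by `v^5 s^6` (`v = xb - X`, `s = wb - W`), use
`d10_T`, `d10_H` and `v^5 ∑_{a<6} r1^a = ∑ v^(5-a) u^a ≥ (max u v)^5 ≥ ((xb-xa)/2)^5`,
`s^6 ∑_{b<7} r2^b ≥ ((wb-wa)/2)^6`: hence `(xb-xa)^5 (wb-wa)^6 (α Fs + β Hs) ≤
-(xb-xa)^5 (wb-wa)^6 / 2^11` on the half open cell, and divide. The closed cell follows by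
continuity (`d11_continuous`; the closed cell is the closure of the half open one:
`closure_Ico`, `closure_prod_eq`, or limits along `X_n ↑ xb`). -/
theorem d11_cell (D : Dat) (nx nw : ℕ) (h : OK D nx nw) (l n1 α β : ℤ) (hl : 0 ≤ l)
    (hl' : l ≤ 2 ^ 20) (hn : 0 ≤ n1) (hn' : n1 ≤ 2 ^ 20) (hα : |α| ≤ 1) (hβ : |β| ≤ 2 ^ 18)
    (I J : ℕ) (hI : I < nx) (hJ : J < nw)
    (hc : negD 42 (α * evL (cellLT D l n1 I J) (2 ^ 2688) (2 ^ 384)
      + β * evL (cellLH D I J) (2 ^ 2688) (2 ^ 384)) = true)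
    (X W : ℝ) (h1 : (xa D I : ℝ) ≤ X) (h2 : X ≤ xb D I) (h3 : (wa D J : ℝ) ≤ W) (h4 : W ≤ wb D J) :
    α * Fs D l n1 X W + β * Hs D X W ≤ -(1 / 2048) := by
  have hxl : xa D I < xb D I := d11_lt h.kxs h.kxl hI
  have hwl : wa D J < wb D J := d11_lt h.kws h.kwl hJ
  have hxl' : (xa D I : ℝ) < xb D I := by exact_mod_cast hxl
  have hwl' : (wa D J : ℝ) < wb D J := by exact_mod_cast hwl
  -- half open cell
  have key : ∀ X W : ℝ, (xa D I : ℝ) ≤ X → X < xb D I → (wa D J : ℝ) ≤ W → W < wb D J →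
      α * Fs D l n1 X W + β * Hs D X W ≤ -(1 / 2048) := by
    intro X W g1 g2 g3 g4
    have hv : 0 < (xb D I : ℝ) - X := by linarith
    have hs : 0 < (wb D J : ℝ) - W := by linarith
    have hu : 0 ≤ X - xa D I := by linarith
    have ht : 0 ≤ W - wa D J := by linarith
    have e1 := d10_T D nx nw h l n1 I J hI hJ X W g1 g2 g3 g4
    have e2 := d10_H D nx nw h I J hI hJ X W g1 g2 g3 g4
    have hr1 : 0 ≤ (X - xa D I) / (xb D I - X) := by positivity
    have hr2 : 0 ≤ (W - wa D J) / (wb D J - W) := by positivity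
    have hcell := c04_cell (((cellLT D l n1 I J).map fun p => (C α * p.1, p.2)) ++
      ((cellLH D I J).map fun p => (C β * p.1, p.2))) (by
        intro p hp
        rcases List.mem_append.1 hp with hp | hp
        · obtain ⟨q, hq, rfl⟩ := List.mem_map.1 hp
          obtain ⟨h1, h2⟩ := d03_deg_T D l n1 I J q hq
          exact ⟨(natDegree_C_mul_le _ _).trans h1, h2⟩
        · obtain ⟨q, hq, rfl⟩ := List.mem_map.1 hp
          obtain ⟨h1, h2⟩ := d03_deg_H D I J q hq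
          exact ⟨(natDegree_C_mul_le _ _).trans h1, h2⟩) (by
        rw [List.map_append, List.sum_append]
        have h1 := d11_nm α (cellLT D l n1 I J)
        have h2 := d11_nm β (cellLH D I J)
        have h3 := d06_nm_T D nx nw h l n1 hl hl' hn hn' I J hI hJ
        have h4 := d06_nm_H D nx nw h I J hI hJ
        have h5 : 0 ≤ nmL (cellLT D l n1 I J) := List.sum_nonneg (by
          intro a ha
          obtain ⟨q, hq, rfl⟩ := List.mem_map.1 ha
          exact mul_nonneg (c01_nonneg _) (c01_nonneg _))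
        have h6 : 0 ≤ nmL (cellLH D I J) := List.sum_nonneg (by
          intro a ha
          obtain ⟨q, hq, rfl⟩ := List.mem_map.1 ha
          exact mul_nonneg (c01_nonneg _) (c01_nonneg _))
        have h7 : |α| * nmL (cellLT D l n1 I J) ≤ 1 * 2 ^ 366 := mul_le_mul hα h3 h5 (by norm_num)
        have h8 : |β| * nmL (cellLH D I J) ≤ 2 ^ 18 * 2 ^ 364 := mul_le_mul hβ h4 h6 (by norm_num)
        obtain ⟨P, hP⟩ : ∃ P : ℤ, P = 2 ^ 364 := ⟨_, rfl⟩
        have hP0 : 0 < P := by rw [hP]; exact pow_pos (by norm_num) _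
        have q1 : (2 : ℤ) ^ 366 = 4 * P := by
          rw [hP, show (366 : ℕ) = 364 + 2 from rfl, pow_add]
          ring
        have q2 : (2 : ℤ) ^ 383 = 524288 * P := by
          rw [hP, show (383 : ℕ) = 364 + 19 from rfl, pow_add]
          ring
        rw [q1] at h7
        rw [← hP] at h8
        rw [q2]
        clear q1 q2 hP hc h3 h4
        norm_num at h8
        linarith) (by
        rw [List.map_append, List.sum_append, d11_ev, d11_ev]
        exact hc) _ _ hr1 hr2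
    rw [List.map_append, List.sum_append, d11_rv, d11_rv] at hcell
    have g5 := d11_geo 5 (by norm_num) hu hv rfl
    have g6 := d11_geo 6 (by norm_num) ht hs rfl
    have e3 : X - xa D I + (xb D I - X) = (xb D I : ℝ) - xa D I := by ring
    have e4 : W - wa D J + (wb D J - W) = (wb D J : ℝ) - wa D J := by ring
    rw [e3] at g5
    rw [e4] at g6
    set A : ℝ := rvL (cellLT D l n1 I J) ((X - xa D I) / (xb D I - X)) ((W - wa D J) / (wb D J - W)) with hA
    set B : ℝ := rvL (cellLH D I J) ((X - xa D I) / (xb D I - X)) ((W - wa D J) / (wb D J - W)) with hB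
    set S1 : ℝ := ∑ a ∈ range 6, ((X - xa D I) / (xb D I - X)) ^ a with hS1
    set S2 : ℝ := ∑ b ∈ range 7, ((W - wa D J) / (wb D J - W)) ^ b with hS2
    have hP : 0 < ((xb D I : ℝ) - X) ^ 5 * ((wb D J : ℝ) - W) ^ 6 := by positivity
    have hmul : ((xb D I : ℝ) - X) ^ 5 * ((wb D J : ℝ) - W) ^ 6 * (α * A + β * B) ≤
        ((xb D I : ℝ) - X) ^ 5 * ((wb D J : ℝ) - W) ^ 6 * (-(S1 * S2)) :=
      mul_le_mul_of_nonneg_left hcell hP.le
    have e5 : ((xb D I : ℝ) - X) ^ 5 * ((wb D J : ℝ) - W) ^ 6 * (α * A + β * B) =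
        ((xb D I : ℝ) - xa D I) ^ 5 * ((wb D J : ℝ) - wa D J) ^ 6 * (α * Fs D l n1 X W + β * Hs D X W) := by
      have : ((xb D I : ℝ) - X) ^ 5 * ((wb D J : ℝ) - W) ^ 6 * (α * A + β * B) =
          α * (((xb D I : ℝ) - X) ^ 5 * ((wb D J : ℝ) - W) ^ 6 * A) +
          β * (((xb D I : ℝ) - X) ^ 5 * ((wb D J : ℝ) - W) ^ 6 * B) := by ring
      rw [this, e1, e2]
      ring
    have e6 : ((xb D I : ℝ) - X) ^ 5 * ((wb D J : ℝ) - W) ^ 6 * (-(S1 * S2)) =
        -((((xb D I : ℝ) - X) ^ 5 * S1) * (((wb D J : ℝ) - W) ^ 6 * S2)) := by ring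
    have g7 : (((xb D I : ℝ) - xa D I) / 2) ^ 5 * (((wb D J : ℝ) - wa D J) / 2) ^ 6 ≤
        (((xb D I : ℝ) - X) ^ 5 * S1) * (((wb D J : ℝ) - W) ^ 6 * S2) := by
      have q1 : 0 < (xb D I : ℝ) - xa D I := by linarith
      have q2 : 0 < (wb D J : ℝ) - wa D J := by linarith
      exact mul_le_mul g5 g6 (by positivity) ((by positivity : (0 : ℝ) ≤ (((xb D I : ℝ) - xa D I) / 2) ^ 5).trans g5)
    have e7 : (((xb D I : ℝ) - xa D I) / 2) ^ 5 * (((wb D J : ℝ) - wa D J) / 2) ^ 6 =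
        ((xb D I : ℝ) - xa D I) ^ 5 * ((wb D J : ℝ) - wa D J) ^ 6 * (1 / 2048) := by
      rw [div_pow, div_pow]
      ring
    have hE : 0 < ((xb D I : ℝ) - xa D I) ^ 5 * ((wb D J : ℝ) - wa D J) ^ 6 := by
      have q1 : 0 < (xb D I : ℝ) - xa D I := by linarith
      have q2 : 0 < (wb D J : ℝ) - wa D J := by linarith
      positivity
    rw [e5, e6] at hmul
    rw [e7] at g7
    have g8 : ((xb D I : ℝ) - xa D I) ^ 5 * ((wb D J : ℝ) - wa D J) ^ 6 * (α * Fs D l n1 X W + β * Hs D X W) ≤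
        ((xb D I : ℝ) - xa D I) ^ 5 * ((wb D J : ℝ) - wa D J) ^ 6 * (-(1 / 2048)) := by
      refine hmul.trans ?_
      linarith
    exact le_of_mul_le_mul_left g8 hE
  obtain ⟨c1, c2⟩ := d11_continuous D l n1
  have hclosed : IsClosed {p : ℝ × ℝ | α * Fs D l n1 p.1 p.2 + β * Hs D p.1 p.2 ≤ -(1 / 2048)} :=
    isClosed_le ((continuous_const.mul c1).add (continuous_const.mul c2)) continuous_const
  have hsub : closure (Set.Ico (xa D I : ℝ) (xb D I) ×ˢ Set.Ico (wa D J : ℝ) (wb D J)) ⊆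
      {p : ℝ × ℝ | α * Fs D l n1 p.1 p.2 + β * Hs D p.1 p.2 ≤ -(1 / 2048)} :=
    closure_minimal (fun p hp => key p.1 p.2 hp.1.1 hp.1.2 hp.2.1 hp.2.2) hclosed
  rw [closure_prod_eq, closure_Ico hxl'.ne, closure_Ico hwl'.ne] at hsub
  exact hsub (a := (X, W)) ⟨⟨h1, h2⟩, h3, h4⟩

end Pool.H56P
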