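import Pool.Agent.Lib.H56P.Cell
import Pool.Agent.Lib.H56P.D02
import Pool.Agent.Lib.H56P.D11

set_option autoImplicit false

namespace Pool.H56P

open Finset Polynomial

/-- The cells cover the box. Induction on `n` (or take the largest `I` with `k_{I+5} ≤ x`). -/
theorem d12_cover (k : List ℤ) (n : ℕ) (hn : 1 ≤ n) (x : ℝ) (h1 : (k.getD 5 0 : ℝ) ≤ x)
    (h2 : x ≤ (k.getD (n + 5) 0 : ℝ)) :
    ∃ I < n, (k.getD (I + 5) 0 : ℝ) ≤ x ∧ x ≤ (k.getD (I + 6) 0 : ℝ) := by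
  induction n with
  | zero => omega
  | succ n ih =>
    rcases Nat.eq_zero_or_pos n with rfl | hpos
    · exact ⟨0, by omega, h1, h2⟩
    · rcases le_total x (k.getD (n + 5) 0 : ℝ) with h | h
      · obtain ⟨I, hI, h3, h4⟩ := ih hpos h
        exact ⟨I, by omega, h3, h4⟩
      · exact ⟨n, by omega, h, h2⟩

/-- **D12 (S/M).** All cells, supersolution: `d12_cover` twice, `d02_row` with `chkSup`, and
`d11_cell` with `(α, β) = (1, 0)` and `(0, -1)`. -/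
theorem d12_sup (D : Dat) (nx nw : ℕ) (h : OK D nx nw) (hnx : 1 ≤ nx) (hnw : 1 ≤ nw) (l n1 : ℤ)
    (hl : 0 ≤ l) (hl' : l ≤ 2 ^ 16) (hn : 0 ≤ n1) (hn' : n1 ≤ 2 ^ 20)
    (hrow : ∀ I < nx, rowCheck chkSup l n1 D nw I = true)
    (X W : ℝ) (h1 : (D.kx.getD 5 0 : ℝ) ≤ X) (h2 : X ≤ (D.kx.getD (nx + 5) 0 : ℝ))
    (h3 : (D.kw.getD 5 0 : ℝ) ≤ W) (h4 : W ≤ (D.kw.getD (nw + 5) 0 : ℝ)) :
    Fs D l n1 X W ≤ -(1 / 2048) ∧ 1 / 2048 ≤ Hs D X W := by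
  obtain ⟨I, hI, hI1, hI2⟩ := d12_cover D.kx nx hnx X h1 h2
  obtain ⟨J, hJ, hJ1, hJ2⟩ := d12_cover D.kw nw hnw W h3 h4
  have hc := d02_row chkSup D l n1 nw I (hrow I hI) J hJ
  simp only [chkSup, Bool.and_eq_true] at hc
  obtain ⟨hc1, hc2⟩ := hc
  constructor
  · have hh := d11_cell D nx nw h l n1 1 0 hl (by omega) hn hn' (by simp) (by simp) I J hI hJ
      (by simpa using hc1) X W hI1 hI2 hJ1 hJ2
    simpa using hh
  · have hh := d11_cell D nx nw h l n1 0 (-1) hl (by omega) hn hn' (by simp) (by simp) I J hI hJ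
      (by simpa using hc2) X W hI1 hI2 hJ1 hJ2
    push_cast at hh
    linarith

/-- All cells, subsolution: `chkSub l`, `d11_cell` with `(α, β) = (-1, 0)` or `(-1, 4 l)`; in the
second case `-Fs + 4 l Hs ≤ -1/2048` and `0 ≤ Hs` give `1/2048 ≤ Fs`. -/
theorem d12_sub (D : Dat) (nx nw : ℕ) (h : OK D nx nw) (hnx : 1 ≤ nx) (hnw : 1 ≤ nw) (l n1 : ℤ)
    (hl : 0 ≤ l) (hl' : l ≤ 2 ^ 16) (hn : 0 ≤ n1) (hn' : n1 ≤ 2 ^ 20)
    (hrow : ∀ I < nx, rowCheck (chkSub l) l n1 D nw I = true)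
    (X W : ℝ) (h1 : (D.kx.getD 5 0 : ℝ) ≤ X) (h2 : X ≤ (D.kx.getD (nx + 5) 0 : ℝ))
    (h3 : (D.kw.getD 5 0 : ℝ) ≤ W) (h4 : W ≤ (D.kw.getD (nw + 5) 0 : ℝ)) (hH : 0 ≤ Hs D X W) :
    1 / 2048 ≤ Fs D l n1 X W := by
  obtain ⟨I, hI, hI1, hI2⟩ := d12_cover D.kx nx hnx X h1 h2
  obtain ⟨J, hJ, hJ1, hJ2⟩ := d12_cover D.kw nw hnw W h3 h4
  have hc := d02_row (chkSub l) D l n1 nw I (hrow I hI) J hJ
  simp only [chkSub, Bool.or_eq_true] at hc
  rcases hc with hc | hc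
  · have hh := d11_cell D nx nw h l n1 (-1) 0 hl (by omega) hn hn' (by simp) (by simp) I J hI hJ
      (by simpa using hc) X W hI1 hI2 hJ1 hJ2
    push_cast at hh
    linarith
  · have hb : |4 * l| ≤ 2 ^ 18 := by
      rw [abs_of_nonneg (by omega)]
      omega
    have hc' : negD 42 ((-1) * evL (cellLT D l n1 I J) (2 ^ 2688) (2 ^ 384)
      + (4 * l) * evL (cellLH D I J) (2 ^ 2688) (2 ^ 384)) = true := by
      rw [← hc]
      congr 1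
      ring
    have hh := d11_cell D nx nw h l n1 (-1) (4 * l) hl (by omega) hn hn' (by simp) hb I J hI hJ
      hc' X W hI1 hI2 hJ1 hJ2
    push_cast at hh
    have hl0 : (0 : ℝ) ≤ l := by exact_mod_cast hl
    have := mul_nonneg hl0 hH
    linarith

end Pool.H56P
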