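import Pool.Agent.Lib.H56P.Cell
import Pool.Agent.Lib.H56P.C04
import Pool.Agent.Lib.H56P.D01
import Pool.Agent.Lib.H56P.D02
import Pool.Agent.Lib.H56P.D03
import Pool.Agent.Lib.H56P.D06
import Pool.Agent.Lib.H56P.D10
import Pool.Agent.Lib.H56P.D11

set_option autoImplicit false

namespace Pool.H56P

open Finset Polynomial

/-- `evL (cellLH ..) 0 y` with `y` arbitrary is the sum of `coeff 0` times values. -/
theorem d13_eval_zero (D : Dat) (I J : ℕ) (y : ℤ) :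
    evL (cellLH D I J) 0 y = ((cellLH D I J).map fun p => p.1.coeff 0 * p.2.eval y).sum := by
  unfold evL
  refine congrArg List.sum (List.map_congr_left fun p _ => ?_)
  rw [coeff_zero_eq_eval_zero]

theorem d13_lt {k : List ℤ} (hk : k.Pairwise (· < ·)) {n I : ℕ} (hl : k.length = n + 6) (hI : I < n) :
    k.getD (I + 5) 0 < k.getD (I + 6) 0 := by
  rw [List.getD_eq_getElem _ _ (by omega), List.getD_eq_getElem _ _ (by omega)]
  exact List.pairwise_iff_getElem.1 hk (I + 5) (I + 6) (by omega) (by omega) (by omega)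

theorem d13_aeval_zero (P : ℤ[X]) : (aeval (0 : ℝ) P : ℝ) = ((P.coeff 0 : ℤ) : ℝ) := by
  rw [aeval_def, eval₂_at_zero]
  simp

theorem d13_ev_zero (D : Dat) (I J : ℕ) (y : ℤ) :
    (((cellLH D I J).map fun p => (p.1.coeff 0, p.2)).map fun p => p.1 * p.2.eval y).sum =
      evL (cellLH D I J) 0 y := by
  rw [d13_eval_zero, List.map_map]
  rfl

theorem d13_rv_zero (L : List (ℤ[X] × ℤ[X])) (r2 : ℝ) :
    rvL L 0 r2 = ((L.map fun p => (p.1.coeff 0, p.2)).map fun p => (p.1 : ℝ) * (aeval r2 p.2 : ℝ)).sum := by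
  unfold rvL
  rw [List.map_map]
  refine congrArg List.sum (List.map_congr_left fun p _ => ?_)
  show _ = ((p.1.coeff 0 : ℤ) : ℝ) * (aeval r2 p.2 : ℝ)
  rw [d13_aeval_zero]

theorem d13_geo {u v r : ℝ} (hu : 0 ≤ u) (hv : 0 < v) (hr : r = u / v) :
    ((u + v) / 2) ^ 6 ≤ v ^ 6 * ∑ a ∈ range 7, r ^ a := by
  have hr0 : 0 ≤ r := by rw [hr]; positivity
  have hrv : r * v = u := by rw [hr]; field_simp
  rcases le_total ((u + v) / 2) v with h | h
  · have h1 : (1 : ℝ) ≤ ∑ a ∈ range 7, r ^ a := by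
      have := single_le_sum (f := fun a => r ^ a) (fun a _ => by positivity) (mem_range.2 (by norm_num : 0 < 7))
      simpa using this
    calc ((u + v) / 2) ^ 6 ≤ v ^ 6 := pow_le_pow_left₀ (by positivity) h 6
      _ = v ^ 6 * 1 := (mul_one _).symm
      _ ≤ _ := mul_le_mul_of_nonneg_left h1 (by positivity)
  · have h1 : r ^ 6 ≤ ∑ a ∈ range 7, r ^ a :=
      single_le_sum (f := fun a => r ^ a) (fun a _ => by positivity) (mem_range.2 (by norm_num : 6 < 7))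
    have h2 : (u + v) / 2 ≤ u := by linarith
    calc ((u + v) / 2) ^ 6 ≤ u ^ 6 := pow_le_pow_left₀ (by positivity) h2 6
      _ = v ^ 6 * r ^ 6 := by rw [← hrv, mul_pow]; ring
      _ ≤ _ := mul_le_mul_of_nonneg_left h1 (by positivity)

theorem d13_neg (D : Dat) (nb : ℕ) (hb : bdCheck D nb = true) (J : ℕ) (hJ : J < nb) :
    negD 7 (evL (cellLH D 0 J) 0 (2 ^ 384)) = true := by
  unfold bdCheck at hb
  have hJ' : J < (wall 0 0 (2 ^ 384) nb D.aw D.kw).length := by rw [d01_wall_length]; exact hJ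
  have h1 := d01_rowBd _ _ _ _ _ _ hb J hJ'
  rw [d01_wall] at h1
  have h2 := d02_H D 0 0 0 (2 ^ 384) 0 J
  simp only [List.drop_zero, mul_zero, add_zero, one_pow, mul_one] at h2
  rw [← h2]
  exact h1

theorem d13_nmH (D : Dat) (nx nw : ℕ) (h : OK D nx nw) (I J : ℕ) (hI : I < nx) (hJ : J < nw) :
    (((cellLH D I J).map fun p => (p.1.coeff 0, p.2)).map fun p => |p.1| * l1 p.2).sum < 2 ^ 383 := by
  have h1 : (((cellLH D I J).map fun p => (p.1.coeff 0, p.2)).map fun p => |p.1| * l1 p.2).sum ≤ nmL (cellLH D I J) := by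
    unfold nmL
    rw [List.map_map]
    refine List.sum_le_sum fun p _ => ?_
    exact mul_le_mul_of_nonneg_right (c01_coeff _ _) (c01_nonneg _)
  exact (h1.trans (d06_nm_H D nx nw h I J hI hJ)).trans_lt (pow_lt_pow_right₀ (by norm_num) (by norm_num))

theorem d13_rl (D : Dat) (nx nw : ℕ) (h : OK D nx nw) (J : ℕ) (hx0 : 0 < nx) (hJw : J < nw)
    (hneg : negD 7 (evL (cellLH D 0 J) 0 (2 ^ 384)) = true) (r2 : ℝ) (hr2 : 0 ≤ r2) :
    rvL (cellLH D 0 J) 0 r2 ≤ -(∑ b ∈ range 7, r2 ^ b) := by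
  rw [d13_rv_zero]
  refine c04_cell1 _ ?_ ?_ ?_ r2 hr2
  · intro p hp
    obtain ⟨q, hq, rfl⟩ := List.mem_map.1 hp
    exact (d03_deg_H D 0 J q hq).2
  · exact d13_nmH D nx nw h 0 J hx0 hJw
  · rw [d13_ev_zero]
    exact hneg

/-- the closed cell -/
theorem d13_cell (D : Dat) (nx nw : ℕ) (h : OK D nx nw) (hnx : 1 ≤ nx) (nb : ℕ)
    (hnb' : nb ≤ nw) (hb : bdCheck D nb = true) (J : ℕ) (hJ : J < nb)
    (W : ℝ) (h3 : (wa D J : ℝ) ≤ W) (h4 : W ≤ (wb D J : ℝ)) :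
    Hs D (D.kx.getD 5 0 : ℝ) W ≤ -(1 / 64) := by
  have hxl' : (xa D 0 : ℝ) < xb D 0 := by exact_mod_cast d13_lt h.kxs h.kxl (show 0 < nx by omega)
  have hwl' : (wa D J : ℝ) < wb D J := by exact_mod_cast d13_lt h.kws h.kwl (show J < nw by omega)
  have hneg := d13_neg D nb hb J hJ
  have key : ∀ W : ℝ, (wa D J : ℝ) ≤ W → W < wb D J → Hs D (xa D 0 : ℝ) W ≤ -(1 / 64) := by
    intro W g3 g4
    have hs : 0 < (wb D J : ℝ) - W := by linarith
    have ht : 0 ≤ W - wa D J := by linarith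
    have hr2 : 0 ≤ (W - wa D J) / (wb D J - W) := by positivity
    have e1 := d10_H D nx nw h 0 J (by omega) (by omega) (xa D 0) W le_rfl hxl' g3 g4
    rw [sub_self, zero_div] at e1
    have h1 := d13_rl D nx nw h J hnx (lt_of_lt_of_le hJ hnb') hneg _ hr2
    have g6 := d13_geo ht hs rfl
    have e4 : W - wa D J + (wb D J - W) = (wb D J : ℝ) - wa D J := by ring
    rw [e4] at g6
    have hx5 : 0 < ((xb D 0 : ℝ) - xa D 0) ^ 5 := by
      have : 0 < (xb D 0 : ℝ) - xa D 0 := by linarith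
      positivity
    have e2 : ((wb D J : ℝ) - W) ^ 6 * rvL (cellLH D 0 J) 0 ((W - wa D J) / (wb D J - W)) =
        ((wb D J : ℝ) - wa D J) ^ 6 * Hs D (xa D 0) W := by
      rw [mul_assoc, mul_assoc] at e1
      exact mul_left_cancel₀ hx5.ne' e1
    have h2 : ((wb D J : ℝ) - W) ^ 6 * rvL (cellLH D 0 J) 0 ((W - wa D J) / (wb D J - W)) ≤
        ((wb D J : ℝ) - W) ^ 6 * -(∑ b ∈ range 7, ((W - wa D J) / (wb D J - W)) ^ b) :=
      mul_le_mul_of_nonneg_left h1 (by positivity)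
    have h5 : 0 < ((wb D J : ℝ) - wa D J) ^ 6 := by
      have : 0 < (wb D J : ℝ) - wa D J := by linarith
      positivity
    have h6 : ((wb D J : ℝ) - wa D J) ^ 6 * Hs D (xa D 0) W ≤ ((wb D J : ℝ) - wa D J) ^ 6 * (-(1 / 64)) := by
      rw [← e2]
      refine h2.trans ?_
      have e7 : (((wb D J : ℝ) - wa D J) / 2) ^ 6 = ((wb D J : ℝ) - wa D J) ^ 6 * (1 / 64) := by
        rw [div_pow]
        ring
      rw [e7] at g6
      linarith
    exact le_of_mul_le_mul_left h6 h5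
  obtain ⟨-, c2⟩ := d11_continuous D 0 0
  have hcl : IsClosed {W : ℝ | Hs D (xa D 0 : ℝ) W ≤ -(1 / 64)} :=
    isClosed_le (c2.comp (continuous_const.prodMk continuous_id)) continuous_const
  have hsub : closure (Set.Ico (wa D J : ℝ) (wb D J)) ⊆ {W : ℝ | Hs D (xa D 0 : ℝ) W ≤ -(1 / 64)} :=
    closure_minimal (fun W hW => key W hW.1 hW.2) hcl
  rw [closure_Ico hwl'.ne] at hsub
  exact hsub ⟨h3, h4⟩

theorem d13_cover (k : List ℤ) (n : ℕ) (hn : 1 ≤ n) (W : ℝ) (h3 : (k.getD 5 0 : ℝ) ≤ W)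
    (h4 : W ≤ (k.getD (n + 5) 0 : ℝ)) : ∃ J < n, (k.getD (J + 5) 0 : ℝ) ≤ W ∧ W ≤ (k.getD (J + 6) 0 : ℝ) := by
  induction n with
  | zero => omega
  | succ n ih =>
    rcases Nat.eq_zero_or_pos n with rfl | hpos
    · exact ⟨0, by omega, h3, h4⟩
    · rcases le_total W (k.getD (n + 5) 0 : ℝ) with h | h
      · obtain ⟨J, hJ, h5⟩ := ih hpos h
        exact ⟨J, by omega, h5⟩
      · refine ⟨n, by omega, h, ?_⟩
        have e : n + 1 + 5 = n + 6 := by omega
        rw [e] at h4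
        exact h4

/-- **D13 (M).** Boundary values.
Proof: for `J < nb` let `W` be in the half open cell. `bdCheck` (`d01_rowBd`, `d01_wall`, `d02_H` with
`I = 0`, `X0 = 0`, `Y0 = 2^384`; note that `cellH` does not depend on `l`, `n1` and that
`(1+0)^5 = 1`, `(a + b 0)^2 (1+0)^3 = a^2`) gives `negD 7 (evL (cellLH D 0 J) 0 (2^384)) = true`, so
`c04_cell1` applied to the list of `(p.1.coeff 0, p.2)` (norm: `|coeff 0| ≤ l1`, `d06_nm_H`) gives
`rvL (cellLH D 0 J) 0 r2 ≤ -∑_{b<7} r2^b` (`aeval 0 P = coeff 0`). With `d10_H` at `X = xa D 0` (where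
`r1 = 0`) and `s^6 ∑ r2^b ≥ ((wb-wa)/2)^6`: `Hs ≤ -1/64`. Closed cell by continuity
(`d11_continuous`), then `d12_cover`-like covering of `[kw_5, kw_{nb+5}]`. -/
theorem d13_bd (D : Dat) (nx nw : ℕ) (h : OK D nx nw) (hnx : 1 ≤ nx) (nb : ℕ) (hnb : 1 ≤ nb)
    (hnb' : nb ≤ nw) (hb : bdCheck D nb = true)
    (W : ℝ) (h3 : (D.kw.getD 5 0 : ℝ) ≤ W) (h4 : W ≤ (D.kw.getD (nb + 5) 0 : ℝ)) :
    Hs D (D.kx.getD 5 0 : ℝ) W ≤ -(1 / 64) := by
  obtain ⟨J, hJ, h5, h6⟩ := d13_cover D.kw nb hnb W h3 h4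
  exact d13_cell D nx nw h hnx nb hnb' hb J hJ W h5 h6

/-- Value at the lower left corner of a cell: `ptVal` is `evL (cellLH D I J) 0 0` (`d02_H` with
`X0 = Y0 = 0`), which is `rvL .. 0 0`, and `d10_H` at `X = xa`, `W = wa`. -/
theorem d13_pt (D : Dat) (nx nw : ℕ) (h : OK D nx nw) (I J : ℕ) (hI : I < nx) (hJ : J < nw) :
    Hs D (xa D I) (wa D J) = (ptVal D I J : ℝ) := by
  have hxl' : (xa D I : ℝ) < xb D I := by exact_mod_cast d13_lt h.kxs h.kxl hI
  have hwl' : (wa D J : ℝ) < wb D J := by exact_mod_cast d13_lt h.kws h.kwl hJ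
  have e1 := d10_H D nx nw h I J hI hJ (xa D I) (wa D J) le_rfl hxl' le_rfl hwl'
  rw [sub_self, zero_div, sub_self, zero_div] at e1
  have h2 := d02_H D 0 0 0 0 I J
  simp only [mul_zero, add_zero, one_pow, mul_one] at h2
  have h3 : ptVal D I J = evL (cellLH D I J) 0 0 := by
    rw [← h2]
    rfl
  have h4 : rvL (cellLH D I J) 0 0 = ((evL (cellLH D I J) 0 0 : ℤ) : ℝ) := by
    rw [d13_rv_zero, d13_eval_zero]
    induction cellLH D I J with
    | nil => simp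
    | cons p L ih =>
      simp only [List.map_cons, List.sum_cons] at ih ⊢
      rw [ih, d13_aeval_zero, coeff_zero_eq_eval_zero p.2]
      push_cast
      rfl
  rw [h3, ← h4]
  have h5 : 0 < ((xb D I : ℝ) - xa D I) ^ 5 * ((wb D J : ℝ) - wa D J) ^ 6 := by
    have q1 : 0 < (xb D I : ℝ) - xa D I := by linarith
    have q2 : 0 < (wb D J : ℝ) - wa D J := by linarith
    positivity
  exact (mul_left_cancel₀ h5.ne' e1).symm

end Pool.H56P
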