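import Pool.Agent.Lib.H56P.Cell
import Pool.Agent.Lib.H56P.D07

set_option autoImplicit false

namespace Pool.H56P

open Finset Polynomial

theorem d14_mono (k : List ℤ) (hk : k.Pairwise (· < ·)) (j : ℕ) (hj : 5 ≤ j) (t : ℤ)
    (ht : t ∈ k.drop j) : k.getD 5 0 ≤ t := by
  obtain ⟨m, hm, rfl⟩ := List.mem_iff_getElem.1 ht
  rw [List.length_drop] at hm
  rw [List.getElem_drop]
  have h5 : 5 < k.length := by omega
  rw [List.getD_eq_getElem _ _ h5]
  rcases Nat.lt_or_ge 5 (j + m) with h | h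
  · exact le_of_lt (List.pairwise_iff_getElem.1 hk 5 (j + m) h5 (by omega) h)
  · have hjm : j + m = 5 := by omega
    exact le_of_eq (by simp only [hjm])

/-- **D14 (S).** Outside the box the spline part vanishes (`1 ≤ e, f ≤ 5`).
Proof: `d07_outside` for `X ≥ kx_last` (all `A_i` vanish) and `W ≥ kw_last` (all `B_j` vanish); for
`W ≤ kw_5` the splines `j < 5` are `[]` (`aw0`), and for `j ≥ 5` all knots are `≥ kw_5`
(`b01_zero_left`). -/
theorem d14_out (D : Dat) (nx nw : ℕ) (h : OK D nx nw) (e f : ℕ) (he : 1 ≤ e) (he5 : e ≤ 5)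
    (hf : 1 ≤ f) (hf5 : f ≤ 5) (X W : ℝ)
    (ho : (D.kx.getD (nx + 5) 0 : ℝ) ≤ X ∨ (D.kw.getD (nw + 5) 0 : ℝ) ≤ W ∨ W ≤ (D.kw.getD 5 0 : ℝ)) :
    Sp D e f X W = 0 := by
  unfold Sp
  refine Finset.sum_eq_zero fun i hi => Finset.sum_eq_zero fun j hj => ?_
  rw [Finset.mem_range] at hi hj
  rcases ho with ho | ho | ho
  · rw [d07_outside D.kx D.ax nx h.kxs h.kxl h.mom.1 e he he5 X (Or.inl ho) i hi]
    simp
  · rw [d07_outside D.kw D.aw nw h.kws h.kwl h.mom.2 f hf hf5 W (Or.inl ho) j hj]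
    simp
  · have h0 : tpS f (D.aw.getD j []) (D.kw.drop j) W = 0 := by
      rcases Nat.lt_or_ge j 5 with h5 | h5
      · rw [h.aw0 j h5]
        simp [tpS]
      · refine b01_zero_left f hf _ _ W fun p hp => ?_
        have h1 : p.2 ∈ D.kw.drop j := (List.of_mem_zip (a := p.1) (b := p.2) hp).2
        have h2 := d14_mono D.kw h.kws j h5 p.2 h1
        have h3 : ((D.kw.getD 5 0 : ℤ) : ℝ) ≤ (p.2 : ℝ) := by exact_mod_cast h2
        linarith
    rw [h0]
    simp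

end Pool.H56P
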