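import Pool.Agent.Lib.H56P.Ker

set_option autoImplicit false
set_option maxRecDepth 100000

/-!
The certificate data (generated by the python script of PROOF.md).
-/

namespace Pool.H56P

/-- knots in the `x` direction -/
def kxD : List ℤ :=
[.negSucc 4, .negSucc 3, .negSucc 2, .negSucc 1, .negSucc 0, .ofNat 0, .ofNat 1, .ofNat 2, .ofNat
    3, .ofNat 5, .ofNat 7, .ofNat 11, .ofNat 15, .ofNat 23, .ofNat 31, .ofNat 47, .ofNat 63,
    .ofNat 95, .ofNat 127, .ofNat 191, .ofNat 255, .ofNat 383, .ofNat 511, .ofNat 767, .ofNat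
    1023, .ofNat 1279, .ofNat 1535, .ofNat 2047, .ofNat 2559, .ofNat 3071, .ofNat 3583, .ofNat
    4095, .ofNat 4607, .ofNat 5119, .ofNat 5631, .ofNat 6143, .ofNat 6655, .ofNat 7167, .ofNat
    7679, .ofNat 8191]

/-- knots in the `w` direction (with five additional ones) -/
def kwD : List ℤ :=
[.negSucc 163, .negSucc 155, .negSucc 147, .negSucc 139, .negSucc 131, .negSucc 123, .negSucc 115,
    .negSucc 107, .negSucc 99, .negSucc 91, .negSucc 83, .negSucc 75, .negSucc 67, .negSucc 59,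
    .negSucc 51, .negSucc 43, .negSucc 39, .negSucc 35, .negSucc 31, .negSucc 27, .negSucc 23,
    .negSucc 21, .negSucc 19, .negSucc 17, .negSucc 15, .negSucc 13, .negSucc 11, .negSucc 9,
    .negSucc 7, .negSucc 6, .negSucc 5, .negSucc 4, .negSucc 3, .negSucc 2, .negSucc 1, .negSucc
    0, .ofNat 0, .ofNat 1, .ofNat 2, .ofNat 4, .ofNat 6, .ofNat 8, .ofNat 10, .ofNat 14, .ofNat
    18, .ofNat 22, .ofNat 26, .ofNat 34, .ofNat 42, .ofNat 50, .ofNat 58, .ofNat 66, .ofNat 74,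
    .ofNat 82, .ofNat 90, .ofNat 98, .ofNat 106, .ofNat 114, .ofNat 122]

/-- spline coefficients in the `x` direction -/
def axD : List (List ℤ) := [
[.ofNat 1, .negSucc 5, .ofNat 15, .negSucc 19, .ofNat 15, .negSucc 5, .ofNat 1],
[.ofNat 1, .negSucc 5, .ofNat 15, .negSucc 19, .ofNat 15, .negSucc 5, .ofNat 1],
[.ofNat 1, .negSucc 5, .ofNat 15, .negSucc 19, .ofNat 15, .negSucc 5, .ofNat 1],
[.ofNat 6, .negSucc 34, .ofNat 84, .negSucc 104, .ofNat 70, .negSucc 20, .ofNat 1],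
[.ofNat 35, .negSucc 191, .ofNat 420, .negSucc 447, .ofNat 210, .negSucc 27, .ofNat 3],
[.ofNat 576, .negSucc 2771, .ofNat 4928, .negSucc 3464, .ofNat 924, .negSucc 197, .ofNat 7],
[.ofNat 936, .negSucc 3583, .ofNat 4095, .negSucc 2183, .ofNat 819, .negSucc 90, .ofNat 9],
[.ofNat 4096, .negSucc 9827, .ofNat 11648, .negSucc 7370, .ofNat 1820, .negSucc 377, .ofNat 13],
[.ofNat 936, .negSucc 3583, .ofNat 4095, .negSucc 2183, .ofNat 819, .negSucc 90, .ofNat 9],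
[.ofNat 4096, .negSucc 9827, .ofNat 11648, .negSucc 7370, .ofNat 1820, .negSucc 377, .ofNat 13],
[.ofNat 936, .negSucc 3583, .ofNat 4095, .negSucc 2183, .ofNat 819, .negSucc 90, .ofNat 9],
[.ofNat 4096, .negSucc 9827, .ofNat 11648, .negSucc 7370, .ofNat 1820, .negSucc 377, .ofNat 13],
[.ofNat 936, .negSucc 3583, .ofNat 4095, .negSucc 2183, .ofNat 819, .negSucc 90, .ofNat 9],
[.ofNat 4096, .negSucc 9827, .ofNat 11648, .negSucc 7370, .ofNat 1820, .negSucc 377, .ofNat 13],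
[.ofNat 936, .negSucc 3583, .ofNat 4095, .negSucc 2183, .ofNat 819, .negSucc 90, .ofNat 9],
[.ofNat 4096, .negSucc 9827, .ofNat 11648, .negSucc 7370, .ofNat 1820, .negSucc 377, .ofNat 13],
[.ofNat 936, .negSucc 3583, .ofNat 4095, .negSucc 2183, .ofNat 819, .negSucc 90, .ofNat 9],
[.ofNat 4096, .negSucc 9827, .ofNat 11648, .negSucc 7370, .ofNat 1820, .negSucc 377, .ofNat 13],
[.ofNat 936, .negSucc 3583, .ofNat 4095, .negSucc 2183, .ofNat 819, .negSucc 90, .ofNat 9],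
[.ofNat 28672, .negSucc 69614, .ofNat 84864, .negSucc 55691, .ofNat 15470, .negSucc 4283, .ofNat
    585],
[.ofNat 63, .negSucc 255, .ofNat 315, .negSucc 209, .ofNat 126, .negSucc 44, .ofNat 7],
[.ofNat 512, .negSucc 1364, .ofNat 2184, .negSucc 2456, .ofNat 1560, .negSucc 454, .ofNat 21],
[.ofNat 35, .negSucc 191, .ofNat 420, .negSucc 447, .ofNat 210, .negSucc 27, .ofNat 3],
[.ofNat 64, .negSucc 314, .ofNat 576, .negSucc 419, .ofNat 126, .negSucc 35, .ofNat 5],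
[.ofNat 63, .negSucc 255, .ofNat 315, .negSucc 209, .ofNat 126, .negSucc 44, .ofNat 7],
[.ofNat 256, .negSucc 692, .ofNat 1155, .negSucc 1385, .ofNat 990, .negSucc 384, .ofNat 63],
[.ofNat 1, .negSucc 5, .ofNat 15, .negSucc 19, .ofNat 15, .negSucc 5, .ofNat 1],
[.ofNat 1, .negSucc 5, .ofNat 15, .negSucc 19, .ofNat 15, .negSucc 5, .ofNat 1],
[.ofNat 1, .negSucc 5, .ofNat 15, .negSucc 19, .ofNat 15, .negSucc 5, .ofNat 1],
[.ofNat 1, .negSucc 5, .ofNat 15, .negSucc 19, .ofNat 15, .negSucc 5, .ofNat 1],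
[.ofNat 1, .negSucc 5, .ofNat 15, .negSucc 19, .ofNat 15, .negSucc 5, .ofNat 1],
[.ofNat 1, .negSucc 5, .ofNat 15, .negSucc 19, .ofNat 15, .negSucc 5, .ofNat 1],
[.ofNat 1, .negSucc 5, .ofNat 15, .negSucc 19, .ofNat 15, .negSucc 5, .ofNat 1],
[.ofNat 1, .negSucc 5, .ofNat 15, .negSucc 19, .ofNat 15, .negSucc 5, .ofNat 1]]

/-- spline coefficients in the `w` direction -/
def awD : List (List ℤ) := [
[],
[],
[],
[],
[],
[.ofNat 1, .negSucc 5, .ofNat 15, .negSucc 19, .ofNat 15, .negSucc 5, .ofNat 1],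
[.ofNat 1, .negSucc 5, .ofNat 15, .negSucc 19, .ofNat 15, .negSucc 5, .ofNat 1],
[.ofNat 1, .negSucc 5, .ofNat 15, .negSucc 19, .ofNat 15, .negSucc 5, .ofNat 1],
[.ofNat 1, .negSucc 5, .ofNat 15, .negSucc 19, .ofNat 15, .negSucc 5, .ofNat 1],
[.ofNat 1, .negSucc 5, .ofNat 15, .negSucc 19, .ofNat 15, .negSucc 5, .ofNat 1],
[.ofNat 63, .negSucc 384, .ofNat 990, .negSucc 1385, .ofNat 1155, .negSucc 692, .ofNat 256],
[.ofNat 7, .negSucc 44, .ofNat 126, .negSucc 209, .ofNat 315, .negSucc 255, .ofNat 63],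
[.ofNat 5, .negSucc 35, .ofNat 126, .negSucc 419, .ofNat 576, .negSucc 314, .ofNat 64],
[.ofNat 3, .negSucc 27, .ofNat 210, .negSucc 447, .ofNat 420, .negSucc 191, .ofNat 35],
[.ofNat 1, .negSucc 20, .ofNat 70, .negSucc 104, .ofNat 84, .negSucc 34, .ofNat 6],
[.ofNat 63, .negSucc 384, .ofNat 990, .negSucc 1385, .ofNat 1155, .negSucc 692, .ofNat 256],
[.ofNat 7, .negSucc 44, .ofNat 126, .negSucc 209, .ofNat 315, .negSucc 255, .ofNat 63],
[.ofNat 5, .negSucc 35, .ofNat 126, .negSucc 419, .ofNat 576, .negSucc 314, .ofNat 64],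
[.ofNat 3, .negSucc 27, .ofNat 210, .negSucc 447, .ofNat 420, .negSucc 191, .ofNat 35],
[.ofNat 1, .negSucc 20, .ofNat 70, .negSucc 104, .ofNat 84, .negSucc 34, .ofNat 6],
[.ofNat 1, .negSucc 5, .ofNat 15, .negSucc 19, .ofNat 15, .negSucc 5, .ofNat 1],
[.ofNat 1, .negSucc 5, .ofNat 15, .negSucc 19, .ofNat 15, .negSucc 5, .ofNat 1],
[.ofNat 1, .negSucc 5, .ofNat 15, .negSucc 19, .ofNat 15, .negSucc 5, .ofNat 1],
[.ofNat 63, .negSucc 384, .ofNat 990, .negSucc 1385, .ofNat 1155, .negSucc 692, .ofNat 256],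
[.ofNat 7, .negSucc 44, .ofNat 126, .negSucc 209, .ofNat 315, .negSucc 255, .ofNat 63],
[.ofNat 5, .negSucc 35, .ofNat 126, .negSucc 419, .ofNat 576, .negSucc 314, .ofNat 64],
[.ofNat 3, .negSucc 27, .ofNat 210, .negSucc 447, .ofNat 420, .negSucc 191, .ofNat 35],
[.ofNat 1, .negSucc 20, .ofNat 70, .negSucc 104, .ofNat 84, .negSucc 34, .ofNat 6],
[.ofNat 1, .negSucc 5, .ofNat 15, .negSucc 19, .ofNat 15, .negSucc 5, .ofNat 1],
[.ofNat 1, .negSucc 5, .ofNat 15, .negSucc 19, .ofNat 15, .negSucc 5, .ofNat 1],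
[.ofNat 1, .negSucc 5, .ofNat 15, .negSucc 19, .ofNat 15, .negSucc 5, .ofNat 1],
[.ofNat 1, .negSucc 5, .ofNat 15, .negSucc 19, .ofNat 15, .negSucc 5, .ofNat 1],
[.ofNat 1, .negSucc 5, .ofNat 15, .negSucc 19, .ofNat 15, .negSucc 5, .ofNat 1],
[.ofNat 6, .negSucc 34, .ofNat 84, .negSucc 104, .ofNat 70, .negSucc 20, .ofNat 1],
[.ofNat 35, .negSucc 191, .ofNat 420, .negSucc 447, .ofNat 210, .negSucc 27, .ofNat 3],
[.ofNat 64, .negSucc 314, .ofNat 576, .negSucc 419, .ofNat 126, .negSucc 35, .ofNat 5],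
[.ofNat 63, .negSucc 255, .ofNat 315, .negSucc 209, .ofNat 126, .negSucc 44, .ofNat 7],
[.ofNat 512, .negSucc 1364, .ofNat 2184, .negSucc 2456, .ofNat 1560, .negSucc 454, .ofNat 21],
[.ofNat 35, .negSucc 191, .ofNat 420, .negSucc 447, .ofNat 210, .negSucc 27, .ofNat 3],
[.ofNat 64, .negSucc 314, .ofNat 576, .negSucc 419, .ofNat 126, .negSucc 35, .ofNat 5],
[.ofNat 63, .negSucc 255, .ofNat 315, .negSucc 209, .ofNat 126, .negSucc 44, .ofNat 7],
[.ofNat 512, .negSucc 1364, .ofNat 2184, .negSucc 2456, .ofNat 1560, .negSucc 454, .ofNat 21],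
[.ofNat 35, .negSucc 191, .ofNat 420, .negSucc 447, .ofNat 210, .negSucc 27, .ofNat 3],
[.ofNat 64, .negSucc 314, .ofNat 576, .negSucc 419, .ofNat 126, .negSucc 35, .ofNat 5],
[.ofNat 63, .negSucc 255, .ofNat 315, .negSucc 209, .ofNat 126, .negSucc 44, .ofNat 7],
[.ofNat 256, .negSucc 692, .ofNat 1155, .negSucc 1385, .ofNat 990, .negSucc 384, .ofNat 63],
[.ofNat 1, .negSucc 5, .ofNat 15, .negSucc 19, .ofNat 15, .negSucc 5, .ofNat 1],
[.ofNat 1, .negSucc 5, .ofNat 15, .negSucc 19, .ofNat 15, .negSucc 5, .ofNat 1],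
[.ofNat 1, .negSucc 5, .ofNat 15, .negSucc 19, .ofNat 15, .negSucc 5, .ofNat 1],
[.ofNat 1, .negSucc 5, .ofNat 15, .negSucc 19, .ofNat 15, .negSucc 5, .ofNat 1],
[.ofNat 1, .negSucc 5, .ofNat 15, .negSucc 19, .ofNat 15, .negSucc 5, .ofNat 1],
[.ofNat 1, .negSucc 5, .ofNat 15, .negSucc 19, .ofNat 15, .negSucc 5, .ofNat 1],
[.ofNat 1, .negSucc 5, .ofNat 15, .negSucc 19, .ofNat 15, .negSucc 5, .ofNat 1]]

end Pool.H56P
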