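import Mathlib

set_option autoImplicit false

/-!
# H56P: narrow enclosure of the persistence exponent `theta` of MP_08fd0c_co

Common definitions: the scaled Gaussian chain, smooth functions of quadratic growth, truncated
power splines, and the packed integer polynomials of the kernel check. See PROOF.md.
-/

namespace Pool.H56P

open MeasureTheory ProbabilityTheory Finset

/-! ### The scaled chain -/

/-- new velocity coordinate after one step of size `h` with Gaussian increment `ξ` -/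
noncomputable def sW (h w ξ : ℝ) : ℝ := Real.sqrt (1 - h) * w + Real.sqrt h * ξ

/-- new position coordinate after one step of size `h` with Gaussian increment `ξ` -/
noncomputable def sX (h x w ξ : ℝ) : ℝ := Real.sqrt (1 - h) * x + h * sW h w ξ

/-- Functions of quadratic growth with a uniform Taylor estimate, first order in `x`, second order
in `w`; `Hx`, `Hw`, `Hww` are the partial derivatives. -/
structure Nice (H Hx Hw Hww : ℝ → ℝ → ℝ) (C : ℝ) : Prop where
  pos : 0 < C
  cont : Continuous (fun p : ℝ × ℝ => H p.1 p.2)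
  bH : ∀ x w, |H x w| ≤ C * (1 + x ^ 2 + w ^ 2)
  bx : ∀ x w, |Hx x w| ≤ C * (1 + |x| + |w|)
  bw : ∀ x w, |Hw x w| ≤ C * (1 + |x| + |w|)
  bww : ∀ x w, |Hww x w| ≤ C
  taylor : ∀ x w e a b, |H (x + e) (w + (a + b)) - H x w - e * Hx x w - (a + b) * Hw x w
      - b ^ 2 / 2 * Hww x w| ≤ C * (e ^ 2 + |e| * (|a| + |b|) + a ^ 2 + |a| * |b| + |b| ^ 3)

/-- the generator `H_ww / 2 - (w / 2) H_w + (w - x / 2) H_x` -/
noncomputable def gen (Hx Hw Hww : ℝ → ℝ → ℝ) (x w : ℝ) : ℝ :=
  Hww x w / 2 - w / 2 * Hw x w + (w - x / 2) * Hx x w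

/-! ### Truncated power splines -/

/-- `∑ α (max (x - τ) 0) ^ e` over the zipped lists -/
noncomputable def tpS (e : ℕ) : List ℤ → List ℤ → ℝ → ℝ
  | α :: al, τ :: ta, x => (α : ℝ) * (max (x - (τ : ℝ)) 0) ^ e + tpS e al ta x
  | _, _, _ => 0

/-- `∑ α τ ^ l` over the zipped lists -/
def mom (l : ℕ) : List ℤ → List ℤ → ℤ
  | α :: al, τ :: ta => α * τ ^ l + mom l al ta
  | _, _ => 0

/-- the moments `0, …, 5` vanish -/
def MomOK (al ta : List ℤ) : Prop := ∀ l : ℕ, l ≤ 5 → mom l al ta = 0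

/-- `A` is bounded with bounded derivative `A'` and a first order Taylor estimate. -/
structure Nice1 (A A' : ℝ → ℝ) (C : ℝ) : Prop where
  pos : 0 < C
  cont : Continuous A
  b0 : ∀ x, |A x| ≤ C
  b1 : ∀ x, |A' x| ≤ C
  lip : ∀ x e, |A (x + e) - A x| ≤ C * |e|
  taylor : ∀ x e, |A (x + e) - A x - e * A' x| ≤ C * e ^ 2

/-- `B` is bounded with bounded derivatives `B'`, `B''` and a second order Taylor estimate. -/
structure Nice2 (B B' B'' : ℝ → ℝ) (C : ℝ) : Prop where
  pos : 0 < C
  cont : Continuous B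
  b0 : ∀ x, |B x| ≤ C
  b1 : ∀ x, |B' x| ≤ C
  b2 : ∀ x, |B'' x| ≤ C
  lip : ∀ x e, |B (x + e) - B x| ≤ C * |e|
  taylor : ∀ w a b, |B (w + (a + b)) - B w - (a + b) * B' w - b ^ 2 / 2 * B'' w|
      ≤ C * (a ^ 2 + |a| * |b| + |b| ^ 3)

/-! ### Packed polynomials -/

/-- `∑ α (a - τ + (b - τ) X) ^ e` over the initial segment of the zipped lists with `τ ≤ a`,
in a commutative ring -/
def gspow {R : Type*} [CommRing R] (e : ℕ) (a b : ℤ) (X : R) : List ℤ → List ℤ → R
  | α :: al, τ :: ta => if τ ≤ a then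
      (α : R) * (((a - τ : ℤ) : R) + ((b - τ : ℤ) : R) * X) ^ e + gspow e a b X al ta else 0
  | _, _ => 0

/-- integer version of `gspow` for the kernel -/
def spow (e : ℕ) (a b X : ℤ) : List ℤ → List ℤ → ℤ
  | α :: al, τ :: ta => if τ ≤ a then α * (a - τ + (b - τ) * X) ^ e + spow e a b X al ta else 0
  | _, _ => 0

/-- the sum of the absolute values of the coefficients -/
noncomputable def l1 (P : Polynomial ℤ) : ℤ := P.sum (fun _ c => |c|)

/-- `∑_{k < n} 2 ^ (384 k + 383)` -/
def offs : ℕ → ℕ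
  | 0 => 0
  | n + 1 => offs n + 2 ^ (384 * n + 383)

/-- Kernel check: in the base `2 ^ 384` expansion of `N` with `n` signed digits (all smaller than
`2 ^ 383` in absolute value) all digits are negative. -/
def negD (n : ℕ) (N : ℤ) : Bool :=
  Nat.land ((offs n : ℤ) + N).toNat (offs n) == 0

end Pool.H56P
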