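import Pool.Agent.Lib.H56P.Cell
import Pool.Agent.Lib.H56P.DatSup
import Pool.Agent.Lib.H56P.DatSub

set_option autoImplicit false
set_option maxRecDepth 100000

namespace Pool.H56P

open Finset

/-- kernel check of the side conditions -/
def okB (D : Dat) (nx nw : ℕ) : Bool :=
  (List.range D.ax.length).all (fun i =>
    (List.range 6).all (fun l => mom l (D.ax.getD i []) (D.kx.drop i) == 0)) &&
  (List.range D.aw.length).all (fun j =>
    (List.range 6).all (fun l => mom l (D.aw.getD j []) (D.kw.drop j) == 0)) &&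
  decide (D.kx.Pairwise (· < ·)) && decide (D.kw.Pairwise (· < ·)) &&
  (D.kx.length == nx + 6) && (D.kw.length == nw + 6) &&
  D.ax.all (fun al => decide (al.length ≤ 7)) && D.aw.all (fun al => decide (al.length ≤ 7)) &&
  D.ax.all (fun al => al.all (fun α => decide (|α| ≤ 2 ^ 24))) &&
  D.aw.all (fun al => al.all (fun α => decide (|α| ≤ 2 ^ 20))) &&
  D.kx.all (fun τ => decide (|τ| ≤ 2 ^ 15)) && D.kw.all (fun τ => decide (|τ| ≤ 2 ^ 10)) &&
  (List.range nx).all (fun I => decide (2 * (D.kx.getD (I + 6) 0 - D.kx.getD I 0) ≤ 2 ^ 15)) &&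
  (List.range nw).all (fun J => decide (2 * (D.kw.getD (J + 6) 0 - D.kw.getD J 0) ≤ 2 ^ 10)) &&
  D.c.all (fun r => r.all (fun z => decide (|z| ≤ 2 ^ 140))) &&
  (List.range 5).all (fun j => (D.aw.getD j []).isEmpty) &&
  decide (|D.c0| ≤ 2 ^ 140) && decide (|D.c2| ≤ 2 ^ 140)

/-- **E01 (S/M).** Soundness of the side condition check (`simp [okB]`, `List.all_eq_true`; for `cb`:
`getD` of a list all of whose elements satisfy the bound, default `0`). -/
theorem e01_ok (D : Dat) (nx nw : ℕ) (h : okB D nx nw = true) : OK D nx nw := by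
  simp only [okB, Bool.and_eq_true, List.all_eq_true, List.mem_range, beq_iff_eq,
    decide_eq_true_eq, List.isEmpty_iff] at h
  obtain ⟨⟨⟨⟨⟨⟨⟨⟨⟨⟨⟨⟨⟨⟨⟨⟨⟨h1, h2⟩, h3⟩, h4⟩, h5⟩, h6⟩, h7⟩, h8⟩, h9⟩, h10⟩, h11⟩, h12⟩, h13⟩, h14⟩,
    h15⟩, h16⟩, h17⟩, h18⟩ := h
  refine ⟨⟨fun i hi l hl => h1 i hi l (by omega), fun j hj l hl => h2 j hj l (by omega)⟩, h3, h4, h5,
    h6, h7, h8, h9, h10, h11, h12, h13, h14, fun i j => ?_, h16, h17, h18⟩
  have h0 : |(0 : ℤ)| ≤ 2 ^ 140 := by simp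
  unfold cof
  rcases Nat.lt_or_ge i D.c.length with hi | hi
  · rw [List.getD_eq_getElem _ _ hi]
    rcases Nat.lt_or_ge j (D.c[i]).length with hj | hj
    · rw [List.getD_eq_getElem _ _ hj]
      exact h15 _ (List.getElem_mem hi) _ (List.getElem_mem hj)
    · rw [List.getD_eq_default _ _ hj]
      exact h0
  · rw [List.getD_eq_default _ _ hi]
    simpa using h0

/-- The check for the two data sets: `e01_ok _ _ _ (by decide +kernel)`. If the absolute values are
slow in the kernel, replace `|z| ≤ B` inside `okB` by `-B ≤ z ∧ z ≤ B`. -/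
theorem e01_sup : OK DSup 34 53 := e01_ok _ _ _ (by decide +kernel)

theorem e01_sub : OK DSub 34 53 := e01_ok _ _ _ (by decide +kernel)

end Pool.H56P
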