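import Pool.Agent.Lib.H56P.DatSup

set_option autoImplicit false
set_option maxRecDepth 100000

namespace Pool.H56P

/-- kernel check of the rows 7, …, 13 -/
theorem e11_rows : (List.range' 7 7).all (fun I => rowCheck chkSup 625 198 DSup 53 I) = true := by
  decide +kernel

end Pool.H56P
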