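import Pool.Agent.Lib.H56P.DatSub

set_option autoImplicit false
set_option maxRecDepth 100000

namespace Pool.H56P

/-- kernel check of the rows 10, …, 15 -/
theorem e22_rows : (List.range' 10 6).all (fun I => rowCheck (chkSub 5000) 5000 1586 DSub 53 I) = true := by
  decide +kernel

end Pool.H56P
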