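import Pool.Agent.Lib.H56P.DatSub

set_option autoImplicit false
set_option maxRecDepth 100000

namespace Pool.H56P

/-- kernel check of the boundary values -/
theorem e30_bd : bdCheck DSub 31 = true := by
  decide +kernel

/-- kernel check of the value at one point -/
theorem e30_pt : 0 < ptVal DSub 19 39 := by
  decide +kernel

end Pool.H56P
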