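import Pool.Agent.Lib.H56P.B07
import Pool.Agent.Lib.H56P.D12
import Pool.Agent.Lib.H56P.D14

set_option autoImplicit false

namespace Pool.H56P

open Finset

/-- Outside the box `Hs` and `Fs` are the explicit quadratic polynomials (`d14_out`). -/
theorem f01_out (D : Dat) (nx nw : ℕ) (h : OK D nx nw) (l n1 : ℝ) (X W : ℝ)
    (ho : (D.kx.getD (nx + 5) 0 : ℝ) ≤ X ∨ (D.kw.getD (nw + 5) 0 : ℝ) ≤ W ∨ W ≤ (D.kw.getD 5 0 : ℝ)) :
    Hs D X W = D.c0 + D.c2 * (X ^ 2 + 10000 * W ^ 2) ∧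
    Fs D l n1 X W = n1 * D.c0 + 8000000 * l * D.c2 + (n1 - 2 * l) * D.c2 * X ^ 2
      + 10000 * (n1 - 2 * l) * D.c2 * W ^ 2 + 200 * l * D.c2 * (X * W) := by
  have h55 := d14_out D nx nw h 5 5 (by norm_num) (by norm_num) (by norm_num) (by norm_num) X W ho
  have h45 := d14_out D nx nw h 4 5 (by norm_num) (by norm_num) (by norm_num) (by norm_num) X W ho
  have h54 := d14_out D nx nw h 5 4 (by norm_num) (by norm_num) (by norm_num) (by norm_num) X W ho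
  have h53 := d14_out D nx nw h 5 3 (by norm_num) (by norm_num) (by norm_num) (by norm_num) X W ho
  unfold Fs HsWW HsW HsX Hs
  rw [h55, h45, h54, h53]
  constructor <;> ring

theorem f01_mem (l : List ℤ) (n : ℕ) (hn : n < l.length) : l.getD n 0 ∈ l := by
  rw [List.getD_eq_getElem _ _ hn]
  exact List.getElem_mem hn

/-- in the box `1 + x ^ 2 + w ^ 2 ≤ 5000` -/
theorem f01_box (D : Dat) (nx nw : ℕ) (h : OK D nx nw) (x w : ℝ) (hx : 0 ≤ x)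
    (h2 : 1000 * x ≤ (D.kx.getD (nx + 5) 0 : ℝ))
    (h3 : (D.kw.getD 5 0 : ℝ) ≤ 20 * w) (h4 : 20 * w ≤ (D.kw.getD (nw + 5) 0 : ℝ)) :
    1 + x ^ 2 + w ^ 2 ≤ 5000 := by
  have a1 := h.kxb _ (f01_mem D.kx (nx + 5) (by rw [h.kxl]; omega))
  have a2 := h.kwb _ (f01_mem D.kw (nw + 5) (by rw [h.kwl]; omega))
  have a3 := h.kwb _ (f01_mem D.kw 5 (by rw [h.kwl]; omega))
  have b1 : |(D.kx.getD (nx + 5) 0 : ℝ)| ≤ 2 ^ 15 := by exact_mod_cast a1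
  have b2 : |(D.kw.getD (nw + 5) 0 : ℝ)| ≤ 2 ^ 10 := by exact_mod_cast a2
  have b3 : |(D.kw.getD 5 0 : ℝ)| ≤ 2 ^ 10 := by exact_mod_cast a3
  rw [abs_le] at b1 b2 b3
  have c1 : x ≤ 33 := by linarith [b1.2]
  have c2 : w ≤ 52 := by linarith [b2.2]
  have c3 : -52 ≤ w := by linarith [b3.1]
  nlinarith

/-- the quadratic form outside the box -/
theorem f01_quad (x w : ℝ) (hs : 67 ≤ x ^ 2 ∨ 36 ≤ w ^ 2) :
    (1688 / 100 - 1052 / 1000 * x ^ 2 + 5 / 2 * (x * w) - 4208 / 1000 * w ^ 2) ≤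
      -(1 / 10) * (1 + x ^ 2 + w ^ 2) := by
  have h1 : 0 ≤ 652 / 1000 * x ^ 2 - 5 / 2 * (x * w) + 2408 / 1000 * w ^ 2 := by
    nlinarith [sq_nonneg (1304 * x - 2500 * w), sq_nonneg w]
  rcases hs with hs | hs
  · nlinarith [sq_nonneg w]
  · nlinarith [sq_nonneg x]

/-- **F01 (M).** The hypotheses of the supersolution theorem.
Proof: let `X = 1000 x`, `W = 20 w`. By `b07_gen` (`l = 625`, `lam = 99/625`, `2 l lam = 198`)
`1250 (gen + lam Hc) = Fs D 625 198 X W`. In the box (`0 ≤ X ≤ kx_last`, `kw_5 ≤ W ≤ kw_last`) use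
`d12_sup`; there `1 + x^2 + w^2 ≤ 5000` since `|knots| ≤ 2^15` resp. `2^10`. Outside use `f01_out`:
`Fs = c2 (198 c0/c2 + 5 10^9 - 1052 X^2 + 125000 X W - 10520000 W^2)
≤ c2 10^9 (16.88 - 1.052 x^2 + 2.5 x w - 4.208 w^2) ≤ c2 10^9 (16.88 - 0.4 x^2 - 1.8 w^2)`
(`0.652 x^2 - 2.5 x w + 2.408 w^2 ≥ 0`), and outside `x ≥ 8.19` or `|w| ≥ 6`, so
`0.4 x^2 + 1.8 w^2 ≥ 26.8`; hence `Fs ≤ -c2 10^9 0.37 (0.4 x^2 + 1.8 w^2) ≤ -(1 + x^2 + w^2)`
(`c2 ≥ 1` is an integer). `Hs = c0 + c2 (..) ≥ (1 + x^2 + w^2)` outside. Take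
`ε = 1/(2048 · 5000)`, `η = 1/(2048 · 5000 · 1250)`. -/
theorem f01_sup_hyps (D : Dat) (nx nw : ℕ) (h : OK D nx nw) (hnx : 1 ≤ nx) (hnw : 1 ≤ nw)
    (hx5 : D.kx.getD 5 0 = 0) (hxl : 8190 ≤ D.kx.getD (nx + 5) 0)
    (hwl : 120 ≤ D.kw.getD (nw + 5) 0) (hw5 : D.kw.getD 5 0 ≤ -120)
    (hc2 : 0 < D.c2) (hc0 : 0 < D.c0) (hc : D.c0 ≤ 60000000 * D.c2)
    (hrow : ∀ I < nx, rowCheck chkSup 625 198 D nw I = true) :
    ∃ ε η : ℝ, 0 < ε ∧ 0 < η ∧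
      (∀ x w, 0 ≤ x → ε * (1 + x ^ 2 + w ^ 2) ≤ Hc D x w) ∧
      (∀ x w, 0 ≤ x → gen (HcX D) (HcW D) (HcWW D) x w + (99 / 625) * Hc D x w
        ≤ -η * (1 + x ^ 2 + w ^ 2)) := by
  have hc2' : (1 : ℝ) ≤ (D.c2 : ℝ) := by exact_mod_cast hc2
  have hc0' : (1 : ℝ) ≤ (D.c0 : ℝ) := by exact_mod_cast hc0
  have hc' : (D.c0 : ℝ) ≤ 60000000 * D.c2 := by exact_mod_cast hc
  have hxl' : (8190 : ℝ) ≤ (D.kx.getD (nx + 5) 0 : ℝ) := by exact_mod_cast hxl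
  have hwl' : (120 : ℝ) ≤ (D.kw.getD (nw + 5) 0 : ℝ) := by exact_mod_cast hwl
  have hw5' : (D.kw.getD 5 0 : ℝ) ≤ -120 := by exact_mod_cast hw5
  have hgen : ∀ x w, 1250 * (gen (HcX D) (HcW D) (HcWW D) x w + (99 / 625) * Hc D x w) =
      Fs D 625 198 (1000 * x) (20 * w) := by
    intro x w
    have h1 := b07_gen D 625 (99 / 625) x w
    norm_num at h1 ⊢
    linarith
  -- the two cases
  have key : ∀ x w, 0 ≤ x →
      (1 + x ^ 2 + w ^ 2 ≤ 5000 ∧ Fs D 625 198 (1000 * x) (20 * w) ≤ -(1 / 2048) ∧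
        1 / 2048 ≤ Hs D (1000 * x) (20 * w)) ∨
      (Fs D 625 198 (1000 * x) (20 * w) ≤ -(1 + x ^ 2 + w ^ 2) ∧
        1 + x ^ 2 + w ^ 2 ≤ Hs D (1000 * x) (20 * w)) := by
    intro x w hx
    by_cases hbox : 1000 * x ≤ (D.kx.getD (nx + 5) 0 : ℝ) ∧ (D.kw.getD 5 0 : ℝ) ≤ 20 * w ∧
        20 * w ≤ (D.kw.getD (nw + 5) 0 : ℝ)
    · left
      obtain ⟨h2, h3, h4⟩ := hbox
      have h1 : (D.kx.getD 5 0 : ℝ) ≤ 1000 * x := by
        rw [hx5]
        push_cast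
        linarith
      have h5 := d12_sup D nx nw h hnx hnw 625 198 (by norm_num) (by norm_num) (by norm_num)
        (by norm_num) hrow (1000 * x) (20 * w) h1 h2 h3 h4
      push_cast at h5
      exact ⟨f01_box D nx nw h x w hx h2 h3 h4, h5⟩
    · right
      have ho : (D.kx.getD (nx + 5) 0 : ℝ) ≤ 1000 * x ∨ (D.kw.getD (nw + 5) 0 : ℝ) ≤ 20 * w ∨
          20 * w ≤ (D.kw.getD 5 0 : ℝ) := by
        by_contra hcon
        push Not at hcon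
        exact hbox ⟨hcon.1.le, hcon.2.2.le, hcon.2.1.le⟩
      have hs : 67 ≤ x ^ 2 ∨ 36 ≤ w ^ 2 := by
        rcases ho with ho | ho | ho
        · left
          nlinarith
        · right
          nlinarith
        · right
          nlinarith
      obtain ⟨e1, e2⟩ := f01_out D nx nw h 625 198 (1000 * x) (20 * w) ho
      have hq := f01_quad x w hs
      have hpos : 0 ≤ 1 + x ^ 2 + w ^ 2 := by positivity
      constructor
      · rw [e2]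
        have h1 : (D.c2 : ℝ) * (1688 / 100 - 1052 / 1000 * x ^ 2 + 5 / 2 * (x * w) -
            4208 / 1000 * w ^ 2) ≤ D.c2 * (-(1 / 10) * (1 + x ^ 2 + w ^ 2)) :=
          mul_le_mul_of_nonneg_left hq (by linarith)
        have h2 : (1 : ℝ) * (1 + x ^ 2 + w ^ 2) ≤ D.c2 * (1 + x ^ 2 + w ^ 2) :=
          mul_le_mul_of_nonneg_right hc2' hpos
        have e3 : 198 * (D.c0 : ℝ) + 8000000 * 625 * D.c2 +
            (198 - 2 * 625) * D.c2 * (1000 * x) ^ 2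
            + 10000 * (198 - 2 * 625) * D.c2 * (20 * w) ^ 2
            + 200 * 625 * D.c2 * (1000 * x * (20 * w)) =
            198 * ((D.c0 : ℝ) - 60000000 * D.c2) +
            1000000000 * (D.c2 * (1688 / 100 - 1052 / 1000 * x ^ 2 + 5 / 2 * (x * w) -
              4208 / 1000 * w ^ 2)) := by ring
        rw [e3]
        linarith
      · rw [e1]
        have h2 : (1 : ℝ) * ((1000 * x) ^ 2 + 10000 * (20 * w) ^ 2) ≤
            D.c2 * ((1000 * x) ^ 2 + 10000 * (20 * w) ^ 2) :=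
          mul_le_mul_of_nonneg_right hc2' (by positivity)
        nlinarith [sq_nonneg x, sq_nonneg w]
  refine ⟨1 / (2048 * 5000), 1 / (2048 * 5000 * 1250), by norm_num, by norm_num, ?_, ?_⟩
  · intro x w hx
    show _ ≤ Hs D (1000 * x) (20 * w)
    rcases key x w hx with ⟨h1, -, h3⟩ | ⟨-, h3⟩
    · linarith
    · nlinarith [sq_nonneg x, sq_nonneg w]
  · intro x w hx
    have hg := hgen x w
    rcases key x w hx with ⟨h1, h2, -⟩ | ⟨h2, -⟩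
    · linarith
    · nlinarith [sq_nonneg x, sq_nonneg w]

end Pool.H56P
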