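import Pool.Agent.Lib.H56P.B02
import Pool.Agent.Lib.H56P.B07
import Pool.Agent.Lib.H56P.D12
import Pool.Agent.Lib.H56P.D13
import Pool.Agent.Lib.H56P.D14
import Pool.Agent.Lib.H56P.F01

set_option autoImplicit false

namespace Pool.H56P

open Finset

/-- The spline part is bounded (`b02_bounded` for each factor, finite sum). -/
theorem f02_bounded (D : Dat) (h : MomAll D) : ∃ B : ℝ, 0 < B ∧ ∀ X W, |Sp D 5 5 X W| ≤ B := by
  have hA : ∀ i : ℕ, ∃ C : ℝ, 0 < C ∧ (i < D.ax.length →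
      ∀ x, |tpS 5 (D.ax.getD i []) (D.kx.drop i) x| ≤ C) := by
    intro i
    by_cases hi : i < D.ax.length
    · obtain ⟨C, hC, h1⟩ := b02_bounded 5 (by norm_num) (by norm_num) _ _ (h.1 i hi)
      exact ⟨C, hC, fun _ => h1⟩
    · exact ⟨1, one_pos, fun h => absurd h hi⟩
  have hB : ∀ j : ℕ, ∃ C : ℝ, 0 < C ∧ (j < D.aw.length →
      ∀ x, |tpS 5 (D.aw.getD j []) (D.kw.drop j) x| ≤ C) := by
    intro j
    by_cases hj : j < D.aw.length
    · obtain ⟨C, hC, h1⟩ := b02_bounded 5 (by norm_num) (by norm_num) _ _ (h.2 j hj)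
      exact ⟨C, hC, fun _ => h1⟩
    · exact ⟨1, one_pos, fun h => absurd h hj⟩
  choose A hA0 hA using hA
  choose B hB0 hB using hB
  have hS : 0 ≤ ∑ i ∈ range D.ax.length, ∑ j ∈ range D.aw.length,
      |(cof D i j : ℝ)| * (A i * B j) :=
    Finset.sum_nonneg fun i _ => Finset.sum_nonneg fun j _ =>
      mul_nonneg (abs_nonneg _) (mul_pos (hA0 i) (hB0 j)).le
  refine ⟨1 + ∑ i ∈ range D.ax.length, ∑ j ∈ range D.aw.length,
      |(cof D i j : ℝ)| * (A i * B j), by linarith, ?_⟩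
  intro X W
  have h1 : |Sp D 5 5 X W| ≤ ∑ i ∈ range D.ax.length, ∑ j ∈ range D.aw.length,
      |(cof D i j : ℝ)| * (A i * B j) := by
    unfold Sp
    refine (Finset.abs_sum_le_sum_abs _ _).trans (Finset.sum_le_sum fun i hi => ?_)
    refine (Finset.abs_sum_le_sum_abs _ _).trans (Finset.sum_le_sum fun j hj => ?_)
    rw [abs_mul, abs_mul]
    refine mul_le_mul_of_nonneg_left ?_ (abs_nonneg _)
    exact mul_le_mul (hA i (Finset.mem_range.1 hi) X) (hB j (Finset.mem_range.1 hj) W)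
      (abs_nonneg _) (hA0 i).le
  linarith

/-- **F02 (M).** The hypotheses of the subsolution theorem.
Proof: `η0 = 1/(2048 · 10000)`, `δ = η0/8`, `H = Hc D - δ (x^2 + 4 w^2)` (`b06_add` of `b07_nice` and
`b06_quad 0 (-δ)`; write the derivative functions accordingly). Let `X = 1000 x`, `W = 20 w`.
Bounded above: `f02_bounded`, `c2 = 0`, `c0 < 0`. Boundary: for `w ≤ 0` either `kw_5 ≤ 20 w ≤ 0 = kw_{nb+5}`
and `d13_bd` gives `Hc 0 w ≤ -1/64`, or `20 w < kw_5` and `Hc 0 w = c0 ≤ -1` (`f01_out`); so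
`H 0 w ≤ -1/64 - 4 δ w^2 ≤ -ε (1 + w^2)` with `ε = 4 δ`. Generator: if `0 ≤ x` and `0 ≤ H x w` then
`0 ≤ Hc x w`, so `(X, W)` is in the box (outside `Hs = c0 < 0`), `d12_sub` and `b07_gen` (`l = 5000`,
`lam = 793/5000`, `2 l lam = 1586`) give `gen Hc + lam Hc ≥ η0`; and
`gen (x^2 + 4 w^2) + lam (x^2 + 4 w^2) = 4 - (1-lam) x^2 + 2 x w - 4 (1-lam) w^2 ≤ 4`, so
`gen H + lam H ≥ η0 - 4 δ = η0/2 ≥ η (1 + x^2 + w^2)` with `η = η0/10000` (in the box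
`1 + x^2 + w^2 ≤ 5000`). Point: `x1 = xa/1000`, `w1 = wa/20`; `Hc x1 w1 = ptVal ≥ 1` (`d13_pt`) and
`δ (x1^2 + 4 w1^2) ≤ 1/2`. -/
theorem f02_sub_hyps (D : Dat) (nx nw : ℕ) (h : OK D nx nw) (hnx : 1 ≤ nx) (hnw : 1 ≤ nw)
    (hx5 : D.kx.getD 5 0 = 0) (hc2 : D.c2 = 0) (hc0 : D.c0 < 0)
    (hrow : ∀ I < nx, rowCheck (chkSub 5000) 5000 1586 D nw I = true)
    (nb : ℕ) (hnb : 1 ≤ nb) (hnb' : nb ≤ nw) (hb : bdCheck D nb = true)
    (hb0 : D.kw.getD (nb + 5) 0 = 0)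
    (I J : ℕ) (hI : I < nx) (hJ : J < nw) (hpt : 0 < ptVal D I J) (hxa : 0 < xa D I) :
    ∃ (H Hx Hw Hww : ℝ → ℝ → ℝ) (C B ε η x1 w1 : ℝ), Nice H Hx Hw Hww C ∧ 0 < B ∧ 0 < ε ∧ 0 < η ∧
      (∀ x w, H x w ≤ B) ∧ (∀ w, w ≤ 0 → H 0 w ≤ -ε * (1 + w ^ 2)) ∧
      (∀ x w, 0 ≤ x → 0 ≤ H x w →
        η * (1 + x ^ 2 + w ^ 2) ≤ gen Hx Hw Hww x w + (793 / 5000) * H x w) ∧
      0 < x1 ∧ 0 < H x1 w1 := by
  obtain ⟨η, hη⟩ : ∃ η : ℝ, η = 1 / (2048 * 10000) := ⟨_, rfl⟩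
  obtain ⟨δ, hδ⟩ : ∃ δ : ℝ, δ = η / 8 := ⟨_, rfl⟩
  have hη0 : 0 < η := by rw [hη]; norm_num
  have hδ0 : 0 < δ := by rw [hδ]; linarith
  obtain ⟨C1, hn1⟩ := b07_nice D h.mom
  obtain ⟨C2, hn2⟩ := b06_quad 0 (-δ)
  obtain ⟨B, hB0, hB⟩ := f02_bounded D h.mom
  have hc0' : (D.c0 : ℝ) ≤ -1 := by
    have : D.c0 ≤ -1 := by omega
    exact_mod_cast this
  have hc2' : (D.c2 : ℝ) = 0 := by exact_mod_cast hc2
  have hgen : ∀ x w, 10000 * (gen (HcX D) (HcW D) (HcWW D) x w + (793 / 5000) * Hc D x w) =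
      Fs D 5000 1586 (1000 * x) (20 * w) := by
    intro x w
    have h1 := b07_gen D 5000 (793 / 5000) x w
    norm_num at h1 ⊢
    linarith
  refine ⟨_, _, _, _, C1 + C2, B, 4 * δ, η / 10000, (xa D I : ℝ) / 1000, (wa D J : ℝ) / 20,
    b06_add hn1 hn2, hB0, by linarith, by linarith, ?_, ?_, ?_, ?_, ?_⟩
  · intro x w
    show Hc D x w + (0 + -δ * (x ^ 2 + 4 * w ^ 2)) ≤ B
    have h1 := (abs_le.1 (hB (1000 * x) (20 * w))).2
    have h2 : Hc D x w = Sp D 5 5 (1000 * x) (20 * w) + D.c0 := by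
      unfold Hc Hs
      rw [hc2']
      ring
    rw [h2]
    nlinarith [sq_nonneg x, sq_nonneg w]
  · intro w hw
    show Hc D 0 w + (0 + -δ * (0 ^ 2 + 4 * w ^ 2)) ≤ -(4 * δ) * (1 + w ^ 2)
    have h0 : Hc D 0 w = Hs D 0 (20 * w) := by
      unfold Hc
      rw [mul_zero]
    have h1 : Hc D 0 w ≤ -(1 / 64) := by
      rw [h0]
      by_cases h5 : (D.kw.getD 5 0 : ℝ) ≤ 20 * w
      · have h6 := d13_bd D nx nw h hnx nb hnb hnb' hb (20 * w) h5 (by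
          rw [hb0]
          push_cast
          linarith)
        rw [hx5] at h6
        push_cast at h6
        exact h6
      · have h6 := (f01_out D nx nw h 0 0 0 (20 * w) (Or.inr (Or.inr (not_le.1 h5).le))).1
        rw [h6, hc2']
        linarith
    have h2 : 4 * δ ≤ 1 / 64 := by
      rw [hδ, hη]
      norm_num
    linarith
  · intro x w hx hH
    have hH' : 0 ≤ Hc D x w + (0 + -δ * (x ^ 2 + 4 * w ^ 2)) := hH
    have hHc : 0 ≤ Hc D x w := by nlinarith [sq_nonneg x, sq_nonneg w]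
    have hbox : 1000 * x ≤ (D.kx.getD (nx + 5) 0 : ℝ) ∧ (D.kw.getD 5 0 : ℝ) ≤ 20 * w ∧
        20 * w ≤ (D.kw.getD (nw + 5) 0 : ℝ) := by
      by_contra hcon
      have ho : (D.kx.getD (nx + 5) 0 : ℝ) ≤ 1000 * x ∨ (D.kw.getD (nw + 5) 0 : ℝ) ≤ 20 * w ∨
          20 * w ≤ (D.kw.getD 5 0 : ℝ) := by
        by_contra hcon'
        push Not at hcon'
        exact hcon ⟨hcon'.1.le, hcon'.2.2.le, hcon'.2.1.le⟩
      have h6 := (f01_out D nx nw h 0 0 (1000 * x) (20 * w) ho).1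
      have h7 : Hc D x w = D.c0 := by
        show Hs D (1000 * x) (20 * w) = D.c0
        rw [h6, hc2']
        ring
      linarith
    obtain ⟨h2, h3, h4⟩ := hbox
    have h1 : (D.kx.getD 5 0 : ℝ) ≤ 1000 * x := by
      rw [hx5]
      push_cast
      linarith
    have h5 := d12_sub D nx nw h hnx hnw 5000 1586 (by norm_num) (by norm_num) (by norm_num)
      (by norm_num) hrow (1000 * x) (20 * w) h1 h2 h3 h4 hHc
    push_cast at h5
    rw [← hgen] at h5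
    have h6 := f01_box D nx nw h x w hx h2 h3 h4
    have h7 : 0 ≤ x ^ 2 * (4207 / 5000) - 2 * (x * w) + 4 * (4207 / 5000) * w ^ 2 := by
      nlinarith [sq_nonneg (x * (4207 / 5000) - w), sq_nonneg w]
    have h8 : η / 10000 * (1 + x ^ 2 + w ^ 2) ≤ η / 2 := by
      have h9 : η * (1 + x ^ 2 + w ^ 2) ≤ η * 5000 := mul_le_mul_of_nonneg_left h6 hη0.le
      linarith
    have h9 : η ≤ gen (HcX D) (HcW D) (HcWW D) x w + (793 / 5000) * Hc D x w := by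
      rw [hη]
      linarith
    have h10 : gen (fun x w => HcX D x w + -δ * (2 * x)) (fun x w => HcW D x w + -δ * (8 * w))
        (fun x w => HcWW D x w + -δ * 8) x w +
        793 / 5000 * (Hc D x w + (0 + -δ * (x ^ 2 + 4 * w ^ 2))) =
        (gen (HcX D) (HcW D) (HcWW D) x w + (793 / 5000) * Hc D x w) - 4 * δ +
          δ * (x ^ 2 * (4207 / 5000) - 2 * (x * w) + 4 * (4207 / 5000) * w ^ 2) := by
      unfold gen
      ring
    have h11 : 0 ≤ δ * (x ^ 2 * (4207 / 5000) - 2 * (x * w) + 4 * (4207 / 5000) * w ^ 2) :=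
      mul_nonneg hδ0.le h7
    show η / 10000 * (1 + x ^ 2 + w ^ 2) ≤
      gen (fun x w => HcX D x w + -δ * (2 * x)) (fun x w => HcW D x w + -δ * (8 * w))
        (fun x w => HcWW D x w + -δ * 8) x w +
        793 / 5000 * (Hc D x w + (0 + -δ * (x ^ 2 + 4 * w ^ 2)))
    rw [h10]
    linarith
  · have : (0 : ℝ) < (xa D I : ℝ) := by exact_mod_cast hxa
    positivity
  · show 0 < Hc D ((xa D I : ℝ) / 1000) ((wa D J : ℝ) / 20) +
      (0 + -δ * (((xa D I : ℝ) / 1000) ^ 2 + 4 * ((wa D J : ℝ) / 20) ^ 2))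
    have h1 : Hc D ((xa D I : ℝ) / 1000) ((wa D J : ℝ) / 20) = (ptVal D I J : ℝ) := by
      unfold Hc
      rw [mul_div_cancel₀ _ (by norm_num : (1000 : ℝ) ≠ 0),
        mul_div_cancel₀ _ (by norm_num : (20 : ℝ) ≠ 0)]
      exact d13_pt D nx nw h I J hI hJ
    have h2 : (1 : ℝ) ≤ (ptVal D I J : ℝ) := by exact_mod_cast hpt
    have a1 := h.kxb _ (f01_mem D.kx (I + 5) (by rw [h.kxl]; omega))
    have a2 := h.kwb _ (f01_mem D.kw (J + 5) (by rw [h.kwl]; omega))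
    have b1 : |(xa D I : ℝ)| ≤ 2 ^ 15 := by exact_mod_cast a1
    have b2 : |(wa D J : ℝ)| ≤ 2 ^ 10 := by exact_mod_cast a2
    have c1 : (xa D I : ℝ) ^ 2 ≤ (2 ^ 15) ^ 2 := sq_le_sq' (abs_le.1 b1).1 (abs_le.1 b1).2
    have c2 : (wa D J : ℝ) ^ 2 ≤ (2 ^ 10) ^ 2 := sq_le_sq' (abs_le.1 b2).1 (abs_le.1 b2).2
    have c3 : ((xa D I : ℝ) / 1000) ^ 2 + 4 * ((wa D J : ℝ) / 20) ^ 2 ≤ 20000 := by
      rw [div_pow, div_pow]
      norm_num at c1 c2 ⊢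
      linarith
    have c4 : δ * (((xa D I : ℝ) / 1000) ^ 2 + 4 * ((wa D J : ℝ) / 20) ^ 2) ≤ δ * 20000 :=
      mul_le_mul_of_nonneg_left c3 hδ0.le
    have c5 : δ * 20000 ≤ 1 / 2 := by
      rw [hδ, hη]
      norm_num
    rw [h1]
    linarith

end Pool.H56P
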