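import Pool.Agent.Lib.H56P.A11
import Pool.Agent.Lib.H56P.A12
import Pool.Agent.Lib.H56P.F01
import Pool.Agent.Lib.H56P.F02
import Pool.Agent.Lib.H56P.E01
import Pool.Agent.Lib.H56P.E10
import Pool.Agent.Lib.H56P.E11
import Pool.Agent.Lib.H56P.E12
import Pool.Agent.Lib.H56P.E13
import Pool.Agent.Lib.H56P.E14
import Pool.Agent.Lib.H56P.E20
import Pool.Agent.Lib.H56P.E21
import Pool.Agent.Lib.H56P.E22
import Pool.Agent.Lib.H56P.E23
import Pool.Agent.Lib.H56P.E24
import Pool.Agent.Lib.H56P.E25
import Pool.Agent.Lib.H56P.E30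

set_option autoImplicit false

namespace Pool.H56P

open Finset

lemma f03_range' (n0 n : ℕ) (p : ℕ → Bool) (h : (List.range' n0 n).all p = true) (I : ℕ)
    (h1 : n0 ≤ I) (h2 : I < n0 + n) : p I = true := by
  rw [List.all_eq_true] at h
  exact h I (List.mem_range'_1.2 ⟨h1, h2⟩)

lemma f03_rows_sup : ∀ I < 34, rowCheck chkSup 625 198 DSup 53 I = true := by
  intro I hI
  by_cases h1 : I < 7
  · exact f03_range' 0 7 _ e10_rows I (by omega) (by omega)
  by_cases h2 : I < 14
  · exact f03_range' 7 7 _ e11_rows I (by omega) (by omega)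
  by_cases h3 : I < 21
  · exact f03_range' 14 7 _ e12_rows I (by omega) (by omega)
  by_cases h4 : I < 28
  · exact f03_range' 21 7 _ e13_rows I (by omega) (by omega)
  · exact f03_range' 28 6 _ e14_rows I (by omega) (by omega)

lemma f03_rows_sub : ∀ I < 34, rowCheck (chkSub 5000) 5000 1586 DSub 53 I = true := by
  intro I hI
  by_cases h1 : I < 5
  · exact f03_range' 0 5 _ e20_rows I (by omega) (by omega)
  by_cases h2 : I < 10
  · exact f03_range' 5 5 _ e21_rows I (by omega) (by omega)
  by_cases h3 : I < 16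
  · exact f03_range' 10 6 _ e22_rows I (by omega) (by omega)
  by_cases h4 : I < 22
  · exact f03_range' 16 6 _ e23_rows I (by omega) (by omega)
  by_cases h5 : I < 28
  · exact f03_range' 22 6 _ e24_rows I (by omega) (by omega)
  · exact f03_range' 28 6 _ e25_rows I (by omega) (by omega)

/-- **Lower bound for the exponent.** -/
theorem theta_ge : (99 / 625 : ℝ) ≤ Pool.GP.theta := by
  obtain ⟨ε, η, hε, hη, h1, h2⟩ := f01_sup_hyps DSup 34 53 e01_sup (by norm_num) (by norm_num)
    (by decide +kernel) (by decide +kernel) (by decide +kernel) (by decide +kernel)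
    (by decide +kernel) (by decide +kernel) (by decide +kernel) f03_rows_sup
  obtain ⟨C, hN⟩ := b07_nice DSup e01_sup.mom
  obtain ⟨K0, c, hc, h3⟩ := a11_sup_pK hN (99 / 625) ε η (by norm_num) (by norm_num) hε hη h1 h2
  exact a12_le_theta _ c hc K0 h3

/-- **Upper bound for the exponent.** -/
theorem theta_le : Pool.GP.theta ≤ (793 / 5000 : ℝ) := by
  obtain ⟨H, Hx, Hw, Hww, C, B, ε, η, x1, w1, hN, hB, hε, hη, h1, h2, h3, hx1, h4⟩ :=
    f02_sub_hyps DSub 34 53 e01_sub (by norm_num) (by norm_num) (by decide +kernel)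
      (by decide +kernel) (by decide +kernel) f03_rows_sub 31 (by norm_num) (by norm_num) e30_bd
      (by decide +kernel) 19 39 (by norm_num) (by norm_num) e30_pt (by decide +kernel)
  obtain ⟨K1, c, hc, h5⟩ := a11_sub_pK hN (793 / 5000) ε η B (by norm_num) (by norm_num) hε hη hB h1
    h2 h3 x1 w1 hx1 h4
  exact a12_theta_le _ c hc K1 h5

end Pool.H56P
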