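import Pool.Agent.Lib.H56P.Defs

set_option autoImplicit false

/-!
The functions evaluated by the kernel, and the spline function `Hs` defined by the data.
-/

namespace Pool.H56P

/-- the data of a test function: knots, spline coefficients, tensor coefficients, `C0`, `C2` -/
structure Dat where
  kx : List ℤ
  kw : List ℤ
  ax : List (List ℤ)
  aw : List (List ℤ)
  c : List (List ℤ)
  c0 : ℤ
  c2 : ℤ

/-- `f` of the first (at most) `n` splines: coefficient list and knots -/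
def blist (f : List ℤ → List ℤ → ℤ) : ℕ → List (List ℤ) → List ℤ → List ℤ
  | n + 1, al :: as, ta => f al ta :: blist f n as ta.tail
  | _, _, _ => []

/-! Cell polynomials of the `x` direction at `X`, cell `[a, b)`: `A`, `A'`, `x A'`. -/

def fx0 (a b X : ℤ) (al ta : List ℤ) : ℤ := spow 5 a b X al ta
def fx1 (a b X : ℤ) (al ta : List ℤ) : ℤ := 5 * spow 4 a b X al ta * (1 + X)
def fx2 (a b X : ℤ) (al ta : List ℤ) : ℤ := 5 * spow 4 a b X al ta * (a + b * X)

/-! Cell polynomials of the `w` direction at `Y`, cell `[a, b)`: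
`400 l B'' - l w B' + n1 B`, `100 l w B`, `-l B`, `B`. -/

def fw0 (l n1 a b Y : ℤ) (al ta : List ℤ) : ℤ :=
  8000 * l * (spow 3 a b Y al ta * (1 + Y) ^ 3)
    - 5 * l * (spow 4 a b Y al ta * ((a + b * Y) * (1 + Y))) + n1 * (spow 5 a b Y al ta * (1 + Y))
def fw1 (l a b Y : ℤ) (al ta : List ℤ) : ℤ := 100 * l * (spow 5 a b Y al ta * (a + b * Y))
def fw2 (l a b Y : ℤ) (al ta : List ℤ) : ℤ := -l * (spow 5 a b Y al ta * (1 + Y))
def fw3 (a b Y : ℤ) (al ta : List ℤ) : ℤ := spow 5 a b Y al ta * (1 + Y)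

/-- the data of one cell of the `w` direction -/
structure WC where
  g : List ℤ
  h : List ℤ
  k : List ℤ
  B : List ℤ
  o : ℤ
  w1 : ℤ
  w2 : ℤ

/-- data of the cell `[a, b)`; `as`, `ta` are the splines and knots from the first active one on -/
def wcell (l n1 a b Y : ℤ) (as : List (List ℤ)) (ta : List ℤ) : WC :=
  ⟨blist (fw0 l n1 a b Y) 6 as ta, blist (fw1 l a b Y) 6 as ta, blist (fw2 l a b Y) 6 as ta,
    blist (fw3 a b Y) 6 as ta, (1 + Y) ^ 6, (a + b * Y) * (1 + Y) ^ 5, (a + b * Y) ^ 2 * (1 + Y) ^ 4⟩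

/-- data of `n` consecutive cells of the `w` direction -/
def wall (l n1 Y : ℤ) : ℕ → List (List ℤ) → List ℤ → List WC
  | n + 1, as, ta => wcell l n1 (ta.getD 5 0) (ta.getD 6 0) Y as ta :: wall l n1 Y n as.tail ta.tail
  | 0, _, _ => []

/-- sum of two lists, the shorter one continued by zeros -/
def vadd : List ℤ → List ℤ → List ℤ
  | x :: a, y :: b => (x + y) :: vadd a b
  | [], b => b
  | a, [] => a

/-- linear combination of the rows -/
def comb : List ℤ → List (List ℤ) → List ℤ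
  | x :: xs, r :: rs => vadd (r.map (fun y => x * y)) (comb xs rs)
  | _, _ => []

/-- dot product (up to the length of the shorter list) -/
def dotL : List ℤ → List ℤ → ℤ
  | x :: a, y :: b => x * y + dotL a b
  | _, _ => 0

def farT (l n1 c0 c2 x0 x1 x2 o w1 w2 : ℤ) : ℤ :=
  (n1 * c0 + 8000000 * l * c2) * (x0 * o) + (n1 - 2 * l) * c2 * (x2 * o)
    + 10000 * (n1 - 2 * l) * c2 * (x0 * w2) + 200 * l * c2 * (x1 * w1)

def farH (c0 c2 x0 x2 o w2 : ℤ) : ℤ := c0 * (x0 * o) + c2 * (x2 * o) + 10000 * c2 * (x0 * w2)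

/-- the two numbers attached to a cell: generator and value -/
def cellT (l n1 c0 c2 x0 x1 x2 : ℤ) (U0 U1 U2 : List ℤ) (W : WC) : ℤ :=
  dotL U0 W.g + dotL U1 W.h + dotL U2 W.k + farT l n1 c0 c2 x0 x1 x2 W.o W.w1 W.w2
def cellH (c0 c2 x0 x2 : ℤ) (U0 : List ℤ) (W : WC) : ℤ :=
  dotL U0 W.B + farH c0 c2 x0 x2 W.o W.w2

/-- the cells of one row -/
def rowGo (chk : ℤ → ℤ → Bool) (l n1 c0 c2 x0 x1 x2 : ℤ) : List ℤ → List ℤ → List ℤ → List WC → Bool
  | U0, U1, U2, W :: Ws =>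
    chk (cellT l n1 c0 c2 x0 x1 x2 U0 U1 U2 W) (cellH c0 c2 x0 x2 U0 W)
      && rowGo chk l n1 c0 c2 x0 x1 x2 U0.tail U1.tail U2.tail Ws
  | _, _, _, [] => true

/-- the row of cells `[a, b) × …`; `as`, `ta`, `rows` from the first active spline on -/
def rowChk (chk : ℤ → ℤ → Bool) (l n1 c0 c2 a b X : ℤ) (as : List (List ℤ)) (ta : List ℤ)
    (rows : List (List ℤ)) (wd : List WC) : Bool :=
  rowGo chk l n1 c0 c2 ((1 + X) ^ 5) ((a + b * X) * (1 + X) ^ 4) ((a + b * X) ^ 2 * (1 + X) ^ 3)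
    (comb (blist (fx0 a b X) 6 as ta) rows) (comb (blist (fx1 a b X) 6 as ta) rows)
    (comb (blist (fx2 a b X) 6 as ta) rows) wd

/-- the row `I` of cells, `nw` cells -/
def rowCheck (chk : ℤ → ℤ → Bool) (l n1 : ℤ) (D : Dat) (nw I : ℕ) : Bool :=
  rowChk chk l n1 D.c0 D.c2 ((D.kx.drop I).getD 5 0) ((D.kx.drop I).getD 6 0) (2 ^ 2688)
    (D.ax.drop I) (D.kx.drop I) (D.c.drop I) (wall l n1 (2 ^ 384) nw D.aw D.kw)

/-- boundary check: sign of the value on the left side of a row -/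
def rowBd (c0 c2 x0 x2 : ℤ) : List ℤ → List WC → Bool
  | U0, W :: Ws => negD 7 (cellH c0 c2 x0 x2 U0 W) && rowBd c0 c2 x0 x2 U0.tail Ws
  | _, [] => true

/-- the value is negative on `X = kx_5`, cells `J < nb` -/
def bdCheck (D : Dat) (nb : ℕ) : Bool :=
  rowBd D.c0 D.c2 1 ((D.kx.getD 5 0) ^ 2)
    (comb (blist (fx0 (D.kx.getD 5 0) (D.kx.getD 6 0) 0) 6 D.ax D.kx) D.c)
    (wall 0 0 (2 ^ 384) nb D.aw D.kw)

/-- the value at the lower left corner of the cell `(I, J)` -/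
def ptVal (D : Dat) (I J : ℕ) : ℤ :=
  cellH D.c0 D.c2 1 (((D.kx.drop I).getD 5 0) ^ 2)
    ((comb (blist (fx0 ((D.kx.drop I).getD 5 0) ((D.kx.drop I).getD 6 0) 0) 6 (D.ax.drop I)
      (D.kx.drop I)) (D.c.drop I)).drop J)
    (wcell 0 0 ((D.kw.drop J).getD 5 0) ((D.kw.drop J).getD 6 0) 0 (D.aw.drop J) (D.kw.drop J))

/-- check for the supersolution -/
def chkSup (T H : ℤ) : Bool := negD 42 T && negD 42 (-H)

/-- check for the subsolution (`M = 0` or `M = 2`) -/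
def chkSub (l T H : ℤ) : Bool := negD 42 (-T) || negD 42 (-(T - 4 * l * H))

end Pool.H56P
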